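import Pool.Agent.U646.HC.Q3

set_option autoImplicit false

/-!
# Typical orders, with a rate: the result
-/

namespace Pool.Agent.U646.HC

open Finset Filter Topology
open Pool.Agent.H951R4.OD (ch PI mert_le d3_log sum_sq_inv)
open scoped Classical

theorem badO_count2 (ε : ℝ) (hε : 0 < ε) (y N : ℕ) :
    (((Ioc 0 N).filter (BadO ε)).card : ℝ) ≤
      (((Ioc 0 N).filter (fun n => ¬ Ok2 y n)).card : ℝ) +
      2 / ε * (N * ∏ p ∈ PO y, (1 - ((p : ℝ) - 1) / (4 * (p : ℝ) ^ 2)) +
        ∏ p ∈ PO y, (p : ℝ) ^ 2) := by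
  have h2 : (((Ioc 0 N).filter (BadO ε)).card : ℝ) ≤
      (((Ioc 0 N).filter (fun n => ¬ Ok2 y n)).card : ℝ) +
      ∑ n ∈ Ioc 0 N, 2 / ε * (3 / 4 : ℝ) ^ (Sm y n).card := by
    rw [← Finset.sum_boole, ← Finset.sum_boole, ← sum_add_distrib]
    apply sum_le_sum
    intro n _
    have h0 : (0 : ℝ) ≤ 2 / ε * (3 / 4 : ℝ) ^ (Sm y n).card := by positivity
    by_cases hok : Ok2 y n
    · rw [if_neg (not_not.2 hok), zero_add]
      by_cases hb : BadO ε n
      · rw [if_pos hb]
        obtain ⟨hn, R, hR, hlt⟩ := hb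
        have h3 := order_count (y := y) hn (by
          intro T hT hne
          obtain ⟨q, g1, g2, g3, g4, g5⟩ := hok T hT hne
          refine ⟨q, g1, ?_, g3, g4, g5⟩
          intro hq
          have := (mem_Sm hq).2.2.2.1
          omega) R hR
        have hd0 : (0 : ℝ) < (((n * (n - 1)).divisors.card : ℕ) : ℝ) := by
          have : 0 < (n * (n - 1)).divisors.card := by
            rw [card_pos, Nat.nonempty_divisors]
            have : 0 < n * (n - 1) := Nat.mul_pos (by omega) (by omega)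
            omega
          exact_mod_cast this
        have h4 := lt_of_lt_of_le hlt h3
        have h5 : ε < 2 * (3 / 4) ^ (Sm y n).card := lt_of_mul_lt_mul_right h4 hd0.le
        have h6 : ε / ε ≤ 2 * (3 / 4) ^ (Sm y n).card / ε :=
          div_le_div_of_nonneg_right h5.le hε.le
        rw [div_self hε.ne'] at h6
        calc (1 : ℝ) ≤ 2 * (3 / 4) ^ (Sm y n).card / ε := h6
          _ = _ := by ring
      · rw [if_neg hb]
        exact h0
    · rw [if_pos hok]
      have : (if BadO ε n then (1 : ℝ) else 0) ≤ 1 := by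
        split_ifs <;> norm_num
      linarith
  rw [← mul_sum] at h2
  have h3 := mul_le_mul_of_nonneg_left (avg_sm y N) (show 0 ≤ 2 / ε by positivity)
  linarith

theorem typical_rate : ∃ C : ℝ, 0 < C ∧ ∀ ε : ℝ, 0 < ε → ε ≤ 1 → ∀ N : ℕ, 16 ≤ N →
    (((Ioc 0 N).filter (BadO ε)).card : ℝ) ≤
      C / ε * N * (Real.log (Real.log N)) ^ (-(1 / 4) : ℝ) := by
  obtain ⟨C1, hC1, H1⟩ := bad2_all
  obtain ⟨Cp, hCp, hpo⟩ := po_prod
  refine ⟨2 * C1 + 4 * Cp + 4, by positivity, ?_⟩
  intro ε hε hε1 N hN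
  have hN0 : (0 : ℝ) < N := by
    have : 0 < N := by omega
    exact_mod_cast this
  have hL3 : Real.exp 1 ≤ Real.log N := by
    have h1 : Real.log 16 ≤ Real.log N := by
      apply Real.log_le_log (by norm_num)
      exact_mod_cast hN
    have h2 : Real.log 16 = 4 * Real.log 2 := by
      rw [show (16 : ℝ) = 2 ^ 4 by norm_num, Real.log_pow]
      norm_num
    have h3 := Real.log_two_gt_d9
    have h4 := Real.exp_one_lt_d9
    linarith
  set L := Real.log N with hL
  have he : (2 : ℝ) < Real.exp 1 := by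
    have := Real.exp_one_gt_d9
    linarith
  have hL0 : 0 < L := by linarith
  have hL1 : 1 ≤ L := by linarith
  have hLL1 : 1 ≤ Real.log L := by
    have := Real.log_le_log (Real.exp_pos 1) hL3
    rwa [Real.log_exp] at this
  set W := Real.log L with hW
  have hW0 : 0 < W := by linarith
  set ω : ℝ := W ^ (-(1 / 4) : ℝ) with hω
  have hω0 : 0 < ω := Real.rpow_pos_of_pos hW0 _
  have hinv : 1 ≤ 1 / ε := by
    rw [le_div_iff₀ hε]
    linarith
  rcases lt_or_ge L 256 with hsm | hbig
  · -- small `N`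
    have h1 : (((Ioc 0 N).filter (BadO ε)).card : ℝ) ≤ N := by
      have h2 := Finset.card_filter_le (Ioc 0 N) (BadO ε)
      rw [Nat.card_Ioc] at h2
      exact_mod_cast h2
    have h2 : W ≤ 16 := by
      have h3 : W ≤ Real.log 256 := Real.log_le_log hL0 hsm.le
      have h4 : Real.log 256 = 8 * Real.log 2 := by
        rw [show (256 : ℝ) = 2 ^ 8 by norm_num, Real.log_pow]
        norm_num
      have := Real.log_two_lt_d9
      linarith
    have h3 : 1 / 2 ≤ ω := by
      calc (1 : ℝ) / 2 = (16 : ℝ) ^ (-(1 / 4) : ℝ) := by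
            rw [show (16 : ℝ) = 2 ^ (4 : ℝ) by norm_num, ← Real.rpow_mul (by norm_num)]
            norm_num
        _ ≤ ω := Real.rpow_le_rpow_of_nonpos hW0 h2 (by norm_num)
    have h4 : (4 : ℝ) ≤ 2 * C1 + 4 * Cp + 4 := by linarith
    calc (((Ioc 0 N).filter (BadO ε)).card : ℝ) ≤ N := h1
      _ = 2 * 1 * N * (1 / 2) := by ring
      _ ≤ (2 * C1 + 4 * Cp + 4) * (1 / ε) * N * ω := by
          apply mul_le_mul _ h3 (by norm_num) (by positivity)
          apply mul_le_mul_of_nonneg_right _ hN0.le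
          apply mul_le_mul (by linarith) hinv (by norm_num) (by positivity)
      _ = _ := by ring
  · set t : ℝ := L ^ (1 / 8 : ℝ) with ht
    have ht2 : 2 ≤ t := by
      calc (2 : ℝ) = (256 : ℝ) ^ (1 / 8 : ℝ) := by
            rw [show (256 : ℝ) = 2 ^ (8 : ℝ) by norm_num, ← Real.rpow_mul (by norm_num)]
            norm_num
        _ ≤ t := Real.rpow_le_rpow (by norm_num) hbig (by norm_num)
    have htt : L ^ (1 / 4 : ℝ) = t * t := by
      rw [ht, ← Real.rpow_add hL0]
      norm_num
    set y : ℕ := ⌊t * t⌋₊ with hy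
    have hyle : (y : ℝ) ≤ t * t := Nat.floor_le (by positivity)
    have hyge : t ≤ y := by
      have := Nat.lt_floor_add_one (t * t)
      nlinarith
    have hy3 : 3 ≤ y := by
      apply Nat.le_floor
      push_cast
      nlinarith
    have hyL : (y : ℝ) ≤ L ^ (1 / 4 : ℝ) := by rw [htt]; exact hyle
    have hy0 : (0 : ℝ) < y := by linarith
    have hlogy : W / 8 ≤ Real.log y := by
      have h1 := Real.log_le_log (by linarith) hyge
      rw [ht, Real.log_rpow hL0] at h1
      linarith
    have h1 := badO_count2 ε hε y N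
    have h2 := H1 N y hbig hy3 hyL
    rw [← hL] at h2
    have h3 := hpo y hy3
    -- the three terms
    have t1 : L ^ (-(1 / 8) : ℝ) ≤ 2 * ω := by
      have g1 : W ≤ (2 * t) ^ (4 : ℝ) := by
        have g2 := Real.log_le_rpow_div hL0.le (show (0 : ℝ) < 1 / 2 by norm_num)
        have g3 : (2 * t) ^ (4 : ℝ) = 16 * L ^ (1 / 2 : ℝ) := by
          rw [Real.mul_rpow (by norm_num) (by positivity), ht, ← Real.rpow_mul hL0.le]
          norm_num
        rw [g3]
        have g4 : 0 ≤ L ^ (1 / 2 : ℝ) := by positivity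
        have g5 : L ^ (1 / 2 : ℝ) / (1 / 2) = 2 * L ^ (1 / 2 : ℝ) := by ring
        rw [g5] at g2
        linarith
      have g2 : ((2 * t) ^ (4 : ℝ)) ^ (-(1 / 4) : ℝ) ≤ ω :=
        Real.rpow_le_rpow_of_nonpos hW0 g1 (by norm_num)
      have g3 : ((2 * t) ^ (4 : ℝ)) ^ (-(1 / 4) : ℝ) = 1 / 2 * L ^ (-(1 / 8) : ℝ) := by
        rw [← Real.rpow_mul (by positivity), Real.mul_rpow (by norm_num) (by positivity), ht,
          ← Real.rpow_mul hL0.le]
        norm_num
      rw [g3] at g2
      linarith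
    have t2 : (Real.log y) ^ (-(1 / 4) : ℝ) ≤ 2 * ω := by
      calc (Real.log y) ^ (-(1 / 4) : ℝ) ≤ (W / 8) ^ (-(1 / 4) : ℝ) :=
            Real.rpow_le_rpow_of_nonpos (by positivity) hlogy (by norm_num)
        _ = ω * 8 ^ (1 / 4 : ℝ) := by
            rw [Real.div_rpow hW0.le (by norm_num), div_eq_mul_inv,
              ← Real.rpow_neg (by norm_num : (0 : ℝ) ≤ 8), neg_neg]
        _ ≤ ω * 2 := by
            apply mul_le_mul_of_nonneg_left _ hω0.le
            calc (8 : ℝ) ^ (1 / 4 : ℝ) ≤ 16 ^ (1 / 4 : ℝ) :=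
                  Real.rpow_le_rpow (by norm_num) (by norm_num) (by norm_num)
              _ = 2 := by
                  rw [show (16 : ℝ) = 2 ^ (4 : ℝ) by norm_num, ← Real.rpow_mul (by norm_num)]
                  norm_num
        _ = _ := by ring
    have t3 : ∏ p ∈ PO y, (p : ℝ) ^ 2 ≤ 2 * N * ω := by
      have g1 : ∏ p ∈ PO y, p ≤ y ^ y := by
        calc ∏ p ∈ PO y, p ≤ ∏ _p ∈ PO y, y := Finset.prod_le_prod' fun p hp => (mem_PO hp).2.2
          _ = y ^ (PO y).card := by rw [prod_const]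
          _ ≤ y ^ y := by
            apply Nat.pow_le_pow_right (by omega)
            calc (PO y).card ≤ (Ioc 2 y).card := card_filter_le _ _
              _ ≤ y := by
                rw [Nat.card_Ioc]
                omega
      have g2 : ∏ p ∈ PO y, (p : ℝ) ^ 2 ≤ ((y : ℝ) ^ y) ^ 2 := by
        rw [prod_pow]
        apply pow_le_pow_left₀ (prod_nonneg fun p _ => Nat.cast_nonneg p)
        have g1' : ((∏ p ∈ PO y, p : ℕ) : ℝ) ≤ ((y ^ y : ℕ) : ℝ) := Nat.cast_le.2 g1
        push_cast at g1'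
        exact g1'
      have hly : Real.log y ≤ y := by
        have := Real.log_le_sub_one_of_pos hy0
        linarith
      have hly0 : 0 ≤ Real.log y := by
        have : 0 ≤ W / 8 := by positivity
        linarith
      have htt4 : (t * t) * (t * t) ≤ L / 4 := by
        have e : (t * t) * (t * t) * ((t * t) * (t * t)) = L := by
          have e1 : (t * t) * (t * t) = L ^ (1 / 2 : ℝ) := by
            rw [← htt, ← Real.rpow_add hL0]
            norm_num
          rw [e1, ← Real.rpow_add hL0]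
          norm_num
        have g3 : (4 : ℝ) ≤ t * t := by nlinarith
        have g4 : (16 : ℝ) ≤ (t * t) * (t * t) := by nlinarith
        nlinarith
      have g3 : ((y : ℝ) ^ y) ^ 2 ≤ Real.exp (L / 2) := by
        have e0 : (y : ℝ) ^ y = Real.exp (y * Real.log y) := by
          rw [mul_comm, Real.exp_mul, Real.exp_log hy0, Real.rpow_natCast]
        have e : ((y : ℝ) ^ y) ^ 2 = Real.exp (2 * (y * Real.log y)) := by
          rw [e0, ← Real.exp_nat_mul]
          push_cast
          rfl
        rw [e]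
        apply Real.exp_le_exp.2
        have g4 : (y : ℝ) * Real.log y ≤ (t * t) * (t * t) :=
          mul_le_mul hyle (hly.trans hyle) hly0 (by positivity)
        linarith
      have g5 : Real.exp (L / 2) ≤ 2 * N * ω := by
        have g6 : (N : ℝ) = Real.exp (L / 2) * Real.exp (L / 2) := by
          rw [← Real.exp_add, add_halves, hL, Real.exp_log hN0]
        have g7 : 1 ≤ 2 * Real.exp (L / 2) * ω := by
          have g8 : L ≤ 2 * Real.exp (L / 2) := by
            have := Real.add_one_le_exp (L / 2)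
            linarith
          have g9 : W ≤ L := by
            have := Real.log_le_sub_one_of_pos hL0
            linarith
          have g10 : L ^ (-1 : ℝ) ≤ ω := by
            calc L ^ (-1 : ℝ) ≤ L ^ (-(1 / 4) : ℝ) :=
                  Real.rpow_le_rpow_of_exponent_le hL1 (by norm_num)
              _ ≤ W ^ (-(1 / 4) : ℝ) := Real.rpow_le_rpow_of_nonpos hW0 g9 (by norm_num)
          rw [Real.rpow_neg_one] at g10
          calc (1 : ℝ) = L * L⁻¹ := by field_simp
            _ ≤ (2 * Real.exp (L / 2)) * ω := mul_le_mul g8 g10 (by positivity) (by positivity)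
        calc Real.exp (L / 2) = Real.exp (L / 2) * 1 := (mul_one _).symm
          _ ≤ Real.exp (L / 2) * (2 * Real.exp (L / 2) * ω) :=
            mul_le_mul_of_nonneg_left g7 (Real.exp_pos _).le
          _ = 2 * N * ω := by rw [g6]; ring
      exact g2.trans (g3.trans g5)
    have s1 : (((Ioc 0 N).filter (fun n => ¬ Ok2 y n)).card : ℝ) ≤ 1 / ε * (2 * C1 * N * ω) := by
      calc _ ≤ C1 * N * L ^ (-(1 / 8) : ℝ) := h2
        _ ≤ C1 * N * (2 * ω) := mul_le_mul_of_nonneg_left t1 (by positivity)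
        _ = 1 * (2 * C1 * N * ω) := by ring
        _ ≤ 1 / ε * (2 * C1 * N * ω) := mul_le_mul_of_nonneg_right hinv (by positivity)
    have s2 : (N : ℝ) * ∏ p ∈ PO y, (1 - ((p : ℝ) - 1) / (4 * (p : ℝ) ^ 2)) ≤
        2 * Cp * N * ω := by
      calc _ ≤ N * (Cp * (2 * ω)) := by
            apply mul_le_mul_of_nonneg_left _ hN0.le
            exact h3.trans (mul_le_mul_of_nonneg_left t2 hCp.le)
        _ = _ := by ring
    have s3 : 2 / ε * (N * ∏ p ∈ PO y, (1 - ((p : ℝ) - 1) / (4 * (p : ℝ) ^ 2)) +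
        ∏ p ∈ PO y, (p : ℝ) ^ 2) ≤ 2 / ε * (2 * Cp * N * ω + 2 * N * ω) := by
      apply mul_le_mul_of_nonneg_left _ (by positivity)
      linarith
    calc (((Ioc 0 N).filter (BadO ε)).card : ℝ) ≤
          1 / ε * (2 * C1 * N * ω) + 2 / ε * (2 * Cp * N * ω + 2 * N * ω) := by linarith
      _ = _ := by ring

end Pool.Agent.U646.HC
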