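import Pool.Agent.U671.BT.Three
import Pool.Agent.W52.PQ.SV
import Pool.Agent.H951R4.OD.B4
import Pool.Agent.H951R4.OD.A1

set_option autoImplicit false

/-!
# A sieve: several shifts, exact prime divisors with prescribed character values are forbidden
-/

namespace Pool.Agent.U646.HC

open Finset
open Pool.Agent.W114.PQ (S_SV)
open Pool.Agent.H951R4.OD (ch PI d3_log one_add_log_le mert_le mert_int D2b_cnt1 char_sum_le
  ch_chi ch_val sum_sq_inv)
open Pool.Agent.U671.BT (sum_affine ind_sum choice sumE)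
open scoped Classical

/-- `p` divides `x` exactly once -/
def Xc (p : ℕ) (x : ℤ) : Prop := (p : ℤ) ∣ x ∧ ¬ (p : ℤ) ^ 2 ∣ x

theorem Xc_per {p : ℕ} {x y : ℤ} (h : (p : ℤ) ^ 2 ∣ x - y) : Xc p x ↔ Xc p y := by
  have h1 : (p : ℤ) ∣ x - y := (dvd_pow_self (p : ℤ) two_ne_zero).trans h
  unfold Xc
  rw [dvd_iff_dvd_of_dvd_sub h1, dvd_iff_dvd_of_dvd_sub h]

theorem Xc_nat (p n : ℕ) : Xc p (n : ℤ) ↔ (p ∣ n ∧ ¬ p ^ 2 ∣ n) := by
  unfold Xc
  constructor
  · rintro ⟨h1, h2⟩
    exact ⟨by exact_mod_cast h1, fun h => h2 (by exact_mod_cast h)⟩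
  · rintro ⟨h1, h2⟩
    exact ⟨by exact_mod_cast h1, fun h => h2 (by exact_mod_cast h)⟩

theorem sum_Xc {p : ℕ} (hp : p.Prime) (g : ℕ) (hg : ¬ p ∣ g) (c : ℤ) :
    ∑ m ∈ range (p ^ 2), (if Xc p ((g : ℤ) * m + c) then (1 : ℝ) else 0) = p - 1 := by
  have hp2 : (0 : ℤ) < (p : ℤ) ^ 2 := by
    have : (0 : ℤ) < p := by exact_mod_cast hp.pos
    positivity
  set b : ℕ := (c % ((p : ℤ) ^ 2)).toNat with hb
  have hb' : (b : ℤ) = c % ((p : ℤ) ^ 2) := Int.toNat_of_nonneg (Int.emod_nonneg _ hp2.ne')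
  have hbc : (p : ℤ) ^ 2 ∣ c - b := by
    rw [hb']
    exact Int.dvd_self_sub_emod
  set G : ℕ → ℝ := fun x => if (p ∣ x ∧ ¬ p ^ 2 ∣ x) then (1 : ℝ) else 0 with hG
  have hgper : ∀ x, G (x + p ^ 2) = G x := by
    intro x
    simp only [hG]
    have h1 : p ∣ x + p ^ 2 ↔ p ∣ x := Nat.dvd_add_left (dvd_pow_self p two_ne_zero)
    have h2 : p ^ 2 ∣ x + p ^ 2 ↔ p ^ 2 ∣ x := Nat.dvd_add_left (dvd_refl _)
    simp only [h1, h2]
  have hcop : Nat.Coprime g (p ^ 2) :=
    Nat.Coprime.pow_right 2 ((Nat.Prime.coprime_iff_not_dvd hp).2 hg).symm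
  have h1 := sum_affine G (p ^ 2) (pow_pos hp.pos 2) hgper g b hcop
  have h0 : ∑ x ∈ range (p ^ 2), G x = p - 1 := D2b_cnt1 hp
  rw [h0] at h1
  rw [← h1]
  apply sum_congr rfl
  intro m _
  simp only [hG]
  have h2 : Xc p ((g : ℤ) * m + c) ↔ (p ∣ b + g * m ∧ ¬ p ^ 2 ∣ b + g * m) := by
    rw [← Xc_nat]
    apply Xc_per
    push_cast
    have e : (g : ℤ) * m + c - ((b : ℤ) + g * m) = c - b := by ring
    rw [e]
    exact hbc
  simp only [h2]

theorem ch_zero {D : ℤ} {q : ℕ} (hq : q.Prime) (h : ch D q = 0) :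
    q = 2 ∨ (q : ℤ) ∣ D := by
  rcases hq.eq_two_or_odd with h2 | h2
  · exact Or.inl h2
  · right
    unfold ch at h
    rw [if_pos h2] at h
    have h3 : jacobiSym D q = 0 := by exact_mod_cast h
    haveI : NeZero q := ⟨hq.ne_zero⟩
    have h4 := jacobiSym.eq_zero_iff_not_coprime (a := D) (b := q)
    rw [h4] at h3
    rw [Int.gcd_eq_natAbs, Int.natAbs_natCast] at h3
    have h5 : ¬ Nat.Coprime q D.natAbs := by
      rw [Nat.coprime_comm]
      exact h3
    exact Int.natCast_dvd.2 ((Nat.Prime.dvd_iff_not_coprime hq).2 h5)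

/-- the primes with character value `-1`, uniformly -/
theorem ch_low : ∃ C : ℝ, 0 ≤ C ∧ ∀ Λ : ℕ, 1 ≤ Λ → ∀ D : ℤ, ¬ IsSquare D → D.natAbs ≤ Λ →
    ∀ z : ℕ, 3 ≤ z →
    1 / 2 * Real.log (Real.log z) - 1 / 2 * Real.log (1 + Real.log Λ) - C ≤
      ∑ q ∈ PI 0 z, (if ch D q = -1 then 1 / (q : ℝ) else 0) := by
  obtain ⟨C1, hC1, h1⟩ := char_sum_le
  obtain ⟨C2, hC2, h2⟩ := mert_int
  set K : ℝ := Real.log (16 * C1 + 4) + 2 with hK
  have hlogC : 0 ≤ Real.log (16 * C1 + 4) := Real.log_nonneg (by linarith)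
  have hK1 : 1 ≤ K := by linarith
  have hlogK : 0 ≤ Real.log K := Real.log_nonneg hK1
  refine ⟨C1 + C2 + Real.log K, by linarith, ?_⟩
  intro Λ hΛ D hD hDΛ z hz
  have hΛ1 : (1 : ℝ) ≤ Λ := by exact_mod_cast hΛ
  have hΛ0 : (0 : ℝ) < Λ := by linarith
  have hlogΛ : 0 ≤ Real.log Λ := Real.log_nonneg hΛ1
  obtain ⟨hlz, hllz⟩ := d3_log hz
  have hlz0 : 0 < Real.log z := by linarith
  set y : ℕ := ⌈16 * C1 * (Λ : ℝ) ^ 2⌉₊ + 3 with hy
  have hΛ2 : (1 : ℝ) ≤ (Λ : ℝ) ^ 2 := one_le_pow₀ hΛ1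
  have hyge : 16 * C1 * (Λ : ℝ) ^ 2 ≤ y := by
    rw [hy]
    push_cast
    have := Nat.le_ceil (16 * C1 * (Λ : ℝ) ^ 2)
    linarith
  have hyle : (y : ℝ) ≤ (16 * C1 + 4) * (Λ : ℝ) ^ 2 := by
    rw [hy]
    push_cast
    have := Nat.ceil_lt_add_one (show 0 ≤ 16 * C1 * (Λ : ℝ) ^ 2 by positivity)
    nlinarith
  have hy3 : 3 ≤ y := by omega
  have hy0 : (0 : ℝ) < y := by
    have : 0 < y := by omega
    exact_mod_cast this
  obtain ⟨hly, hlly⟩ := d3_log hy3
  have hly0 : 0 < Real.log y := by linarith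
  have hlyle : Real.log y ≤ K * (1 + Real.log Λ) := by
    have h3 := Real.log_le_log hy0 hyle
    rw [Real.log_mul (by positivity) (by positivity), Real.log_pow] at h3
    push_cast at h3
    rw [hK]
    nlinarith
  have hllyle : Real.log (Real.log y) ≤ Real.log K + Real.log (1 + Real.log Λ) := by
    rw [← Real.log_mul (by positivity) (by positivity)]
    exact Real.log_le_log hly0 hlyle
  have hpos : 0 ≤ ∑ q ∈ PI 0 z, (if ch D q = -1 then 1 / (q : ℝ) else 0) := by
    apply sum_nonneg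
    intro q _
    split_ifs
    · positivity
    · exact le_rfl
  rcases Nat.lt_or_ge z y with hzy | hyz
  · have h3 : Real.log (Real.log z) ≤ Real.log (Real.log y) := by
      apply Real.log_le_log hlz0
      apply Real.log_le_log
      · have : 0 < z := by omega
        exact_mod_cast this
      · exact_mod_cast hzy.le
    linarith
  · have h3 := h1 (ch D) (4 * |(D : ℝ)|) (ch_chi D hD) y z (by
      have h4 : |(D : ℝ)| ≤ Λ := by
        have h5 : ((D.natAbs : ℕ) : ℝ) ≤ Λ := by exact_mod_cast hDΛ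
        rwa [Nat.cast_natAbs, Int.cast_abs] at h5
      have h5 : |(D : ℝ)| ^ 2 ≤ (Λ : ℝ) ^ 2 := pow_le_pow_left₀ (abs_nonneg _) h4 2
      refine le_trans ?_ hyge
      rw [mul_pow]
      nlinarith) hyz
    have h4 := (abs_le.1 (h2 y z (by omega) hyz)).1
    have h5 : ∑ q ∈ PI y z, (if ch D q = -1 then 1 / (q : ℝ) else 0) ≤
        ∑ q ∈ PI 0 z, (if ch D q = -1 then 1 / (q : ℝ) else 0) := by
      apply sum_le_sum_of_subset_of_nonneg
      · intro q hq
        unfold PI at hq ⊢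
        rw [mem_filter, mem_Ioc] at hq ⊢
        exact ⟨⟨by omega, hq.1.2⟩, hq.2⟩
      · intro q _ _
        split_ifs
        · positivity
        · exact le_rfl
    have h6 : ∀ q ∈ PI y z, 1 / 2 * ((1 : ℝ) / q) - 1 / 2 * (ch D q / q) ≤
        (if ch D q = -1 then 1 / (q : ℝ) else 0) := by
      intro q hq
      have hq1 : q.Prime ∧ y < q := by
        unfold PI at hq
        rw [mem_filter, mem_Ioc] at hq
        exact ⟨hq.2, hq.1.1⟩
      rcases ch_val D q with h | h | h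
      · exfalso
        rcases ch_zero hq1.1 h with h7 | h7
        · omega
        · have h8 : q ≤ D.natAbs := by
            apply Nat.le_of_dvd
            · rw [Nat.pos_iff_ne_zero, Int.natAbs_ne_zero]
              rintro rfl
              exact hD ⟨0, by norm_num⟩
            · exact Int.natCast_dvd.1 h7
          have h9 : (Λ : ℝ) ≤ y := by nlinarith
          have h10 : Λ ≤ y := by exact_mod_cast h9
          omega
      · rw [h, if_neg (by norm_num)]
        apply le_of_eq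
        ring
      · rw [h, if_pos rfl]
        apply le_of_eq
        ring
    have h7 := sum_le_sum h6
    rw [sum_sub_distrib, ← mul_sum, ← mul_sum] at h7
    rw [Real.log_div hlz0.ne' hly0.ne'] at h4
    linarith

variable {r : ℕ}

/-- the condition on `n` -/
def Cn (D s : Fin r → ℤ) (g : ℕ) (E : Finset ℕ) (n : ℕ) : Prop :=
  ∀ p : ℕ, p.Prime → p ∉ E → ∀ i, ch (D i) p = -1 → ¬ Xc p ((g : ℤ) * n + s i)

theorem sift (hr : 1 ≤ r) :
    ∃ C : ℝ, 1 ≤ C ∧ ∀ z N : ℕ, 3 ≤ z →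
      C * Real.log z * (1 + Real.log (Real.log z)) ≤ Real.log N →
      ∀ Λ : ℕ, 1 ≤ Λ → ∀ D : Fin r → ℤ, (∀ i, ¬ IsSquare (D i)) → (∀ i, (D i).natAbs ≤ Λ) →
      ∀ g : ℕ, (∀ p : ℕ, p.Prime → ∀ i, ch (D i) p = -1 → ¬ p ∣ g) →
      ∀ E : Finset ℕ, (∀ p ∈ E, p.Prime) → ∀ s : Fin r → ℤ,
      (∀ p : ℕ, p.Prime → p ∉ E → ∀ i j, i ≠ j → ¬ (p : ℤ) ∣ s i - s j) → ∀ a : ℕ,
      (((Ioc a (a + N)).filter (Cn D s g E)).card : ℝ) ≤
        C * N * (1 + Real.log Λ) ^ ((r : ℝ) / 2) * (Real.log z) ^ (-((r : ℝ) / 2)) *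
          Real.exp (r * ∑ p ∈ E, 1 / (p : ℝ)) := by
  have hrr : (1 : ℝ) ≤ r := by exact_mod_cast hr
  obtain ⟨C0, hC0, SV⟩ := Pool.Agent.W52.PQ.sv (r : ℝ) hrr
  obtain ⟨Cs, hCs, hsq⟩ := sum_sq_inv
  obtain ⟨Cc, hCc, hlow⟩ := ch_low
  set G : ℝ := Real.exp (r * Cc + r * Cs) with hG
  have hG1 : 1 ≤ G := Real.one_le_exp (by positivity)
  refine ⟨C0 * G, by nlinarith, ?_⟩
  intro z N hz hN Λ hΛ D hD hDΛ g hg E hE s hs a
  obtain ⟨hlz, hllz⟩ := d3_log hz
  have hΛ1 : (1 : ℝ) ≤ Λ := by exact_mod_cast hΛ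
  have hlogΛ : 0 ≤ Real.log Λ := Real.log_nonneg hΛ1
  have hN' : C0 * Real.log z * (1 + Real.log (Real.log z)) ≤ Real.log N := by
    refine le_trans ?_ hN
    rw [mul_assoc, mul_assoc (C0 * G)]
    apply mul_le_mul_of_nonneg_right _ (by positivity)
    nlinarith
  set S : Finset ℕ := (PI 0 z).filter (fun p => p ∉ E ∧ ∃ i, ch (D i) p = -1) with hS
  set h : ℕ → ℕ → ℝ := fun p m =>
    if ∃ i, ch (D i) p = -1 ∧ Xc p ((g : ℤ) * m + (g * a + s i)) then 1 else 0 with hh
  have hSm : ∀ p ∈ S, p.Prime ∧ p ≤ z ∧ p ∉ E := by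
    intro p hp
    rw [hS, mem_filter] at hp
    have := hp.1
    unfold PI at this
    rw [mem_filter, mem_Ioc] at this
    exact ⟨this.2, this.1.2, hp.2.1⟩
  have h01 : ∀ p ∈ S, ∀ n, h p n = 0 ∨ h p n = 1 := by
    intro p _ n
    simp only [hh]
    split_ifs <;> simp
  have hper : ∀ p ∈ S, ∀ n, h p (n + p ^ 2) = h p n := by
    intro p _ n
    simp only [hh]
    have e : ∀ i, (Xc p ((g : ℤ) * ((n + p ^ 2 : ℕ) : ℤ) + (g * a + s i)) ↔
        Xc p ((g : ℤ) * n + (g * a + s i))) := by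
      intro i
      apply Xc_per
      push_cast
      exact ⟨g, by ring⟩
    simp only [e]
  -- the means
  have hmean : ∀ p ∈ S, ∑ n ∈ range (p ^ 2), h p n =
      ∑ i, (if ch (D i) p = -1 then ((p : ℝ) - 1) else 0) := by
    intro p hp
    obtain ⟨hpp, -, hpE⟩ := hSm p hp
    have h1 : ∀ n ∈ range (p ^ 2), h p n =
        ∑ i, (if ch (D i) p = -1 ∧ Xc p ((g : ℤ) * n + (g * a + s i)) then (1 : ℝ) else 0) := by
      intro n _
      have h0 := ind_sum (fun i => ch (D i) p = -1 ∧ Xc p ((g : ℤ) * n + (g * a + s i))) (by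
        rintro i j hij ⟨⟨-, h1⟩, ⟨-, h2⟩⟩
        apply hs p hpp hpE i j hij
        have h3 := dvd_sub h1.1 h2.1
        have e : (g : ℤ) * n + (g * a + s i) - ((g : ℤ) * n + (g * a + s j)) = s i - s j := by
          ring
        rwa [e] at h3)
      simp only [hh]
      convert h0
    rw [sum_congr rfl h1, sum_comm]
    apply sum_congr rfl
    intro i _
    by_cases hi : ch (D i) p = -1
    · rw [if_pos hi]
      rw [← sum_Xc hpp g (hg p hpp i hi) (g * a + s i)]
      apply sum_congr rfl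
      intro n _
      simp only [hi, true_and]
    · rw [if_neg hi]
      apply sum_eq_zero
      intro n _
      rw [if_neg]
      exact fun h => hi h.1
  have hup : ∀ p ∈ S, (∑ n ∈ range (p ^ 2), h p n) / (p : ℝ) ^ 2 ≤ r / p := by
    intro p hp
    obtain ⟨hpp, -, -⟩ := hSm p hp
    have hp0 : (0 : ℝ) < p := by exact_mod_cast hpp.pos
    have hp1 : (1 : ℝ) ≤ p := by exact_mod_cast hpp.one_le
    rw [hmean p hp, div_le_div_iff₀ (by positivity) hp0]
    have h1 : ∑ i, (if ch (D i) p = -1 then ((p : ℝ) - 1) else 0) ≤ ∑ _i : Fin r, (p : ℝ) := by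
      apply sum_le_sum
      intro i _
      split_ifs <;> linarith
    rw [sum_const, card_univ, Fintype.card_fin, nsmul_eq_mul] at h1
    calc _ ≤ (r * (p : ℝ)) * p := mul_le_mul_of_nonneg_right h1 hp0.le
      _ = _ := by ring
  have hsv := SV z N hz hN' S h (fun p hp => ⟨(hSm p hp).1, (hSm p hp).2.1⟩) h01 hper hup
  -- the lower bound for the sum of the means
  have hlb : (r : ℝ) / 2 * Real.log (Real.log z) - (r : ℝ) / 2 * Real.log (1 + Real.log Λ) -
      (r * Cc + r * Cs) - r * ∑ p ∈ E, 1 / (p : ℝ) ≤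
      ∑ p ∈ S, (∑ n ∈ range (p ^ 2), h p n) / (p : ℝ) ^ 2 := by
    have h1 : ∀ p ∈ S, ∑ i, (if ch (D i) p = -1 then 1 / (p : ℝ) else 0) - r * (1 / (p : ℝ) ^ 2) ≤
        (∑ n ∈ range (p ^ 2), h p n) / (p : ℝ) ^ 2 := by
      intro p hp
      obtain ⟨hpp, -, -⟩ := hSm p hp
      have hp0 : (0 : ℝ) < p := by exact_mod_cast hpp.pos
      rw [hmean p hp, sum_div]
      have h2 : ∑ i, ((if ch (D i) p = -1 then 1 / (p : ℝ) else 0) - 1 / (p : ℝ) ^ 2) ≤
          ∑ i, (if ch (D i) p = -1 then ((p : ℝ) - 1) else 0) / (p : ℝ) ^ 2 := by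
        apply sum_le_sum
        intro i _
        split_ifs
        · apply le_of_eq
          field_simp
        · rw [zero_div]
          have : (0 : ℝ) ≤ 1 / (p : ℝ) ^ 2 := by positivity
          linarith
      rw [sum_sub_distrib, sum_const, card_univ, Fintype.card_fin, nsmul_eq_mul] at h2
      exact h2
    have h2 := sum_le_sum h1
    rw [sum_sub_distrib, ← mul_sum] at h2
    have h3 := hsq S
    have h4 : ∑ p ∈ PI 0 z, ∑ i, (if ch (D i) p = -1 then 1 / (p : ℝ) else 0) ≤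
        ∑ p ∈ S, ∑ i, (if ch (D i) p = -1 then 1 / (p : ℝ) else 0) +
          r * ∑ p ∈ E, 1 / (p : ℝ) := by
      have hnn : ∀ p : ℕ, 0 ≤ ∑ i, (if ch (D i) p = -1 then 1 / (p : ℝ) else 0) := by
        intro p
        apply sum_nonneg
        intro i _
        split_ifs
        · positivity
        · exact le_rfl
      have hsub : ∑ p ∈ PI 0 z, ∑ i, (if ch (D i) p = -1 then 1 / (p : ℝ) else 0) ≤
          ∑ p ∈ S ∪ E, ∑ i, (if ch (D i) p = -1 then 1 / (p : ℝ) else 0) := by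
        have e1 : ∑ p ∈ PI 0 z, ∑ i, (if ch (D i) p = -1 then 1 / (p : ℝ) else 0) =
            ∑ p ∈ (PI 0 z).filter (fun p => ∃ i, ch (D i) p = -1),
              ∑ i, (if ch (D i) p = -1 then 1 / (p : ℝ) else 0) := by
          symm
          apply sum_filter_of_ne
          intro p _ hne
          by_contra hcon
          apply hne
          apply sum_eq_zero
          intro i _
          rw [if_neg]
          exact fun h => hcon ⟨i, h⟩
        rw [e1]
        apply sum_le_sum_of_subset_of_nonneg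
        · intro p hp
          rw [mem_filter] at hp
          rw [mem_union]
          by_cases hpE : p ∈ E
          · exact Or.inr hpE
          · left
            rw [hS, mem_filter]
            exact ⟨hp.1, hpE, hp.2⟩
        · intro p _ _
          exact hnn p
      refine hsub.trans ?_
      have hdisj : Disjoint S E := by
        rw [Finset.disjoint_left]
        intro p hp
        exact (hSm p hp).2.2
      rw [sum_union hdisj]
      apply add_le_add le_rfl
      rw [mul_sum]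
      apply sum_le_sum
      intro p _
      have h5 : ∑ i, (if ch (D i) p = -1 then 1 / (p : ℝ) else 0) ≤ ∑ _i : Fin r, 1 / (p : ℝ) := by
        apply sum_le_sum
        intro i _
        split_ifs
        · exact le_rfl
        · positivity
      rwa [sum_const, card_univ, Fintype.card_fin, nsmul_eq_mul] at h5
    have h5 : ∑ i : Fin r, (1 / 2 * Real.log (Real.log z) - 1 / 2 * Real.log (1 + Real.log Λ) - Cc) ≤
        ∑ p ∈ PI 0 z, ∑ i, (if ch (D i) p = -1 then 1 / (p : ℝ) else 0) := by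
      rw [sum_comm]
      exact sum_le_sum fun i _ => hlow Λ hΛ (D i) (hD i) (hDΛ i) z hz
    rw [sum_const, card_univ, Fintype.card_fin, nsmul_eq_mul] at h5
    have h6 : (r : ℝ) * ∑ p ∈ S, 1 / (p : ℝ) ^ 2 ≤ r * Cs :=
      mul_le_mul_of_nonneg_left h3 (by linarith)
    linarith
  -- the count
  have hcount : (((Ioc a (a + N)).filter (Cn D s g E)).card : ℝ) ≤
      ∑ n ∈ Icc 1 N, ∏ p ∈ S, (1 - h p n) := by
    have h1 : (Ioc a (a + N)).filter (Cn D s g E) ⊆
        ((Icc 1 N).filter (fun n => Cn D s g E (n + a))).image (· + a) := by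
      intro n hn
      rw [mem_filter, mem_Ioc] at hn
      rw [mem_image]
      refine ⟨n - a, ?_, by omega⟩
      rw [mem_filter, mem_Icc]
      refine ⟨⟨by omega, by omega⟩, ?_⟩
      rw [Nat.sub_add_cancel hn.1.1.le]
      exact hn.2
    have h2 := (Finset.card_le_card h1).trans Finset.card_image_le
    have h3 : (((Icc 1 N).filter (fun n => Cn D s g E (n + a))).card : ℝ) ≤
        ∑ n ∈ Icc 1 N, ∏ p ∈ S, (1 - h p n) := by
      rw [← Finset.sum_boole]
      apply sum_le_sum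
      intro n _
      split_ifs with hn
      · apply le_of_eq
        symm
        apply prod_eq_one
        intro p hp
        have : h p n = 0 := by
          simp only [hh]
          rw [if_neg]
          rintro ⟨i, hi, hx⟩
          have h4 := hn p (hSm p hp).1 (hSm p hp).2.2 i hi
          apply h4
          have e : (g : ℤ) * ((n + a : ℕ) : ℤ) + s i = (g : ℤ) * n + (g * a + s i) := by
            push_cast
            ring
          rwa [e]
        rw [this, sub_zero]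
      · apply prod_nonneg
        intro p hp
        rcases h01 p hp n with h | h <;> rw [h] <;> norm_num
    exact le_trans (by exact_mod_cast h2) h3
  refine hcount.trans (hsv.trans ?_)
  have hN0 : (0 : ℝ) ≤ N := Nat.cast_nonneg N
  have hexp : Real.exp (-∑ p ∈ S, (∑ n ∈ range (p ^ 2), h p n) / (p : ℝ) ^ 2) ≤
      (1 + Real.log Λ) ^ ((r : ℝ) / 2) * (Real.log z) ^ (-((r : ℝ) / 2)) * G *
        Real.exp (r * ∑ p ∈ E, 1 / (p : ℝ)) := by
    rw [Real.rpow_def_of_pos (by linarith : 0 < Real.log z),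
      Real.rpow_def_of_pos (by linarith : 0 < 1 + Real.log Λ), hG, ← Real.exp_add, ← Real.exp_add,
      ← Real.exp_add]
    apply Real.exp_le_exp.2
    linarith
  calc C0 * N * Real.exp (-∑ p ∈ S, (∑ n ∈ range (p ^ 2), h p n) / (p : ℝ) ^ 2)
      ≤ C0 * N * ((1 + Real.log Λ) ^ ((r : ℝ) / 2) * (Real.log z) ^ (-((r : ℝ) / 2)) * G *
        Real.exp (r * ∑ p ∈ E, 1 / (p : ℝ))) := by
        apply mul_le_mul_of_nonneg_left hexp
        positivity
    _ = _ := by ring

end Pool.Agent.U646.HC
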