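import Pool.Agent.U646.HC.A

set_option autoImplicit false

/-!
# The choice of the sifting level
-/

namespace Pool.Agent.U646.HC

open Finset
open Pool.Agent.H951R4.OD (ch PI d3_log one_add_log_le)
open Pool.Agent.U671.BT (choice sumE)
open scoped Classical

variable {r : ℕ}

theorem main (hr : 1 ≤ r) (ε : ℝ) (hε : 0 < ε) (A : ℝ) (hA : 0 ≤ A) :
    ∃ C : ℝ, 0 < C ∧ ∀ N : ℕ, 3 ≤ N →
      ∀ Λ : ℕ, 1 ≤ Λ → ∀ D : Fin r → ℤ, (∀ i, ¬ IsSquare (D i)) → (∀ i, (D i).natAbs ≤ Λ) →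
      ∀ g : ℕ, (∀ p : ℕ, p.Prime → ∀ i, ch (D i) p = -1 → ¬ p ∣ g) →
      ∀ E : Finset ℕ, (∀ p ∈ E, p.Prime) →
      (E.card : ℝ) ≤ A * Real.log N → ∀ s : Fin r → ℤ,
      (∀ p : ℕ, p.Prime → p ∉ E → ∀ i j, i ≠ j → ¬ (p : ℤ) ∣ s i - s j) → ∀ a : ℕ,
      (((Ioc a (a + N)).filter (Cn D s g E)).card : ℝ) ≤
        C * N * (1 + Real.log Λ) ^ ((r : ℝ) / 2) * (Real.log N) ^ (ε - (r : ℝ) / 2) := by
  have hrr : (1 : ℝ) ≤ r := by exact_mod_cast hr
  obtain ⟨C1, hC1, H⟩ := sift (r := r) hr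
  obtain ⟨Cm, hCm, hsE⟩ := sumE
  set M : ℕ := r + r with hM
  have hM1 : 1 ≤ M := by omega
  have hMr : (1 : ℝ) ≤ M := by exact_mod_cast hM1
  set b : ℝ := ε / M with hb
  have hb0 : 0 < b := by positivity
  set G : ℝ := Real.exp (r * (Cm + A)) with hG
  have hG0 : 0 < G := Real.exp_pos _
  set C2 : ℝ := C1 * (2 * C1) ^ r * G * 3 ^ r * (1 + 1 / b) ^ M with hC2
  have hC20 : 0 < C2 := by positivity
  refine ⟨(36 * C1 ^ 2) ^ r + C2, by positivity, ?_⟩
  intro N hN Λ hΛ D hD hDΛ g hg E hE hEc s hs a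
  have hN3 : (3 : ℝ) ≤ N := by exact_mod_cast hN
  have hN0 : (0 : ℝ) < N := by linarith
  have hΛ1 : (1 : ℝ) ≤ Λ := by exact_mod_cast hΛ
  have hlogΛ : 0 ≤ Real.log Λ := Real.log_nonneg hΛ1
  set Q : ℝ := (1 + Real.log Λ) ^ ((r : ℝ) / 2) with hQ
  have hQ1 : 1 ≤ Q := Real.one_le_rpow (by linarith) (by positivity)
  obtain ⟨hL1, hLL0⟩ := d3_log hN
  set L := Real.log N with hL
  have hL0 : 0 < L := by linarith
  have hLpow : 0 < L ^ (ε - (r : ℝ) / 2) := Real.rpow_pos_of_pos hL0 _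
  rcases lt_or_ge L (36 * C1 ^ 2) with hsmall | hbig
  · -- trivial bound
    have h1 : (((Ioc a (a + N)).filter (Cn D s g E)).card : ℝ) ≤ N := by
      have h2 := Finset.card_filter_le (Ioc a (a + N)) (Cn D s g E)
      rw [Nat.card_Ioc] at h2
      have h3 : ((Ioc a (a + N)).filter (Cn D s g E)).card ≤ N := by omega
      exact_mod_cast h3
    refine h1.trans ?_
    have h4 : (L ^ r)⁻¹ ≤ L ^ (ε - (r : ℝ) / 2) := by
      rw [← Real.rpow_natCast, ← Real.rpow_neg hL0.le]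
      exact Real.rpow_le_rpow_of_exponent_le hL1 (by linarith)
    have h5 : 1 ≤ (36 * C1 ^ 2) ^ r * L ^ (ε - (r : ℝ) / 2) := by
      calc (1 : ℝ) = L ^ r * (L ^ r)⁻¹ := by field_simp
        _ ≤ (36 * C1 ^ 2) ^ r * L ^ (ε - (r : ℝ) / 2) := by
          apply mul_le_mul (pow_le_pow_left₀ hL0.le hsmall.le r) h4 (by positivity) (by positivity)
    calc (N : ℝ) ≤ N * ((36 * C1 ^ 2) ^ r * L ^ (ε - (r : ℝ) / 2)) :=
          le_mul_of_one_le_right hN0.le h5
      _ = (36 * C1 ^ 2) ^ r * N * L ^ (ε - (r : ℝ) / 2) := by ring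
      _ ≤ ((36 * C1 ^ 2) ^ r + C2) * N * L ^ (ε - (r : ℝ) / 2) := by
          gcongr
          linarith
      _ ≤ ((36 * C1 ^ 2) ^ r + C2) * N * L ^ (ε - (r : ℝ) / 2) * Q :=
          le_mul_of_one_le_right (by positivity) hQ1
      _ = _ := by ring
  · obtain ⟨z, hz3, hcond, hzge, hzL⟩ := choice C1 hC1 N hbig
    obtain ⟨hlz1, hllz⟩ := d3_log hz3
    rw [← hL] at hcond hzge hzL
    set w : ℕ := ⌈L⌉₊ + 3 with hw
    have hwL : L ≤ w := by
      rw [hw]
      push_cast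
      have := Nat.le_ceil L
      linarith
    have hwL2 : (w : ℝ) ≤ 5 * L := by
      rw [hw]
      push_cast
      have := Nat.ceil_lt_add_one hL0.le
      linarith
    have hw0 : (0 : ℝ) < w := by linarith
    have hEw : (E.card : ℝ) / w ≤ A := by
      rw [div_le_iff₀ hw0]
      refine hEc.trans ?_
      exact mul_le_mul_of_nonneg_left hwL hA
    have hw3 : 3 ≤ w := by omega
    have hsum := hsE E hE w hw3
    have hs' : ∑ p ∈ E, 1 / (p : ℝ) ≤ Real.log (Real.log w) + (Cm + A) := by linarith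
    have h1 := H z N hz3 hcond Λ hΛ D hD hDΛ g hg E hE s hs a
    rw [← hQ] at h1
    refine h1.trans ?_
    -- the factors
    have hLLs : 1 ≤ 1 + Real.log L := by linarith
    have e2 : (Real.log z) ^ (-((r : ℝ) / 2)) ≤
        (2 * C1) ^ r * (1 + Real.log L) ^ r * L ^ (-((r : ℝ) / 2)) := by
      have hden : 0 < 2 * (C1 * (1 + Real.log L)) := by positivity
      have f1 : (Real.log z) ^ (-((r : ℝ) / 2)) ≤
          (L / (2 * (C1 * (1 + Real.log L)))) ^ (-((r : ℝ) / 2)) := by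
        apply Real.rpow_le_rpow_of_nonpos (by positivity) hzge
        linarith
      refine f1.trans ?_
      rw [Real.div_rpow hL0.le (by positivity)]
      have f4 : (1 : ℝ) ≤ 2 * (C1 * (1 + Real.log L)) := by nlinarith
      have f5 : ((2 * (C1 * (1 + Real.log L))) ^ (-((r : ℝ) / 2)))⁻¹ ≤
          (2 * (C1 * (1 + Real.log L))) ^ r := by
        rw [← Real.rpow_neg (by linarith), ← Real.rpow_natCast]
        apply Real.rpow_le_rpow_of_exponent_le f4
        linarith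
      rw [div_eq_mul_inv]
      calc L ^ (-((r : ℝ) / 2)) * ((2 * (C1 * (1 + Real.log L))) ^ (-((r : ℝ) / 2)))⁻¹
          ≤ L ^ (-((r : ℝ) / 2)) * (2 * (C1 * (1 + Real.log L))) ^ r := by
            apply mul_le_mul_of_nonneg_left f5 (Real.rpow_nonneg hL0.le _)
        _ = _ := by
            rw [show 2 * (C1 * (1 + Real.log L)) = (2 * C1) * (1 + Real.log L) by ring, mul_pow]
            ring
    have hlogw : Real.log w ≤ 3 * (1 + Real.log L) := by
      have f1 : Real.log w ≤ Real.log (5 * L) := Real.log_le_log hw0 hwL2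
      rw [Real.log_mul (by norm_num) hL0.ne'] at f1
      have f2 : Real.log 5 ≤ 3 := by
        have h8 : Real.log 5 ≤ Real.log 8 := Real.log_le_log (by norm_num) (by norm_num)
        have h9 : Real.log 8 = 3 * Real.log 2 := by
          rw [show (8 : ℝ) = 2 ^ 3 by norm_num, Real.log_pow]
          norm_num
        have := Real.log_two_lt_d9
        linarith
      linarith
    have hlogw1 : 1 ≤ Real.log w := (d3_log hw3).1
    have e5 : Real.exp (r * ∑ p ∈ E, 1 / (p : ℝ)) ≤ G * (3 ^ r * (1 + Real.log L) ^ r) := by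
      have g1 : Real.exp (r * ∑ p ∈ E, 1 / (p : ℝ)) ≤
          Real.exp (r * (Real.log (Real.log w) + (Cm + A))) :=
        Real.exp_le_exp.2 (mul_le_mul_of_nonneg_left hs' (by linarith))
      refine g1.trans ?_
      rw [mul_add, Real.exp_add, mul_comm (Real.exp _), ← hG]
      apply mul_le_mul_of_nonneg_left _ hG0.le
      rw [← mul_pow]
      calc Real.exp (r * Real.log (Real.log w)) = (Real.log w) ^ r := by
            rw [mul_comm, Real.exp_mul, Real.exp_log (by linarith), Real.rpow_natCast]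
        _ ≤ (3 * (1 + Real.log L)) ^ r := pow_le_pow_left₀ (by linarith) hlogw r
    have e3 : (1 + Real.log L) ^ M ≤ (1 + 1 / b) ^ M * L ^ ε := by
      have f1 := one_add_log_le b L hb0 hL1
      calc (1 + Real.log L) ^ M ≤ ((1 + 1 / b) * L ^ b) ^ M :=
            pow_le_pow_left₀ (by linarith) f1 _
        _ = (1 + 1 / b) ^ M * L ^ ε := by
            rw [mul_pow, ← Real.rpow_natCast (L ^ b), ← Real.rpow_mul hL0.le]
            congr 2
            rw [hb]
            field_simp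
    have hlp : 0 ≤ L ^ (-((r : ℝ) / 2)) := Real.rpow_nonneg hL0.le _
    have hrz : 0 ≤ (Real.log z) ^ (-((r : ℝ) / 2)) := Real.rpow_nonneg (by linarith) _
    have hll0 : 0 ≤ Real.log L := hLL0
    have hQ0 : 0 ≤ Q := by linarith
    have e4 : C1 * N * Q * (Real.log z) ^ (-((r : ℝ) / 2)) *
        Real.exp (r * ∑ p ∈ E, 1 / (p : ℝ)) ≤ C2 * N * Q * L ^ (ε - (r : ℝ) / 2) := by
      calc C1 * N * Q * (Real.log z) ^ (-((r : ℝ) / 2)) * Real.exp (r * ∑ p ∈ E, 1 / (p : ℝ))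
          ≤ C1 * N * Q * ((2 * C1) ^ r * (1 + Real.log L) ^ r * L ^ (-((r : ℝ) / 2))) *
              (G * (3 ^ r * (1 + Real.log L) ^ r)) := by
            gcongr
        _ = C1 * (2 * C1) ^ r * G * 3 ^ r * N * Q * (1 + Real.log L) ^ M *
              L ^ (-((r : ℝ) / 2)) := by
            rw [hM, pow_add]
            ring
        _ ≤ C1 * (2 * C1) ^ r * G * 3 ^ r * N * Q * ((1 + 1 / b) ^ M * L ^ ε) *
              L ^ (-((r : ℝ) / 2)) := by
            apply mul_le_mul_of_nonneg_right _ hlp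
            apply mul_le_mul_of_nonneg_left e3
            positivity
        _ = C2 * N * Q * (L ^ ε * L ^ (-((r : ℝ) / 2))) := by rw [hC2]; ring
        _ = C2 * N * Q * L ^ (ε - (r : ℝ) / 2) := by
            rw [← Real.rpow_add hL0]
            congr 2
    refine e4.trans ?_
    have h7 : 0 ≤ (36 * C1 ^ 2) ^ r := by positivity
    calc C2 * N * Q * L ^ (ε - (r : ℝ) / 2) ≤
          ((36 * C1 ^ 2) ^ r + C2) * N * Q * L ^ (ε - (r : ℝ) / 2) := by
          gcongr
          linarith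
      _ = _ := by ring

/-- the excluded primes for shifts of size at most `N ^ A` -/
theorem shifts (hr : 1 ≤ r) (ε : ℝ) (hε : 0 < ε) (A : ℕ) :
    ∃ C : ℝ, 0 < C ∧ ∀ N : ℕ, 3 ≤ N →
      ∀ Λ : ℕ, 1 ≤ Λ → ∀ D : Fin r → ℤ, (∀ i, ¬ IsSquare (D i)) → (∀ i, (D i).natAbs ≤ Λ) →
      ∀ g : ℕ, (∀ p : ℕ, p.Prime → ∀ i, ch (D i) p = -1 → ¬ p ∣ g) →
      ∀ s : Fin r → ℤ, Function.Injective s → (∀ i, (s i).natAbs ≤ N ^ A) → ∀ a : ℕ,
      (((Ioc a (a + N)).filter (Cn D s g ∅)).card : ℝ) ≤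
        C * N * (1 + Real.log Λ) ^ ((r : ℝ) / 2) * (Real.log N) ^ (ε - (r : ℝ) / 2) := by
  set B : ℝ := 2 * (r ^ 2 * (A + 1)) with hB
  obtain ⟨C, hC, H⟩ := main (r := r) hr ε hε B (by positivity)
  refine ⟨C, hC, ?_⟩
  intro N hN Λ hΛ D hD hDΛ g0 hg0' s hinj hsN a
  have hN3 : (3 : ℝ) ≤ N := by exact_mod_cast hN
  have hN0 : (0 : ℝ) < N := by linarith
  obtain ⟨hL1, -⟩ := d3_log hN
  set g : Fin r → Fin r → ℕ := fun i j => if i = j then 1 else (s i - s j).natAbs with hg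
  set M : ℕ := ∏ i, ∏ j, g i j with hM
  have hg0 : ∀ i j, g i j ≠ 0 := by
    intro i j
    simp only [hg]
    split_ifs with hij
    · exact one_ne_zero
    · rw [Int.natAbs_ne_zero, sub_ne_zero]
      exact fun h => hij (hinj h)
  have hM0 : M ≠ 0 := by
    rw [hM]
    exact Finset.prod_ne_zero_iff.2 fun i _ => Finset.prod_ne_zero_iff.2 fun j _ => hg0 i j
  have hgle : ∀ i j, g i j ≤ N ^ (A + 1) := by
    intro i j
    have h1 : 1 ≤ N ^ A := Nat.one_le_pow _ _ (by omega)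
    have h2 : 2 * N ^ A ≤ N ^ (A + 1) := by
      rw [pow_succ]
      nlinarith
    simp only [hg]
    split_ifs with hij
    · omega
    · have h3 := hsN i
      have h4 := hsN j
      omega
  have hMle : M ≤ (N ^ (A + 1)) ^ (r * r) := by
    rw [hM]
    calc ∏ i, ∏ j, g i j ≤ ∏ _i : Fin r, ∏ _j : Fin r, N ^ (A + 1) :=
          Finset.prod_le_prod' fun i _ => Finset.prod_le_prod' fun j _ => hgle i j
      _ = (N ^ (A + 1)) ^ (r * r) := by
          rw [prod_const, prod_const, card_univ, Fintype.card_fin, ← pow_mul]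
  set E : Finset ℕ := M.primeFactors with hE
  have hEp : ∀ p ∈ E, p.Prime := fun p hp => Nat.prime_of_mem_primeFactors hp
  have hEc : (E.card : ℝ) ≤ B * Real.log N := by
    have h1 : 2 ^ E.card ≤ M := by
      have h2 : 2 ^ E.card ≤ ∏ p ∈ E, p := by
        apply Finset.pow_card_le_prod
        intro p hp
        exact (hEp p hp).two_le
      exact h2.trans (Nat.le_of_dvd (Nat.pos_of_ne_zero hM0) (Nat.prod_primeFactors_dvd M))
    have h3 : ((2 : ℝ)) ^ E.card ≤ ((N : ℝ) ^ (A + 1)) ^ (r * r) := by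
      exact_mod_cast h1.trans hMle
    have h4 := Real.log_le_log (by positivity) h3
    rw [Real.log_pow, Real.log_pow, Real.log_pow] at h4
    have h8 : 1 / 2 ≤ Real.log 2 := by
      have := Real.log_two_gt_d9
      linarith
    have h9 : (0 : ℝ) ≤ E.card := Nat.cast_nonneg _
    rw [hB]
    push_cast at h4
    nlinarith
  have hdis : ∀ p : ℕ, p.Prime → p ∉ E → ∀ i j, i ≠ j → ¬ (p : ℤ) ∣ s i - s j := by
    intro p hp hpE i j hij hd
    apply hpE
    rw [hE, Nat.mem_primeFactors]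
    refine ⟨hp, ?_, hM0⟩
    have h5 : p ∣ g i j := by
      simp only [hg]
      rw [if_neg hij]
      exact Int.natCast_dvd.1 hd
    rw [hM]
    exact h5.trans ((Finset.dvd_prod_of_mem (fun j => g i j) (mem_univ j)).trans
      (Finset.dvd_prod_of_mem (fun i => ∏ j, g i j) (mem_univ i)))
  refine le_trans ?_ (H N hN Λ hΛ D hD hDΛ g0 hg0' E hEp hEc s hdis a)
  have hsub : (Ioc a (a + N)).filter (Cn D s g0 ∅) ⊆ (Ioc a (a + N)).filter (Cn D s g0 E) := by
    intro n hn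
    rw [mem_filter] at hn ⊢
    refine ⟨hn.1, ?_⟩
    intro p hp _ i hi
    exact hn.2 p hp (Finset.notMem_empty p) i hi
  exact_mod_cast Finset.card_le_card hsub

end Pool.Agent.U646.HC
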