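import Pool.Agent.U646.HC.B
import Pool.Agent.H177R2.SD.Brc

set_option autoImplicit false

/-!
# Block sizes of symmetric designs: the local condition
-/

namespace Pool.Agent.U646.HC

open Finset Pool.Agent.H177R2.SD
open Pool.Agent.H951R4.OD (ch)

/-- `k` is the block size of a symmetric `(v, k, lam)` design with `2 ≤ k < v`, and `lam` is not a
perfect square or `v % 4 ≠ 1` -/
def IsK (lam k : ℕ) : Prop := ∃ (v : ℕ) (B : Fin v → Finset (Fin v)),
  2 ≤ k ∧ k < v ∧ (∀ i, (B i).card = k) ∧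
  (∀ x y : Fin v, x ≠ y →
    (Finset.univ.filter (fun i => x ∈ B i ∧ y ∈ B i)).card = lam) ∧
  (¬ IsSquare lam ∨ v % 4 ≠ 1)

/-- counting flags: every point of a symmetric design lies on exactly `k` blocks -/
theorem repl (v k lam : ℕ) (hv : 2 ≤ v) (hlam : 1 ≤ lam) (B : Fin v → Finset (Fin v))
    (hk : ∀ i, (B i).card = k)
    (hp : ∀ x y : Fin v, x ≠ y →
      (Finset.univ.filter (fun i => x ∈ B i ∧ y ∈ B i)).card = lam) :
    (∀ x, (Finset.univ.filter (fun i => x ∈ B i)).card = k) ∧ k * k = lam * (v - 1) + k := by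
  classical
  have h1 : ∀ x, (Finset.univ.filter (fun i => x ∈ B i)).card * k
      = (Finset.univ.filter (fun i => x ∈ B i)).card + lam * (v - 1) := by
    intro x
    have e1 : ∑ y : Fin v, (Finset.univ.filter (fun i => x ∈ B i ∧ y ∈ B i)).card
        = (Finset.univ.filter (fun i => x ∈ B i)).card * k := by
      simp_rw [Finset.card_filter]
      rw [Finset.sum_comm, Finset.sum_mul]
      refine Finset.sum_congr rfl fun i _ => ?_
      by_cases hx : x ∈ B i
      · simp [hx, hk i]
      · simp [hx]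
    rw [← e1, ← Finset.add_sum_erase _ _ (Finset.mem_univ x)]
    congr 1
    · simp
    · rw [Finset.sum_congr rfl (g := fun _ => lam)]
      · simp [Finset.card_erase_of_mem, mul_comm]
      · intro y hy
        exact hp x y (Finset.ne_of_mem_erase hy).symm
  have hpos : 1 ≤ lam * (v - 1) := by
    have : 1 ≤ v - 1 := by omega
    exact Nat.mul_pos hlam this
  set r : Fin v → ℕ := fun x => (Finset.univ.filter (fun i => x ∈ B i)).card with hr
  have hk2 : 2 ≤ k := by
    by_contra hcon
    have h2 := h1 ⟨0, by omega⟩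
    interval_cases k <;> simp at h2 <;> omega
  have hconst : ∀ x y, r x = r y := by
    intro x y
    have hx := h1 x
    have hy := h1 y
    obtain ⟨k', rfl⟩ : ∃ k', k = k' + 1 := ⟨k - 1, by omega⟩
    have hx' : r x * k' = lam * (v - 1) := by
      have : r x * (k' + 1) = r x + lam * (v - 1) := hx
      rw [mul_add, mul_one] at this; omega
    have hy' : r y * k' = lam * (v - 1) := by
      have : r y * (k' + 1) = r y + lam * (v - 1) := hy
      rw [mul_add, mul_one] at this; omega
    have : r x * k' = r y * k' := by rw [hx', hy']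
    exact Nat.eq_of_mul_eq_mul_right (by omega) this
  have hsum : ∑ x, r x = v * k := by
    simp only [hr]
    simp_rw [Finset.card_filter]
    rw [Finset.sum_comm]
    rw [Finset.sum_congr rfl (g := fun _ => k)]
    · simp
    · intro i _
      rw [← hk i]; simp
  have hrk : ∀ x, r x = k := by
    intro x
    have : ∑ y, r y = v * r x := by
      rw [Finset.sum_congr rfl (g := fun _ => r x) (fun y _ => hconst y x)]; simp
    rw [this] at hsum
    exact Nat.eq_of_mul_eq_mul_left (by omega) hsum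
  refine ⟨hrk, ?_⟩
  have h2 := h1 ⟨0, by omega⟩
  have h3 := hrk ⟨0, by omega⟩
  simp only [hr] at h3
  rw [h3] at h2
  omega

theorem ch_neg {D : ℤ} {p : ℕ} (h : ch D p = -1) :
    p % 2 = 1 ∧ ¬ IsSquare ((D : ℤ) : ZMod p) := by
  unfold ch at h
  split_ifs at h with h2
  · refine ⟨h2, ?_⟩
    have h3 : jacobiSym D p = -1 := by exact_mod_cast h
    exact ZMod.nonsquare_of_jacobiSym_eq_neg_one h3
  · norm_num at h

theorem ch_neg_dvd {lam : ℕ} {D : ℤ} (hD : D = lam ∨ D = -lam) {p : ℕ} (h : ch D p = -1) :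
    ¬ p ∣ lam := by
  intro hd
  apply (ch_neg h).2
  have h1 : ((lam : ℤ) : ZMod p) = 0 := by
    rw [ZMod.intCast_zmod_eq_zero_iff_dvd]
    exact_mod_cast hd
  have h2 : ((D : ℤ) : ZMod p) = 0 := by
    rcases hD with rfl | rfl
    · exact h1
    · rw [Int.cast_neg, h1, neg_zero]
  rw [h2]
  exact ⟨0, by ring⟩

/-- the facts about block sizes which we use -/
theorem facts {lam k : ℕ} (hlam : 1 ≤ lam) (hk : IsK lam k) :
    2 ≤ k ∧ lam < k ∧ lam ∣ k * (k - 1) ∧ ∃ D : ℤ, (D = lam ∨ D = -lam) ∧ ¬ IsSquare D ∧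
      ∀ p : ℕ, p.Prime → ch D p = -1 → ¬ Xc p ((k : ℤ) - lam) := by
  obtain ⟨v, B, hk2, hkv, hBk, hBp, hor⟩ := hk
  obtain ⟨hr, hkk⟩ := repl v k lam (by omega) hlam B hBk hBp
  have hlk : lam < k := by
    by_contra hcon
    push Not at hcon
    have h1 : k * k ≤ lam * (v - 1) := Nat.mul_le_mul hcon (by omega)
    omega
  have hdvd : lam ∣ k * (k - 1) := by
    refine ⟨v - 1, ?_⟩
    rw [Nat.mul_sub, mul_one]
    omega
  refine ⟨hk2, hlk, hdvd, ?_⟩
  have hloc : ∀ D : ℤ, (D = lam ∨ D = -lam) → (v % 2 = 1 → (((-1) ^ ((v - 1) / 2) * (lam : ℤ) : ℤ)) = D) →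
      ∀ p : ℕ, p.Prime → ch D p = -1 → ¬ Xc p ((k : ℤ) - lam) := by
    intro D hD hDv p hp hch hX
    have hnat : ((k : ℤ) - lam) = ((k - lam : ℕ) : ℤ) := by
      rw [Nat.cast_sub hlk.le]
    rw [hnat, Xc_nat] at hX
    have h1 : k ≠ lam + 1 := by
      rintro rfl
      have h2 : lam + 1 - lam = 1 := by omega
      rw [h2] at hX
      exact hp.one_lt.ne' (Nat.dvd_one.1 hX.1)
    have hkv2 : k + 2 ≤ v := by
      by_contra hcon
      have hv : v = k + 1 := by omega
      subst hv
      have h1 : k * k = lam * k + k := by simpa using hkk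
      have h2 : k * k = (lam + 1) * k := by rw [h1]; ring
      have h3 : k = lam + 1 := Nat.eq_of_mul_eq_mul_right (by omega) h2
      omega
    have hdes : IsSymmetricDesign v k lam := ⟨hkv, k, B, hBk, hr, hBp⟩
    have hp2 : p ≠ 2 := by
      have := (ch_neg hch).1
      omega
    obtain ⟨hv2, hsq⟩ := brc_local hdes hk2 hkv2 hp hp2 hX.1 hX.2 (ch_neg_dvd hD hch)
    rw [hDv hv2] at hsq
    exact (ch_neg hch).2 hsq
  by_cases hv1 : v % 4 = 1
  · have hns : ¬ IsSquare lam := by
      rcases hor with h | h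
      · exact h
      · exact absurd hv1 h
    refine ⟨lam, Or.inl rfl, ?_, hloc _ (Or.inl rfl) ?_⟩
    · intro h
      exact hns (by simpa using (Int.isSquare_natCast_iff).mp h)
    · intro _
      have he : Even ((v - 1) / 2) := ⟨v / 4, by omega⟩
      rw [he.neg_one_pow, one_mul]
  · refine ⟨-lam, Or.inr rfl, ?_, hloc _ (Or.inr rfl) ?_⟩
    · rintro ⟨r, hr⟩
      have := mul_self_nonneg r
      have : (1 : ℤ) ≤ lam := by exact_mod_cast hlam
      linarith
    · intro hv2
      have ho : Odd ((v - 1) / 2) := ⟨v / 4, by omega⟩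
      rw [ho.neg_one_pow, neg_one_mul]

end Pool.Agent.U646.HC
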