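import Pool.Agent.U646.HC.C

set_option autoImplicit false

/-!
# Tuples of block sizes
-/

namespace Pool.Agent.U646.HC

open Finset
open Pool.Agent.H951R4.OD (ch d3_log)
open scoped Classical

theorem tuples (r A : ℕ) (hr : 1 ≤ r) (ε : ℝ) (hε : 0 < ε) :
    ∃ C : ℝ, 0 < C ∧ ∀ N : ℕ, 3 ≤ N → ∀ Λ : ℕ, 1 ≤ Λ → Λ ≤ N ^ A →
      ∀ lam h : Fin r → ℕ, (∀ i, 1 ≤ lam i ∧ lam i ≤ Λ) → (∀ i, h i ≤ N ^ A) →
      (∀ i j, i ≠ j → (h i : ℤ) - lam i ≠ h j - lam j) → ∀ a : ℕ,
      (((Ioc a (a + N)).filter (fun n => ∀ i, IsK (lam i) (n + h i))).card : ℝ) ≤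
        C * N * (1 + Real.log Λ) ^ ((r : ℝ) / 2) * (Real.log N) ^ (ε - (r : ℝ) / 2) := by
  obtain ⟨C, hC, H⟩ := shifts (r := r) hr ε hε A
  refine ⟨2 ^ r * C, by positivity, ?_⟩
  intro N hN Λ hΛ hΛN lam h hlam hh hinj a
  have hlog : 0 ≤ Real.log N := Real.log_natCast_nonneg N
  have hlogΛ : 0 ≤ Real.log Λ := Real.log_natCast_nonneg Λ
  set s : Fin r → ℤ := fun i => (h i : ℤ) - lam i with hs
  set S := (Fintype.piFinset (fun i => ({(lam i : ℤ), -(lam i : ℤ)} : Finset ℤ))).filter
    (fun D => ∀ i, ¬ IsSquare (D i)) with hS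
  set X : ℝ := C * N * (1 + Real.log Λ) ^ ((r : ℝ) / 2) * (Real.log N) ^ (ε - (r : ℝ) / 2) with hX
  have hX0 : 0 ≤ X := by
    rw [hX]
    have := Real.rpow_nonneg hlog (ε - (r : ℝ) / 2)
    positivity
  have hsub : (Ioc a (a + N)).filter (fun n => ∀ i, IsK (lam i) (n + h i)) ⊆
      S.biUnion (fun D => (Ioc a (a + N)).filter (Cn D s 1 ∅)) := by
    intro n hn
    rw [mem_filter] at hn
    obtain ⟨hn1, hn2⟩ := hn
    choose D hD1 hD2 hD3 using fun i => (facts (hlam i).1 (hn2 i)).2.2.2
    rw [mem_biUnion]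
    refine ⟨D, ?_, ?_⟩
    · rw [hS, mem_filter, Fintype.mem_piFinset]
      refine ⟨fun i => ?_, hD2⟩
      rw [mem_insert, mem_singleton]
      exact hD1 i
    · rw [mem_filter]
      refine ⟨hn1, ?_⟩
      intro p hp _ i hi
      have h1 := hD3 i p hp hi
      have e : ((n + h i : ℕ) : ℤ) - lam i = ((1 : ℕ) : ℤ) * n + s i := by
        simp only [hs]
        push_cast
        ring
      rwa [e] at h1
  have h1 := (Finset.card_le_card hsub).trans Finset.card_biUnion_le
  have h2 : (((Ioc a (a + N)).filter (fun n => ∀ i, IsK (lam i) (n + h i))).card : ℝ) ≤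
      ∑ D ∈ S, (((Ioc a (a + N)).filter (Cn D s 1 ∅)).card : ℝ) := by
    exact_mod_cast h1
  have h3 : ∀ D ∈ S, (((Ioc a (a + N)).filter (Cn D s 1 ∅)).card : ℝ) ≤ X := by
    intro D hD
    rw [hS, mem_filter, Fintype.mem_piFinset] at hD
    apply H N hN Λ hΛ D hD.2
    · intro i
      have h4 := hD.1 i
      rw [mem_insert, mem_singleton] at h4
      have h5 := (hlam i).2
      rcases h4 with h4 | h4 <;> rw [h4] <;> omega
    · intro p hp i _ hd
      exact hp.one_lt.ne' (Nat.dvd_one.1 hd)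
    · intro i j hij
      by_contra hne
      exact hinj i j hne hij
    · intro i
      have h5 := (hlam i).2
      have h6 := hh i
      simp only [hs]
      omega
  have h4 := sum_le_sum h3
  rw [sum_const, nsmul_eq_mul] at h4
  have h5 : (S.card : ℝ) ≤ 2 ^ r := by
    have h6 : S.card ≤ 2 ^ r := by
      calc S.card ≤ (Fintype.piFinset
            (fun i => ({(lam i : ℤ), -(lam i : ℤ)} : Finset ℤ))).card := card_filter_le _ _
        _ = ∏ i, ({(lam i : ℤ), -(lam i : ℤ)} : Finset ℤ).card := Fintype.card_piFinset _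
        _ ≤ ∏ _i : Fin r, 2 := Finset.prod_le_prod' fun i _ => Finset.card_le_two
        _ = 2 ^ r := by rw [prod_const, card_univ, Fintype.card_fin]
    exact_mod_cast h6
  calc _ ≤ (S.card : ℝ) * X := h2.trans h4
    _ ≤ 2 ^ r * X := mul_le_mul_of_nonneg_right h5 hX0
    _ = _ := by rw [hX]; ring

/-- summation over dyadic blocks -/
theorem dyadic (P : ℕ → Prop) (C γ : ℝ) (hC : 0 ≤ C) (hγ : 1 < γ)
    (H : ∀ N : ℕ, 3 ≤ N →
      (((Ioc N (N + N)).filter P).card : ℝ) ≤ C * N * (Real.log N) ^ (-γ)) :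
    Summable (fun n : ℕ => if P n then 1 / (n : ℝ) else 0) := by
  set f : ℕ → ℝ := fun n => if P n then 1 / (n : ℝ) else 0 with hf
  have hf0 : ∀ n, 0 ≤ f n := by
    intro n
    simp only [hf]
    split_ifs
    · positivity
    · exact le_rfl
  set C' : ℝ := C * (Real.log 2) ^ (-γ) with hC'
  have hl2 : 0 < Real.log 2 := Real.log_pos (by norm_num)
  have hC'0 : 0 ≤ C' := mul_nonneg hC (Real.rpow_nonneg hl2.le _)
  set g : ℕ → ℝ := fun j => (if j < 2 then 1 else 0) + C' * (j : ℝ) ^ (-γ) with hg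
  have hrp : ∀ j : ℕ, 0 ≤ C' * (j : ℝ) ^ (-γ) := fun j =>
    mul_nonneg hC'0 (Real.rpow_nonneg (Nat.cast_nonneg j) _)
  have hg0 : ∀ j, 0 ≤ g j := by
    intro j
    simp only [hg]
    have := hrp j
    split_ifs <;> linarith
  have hgs : Summable g := by
    apply Summable.add
    · apply summable_of_ne_finset_zero (s := range 2)
      intro j hj
      rw [mem_range] at hj
      rw [if_neg hj]
    · exact (Real.summable_nat_rpow.2 (by linarith)).mul_left C'
  have hblk : ∀ j : ℕ, ∑ n ∈ Ioc (2 ^ j) (2 ^ (j + 1)), f n ≤ g j := by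
    intro j
    have h2j : (0 : ℝ) < 2 ^ j := by positivity
    have e : 2 ^ (j + 1) = 2 ^ j + 2 ^ j := by ring
    have hcount : ∑ n ∈ Ioc (2 ^ j) (2 ^ (j + 1)), f n ≤
        (((Ioc (2 ^ j) (2 ^ j + 2 ^ j)).filter P).card : ℝ) / 2 ^ j := by
      rw [e]
      simp only [hf]
      rw [← Finset.sum_filter]
      calc ∑ n ∈ (Ioc (2 ^ j) (2 ^ j + 2 ^ j)).filter P,
            1 / (n : ℝ) ≤ ∑ _n ∈ (Ioc (2 ^ j) (2 ^ j + 2 ^ j)).filter P, 1 / (2 : ℝ) ^ j := by
            apply sum_le_sum
            intro n hn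
            rw [mem_filter, mem_Ioc] at hn
            apply one_div_le_one_div_of_le h2j
            exact_mod_cast hn.1.1.le
        _ = _ := by
            rw [sum_const, nsmul_eq_mul]
            ring
    refine hcount.trans ?_
    by_cases hj : j < 2
    · simp only [hg, if_pos hj]
      have h1 : (((Ioc (2 ^ j) (2 ^ j + 2 ^ j)).filter P).card : ℝ) ≤ 2 ^ j := by
        have h2 := Finset.card_filter_le (Ioc (2 ^ j) (2 ^ j + 2 ^ j)) P
        rw [Nat.card_Ioc, Nat.add_sub_cancel_left] at h2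
        exact_mod_cast h2
      have h2 : (((Ioc (2 ^ j) (2 ^ j + 2 ^ j)).filter P).card : ℝ) / 2 ^ j ≤ 1 := by
        rw [div_le_one h2j]
        exact h1
      have := hrp j
      linarith
    · push Not at hj
      have h3 : 3 ≤ 2 ^ j := by
        have : 2 ^ 2 ≤ 2 ^ j := Nat.pow_le_pow_right (by norm_num) (by omega)
        omega
      have h4 := H (2 ^ j) h3
      have hj0 : (0 : ℝ) < j := by
        have : 0 < j := by omega
        exact_mod_cast this
      push_cast at h4
      rw [Real.log_pow, Real.mul_rpow hj0.le hl2.le] at h4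
      simp only [hg, if_neg (not_lt.2 hj), zero_add]
      rw [div_le_iff₀ h2j]
      refine h4.trans (le_of_eq ?_)
      rw [hC']
      ring
  have hpart : ∀ J : ℕ, ∑ n ∈ range (2 ^ J + 1), f n ≤
      f 0 + f 1 + ∑ j ∈ range J, g j := by
    intro J
    induction J with
    | zero =>
      rw [pow_zero, sum_range_succ, sum_range_one, sum_range_zero, add_zero]
    | succ J ih =>
      have h1 : ∑ n ∈ range (2 ^ (J + 1) + 1), f n =
          ∑ n ∈ range (2 ^ J + 1), f n + ∑ n ∈ Ioc (2 ^ J) (2 ^ (J + 1)), f n := by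
        rw [← sum_union]
        · congr 1
          ext n
          have : 2 ^ J ≤ 2 ^ (J + 1) := Nat.pow_le_pow_right (by norm_num) (by omega)
          rw [mem_union, mem_range, mem_range, mem_Ioc]
          omega
        · rw [Finset.disjoint_left]
          intro n h1 h2
          rw [mem_range] at h1
          rw [mem_Ioc] at h2
          omega
      rw [h1, Finset.sum_range_succ g J]
      have := hblk J
      linarith
  apply summable_of_sum_range_le (c := f 0 + f 1 + ∑' j, g j) hf0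
  intro n
  have h1 : n ≤ 2 ^ n + 1 := by
    have : n < 2 ^ n := Nat.lt_two_pow_self
    omega
  calc ∑ i ∈ range n, f i ≤ ∑ i ∈ range (2 ^ n + 1), f i := by
        apply sum_le_sum_of_subset_of_nonneg
        · intro i hi
          rw [mem_range] at hi ⊢
          omega
        · intro i _ _
          exact hf0 i
    _ ≤ f 0 + f 1 + ∑ j ∈ range n, g j := hpart n
    _ ≤ _ := by
        have := hgs.sum_le_tsum (range n) (fun j _ => hg0 j)
        linarith

theorem le_pow3 (n : ℕ) {N A : ℕ} (hN : 3 ≤ N) (hA : n ≤ A) : n ≤ N ^ A := by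
  calc n ≤ 2 ^ n := Nat.lt_two_pow_self.le
    _ ≤ N ^ n := Nat.pow_le_pow_left (by omega) n
    _ ≤ N ^ A := Nat.pow_le_pow_right (by omega) hA

/-- a Brun type theorem -/
theorem brun (r : ℕ) (hr : 3 ≤ r) (lam h : Fin r → ℕ) (hlam : ∀ i, 1 ≤ lam i)
    (hinj : ∀ i j, i ≠ j → (h i : ℤ) - lam i ≠ h j - lam j) :
    Summable (fun n : ℕ => if ∀ i, IsK (lam i) (n + h i) then 1 / (n : ℝ) else 0) := by
  set Λ : ℕ := ∑ i, lam i with hΛ
  have hlΛ : ∀ i, lam i ≤ Λ := fun i => single_le_sum (fun j _ => Nat.zero_le _) (mem_univ i)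
  have hΛ1 : 1 ≤ Λ := (hlam ⟨0, by omega⟩).trans (hlΛ _)
  set A : ℕ := Λ + ∑ i, h i with hA
  obtain ⟨C, hC, H⟩ := tuples r A (by omega) (1 / 4) (by norm_num)
  have hlogΛ : 0 ≤ Real.log Λ := Real.log_natCast_nonneg Λ
  set Q : ℝ := (1 + Real.log Λ) ^ ((r : ℝ) / 2) with hQ
  have hQ0 : 0 ≤ Q := Real.rpow_nonneg (by linarith) _
  have key := dyadic (fun n => ∀ i, IsK (lam i) (n + h i)) (C * Q) (5 / 4) (by positivity)
    (by norm_num) ?_
  · convert key
  intro N hN
  obtain ⟨hL1, -⟩ := d3_log hN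
  have h1 := H N hN Λ hΛ1 (le_pow3 Λ hN (by omega)) lam h (fun i => ⟨hlam i, hlΛ i⟩) (fun i => by
    apply le_pow3 (h i) hN
    have : h i ≤ ∑ i, h i := single_le_sum (f := h) (fun j _ => Nat.zero_le _) (mem_univ i)
    omega) hinj N
  have h1' : (((Ioc N (N + N)).filter (fun n => ∀ i, IsK (lam i) (n + h i))).card : ℝ) ≤
      C * N * Q * (Real.log N) ^ ((1 : ℝ) / 4 - (r : ℝ) / 2) := h1
  have h1'' : (((Ioc N (N + N)).filter (fun n => ∀ i, IsK (lam i) (n + h i))).card : ℝ) ≤
      C * Q * N * (Real.log N) ^ (-(5 / 4 : ℝ)) := by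
    refine h1'.trans ?_
    have hrr : (3 : ℝ) ≤ r := by exact_mod_cast hr
    have h2 : (Real.log N) ^ ((1 : ℝ) / 4 - (r : ℝ) / 2) ≤ (Real.log N) ^ (-(5 / 4 : ℝ)) :=
      Real.rpow_le_rpow_of_exponent_le hL1 (by linarith)
    calc C * N * Q * (Real.log N) ^ ((1 : ℝ) / 4 - (r : ℝ) / 2) ≤
          C * N * Q * (Real.log N) ^ (-(5 / 4 : ℝ)) := by
          apply mul_le_mul_of_nonneg_left h2
          positivity
      _ = _ := by ring
  convert h1''

/-- `n` is a block size and `r` further block sizes are close to `n` -/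
def Clu (lam r : ℕ) (β : ℝ) (n : ℕ) : Prop :=
  IsK lam n ∧ ∃ T : Finset ℕ, T.card = r ∧
    ∀ m ∈ T, m ≠ n ∧ IsK lam m ∧ |(m : ℝ) - n| ≤ (Real.log n) ^ β

theorem clusters (lam r : ℕ) (hlam : 1 ≤ lam) (β ε : ℝ) (hβ0 : 0 ≤ β) (hβ1 : β ≤ 1)
    (hε : 0 < ε) :
    ∃ C : ℝ, 0 < C ∧ ∀ N : ℕ, 3 ≤ N → (((Ioc N (N + N)).filter (Clu lam r β)).card : ℝ) ≤
      C * N * (Real.log N) ^ (r * β + ε - ((r : ℝ) + 1) / 2) := by
  obtain ⟨C, hC, H⟩ := tuples (r + 1) (lam + 2) (by omega) ε hε
  have hlogΛ : 0 ≤ Real.log lam := Real.log_natCast_nonneg lam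
  set Q : ℝ := (1 + Real.log lam) ^ (((r + 1 : ℕ) : ℝ) / 2) with hQ
  have hQ0 : 0 < Q := Real.rpow_pos_of_pos (by linarith) _
  set U : ℝ := 3 * 2 ^ β with hU
  have hU0 : 0 < U := by positivity
  refine ⟨U ^ r * C * Q, by positivity, ?_⟩
  intro N hN
  have hN3 : (3 : ℝ) ≤ N := by exact_mod_cast hN
  have hN0 : (0 : ℝ) < N := by linarith
  obtain ⟨hL1, -⟩ := d3_log hN
  set L := Real.log N with hL
  have hL0 : 0 < L := by linarith
  set x : ℝ := (2 * L) ^ β with hx
  have hx1 : 1 ≤ x := Real.one_le_rpow (by linarith) hβ0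
  have hx2 : x ≤ 2 * L := by
    calc x ≤ (2 * L) ^ (1 : ℝ) := Real.rpow_le_rpow_of_exponent_le (by linarith) hβ1
      _ = 2 * L := Real.rpow_one _
  set R : ℕ := ⌊x⌋₊ with hR
  have hRx : (R : ℝ) ≤ x := Nat.floor_le (by linarith)
  have hLN : 2 * L ≤ N := by
    have h1 := Real.log_le_sub_one_of_pos (show (0 : ℝ) < N / 2 by positivity)
    rw [Real.log_div hN0.ne' (by norm_num)] at h1
    have h2 := Real.log_two_lt_d9
    rw [← hL] at h1
    linarith
  have hRN : R ≤ N := by
    have : (R : ℝ) ≤ N := by linarith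
    exact_mod_cast this
  set X : ℝ := C * N * Q * L ^ (ε - ((r + 1 : ℕ) : ℝ) / 2) with hX
  have hX0 : 0 ≤ X := by
    rw [hX]
    have := Real.rpow_nonneg hL0.le (ε - ((r + 1 : ℕ) : ℝ) / 2)
    positivity
  set Gs := (Fintype.piFinset (fun _ : Fin r => range (2 * R + 1))).filter
    (fun g => Function.Injective (Fin.cons R g : Fin (r + 1) → ℕ)) with hGs
  set Y : (Fin r → ℕ) → Finset ℕ := fun g => (Ioc (N - R) (N - R + N)).filter
    (fun n => ∀ i, IsK lam (n + (Fin.cons R g : Fin (r + 1) → ℕ) i)) with hY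
  have hsub : (Ioc N (N + N)).filter (Clu lam r β) ⊆ Gs.biUnion (fun g => (Y g).image (· + R)) := by
    intro n hn
    rw [mem_filter, mem_Ioc] at hn
    obtain ⟨⟨hn1, hn2⟩, hK, T, hT, hT2⟩ := hn
    have hn0 : (0 : ℝ) < n := by
      have : 0 < n := by omega
      exact_mod_cast this
    have hlogn : (Real.log n) ^ β ≤ x := by
      rw [hx]
      apply Real.rpow_le_rpow (Real.log_natCast_nonneg n) _ hβ0
      have h1 : Real.log n ≤ Real.log (2 * N) := by
        apply Real.log_le_log hn0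
        have : (n : ℝ) ≤ (N + N : ℕ) := by exact_mod_cast hn2
        push_cast at this
        linarith
      rw [Real.log_mul (by norm_num) hN0.ne', ← hL] at h1
      have h2 := Real.log_two_lt_d9
      linarith
    have hclose : ∀ m ∈ T, m ≤ n + R ∧ n ≤ m + R := by
      intro m hm
      have h1 := (hT2 m hm).2.2.trans hlogn
      rw [abs_le] at h1
      constructor
      · rcases Nat.lt_or_ge n m with h | h
        · have h2 : m - n ≤ R := by
            apply Nat.le_floor
            rw [Nat.cast_sub h.le]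
            linarith
          omega
        · omega
      · rcases Nat.lt_or_ge m n with h | h
        · have h2 : n - m ≤ R := by
            apply Nat.le_floor
            rw [Nat.cast_sub h.le]
            linarith
          omega
        · omega
    set f : Fin r → ℕ := fun j => T.orderEmbOfFin hT j with hf
    have hfT : ∀ j, f j ∈ T := fun j => Finset.orderEmbOfFin_mem T hT j
    have hfinj : Function.Injective f := (T.orderEmbOfFin hT).injective
    set g : Fin r → ℕ := fun j => f j + R - n with hg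
    have hgf : ∀ j, (n - R) + g j = f j := by
      intro j
      have h1 := hclose (f j) (hfT j)
      simp only [hg]
      omega
    rw [mem_biUnion]
    refine ⟨g, ?_, ?_⟩
    · rw [hGs, mem_filter, Fintype.mem_piFinset]
      refine ⟨fun j => ?_, ?_⟩
      · rw [mem_range]
        have h1 := hclose (f j) (hfT j)
        simp only [hg]
        omega
      · rw [Fin.cons_injective_iff]
        constructor
        · rintro ⟨j, hj⟩
          have h1 := hgf j
          rw [hj] at h1
          apply (hT2 (f j) (hfT j)).1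
          omega
        · intro i j hij
          apply hfinj
          rw [← hgf i, ← hgf j, hij]
    · rw [mem_image]
      refine ⟨n - R, ?_, by omega⟩
      simp only [hY]
      rw [mem_filter, mem_Ioc]
      refine ⟨⟨by omega, by omega⟩, ?_⟩
      intro i
      refine Fin.cases ?_ (fun j => ?_) i
      · rw [Fin.cons_zero, Nat.sub_add_cancel (by omega)]
        exact hK
      · rw [Fin.cons_succ, hgf j]
        exact (hT2 (f j) (hfT j)).2.1
  have hYb : ∀ g ∈ Gs, (((Y g).image (· + R)).card : ℝ) ≤ X := by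
    intro g hg
    rw [hGs, mem_filter, Fintype.mem_piFinset] at hg
    have h1 := H N hN lam hlam (le_pow3 lam hN (by omega)) (fun _ => lam)
      (Fin.cons R g : Fin (r + 1) → ℕ) (fun _ => ⟨hlam, le_rfl⟩) (by
        have h2 : 2 * R ≤ N ^ (lam + 2) := by
          calc 2 * R ≤ N * N := Nat.mul_le_mul (by omega) hRN
            _ = N ^ 2 := by ring
            _ ≤ N ^ (lam + 2) := Nat.pow_le_pow_right (by omega) (by omega)
        intro i
        refine Fin.cases ?_ (fun j => ?_) i
        · rw [Fin.cons_zero]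
          omega
        · rw [Fin.cons_succ]
          have := hg.1 j
          rw [mem_range] at this
          omega) (by
        intro i j hij h3
        apply hij
        apply hg.2
        omega) (N - R)
    refine le_trans ?_ h1
    exact_mod_cast Finset.card_image_le
  have h1 := (Finset.card_le_card hsub).trans Finset.card_biUnion_le
  have h2 : (((Ioc N (N + N)).filter (Clu lam r β)).card : ℝ) ≤
      ∑ g ∈ Gs, (((Y g).image (· + R)).card : ℝ) := by
    exact_mod_cast h1
  have h3 := h2.trans (sum_le_sum hYb)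
  rw [sum_const, nsmul_eq_mul] at h3
  have h4 : (Gs.card : ℝ) ≤ (U * L ^ β) ^ r := by
    have h5 : Gs.card ≤ (2 * R + 1) ^ r := by
      calc Gs.card ≤ (Fintype.piFinset (fun _ : Fin r => range (2 * R + 1))).card :=
            card_filter_le _ _
        _ = (2 * R + 1) ^ r := by
          rw [Fintype.card_piFinset, prod_const, card_univ, Fintype.card_fin, card_range]
    calc (Gs.card : ℝ) ≤ ((2 * R + 1 : ℕ) : ℝ) ^ r := by exact_mod_cast h5
      _ ≤ (U * L ^ β) ^ r := by
        apply pow_le_pow_left₀ (by positivity)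
        push_cast
        have e : U * L ^ β = 3 * x := by
          rw [hU, hx, Real.mul_rpow (by norm_num) hL0.le]
          ring
        rw [e]
        linarith
  refine h3.trans ?_
  calc (Gs.card : ℝ) * X ≤ (U * L ^ β) ^ r * X := mul_le_mul_of_nonneg_right h4 hX0
    _ = U ^ r * C * Q * N * ((L ^ β) ^ r * L ^ (ε - ((r + 1 : ℕ) : ℝ) / 2)) := by
        rw [hX, mul_pow]
        ring
    _ = _ := by
        rw [← Real.rpow_natCast (L ^ β), ← Real.rpow_mul hL0.le, ← Real.rpow_add hL0]
        push_cast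
        congr 2
        ring

/-- clusters of block sizes: convergence -/
theorem cluster_sum (lam r : ℕ) (hlam : 1 ≤ lam) (β : ℝ) (hβ0 : 0 ≤ β)
    (hβ : 2 * r * β < r - 1) :
    Summable (fun n : ℕ => if Clu lam r β n then 1 / (n : ℝ) else 0) := by
  set ε : ℝ := (((r : ℝ) - 1) / 2 - r * β) / 2 with hε
  have hε0 : 0 < ε := by
    rw [hε]
    linarith
  have hr0 : (0 : ℝ) ≤ r := Nat.cast_nonneg r
  have hr1 : (1 : ℝ) < r := by
    have : 0 ≤ 2 * r * β := by positivity
    linarith
  have hβ1 : β ≤ 1 := by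
    by_contra hcon
    push Not at hcon
    nlinarith
  obtain ⟨C, hC, H⟩ := clusters lam r hlam β ε hβ0 hβ1 hε0
  apply dyadic _ C (1 + ε) hC.le (by linarith)
  intro N hN
  have e : (r : ℝ) * β + ε - ((r : ℝ) + 1) / 2 = -(1 + ε) := by
    rw [hε]
    ring
  rw [← e]
  exact H N hN

end Pool.Agent.U646.HC
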