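import Pool.Agent.U646.HC.D

set_option autoImplicit false

/-!
# Designs with small index
-/

namespace Pool.Agent.U646.HC

open Finset Filter Topology
open Pool.Agent.H951R4.OD (ch d3_log)
open scoped Classical

/-- one pair of divisors -/
theorem cls (ε : ℝ) (hε : 0 < ε) (hε4 : ε ≤ 1 / 4) :
    ∃ C : ℝ, 0 < C ∧ ∀ N : ℕ, 3 ≤ N → ∀ Λ : ℕ, 1 ≤ Λ → ∀ g e : ℕ, 1 ≤ g → 1 ≤ e →
      Nat.Coprime g e → g * e ≤ Λ → (g * e) * (g * e) ≤ N → ∀ a : ℕ,
      (((Ioc a (a + N)).filter (fun n => g ∣ n ∧ e ∣ n - 1 ∧ IsK (g * e) n)).card : ℝ) ≤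
        C * N * (1 + Real.log Λ) ^ (1 / 2 : ℝ) * (Real.log N) ^ (ε - 1 / 2) * (1 / g * (1 / e)) := by
  obtain ⟨C, hC, H⟩ := main (r := 1) le_rfl ε hε 0 le_rfl
  refine ⟨12 * C, by positivity, ?_⟩
  intro N hN Λ hΛ g e hg he hge hgeΛ hN2 a
  have hlogΛ : 0 ≤ Real.log Λ := Real.log_natCast_nonneg Λ
  have hN3 : (3 : ℝ) ≤ N := by exact_mod_cast hN
  have hN0 : (0 : ℝ) < N := by linarith
  obtain ⟨hL1, -⟩ := d3_log hN
  set L := Real.log N with hL
  have hL0 : 0 < L := by linarith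
  set Q : ℝ := (1 + Real.log Λ) ^ (1 / 2 : ℝ) with hQ
  have hQ0 : 0 ≤ Q := Real.rpow_nonneg (by linarith) _
  obtain ⟨l, hl⟩ : ∃ l, l = g * e := ⟨_, rfl⟩
  have hl1 : 1 ≤ l := by rw [hl]; exact Nat.mul_pos hg he
  rw [← hl] at hgeΛ hN2 ⊢
  have hlr : (1 : ℝ) ≤ l := by exact_mod_cast hl1
  have hl0 : (0 : ℝ) < l := by linarith
  have hlN : l ≤ N := by nlinarith
  set T := (Ioc a (a + N)).filter (fun n => g ∣ n ∧ e ∣ n - 1 ∧ IsK l n) with hT
  have hrhs : (1 / (g : ℝ) * (1 / e)) = 1 / l := by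
    rw [hl]
    push_cast
    rw [one_div_mul_one_div]
  rw [hrhs]
  have hLp : 0 ≤ L ^ (ε - 1 / 2) := Real.rpow_nonneg hL0.le _
  rcases T.eq_empty_or_nonempty with hemp | ⟨n0, hn0⟩
  · rw [hemp, card_empty, Nat.cast_zero]
    positivity
  set c : ℕ := n0 % l with hc
  have hmod : ∀ n ∈ T, 2 ≤ n ∧ n = c + l * (n / l) := by
    intro n hn
    rw [hT, mem_filter] at hn hn0
    have h2 := (facts hl1 hn.2.2.2).1
    have h20 := (facts hl1 hn0.2.2.2).1
    refine ⟨h2, ?_⟩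
    have e1 : (g : ℤ) ∣ (n : ℤ) - n0 :=
      dvd_sub (by exact_mod_cast hn.2.1) (by exact_mod_cast hn0.2.1)
    have e2 : (e : ℤ) ∣ (n : ℤ) - n0 := by
      have h3 : (e : ℤ) ∣ ((n - 1 : ℕ) : ℤ) := by exact_mod_cast hn.2.2.1
      have h4 : (e : ℤ) ∣ ((n0 - 1 : ℕ) : ℤ) := by exact_mod_cast hn0.2.2.1
      have h5 := dvd_sub h3 h4
      rw [Nat.cast_sub (by omega), Nat.cast_sub (by omega)] at h5
      have e3 : (n : ℤ) - (1 : ℕ) - ((n0 : ℤ) - (1 : ℕ)) = n - n0 := by ring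
      rwa [e3] at h5
    have e3 : ((l : ℕ) : ℤ) ∣ (n : ℤ) - n0 := by
      rw [hl]
      push_cast
      exact IsCoprime.mul_dvd (Nat.isCoprime_iff_coprime.2 hge) e1 e2
    have e4 : n0 % l = n % l := (Nat.modEq_iff_dvd.2 e3)
    rw [hc, e4]
    exact (Nat.mod_add_div n l).symm
  set N' : ℕ := N / l + 2 with hN'
  have hdiv1 : 1 ≤ N / l := Nat.div_pos hlN (by omega)
  have hN'3 : 3 ≤ N' := by omega
  have hN'le : (N' : ℝ) ≤ 3 * N / l := by
    have h1 : ((N / l : ℕ) : ℝ) ≤ N / l := Nat.cast_div_le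
    have h2 : (1 : ℝ) ≤ N / l := by
      rw [one_le_div hl0]
      exact_mod_cast hlN
    rw [hN']
    push_cast
    have e : 3 * (N : ℝ) / l = 3 * (N / l) := by ring
    rw [e]
    linarith
  have hN'ge : (N : ℝ) / l ≤ N' := by
    rw [div_le_iff₀ hl0]
    have h1 : N < l * (N / l + 1) := Nat.lt_mul_div_succ N (by omega)
    have h2 : N ≤ N' * l := by
      rw [hN']
      nlinarith
    exact_mod_cast h2
  have hlogN' : L / 2 ≤ Real.log N' := by
    have h1 : (N : ℝ) ≤ (N' : ℝ) ^ 2 := by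
      have h2 : ((l : ℝ)) * l ≤ N := by exact_mod_cast hN2
      have h3 : (N : ℝ) ≤ N' * l := (div_le_iff₀ hl0).1 hN'ge
      have h4 : (l : ℝ) ≤ N' := by
        refine le_trans ?_ hN'ge
        rw [le_div_iff₀ hl0]
        exact h2
      have h5 : (0 : ℝ) ≤ N' := Nat.cast_nonneg _
      nlinarith
    have h2 := Real.log_le_log hN0 h1
    rw [Real.log_pow] at h2
    push_cast at h2
    rw [← hL] at h2
    linarith
  have hlogp : (Real.log N') ^ (ε - 1 / 2) ≤ 2 * L ^ (ε - 1 / 2) := by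
    have h1 : (Real.log N') ^ (ε - 1 / 2) ≤ (L / 2) ^ (ε - 1 / 2) :=
      Real.rpow_le_rpow_of_nonpos (by positivity) hlogN' (by linarith)
    refine h1.trans ?_
    rw [Real.div_rpow hL0.le (by norm_num), div_eq_mul_inv, ← Real.rpow_neg (by norm_num)]
    have h2 : (2 : ℝ) ^ (-(ε - 1 / 2)) ≤ 2 := by
      calc (2 : ℝ) ^ (-(ε - 1 / 2)) ≤ (2 : ℝ) ^ (1 : ℝ) :=
            Real.rpow_le_rpow_of_exponent_le (by norm_num) (by linarith)
        _ = 2 := Real.rpow_one _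
    nlinarith
  set S := ({(l : ℤ), -(l : ℤ)} : Finset ℤ).filter (fun D => ¬ IsSquare D) with hS
  set Y : ℤ → Finset ℕ := fun D => (Ioc (a / l) (a / l + N')).filter
    (Cn (fun _ : Fin 1 => D) (fun _ => (c : ℤ) - 2 * l) l ∅) with hY
  have hsub : T ⊆ S.biUnion (fun D => (Y D).image (fun m => c + l * (m - 1))) := by
    intro n hn
    obtain ⟨hn2, hnc⟩ := hmod n hn
    rw [hT, mem_filter, mem_Ioc] at hn
    obtain ⟨D, hD1, hD2, hD3⟩ := (facts hl1 hn.2.2.2).2.2.2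
    rw [mem_biUnion]
    refine ⟨D, ?_, ?_⟩
    · rw [hS, mem_filter, mem_insert, mem_singleton]
      exact ⟨hD1, hD2⟩
    · rw [mem_image]
      refine ⟨n / l + 1, ?_, ?_⟩
      · simp only [hY]
        rw [mem_filter, mem_Ioc]
        refine ⟨⟨?_, ?_⟩, ?_⟩
        · have := Nat.div_le_div_right (c := l) hn.1.1.le
          omega
        · have h1 := Nat.div_le_div_right (c := l) hn.1.2
          have h2 : (a + N) / l ≤ a / l + N / l + 1 := by
            have h3 : a < l * (a / l + 1) := Nat.lt_mul_div_succ a (by omega)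
            have h4 : N < l * (N / l + 1) := Nat.lt_mul_div_succ N (by omega)
            have h5 : a + N < (a / l + N / l + 1 + 1) * l := by nlinarith
            have h6 := (Nat.div_lt_iff_lt_mul (by omega : 0 < l)).2 h5
            omega
          rw [hN']
          omega
        · intro p hp _ i hi
          have h1 := hD3 p hp hi
          have e1 : ((l : ℤ) * ((n / l + 1 : ℕ) : ℤ) + ((c : ℤ) - 2 * l)) = (n : ℤ) - l := by
            have e2 : (n : ℤ) = c + l * ((n / l : ℕ) : ℤ) := by exact_mod_cast hnc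
            push_cast
            push_cast at e2
            linarith
          simp only
          rw [e1]
          exact h1
      · rw [Nat.add_sub_cancel]
        exact hnc.symm
  have hYb : ∀ D ∈ S, (((Y D).image (fun m => c + l * (m - 1))).card : ℝ) ≤
      6 * C * N * Q * L ^ (ε - 1 / 2) * (1 / l) := by
    intro D hD
    rw [hS, mem_filter, mem_insert, mem_singleton] at hD
    have h1 : ((Y D).card : ℝ) ≤ C * N' * (1 + Real.log Λ) ^ (((1 : ℕ) : ℝ) / 2) *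
          (Real.log N') ^ (ε - ((1 : ℕ) : ℝ) / 2) := H N' hN'3 Λ hΛ (fun _ => D) (fun _ => hD.2) (fun _ => by
        rcases hD.1 with h | h <;> rw [h] <;> omega) l (fun p _ _ hch => ch_neg_dvd hD.1 hch)
      ∅ (fun p hp => absurd hp (Finset.notMem_empty p)) (by simp) (fun _ => (c : ℤ) - 2 * l)
      (fun p _ _ i j hij => absurd (Subsingleton.elim i j) hij) (a / l)
    have h2 : (((Y D).image (fun m => c + l * (m - 1))).card : ℝ) ≤
        C * N' * (1 + Real.log Λ) ^ (((1 : ℕ) : ℝ) / 2) *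
          (Real.log N') ^ (ε - ((1 : ℕ) : ℝ) / 2) := by
      exact le_trans (Nat.cast_le.2 Finset.card_image_le) h1
    rw [Nat.cast_one] at h2
    refine h2.trans ?_
    calc C * N' * (1 + Real.log Λ) ^ ((1 : ℝ) / 2) * (Real.log N') ^ (ε - (1 : ℝ) / 2)
        ≤ C * (3 * N / l) * Q * (2 * L ^ (ε - 1 / 2)) := by
          rw [← hQ]
          gcongr
      _ = _ := by ring
  have h1 := (Finset.card_le_card hsub).trans Finset.card_biUnion_le
  have h2 : (T.card : ℝ) ≤ ∑ D ∈ S, (((Y D).image (fun m => c + l * (m - 1))).card : ℝ) := by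
    exact_mod_cast h1
  have h3 := h2.trans (sum_le_sum hYb)
  rw [sum_const, nsmul_eq_mul] at h3
  have h4 : (S.card : ℝ) ≤ 2 := by
    have h5 : S.card ≤ 2 := (card_filter_le _ _).trans Finset.card_le_two
    exact_mod_cast h5
  refine h3.trans ?_
  calc (S.card : ℝ) * (6 * C * N * Q * L ^ (ε - 1 / 2) * (1 / l)) ≤
        2 * (6 * C * N * Q * L ^ (ε - 1 / 2) * (1 / l)) := by
        apply mul_le_mul_of_nonneg_right h4
        positivity
    _ = _ := by ring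

theorem harm (Λ : ℕ) : ∑ g ∈ Icc 1 Λ, 1 / (g : ℝ) ≤ 1 + Real.log Λ := by
  have h := harmonic_le_one_add_log Λ
  rw [harmonic_eq_sum_Icc] at h
  push_cast at h
  simpa [one_div] using h

/-- block sizes of designs with index at most `Λ` -/
theorem small (ε : ℝ) (hε : 0 < ε) : ∃ C : ℝ, 0 < C ∧ ∀ N : ℕ, 3 ≤ N → ∀ Λ : ℕ, 1 ≤ Λ → ∀ a : ℕ,
    (((Ioc a (a + N)).filter (fun n : ℕ => ∃ lam : ℕ, 1 ≤ lam ∧ lam ≤ Λ ∧ IsK lam n)).card : ℝ) ≤
      C * N * (1 + Real.log Λ) ^ (5 / 2 : ℝ) * (Real.log N) ^ (ε - 1 / 2) := by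
  set ε' : ℝ := min ε (1 / 4) with hε'
  have hε'0 : 0 < ε' := lt_min hε (by norm_num)
  obtain ⟨C, hC, H⟩ := cls ε' hε'0 (min_le_right _ _)
  refine ⟨C + 2, by positivity, ?_⟩
  intro N hN Λ hΛ a
  have hlogΛ : 0 ≤ Real.log Λ := Real.log_natCast_nonneg Λ
  have hΛ1 : (1 : ℝ) ≤ Λ := by exact_mod_cast hΛ
  have hN3 : (3 : ℝ) ≤ N := by exact_mod_cast hN
  have hN0 : (0 : ℝ) < N := by linarith
  obtain ⟨hL1, -⟩ := d3_log hN
  set L := Real.log N with hL
  have hL0 : 0 < L := by linarith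
  set W : ℝ := 1 + Real.log Λ with hW
  have hW1 : 1 ≤ W := by linarith
  have hW0 : 0 < W := by linarith
  have hLε : 0 < L ^ (ε - 1 / 2) := Real.rpow_pos_of_pos hL0 _
  have hW5 : 0 < W ^ (5 / 2 : ℝ) := Real.rpow_pos_of_pos hW0 _
  set T := (Ioc a (a + N)).filter (fun n : ℕ => ∃ lam : ℕ, 1 ≤ lam ∧ lam ≤ Λ ∧ IsK lam n) with hT
  rcases Nat.lt_or_ge N (Λ * Λ) with hbig | hsm
  · -- trivial bound
    have h1 : (T.card : ℝ) ≤ N := by
      have h2 : T.card ≤ (Ioc a (a + N)).card := Finset.card_filter_le _ _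
      rw [Nat.card_Ioc] at h2
      have h3 : T.card ≤ N := by omega
      exact_mod_cast h3
    have h2 : L ≤ 2 * Real.log Λ := by
      have h3 : (N : ℝ) ≤ (Λ : ℝ) ^ 2 := by
        have : (N : ℝ) ≤ ((Λ * Λ : ℕ) : ℝ) := by exact_mod_cast hbig.le
        push_cast at this
        nlinarith
      have h4 := Real.log_le_log hN0 h3
      rw [Real.log_pow] at h4
      push_cast at h4
      exact h4
    have h3 : (L / 2) ^ (1 / 2 : ℝ) ≤ W ^ (5 / 2 : ℝ) := by
      calc (L / 2) ^ (1 / 2 : ℝ) ≤ W ^ (1 / 2 : ℝ) :=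
            Real.rpow_le_rpow (by positivity) (by linarith) (by norm_num)
        _ ≤ W ^ (5 / 2 : ℝ) := Real.rpow_le_rpow_of_exponent_le hW1 (by norm_num)
    have h4 : L ^ (-(1 / 2) : ℝ) ≤ L ^ (ε - 1 / 2) :=
      Real.rpow_le_rpow_of_exponent_le hL1 (by linarith)
    have h5 : 1 / 2 ≤ W ^ (5 / 2 : ℝ) * L ^ (ε - 1 / 2) := by
      calc (1 : ℝ) / 2 ≤ (1 / 2 : ℝ) ^ (1 / 2 : ℝ) := by
            calc (1 : ℝ) / 2 = (1 / 2 : ℝ) ^ (1 : ℝ) := (Real.rpow_one _).symm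
              _ ≤ (1 / 2 : ℝ) ^ (1 / 2 : ℝ) :=
                Real.rpow_le_rpow_of_exponent_ge (by norm_num) (by norm_num) (by norm_num)
        _ = (L / 2) ^ (1 / 2 : ℝ) * L ^ (-(1 / 2) : ℝ) := by
            have e : L / 2 = L * (1 / 2) := by ring
            rw [e, Real.mul_rpow hL0.le (by norm_num), mul_comm (L ^ (1 / 2 : ℝ)), mul_assoc,
              ← Real.rpow_add hL0]
            norm_num
        _ ≤ _ := mul_le_mul h3 h4 (Real.rpow_nonneg hL0.le _) hW5.le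
    refine h1.trans ?_
    calc (N : ℝ) = 2 * N * (1 / 2) := by ring
      _ ≤ 2 * N * (W ^ (5 / 2 : ℝ) * L ^ (ε - 1 / 2)) := by
          apply mul_le_mul_of_nonneg_left h5
          positivity
      _ ≤ (C + 2) * N * (W ^ (5 / 2 : ℝ) * L ^ (ε - 1 / 2)) := by
          gcongr
          linarith
      _ = _ := by ring
  · set P := ((Icc 1 Λ) ×ˢ (Icc 1 Λ)).filter (fun q => Nat.Coprime q.1 q.2 ∧ q.1 * q.2 ≤ Λ) with hP
    set Y : ℕ × ℕ → Finset ℕ := fun q => (Ioc a (a + N)).filter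
      (fun n => q.1 ∣ n ∧ q.2 ∣ n - 1 ∧ IsK (q.1 * q.2) n) with hY
    have hsub : T ⊆ P.biUnion Y := by
      intro n hn
      rw [hT, mem_filter] at hn
      obtain ⟨hn1, lam, hl1, hlΛ, hK⟩ := hn
      obtain ⟨hn2, -, hd, -⟩ := facts hl1 hK
      obtain ⟨g, e, hg, he, hge⟩ := Nat.dvd_mul.1 hd
      have hg0 : 1 ≤ g := by
        rcases Nat.eq_zero_or_pos g with h | h
        · rw [h, zero_mul] at hge
          omega
        · exact h
      have he0 : 1 ≤ e := by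
        rcases Nat.eq_zero_or_pos e with h | h
        · rw [h, mul_zero] at hge
          omega
        · exact h
      have hcop : Nat.Coprime g e := by
        have h1 : Nat.Coprime n (n - 1) := by
          obtain ⟨m, rfl⟩ : ∃ m, n = m + 1 := ⟨n - 1, by omega⟩
          simp
        exact Nat.Coprime.of_dvd_left hg (Nat.Coprime.of_dvd_right he h1)
      rw [mem_biUnion]
      refine ⟨(g, e), ?_, ?_⟩
      · rw [hP, mem_filter, mem_product, mem_Icc, mem_Icc]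
        simp only
        refine ⟨⟨⟨hg0, ?_⟩, he0, ?_⟩, hcop, by omega⟩
        · nlinarith
        · nlinarith
      · simp only [hY]
        rw [mem_filter]
        refine ⟨hn1, hg, he, ?_⟩
        rw [hge]
        exact hK
    have h1 := (Finset.card_le_card hsub).trans Finset.card_biUnion_le
    have h2 : (T.card : ℝ) ≤ ∑ q ∈ P, ((Y q).card : ℝ) := by exact_mod_cast h1
    set X : ℝ := C * N * W ^ (1 / 2 : ℝ) * L ^ (ε' - 1 / 2) with hX
    have hX0 : 0 ≤ X := by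
      rw [hX]
      have := Real.rpow_nonneg hL0.le (ε' - 1 / 2)
      have := Real.rpow_nonneg hW0.le (1 / 2 : ℝ)
      positivity
    have h3 : ∀ q ∈ P, ((Y q).card : ℝ) ≤ X * (1 / (q.1 : ℝ) * (1 / (q.2 : ℝ))) := by
      intro q hq
      rw [hP, mem_filter, mem_product, mem_Icc, mem_Icc] at hq
      obtain ⟨⟨⟨h4, -⟩, h5, -⟩, h6, h7⟩ := hq
      exact H N hN Λ hΛ q.1 q.2 h4 h5 h6 h7 ((Nat.mul_le_mul h7 h7).trans hsm) a
    have h4 : ∑ q ∈ P, X * (1 / (q.1 : ℝ) * (1 / (q.2 : ℝ))) ≤ X * W ^ 2 := by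
      rw [← mul_sum]
      apply mul_le_mul_of_nonneg_left _ hX0
      calc ∑ q ∈ P, (1 / (q.1 : ℝ) * (1 / (q.2 : ℝ))) ≤
            ∑ q ∈ (Icc 1 Λ) ×ˢ (Icc 1 Λ), (1 / (q.1 : ℝ) * (1 / (q.2 : ℝ))) := by
            apply sum_le_sum_of_subset_of_nonneg (filter_subset _ _)
            intro q _ _
            positivity
        _ = (∑ g ∈ Icc 1 Λ, 1 / (g : ℝ)) * ∑ e ∈ Icc 1 Λ, 1 / (e : ℝ) := by
            rw [sum_mul_sum, sum_product]
        _ ≤ W * W := by
            have := harm Λ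
            have h0 : 0 ≤ ∑ g ∈ Icc 1 Λ, 1 / (g : ℝ) := sum_nonneg fun g _ => by positivity
            exact mul_le_mul this this h0 hW0.le
        _ = W ^ 2 := by ring
    have h5 := h2.trans ((sum_le_sum h3).trans h4)
    refine h5.trans ?_
    have e1 : W ^ (1 / 2 : ℝ) * W ^ 2 = W ^ (5 / 2 : ℝ) := by
      rw [← Real.rpow_natCast W 2, ← Real.rpow_add hW0]
      norm_num
    have e2 : L ^ (ε' - 1 / 2) ≤ L ^ (ε - 1 / 2) :=
      Real.rpow_le_rpow_of_exponent_le hL1 (by linarith [min_le_left ε (1 / 4 : ℝ)])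
    calc X * W ^ 2 = C * N * (W ^ (1 / 2 : ℝ) * W ^ 2) * L ^ (ε' - 1 / 2) := by rw [hX]; ring
      _ = C * N * W ^ (5 / 2 : ℝ) * L ^ (ε' - 1 / 2) := by rw [e1]
      _ ≤ C * N * W ^ (5 / 2 : ℝ) * L ^ (ε - 1 / 2) := by
          apply mul_le_mul_of_nonneg_left e2
          positivity
      _ ≤ (C + 2) * N * W ^ (5 / 2 : ℝ) * L ^ (ε - 1 / 2) := by
          gcongr
          linarith

/-- for almost all `k` there is no design with index at most `exp ((log k) ^ δ)`, `δ < 1/5` -/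
theorem density (δ : ℝ) (hδ0 : 0 < δ) (hδ : δ < 1 / 5) :
    Tendsto (fun X : ℕ => (((range X).filter (fun k : ℕ => ∃ lam : ℕ, 1 ≤ lam ∧
      (lam : ℝ) ≤ Real.exp ((Real.log k) ^ δ) ∧ IsK lam k)).card : ℝ) / X) atTop (𝓝 0) := by
  set ε : ℝ := (1 / 2 - 5 / 2 * δ) / 2 with hε
  have hε0 : 0 < ε := by
    rw [hε]
    linarith
  obtain ⟨C, hC, H⟩ := small ε hε0
  set C' : ℝ := C * 2 ^ (5 / 2 : ℝ) with hC'
  have hlim : Tendsto (fun X : ℕ => C' * (Real.log X) ^ (-ε)) atTop (𝓝 0) := by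
    have h1 : Tendsto (fun X : ℕ => (Real.log X) ^ (-ε)) atTop (𝓝 0) :=
      (tendsto_rpow_neg_atTop hε0).comp (Real.tendsto_log_atTop.comp tendsto_natCast_atTop_atTop)
    have h2 := h1.const_mul C'
    rwa [mul_zero] at h2
  apply squeeze_zero' _ _ hlim
  · exact Eventually.of_forall fun X => by positivity
  · filter_upwards [eventually_ge_atTop 3] with X hX
    have hX3 : (3 : ℝ) ≤ X := by exact_mod_cast hX
    have hX0 : (0 : ℝ) < X := by linarith
    obtain ⟨hL1, -⟩ := d3_log hX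
    set L := Real.log X with hL
    have hL0 : 0 < L := by linarith
    have hLδ1 : 1 ≤ L ^ δ := Real.one_le_rpow hL1 hδ0.le
    set Λ : ℕ := ⌊Real.exp (L ^ δ)⌋₊ with hΛ
    have hΛle : (Λ : ℝ) ≤ Real.exp (L ^ δ) := Nat.floor_le (Real.exp_pos _).le
    have hΛ1 : 1 ≤ Λ := by
      rw [hΛ]
      apply Nat.le_floor
      rw [Nat.cast_one]
      exact Real.one_le_exp (by linarith)
    have hΛ0 : (0 : ℝ) < Λ := by
      have : 0 < Λ := by omega
      exact_mod_cast this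
    have hlogΛ : Real.log Λ ≤ L ^ δ := by
      have := Real.log_le_log hΛ0 hΛle
      rwa [Real.log_exp] at this
    have hlogΛ0 : 0 ≤ Real.log Λ := Real.log_natCast_nonneg Λ
    have h1 := H X hX Λ hΛ1 0
    rw [zero_add, ← hL] at h1
    have hsub : (range X).filter (fun k : ℕ => ∃ lam : ℕ, 1 ≤ lam ∧
        (lam : ℝ) ≤ Real.exp ((Real.log k) ^ δ) ∧ IsK lam k) ⊆
        (Ioc 0 X).filter (fun n : ℕ => ∃ lam : ℕ, 1 ≤ lam ∧ lam ≤ Λ ∧ IsK lam n) := by
      intro k hk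
      rw [mem_filter, mem_range] at hk
      obtain ⟨hkX, lam, hl1, hl2, hK⟩ := hk
      have hk2 := (facts hl1 hK).1
      rw [mem_filter, mem_Ioc]
      refine ⟨⟨by omega, hkX.le⟩, lam, hl1, ?_, hK⟩
      apply Nat.le_floor
      refine hl2.trans ?_
      apply Real.exp_le_exp.2
      apply Real.rpow_le_rpow (Real.log_natCast_nonneg k) _ hδ0.le
      apply Real.log_le_log
      · have : 0 < k := by omega
        exact_mod_cast this
      · exact_mod_cast hkX.le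
    have h2 : (((range X).filter (fun k : ℕ => ∃ lam : ℕ, 1 ≤ lam ∧
        (lam : ℝ) ≤ Real.exp ((Real.log k) ^ δ) ∧ IsK lam k)).card : ℝ) ≤
        C * X * (1 + Real.log Λ) ^ (5 / 2 : ℝ) * L ^ (ε - 1 / 2) := by
      refine le_trans ?_ h1
      exact_mod_cast Finset.card_le_card hsub
    rw [div_le_iff₀ hX0]
    refine h2.trans ?_
    have h3 : (1 + Real.log Λ) ^ (5 / 2 : ℝ) ≤ 2 ^ (5 / 2 : ℝ) * L ^ (5 / 2 * δ) := by
      calc (1 + Real.log Λ) ^ (5 / 2 : ℝ) ≤ (2 * L ^ δ) ^ (5 / 2 : ℝ) :=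
            Real.rpow_le_rpow (by linarith) (by linarith) (by norm_num)
        _ = 2 ^ (5 / 2 : ℝ) * L ^ (5 / 2 * δ) := by
            rw [Real.mul_rpow (by norm_num) (by positivity), ← Real.rpow_mul hL0.le]
            congr 2
            ring
    have hLp : 0 ≤ L ^ (ε - 1 / 2) := Real.rpow_nonneg hL0.le _
    calc C * X * (1 + Real.log Λ) ^ (5 / 2 : ℝ) * L ^ (ε - 1 / 2) ≤
          C * X * (2 ^ (5 / 2 : ℝ) * L ^ (5 / 2 * δ)) * L ^ (ε - 1 / 2) := by
          gcongr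
      _ = C' * (L ^ (5 / 2 * δ) * L ^ (ε - 1 / 2)) * X := by rw [hC']; ring
      _ = C' * L ^ (-ε) * X := by
          rw [← Real.rpow_add hL0]
          congr 3
          rw [hε]
          ring

end Pool.Agent.U646.HC
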