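import Pool.Agent.U646.HC.E

set_option autoImplicit false

/-!
# The proportion of admissible parameters
-/

namespace Pool.Agent.U646.HC

open Finset Filter Topology
open Pool.Agent.H951R4.OD (ch d3_log sum_sq_inv)
open scoped Classical

/-- a symmetric `(v, k, lam)` design with `2 ≤ k < v` exists for some `v` -/
def IsD (lam k : ℕ) : Prop := ∃ (v : ℕ) (B : Fin v → Finset (Fin v)),
  2 ≤ k ∧ k < v ∧ (∀ i, (B i).card = k) ∧
  (∀ x y : Fin v, x ≠ y →
    (Finset.univ.filter (fun i => x ∈ B i ∧ y ∈ B i)).card = lam)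

theorem IsD_or {lam k : ℕ} (h : IsD lam k) : IsK lam k ∨ IsSquare lam := by
  obtain ⟨v, B, h1, h2, h3, h4⟩ := h
  by_cases hs : IsSquare lam
  · exact Or.inr hs
  · exact Or.inl ⟨v, B, h1, h2, h3, h4, Or.inl hs⟩

theorem IsD_dvd {lam k : ℕ} (hlam : 1 ≤ lam) (h : IsD lam k) :
    2 ≤ k ∧ lam < k ∧ lam ∣ k * (k - 1) := by
  obtain ⟨v, B, hk2, hkv, hBk, hBp⟩ := h
  obtain ⟨hr, hkk⟩ := repl v k lam (by omega) hlam B hBk hBp
  have hlk : lam < k := by
    by_contra hcon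
    push Not at hcon
    have h1 : k * k ≤ lam * (v - 1) := Nat.mul_le_mul hcon (by omega)
    omega
  refine ⟨hk2, hlk, v - 1, ?_⟩
  rw [Nat.mul_sub, mul_one]
  omega

/-- the pairs `(k, lam)` of admissible parameters: `v = 1 + k (k - 1) / lam` is an integer and
`lam < k` -/
noncomputable def Adm (a N Λ : ℕ) : Finset (ℕ × ℕ) :=
  ((Ioc a (a + N)) ×ˢ (Icc 1 Λ)).filter (fun q => q.2 < q.1 ∧ q.2 ∣ q.1 * (q.1 - 1))

/-- the pairs `(k, lam)` for which a symmetric design exists -/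
noncomputable def Des (a N Λ : ℕ) : Finset (ℕ × ℕ) :=
  ((Ioc a (a + N)) ×ˢ (Icc 1 Λ)).filter (fun q => IsD q.2 q.1)

theorem factor {n lam : ℕ} (hn : 2 ≤ n) (hlam : 1 ≤ lam) (hd : lam ∣ n * (n - 1)) :
    ∃ g e : ℕ, 1 ≤ g ∧ 1 ≤ e ∧ g ∣ n ∧ e ∣ n - 1 ∧ g * e = lam ∧ Nat.Coprime g e := by
  obtain ⟨g, e, hg, he, hge⟩ := Nat.dvd_mul.1 hd
  have hg0 : 1 ≤ g := by
    rcases Nat.eq_zero_or_pos g with h | h
    · rw [h, zero_mul] at hge
      omega
    · exact h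
  have he0 : 1 ≤ e := by
    rcases Nat.eq_zero_or_pos e with h | h
    · rw [h, mul_zero] at hge
      omega
    · exact h
  have hcop : Nat.Coprime g e := by
    have h1 : Nat.Coprime n (n - 1) := by
      obtain ⟨m, rfl⟩ : ∃ m, n = m + 1 := ⟨n - 1, by omega⟩
      simp
    exact Nat.Coprime.of_dvd_left hg (Nat.Coprime.of_dvd_right he h1)
  exact ⟨g, e, hg0, he0, hg, he, hge, hcop⟩

/-- pairs outside of the exceptional class -/
theorem pairsK (ε : ℝ) (hε : 0 < ε) : ∃ C : ℝ, 0 < C ∧ ∀ N : ℕ, 3 ≤ N → ∀ Λ : ℕ, 1 ≤ Λ →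
    Λ * Λ ≤ N → ∀ a : ℕ,
    ((((Ioc a (a + N)) ×ˢ (Icc 1 Λ)).filter (fun q : ℕ × ℕ => IsK q.2 q.1)).card : ℝ) ≤
      C * N * (1 + Real.log Λ) ^ (5 / 2 : ℝ) * (Real.log N) ^ (ε - 1 / 2) := by
  set ε' : ℝ := min ε (1 / 4) with hε'
  have hε'0 : 0 < ε' := lt_min hε (by norm_num)
  obtain ⟨C, hC, H⟩ := cls ε' hε'0 (min_le_right _ _)
  refine ⟨C, hC, ?_⟩
  intro N hN Λ hΛ hsm a
  have hlogΛ : 0 ≤ Real.log Λ := Real.log_natCast_nonneg Λ
  obtain ⟨hL1, -⟩ := d3_log hN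
  set L := Real.log N with hL
  have hL0 : 0 < L := by linarith
  have hN0 : (0 : ℝ) ≤ N := Nat.cast_nonneg N
  set W : ℝ := 1 + Real.log Λ with hW
  have hW1 : 1 ≤ W := by linarith
  have hW0 : 0 < W := by linarith
  have hLε : 0 < L ^ (ε - 1 / 2) := Real.rpow_pos_of_pos hL0 _
  have hW5 : 0 < W ^ (5 / 2 : ℝ) := Real.rpow_pos_of_pos hW0 _
  set T := ((Ioc a (a + N)) ×ˢ (Icc 1 Λ)).filter (fun q : ℕ × ℕ => IsK q.2 q.1) with hT
  set P := ((Icc 1 Λ) ×ˢ (Icc 1 Λ)).filter (fun q => Nat.Coprime q.1 q.2 ∧ q.1 * q.2 ≤ Λ) with hP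
  set Y : ℕ × ℕ → Finset ℕ := fun q => (Ioc a (a + N)).filter
    (fun n => q.1 ∣ n ∧ q.2 ∣ n - 1 ∧ IsK (q.1 * q.2) n) with hY
  have hsub : T ⊆ P.biUnion (fun q => (Y q).image (fun n => (n, q.1 * q.2))) := by
    rintro ⟨n, lam⟩ hn
    rw [hT, mem_filter, mem_product, mem_Icc] at hn
    obtain ⟨⟨hn1, hl1, hlΛ⟩, hK⟩ := hn
    simp only at hn1 hl1 hlΛ hK
    obtain ⟨hn2, -, hd, -⟩ := facts hl1 hK
    obtain ⟨g, e, hg0, he0, hg, he, hge, hcop⟩ := factor hn2 hl1 hd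
    rw [mem_biUnion]
    refine ⟨(g, e), ?_, ?_⟩
    · rw [hP, mem_filter, mem_product, mem_Icc, mem_Icc]
      simp only
      refine ⟨⟨⟨hg0, ?_⟩, he0, ?_⟩, hcop, by omega⟩
      · nlinarith
      · nlinarith
    · rw [mem_image]
      refine ⟨n, ?_, ?_⟩
      · simp only [hY]
        rw [mem_filter]
        refine ⟨hn1, hg, he, ?_⟩
        rw [hge]
        exact hK
      · simp only
        rw [hge]
  have h1 := (Finset.card_le_card hsub).trans Finset.card_biUnion_le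
  have h2 : (T.card : ℝ) ≤ ∑ q ∈ P, ((Y q).card : ℝ) := by
    have h3 : ∑ q ∈ P, ((Y q).image (fun n => (n, q.1 * q.2))).card ≤ ∑ q ∈ P, (Y q).card :=
      sum_le_sum fun q _ => card_image_le
    exact_mod_cast h1.trans h3
  set X : ℝ := C * N * W ^ (1 / 2 : ℝ) * L ^ (ε' - 1 / 2) with hX
  have hX0 : 0 ≤ X := by
    rw [hX]
    have := Real.rpow_nonneg hL0.le (ε' - 1 / 2)
    have := Real.rpow_nonneg hW0.le (1 / 2 : ℝ)
    positivity
  have h3 : ∀ q ∈ P, ((Y q).card : ℝ) ≤ X * (1 / (q.1 : ℝ) * (1 / (q.2 : ℝ))) := by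
    intro q hq
    rw [hP, mem_filter, mem_product, mem_Icc, mem_Icc] at hq
    obtain ⟨⟨⟨h4, -⟩, h5, -⟩, h6, h7⟩ := hq
    exact H N hN Λ hΛ q.1 q.2 h4 h5 h6 h7 ((Nat.mul_le_mul h7 h7).trans hsm) a
  have h4 : ∑ q ∈ P, X * (1 / (q.1 : ℝ) * (1 / (q.2 : ℝ))) ≤ X * W ^ 2 := by
    rw [← mul_sum]
    apply mul_le_mul_of_nonneg_left _ hX0
    calc ∑ q ∈ P, (1 / (q.1 : ℝ) * (1 / (q.2 : ℝ))) ≤
          ∑ q ∈ (Icc 1 Λ) ×ˢ (Icc 1 Λ), (1 / (q.1 : ℝ) * (1 / (q.2 : ℝ))) := by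
          apply sum_le_sum_of_subset_of_nonneg (filter_subset _ _)
          intro q _ _
          positivity
      _ = (∑ g ∈ Icc 1 Λ, 1 / (g : ℝ)) * ∑ e ∈ Icc 1 Λ, 1 / (e : ℝ) := by
          rw [sum_mul_sum, sum_product]
      _ ≤ W * W := by
          have := harm Λ
          have h0 : 0 ≤ ∑ g ∈ Icc 1 Λ, 1 / (g : ℝ) := sum_nonneg fun g _ => by positivity
          exact mul_le_mul this this h0 hW0.le
      _ = W ^ 2 := by ring
  have h5 := h2.trans ((sum_le_sum h3).trans h4)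
  refine h5.trans ?_
  have e1 : W ^ (1 / 2 : ℝ) * W ^ 2 = W ^ (5 / 2 : ℝ) := by
    rw [← Real.rpow_natCast W 2, ← Real.rpow_add hW0]
    norm_num
  have e2 : L ^ (ε' - 1 / 2) ≤ L ^ (ε - 1 / 2) :=
    Real.rpow_le_rpow_of_exponent_le hL1 (by linarith [min_le_left ε (1 / 4 : ℝ)])
  calc X * W ^ 2 = C * N * (W ^ (1 / 2 : ℝ) * W ^ 2) * L ^ (ε' - 1 / 2) := by rw [hX]; ring
    _ = C * N * W ^ (5 / 2 : ℝ) * L ^ (ε' - 1 / 2) := by rw [e1]
    _ ≤ C * N * W ^ (5 / 2 : ℝ) * L ^ (ε - 1 / 2) := by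
        apply mul_le_mul_of_nonneg_left e2
        positivity

/-- integers in a residue class: upper bound -/
theorem class_up {g e N a : ℕ} (hg : 1 ≤ g) (he : 1 ≤ e) (hge : Nat.Coprime g e)
    (hN : g * e ≤ N) :
    (((Ioc a (a + N)).filter (fun n => 2 ≤ n ∧ g ∣ n ∧ e ∣ n - 1)).card : ℝ) ≤
      3 * N * (1 / g * (1 / e)) := by
  obtain ⟨l, hl⟩ : ∃ l, l = g * e := ⟨_, rfl⟩
  have hl1 : 1 ≤ l := by rw [hl]; exact Nat.mul_pos hg he
  have hlr : (1 : ℝ) ≤ l := by exact_mod_cast hl1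
  have hl0 : (0 : ℝ) < l := by linarith
  have hrhs : (1 / (g : ℝ) * (1 / e)) = 1 / l := by
    rw [hl]
    push_cast
    rw [one_div_mul_one_div]
  rw [hrhs]
  rw [← hl] at hN
  set T := (Ioc a (a + N)).filter (fun n => 2 ≤ n ∧ g ∣ n ∧ e ∣ n - 1) with hT
  have hinj : Set.InjOn (fun n => n / l) (T : Set ℕ) := by
    intro n hn n0 hn0 hnn
    rw [mem_coe, hT, mem_filter] at hn hn0
    have e1 : (g : ℤ) ∣ (n : ℤ) - n0 :=
      dvd_sub (by exact_mod_cast hn.2.2.1) (by exact_mod_cast hn0.2.2.1)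
    have e2 : (e : ℤ) ∣ (n : ℤ) - n0 := by
      have h3 : (e : ℤ) ∣ ((n - 1 : ℕ) : ℤ) := by exact_mod_cast hn.2.2.2
      have h4 : (e : ℤ) ∣ ((n0 - 1 : ℕ) : ℤ) := by exact_mod_cast hn0.2.2.2
      have h5 := dvd_sub h3 h4
      rw [Nat.cast_sub (by omega), Nat.cast_sub (by omega)] at h5
      have e3 : (n : ℤ) - (1 : ℕ) - ((n0 : ℤ) - (1 : ℕ)) = n - n0 := by ring
      rwa [e3] at h5
    have e3 : ((l : ℕ) : ℤ) ∣ (n : ℤ) - n0 := by
      rw [hl]
      push_cast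
      exact IsCoprime.mul_dvd (Nat.isCoprime_iff_coprime.2 hge) e1 e2
    have e4 : n0 % l = n % l := (Nat.modEq_iff_dvd.2 e3)
    have h1 := Nat.mod_add_div n l
    have h2 := Nat.mod_add_div n0 l
    have h3 : n / l = n0 / l := hnn
    rw [← h1, ← h2, e4, h3]
  have hmaps : T.image (fun n => n / l) ⊆ Icc (a / l) (a / l + N / l + 1) := by
    intro m hm
    rw [mem_image] at hm
    obtain ⟨n, hn, rfl⟩ := hm
    rw [hT, mem_filter, mem_Ioc] at hn
    rw [mem_Icc]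
    refine ⟨Nat.div_le_div_right hn.1.1.le, ?_⟩
    have h1 := Nat.div_le_div_right (c := l) hn.1.2
    have h2 : (a + N) / l ≤ a / l + N / l + 1 := by
      have h3 : a < l * (a / l + 1) := Nat.lt_mul_div_succ a (by omega)
      have h4 : N < l * (N / l + 1) := Nat.lt_mul_div_succ N (by omega)
      have h5 : a + N < (a / l + N / l + 1 + 1) * l := by nlinarith
      have h6 := (Nat.div_lt_iff_lt_mul (by omega : 0 < l)).2 h5
      omega
    omega
  have h1 := Finset.card_le_card hmaps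
  rw [Finset.card_image_of_injOn hinj, Nat.card_Icc] at h1
  have aux : ∀ x y z : ℕ, z ≤ x + y + 1 + 1 - x → z ≤ y + 2 := by
    intro x y z h
    omega
  have h2 : T.card ≤ N / l + 2 := aux _ _ _ h1
  have h3 : (T.card : ℝ) ≤ ((N / l : ℕ) : ℝ) + 2 := by exact_mod_cast h2
  have h4 : ((N / l : ℕ) : ℝ) ≤ N / l := Nat.cast_div_le
  have h5 : (1 : ℝ) ≤ N / l := by
    rw [one_le_div hl0]
    exact_mod_cast hN
  have e : 3 * (N : ℝ) * (1 / l) = 3 * (N / l) := by ring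
  rw [e]
  linarith

/-- integers in a residue class: lower bound -/
theorem class_low {g e N b : ℕ} (hg : 1 ≤ g) (he : 1 ≤ e) (hge : Nat.Coprime g e)
    (hN : g * e ≤ N) :
    (N : ℝ) / 2 * (1 / g * (1 / e)) ≤
      (((Ioc b (b + N)).filter (fun n => 1 ≤ n ∧ g ∣ n ∧ e ∣ n - 1)).card : ℝ) := by
  obtain ⟨l, hl⟩ : ∃ l, l = g * e := ⟨_, rfl⟩
  have hl1 : 1 ≤ l := by rw [hl]; exact Nat.mul_pos hg he
  have hlr : (1 : ℝ) ≤ l := by exact_mod_cast hl1
  have hl0 : (0 : ℝ) < l := by linarith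
  have hrhs : (1 / (g : ℝ) * (1 / e)) = 1 / l := by
    rw [hl]
    push_cast
    rw [one_div_mul_one_div]
  rw [hrhs]
  rw [← hl] at hN
  obtain ⟨c, hc1, hc2⟩ := Nat.chineseRemainder hge 0 1
  -- the first element
  set t : ℕ := (c + (l - 1) * (b + 1)) % l with ht
  have htl : t < l := Nat.mod_lt _ (by omega)
  set base : ℕ := b + 1 + t with hbase
  have hbc : base ≡ c [MOD l] := by
    have h1 : t ≡ c + (l - 1) * (b + 1) [MOD l] := Nat.mod_modEq _ _
    have h2 : base ≡ b + 1 + (c + (l - 1) * (b + 1)) [MOD l] := Nat.ModEq.add_left _ h1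
    have h3 : b + 1 + (c + (l - 1) * (b + 1)) = c + l * (b + 1) := by
      obtain ⟨l', hl'⟩ : ∃ l', l = l' + 1 := ⟨l - 1, by omega⟩
      rw [hl', Nat.add_sub_cancel]
      ring
    rw [h3] at h2
    have h4 : c + l * (b + 1) ≡ c [MOD l] := by
      have h5 : l * (b + 1) ≡ 0 [MOD l] := (Nat.modEq_zero_iff_dvd.2 (dvd_mul_right _ _))
      simpa using Nat.ModEq.add_left c h5
    exact h2.trans h4
  have hsub : (range (N / l)).image (fun j => base + j * l) ⊆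
      (Ioc b (b + N)).filter (fun n => 1 ≤ n ∧ g ∣ n ∧ e ∣ n - 1) := by
    intro n hn
    rw [mem_image] at hn
    obtain ⟨j, hj, rfl⟩ := hn
    rw [mem_range] at hj
    have h1 : (j + 1) * l ≤ N := by
      calc (j + 1) * l ≤ (N / l) * l := Nat.mul_le_mul_right l (by omega)
        _ ≤ N := Nat.div_mul_le_self N l
    have h2 : base + j * l ≡ c [MOD l] := by
      have h5 : j * l ≡ 0 [MOD l] := (Nat.modEq_zero_iff_dvd.2 (dvd_mul_left _ _))
      have h6 := Nat.ModEq.add hbc h5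
      simpa using h6
    have hgl : g ∣ l := by rw [hl]; exact dvd_mul_right _ _
    have hel : e ∣ l := by rw [hl]; exact dvd_mul_left _ _
    rw [mem_filter, mem_Ioc]
    refine ⟨⟨by omega, ?_⟩, by omega, ?_, ?_⟩
    · have e1 : (j + 1) * l = j * l + l := by ring
      omega
    · have h7 : base + j * l ≡ 0 [MOD g] := (h2.of_dvd hgl).trans hc1
      exact (Nat.modEq_zero_iff_dvd.1 h7)
    · have h7 : base + j * l ≡ 1 [MOD e] := (h2.of_dvd hel).trans hc2
      exact (Nat.modEq_iff_dvd' (by omega)).1 h7.symm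
  have h1 := Finset.card_le_card hsub
  rw [Finset.card_image_of_injective, card_range] at h1
  · have h2 : (((N / l : ℕ)) : ℝ) ≤
        (((Ioc b (b + N)).filter (fun n => 1 ≤ n ∧ g ∣ n ∧ e ∣ n - 1)).card : ℝ) := by
      exact_mod_cast h1
    refine le_trans ?_ h2
    have h3 : 1 ≤ N / l := Nat.div_pos hN (by omega)
    have h4 : N < l * (N / l + 1) := Nat.lt_mul_div_succ N (by omega)
    have h5 : N ≤ l * (2 * (N / l)) := by nlinarith
    have h6 : (N : ℝ) ≤ l * (2 * ((N / l : ℕ) : ℝ)) := by exact_mod_cast h5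
    have e1 : (N : ℝ) / 2 * (1 / l) = N / (2 * l) := by
      field_simp
    rw [e1, div_le_iff₀ (by positivity)]
    linarith
  · intro i j hij
    have h2 : i * l = j * l := by
      have : base + i * l = base + j * l := hij
      omega
    exact Nat.eq_of_mul_eq_mul_right (by omega) h2

theorem sum_biUnion_le {ι κ : Type} [DecidableEq κ] (s : Finset ι) (t : ι → Finset κ) (F : κ → ℝ)
    (hF : ∀ x, 0 ≤ F x) : ∑ x ∈ s.biUnion t, F x ≤ ∑ i ∈ s, ∑ x ∈ t i, F x := by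
  induction s using Finset.induction_on with
  | empty => simp
  | insert i s hi ih =>
    rw [biUnion_insert, sum_insert hi]
    have h1 := Finset.sum_union_inter (s₁ := t i) (s₂ := s.biUnion t) (f := F)
    have h2 : 0 ≤ ∑ x ∈ t i ∩ s.biUnion t, F x := sum_nonneg fun x _ => hF x
    linarith

/-- the coprime part of the square of the harmonic sum -/
theorem cop_low (M : ℕ) : 1 / 4 * (∑ g ∈ Icc 1 M, 1 / (g : ℝ)) ^ 2 ≤
    ∑ q ∈ ((Icc 1 M) ×ˢ (Icc 1 M)).filter (fun q : ℕ × ℕ => Nat.Coprime q.1 q.2),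
      (1 / (q.1 : ℝ) * (1 / (q.2 : ℝ))) := by
  set H : ℝ := ∑ g ∈ Icc 1 M, 1 / (g : ℝ) with hH
  have hH0 : 0 ≤ H := sum_nonneg fun g _ => by positivity
  set F : ℕ × ℕ → ℝ := fun q => 1 / (q.1 : ℝ) * (1 / (q.2 : ℝ)) with hF
  have hF0 : ∀ q, 0 ≤ F q := fun q => by positivity
  have hfull : ∑ q ∈ (Icc 1 M) ×ˢ (Icc 1 M), F q = H ^ 2 := by
    rw [sq, hH, sum_mul_sum, sum_product]
  have hsplit := Finset.sum_filter_add_sum_filter_not ((Icc 1 M) ×ˢ (Icc 1 M))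
    (fun q : ℕ × ℕ => Nat.Coprime q.1 q.2) F
  have hbad : ∑ q ∈ ((Icc 1 M) ×ˢ (Icc 1 M)).filter (fun q : ℕ × ℕ => ¬ Nat.Coprime q.1 q.2), F q ≤
      3 / 4 * H ^ 2 := by
    have h1 : ((Icc 1 M) ×ˢ (Icc 1 M)).filter (fun q : ℕ × ℕ => ¬ Nat.Coprime q.1 q.2) ⊆
        (Icc 2 M).biUnion (fun d => ((Icc 1 M) ×ˢ (Icc 1 M)).image
          (fun q => (d * q.1, d * q.2))) := by
      rintro ⟨x, y⟩ hq
      rw [mem_filter, mem_product, mem_Icc, mem_Icc] at hq
      obtain ⟨⟨⟨hx1, hx2⟩, hy1, hy2⟩, hc⟩ := hq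
      simp only at hx1 hx2 hy1 hy2 hc
      set d := Nat.gcd x y with hd
      have hdx : d ∣ x := Nat.gcd_dvd_left x y
      have hdy : d ∣ y := Nat.gcd_dvd_right x y
      have hd0 : 0 < d := Nat.gcd_pos_of_pos_left _ hx1
      have hd2 : 2 ≤ d := by
        have : d ≠ 1 := hc
        omega
      have hdM : d ≤ M := (Nat.le_of_dvd hx1 hdx).trans hx2
      obtain ⟨x', hx'⟩ := hdx
      obtain ⟨y', hy'⟩ := hdy
      rw [mem_biUnion]
      refine ⟨d, mem_Icc.2 ⟨hd2, hdM⟩, ?_⟩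
      rw [mem_image]
      refine ⟨(x', y'), ?_, ?_⟩
      · rw [mem_product, mem_Icc, mem_Icc]
        simp only
        have hx0 : 0 < x' := by
          rcases Nat.eq_zero_or_pos x' with h | h
          · rw [h, mul_zero] at hx'
            omega
          · exact h
        have hy0 : 0 < y' := by
          rcases Nat.eq_zero_or_pos y' with h | h
          · rw [h, mul_zero] at hy'
            omega
          · exact h
        refine ⟨⟨hx0, ?_⟩, hy0, ?_⟩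
        · nlinarith
        · nlinarith
      · simp only
        rw [← hx', ← hy']
    have h2 : ∑ q ∈ ((Icc 1 M) ×ˢ (Icc 1 M)).filter (fun q : ℕ × ℕ => ¬ Nat.Coprime q.1 q.2), F q ≤
        ∑ d ∈ Icc 2 M, ∑ q ∈ ((Icc 1 M) ×ˢ (Icc 1 M)).image (fun q => (d * q.1, d * q.2)), F q :=
      (sum_le_sum_of_subset_of_nonneg h1 fun q _ _ => hF0 q).trans
        (sum_biUnion_le _ _ F hF0)
    refine h2.trans ?_
    have h3 : ∀ d ∈ Icc 2 M, ∑ q ∈ ((Icc 1 M) ×ˢ (Icc 1 M)).image (fun q => (d * q.1, d * q.2)),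
        F q ≤ (1 / (d : ℝ) ^ 2) * H ^ 2 := by
      intro d hd
      rw [mem_Icc] at hd
      have hd0 : (0 : ℝ) < d := by
        have : 0 < d := by omega
        exact_mod_cast this
      rw [← hfull, mul_sum]
      rw [Finset.sum_image]
      · apply le_of_eq
        apply sum_congr rfl
        intro q _
        simp only [hF]
        push_cast
        rw [one_div_mul_one_div, one_div_mul_one_div, one_div_mul_one_div]
        congr 1
        ring
      · intro q _ q' _ h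
        simp only [Prod.mk.injEq] at h
        have h4 := Nat.eq_of_mul_eq_mul_left (by omega) h.1
        have h5 := Nat.eq_of_mul_eq_mul_left (by omega) h.2
        exact Prod.ext h4 h5
    refine (sum_le_sum h3).trans ?_
    rw [← sum_mul]
    apply mul_le_mul_of_nonneg_right _ (by positivity)
    -- the sum of 1/d^2
    have h4 : ∀ m : ℕ, 2 ≤ m → ∑ d ∈ Icc 2 m, 1 / (d : ℝ) ^ 2 ≤ 3 / 4 - 1 / (m : ℝ) := by
      intro m hm
      induction m, hm using Nat.le_induction with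
      | base =>
        rw [Icc_self, sum_singleton]
        norm_num
      | succ m hm ih =>
        rw [Finset.sum_Icc_succ_top (by omega)]
        have hm0 : (0 : ℝ) < m := by
          have : 0 < m := by omega
          exact_mod_cast this
        have h5 : (1 : ℝ) / ((m + 1 : ℕ) : ℝ) ^ 2 ≤ 1 / m - 1 / ((m + 1 : ℕ) : ℝ) := by
          push_cast
          rw [div_sub_div _ _ (by positivity) (by positivity), div_le_div_iff₀ (by positivity)
            (by positivity)]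
          nlinarith
        linarith
    rcases Nat.lt_or_ge M 2 with h5 | h5
    · rw [Icc_eq_empty (by omega), sum_empty]
      norm_num
    · have h6 := h4 M h5
      have h7 : (0 : ℝ) ≤ 1 / (M : ℝ) := by positivity
      linarith
  rw [hfull] at hsplit
  have : ∑ q ∈ ((Icc 1 M) ×ˢ (Icc 1 M)).filter (fun q : ℕ × ℕ => Nat.Coprime q.1 q.2), F q =
      H ^ 2 - ∑ q ∈ ((Icc 1 M) ×ˢ (Icc 1 M)).filter (fun q : ℕ × ℕ => ¬ Nat.Coprime q.1 q.2), F q := by
    linarith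
  rw [this]
  linarith

end Pool.Agent.U646.HC
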