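import Pool.Agent.U646.HC.F

set_option autoImplicit false

/-!
# The proportion of admissible parameters, II
-/

namespace Pool.Agent.U646.HC

open Finset Filter Topology
open Pool.Agent.H951R4.OD (ch d3_log sum_sq_inv)
open scoped Classical

theorem two_le {N Λ : ℕ} (hN : 3 ≤ N) (hΛN : Λ * Λ ≤ N) : 2 * Λ ≤ N := by
  rcases Nat.lt_or_ge Λ 2 with h | h
  · omega
  · nlinarith

/-- there are many admissible parameters -/
theorem adm_low {N Λ : ℕ} (hN : 3 ≤ N) (hΛ : 1 ≤ Λ) (hΛN : Λ * Λ ≤ N) (a : ℕ) :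
    (N : ℝ) * (1 + Real.log Λ) ^ 2 ≤ 144 * ((Adm a N Λ).card : ℝ) := by
  have h2Λ := two_le hN hΛN
  set M := Nat.sqrt Λ with hM
  have hMM : M * M ≤ Λ := Nat.sqrt_le Λ
  have hM1 : 1 ≤ M := Nat.sqrt_pos.2 hΛ
  have hMlt : Λ < (M + 1) * (M + 1) := Nat.lt_succ_sqrt Λ
  set b := a + Λ with hb
  set N1 := N - Λ with hN1
  have hbN : b + N1 = a + N := by omega
  set P := ((Icc 1 M) ×ˢ (Icc 1 M)).filter (fun q : ℕ × ℕ => Nat.Coprime q.1 q.2) with hP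
  set Z : ℕ × ℕ → Finset ℕ := fun q => (Ioc b (b + N1)).filter
    (fun n => 1 ≤ n ∧ q.1 ∣ n ∧ q.2 ∣ n - 1) with hZ
  have hPm : ∀ q ∈ P, 1 ≤ q.1 ∧ 1 ≤ q.2 ∧ Nat.Coprime q.1 q.2 ∧ q.1 * q.2 ≤ Λ := by
    intro q hq
    rw [hP, mem_filter, mem_product, mem_Icc, mem_Icc] at hq
    exact ⟨hq.1.1.1, hq.1.2.1, hq.2, (Nat.mul_le_mul hq.1.1.2 hq.1.2.2).trans hMM⟩
  have hinj : (P.sigma Z).card ≤ (Adm a N Λ).card := by
    apply Finset.card_le_card_of_injOn (fun x => (x.2, x.1.1 * x.1.2))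
    · rintro ⟨q, n⟩ hx
      rw [mem_coe, mem_sigma] at hx
      obtain ⟨hq, hn⟩ := hx
      simp only at hq hn
      obtain ⟨h1, h2, -, h4⟩ := hPm q hq
      simp only [hZ] at hn
      rw [mem_filter, mem_Ioc] at hn
      have h5 : 1 ≤ q.1 * q.2 := Nat.mul_pos h1 h2
      rw [mem_coe]
      unfold Adm
      rw [mem_filter, mem_product, mem_Ioc, mem_Icc]
      simp only
      refine ⟨⟨⟨by omega, by omega⟩, h5, h4⟩, by omega, Nat.mul_dvd_mul hn.2.2.1 hn.2.2.2⟩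
    · rintro ⟨q, n⟩ hx ⟨q', n'⟩ hx' heq
      rw [mem_coe, mem_sigma] at hx hx'
      obtain ⟨hq, hn⟩ := hx
      obtain ⟨hq', hn'⟩ := hx'
      simp only [Prod.mk.injEq] at hq hn hq' hn' heq
      obtain ⟨hnn, hqq⟩ := heq
      subst hnn
      simp only [hZ] at hn hn'
      rw [mem_filter] at hn hn'
      have key : ∀ g e : ℕ, 1 ≤ n → g ∣ n → e ∣ n - 1 → Nat.gcd (g * e) n = g := by
        intro g e hn1 hg he
        have h1 : Nat.Coprime (n - 1) n := by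
          obtain ⟨m, rfl⟩ : ∃ m, n = m + 1 := ⟨n - 1, by omega⟩
          simp
        have h2 : Nat.Coprime e n := Nat.Coprime.of_dvd_left he h1
        rw [Nat.Coprime.gcd_mul_right_cancel g h2]
        exact Nat.gcd_eq_left hg
      have k1 := key q.1 q.2 hn.2.1 hn.2.2.1 hn.2.2.2
      have k2 := key q'.1 q'.2 hn'.2.1 hn'.2.2.1 hn'.2.2.2
      rw [hqq, k2] at k1
      have h1 : q.1 = q'.1 := k1.symm
      have h2 : q.2 = q'.2 := by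
        rw [h1] at hqq
        have h3 := (hPm q' hq').1
        exact Nat.eq_of_mul_eq_mul_left (by omega) hqq
      have h3 : q = q' := Prod.ext h1 h2
      subst h3
      rfl
  rw [card_sigma] at hinj
  have hN1 : (N : ℝ) / 2 ≤ N1 := by
    rw [hN1, Nat.cast_sub (by omega)]
    have : (2 : ℝ) * Λ ≤ N := by exact_mod_cast h2Λ
    linarith
  have h1 : ∀ q ∈ P, (N : ℝ) / 4 * (1 / (q.1 : ℝ) * (1 / (q.2 : ℝ))) ≤ ((Z q).card : ℝ) := by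
    intro q hq
    obtain ⟨h1, h2, h3, h4⟩ := hPm q hq
    have h5 := class_low (N := N1) (b := b) h1 h2 h3 (by omega)
    refine le_trans ?_ h5
    apply mul_le_mul_of_nonneg_right _ (by positivity)
    linarith
  have h2 := sum_le_sum h1
  rw [← mul_sum] at h2
  have h3 : (∑ q ∈ P, ((Z q).card : ℝ)) ≤ ((Adm a N Λ).card : ℝ) := by exact_mod_cast hinj
  have h4 := cop_low M
  set H : ℝ := ∑ g ∈ Icc 1 M, 1 / (g : ℝ) with hH
  have hH1 : 1 ≤ H := by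
    have : (1 : ℝ) / ((1 : ℕ) : ℝ) ≤ H :=
      single_le_sum (f := fun g : ℕ => 1 / (g : ℝ)) (fun g _ => by positivity)
        (mem_Icc.2 ⟨le_rfl, hM1⟩)
    simpa using this
  have hΛ0 : (0 : ℝ) < Λ := by
    have : 0 < Λ := by omega
    exact_mod_cast this
  have hH2 : Real.log Λ ≤ 2 * H := by
    have h5 := log_add_one_le_harmonic M
    rw [harmonic_eq_sum_Icc] at h5
    push_cast at h5
    have h6 : Real.log ((M : ℝ) + 1) ≤ H := by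
      simpa [hH, one_div] using h5
    have h7 : Real.log Λ ≤ Real.log (((M : ℝ) + 1) ^ 2) := by
      apply Real.log_le_log hΛ0
      have : (Λ : ℝ) ≤ ((M + 1) * (M + 1) : ℕ) := by exact_mod_cast hMlt.le
      push_cast at this
      nlinarith
    rw [Real.log_pow] at h7
    push_cast at h7
    linarith
  have hlog0 : 0 ≤ Real.log Λ := Real.log_natCast_nonneg Λ
  have hW : (1 + Real.log Λ) ^ 2 ≤ 9 * H ^ 2 := by
    have h5 : 1 + Real.log Λ ≤ 3 * H := by linarith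
    have h6 := pow_le_pow_left₀ (by linarith : 0 ≤ 1 + Real.log Λ) h5 2
    calc _ ≤ (3 * H) ^ 2 := h6
      _ = _ := by ring
  have hN0 : (0 : ℝ) ≤ N := Nat.cast_nonneg N
  have h5 : (N : ℝ) / 4 * (1 / 4 * H ^ 2) ≤ ((Adm a N Λ).card : ℝ) :=
    (mul_le_mul_of_nonneg_left h4 (by positivity)).trans (h2.trans h3)
  calc (N : ℝ) * (1 + Real.log Λ) ^ 2 ≤ N * (9 * H ^ 2) := mul_le_mul_of_nonneg_left hW hN0
    _ = 144 * ((N : ℝ) / 4 * (1 / 4 * H ^ 2)) := by ring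
    _ ≤ _ := mul_le_mul_of_nonneg_left h5 (by norm_num)

/-- square indices -/
theorem sq_up : ∃ C : ℝ, 0 < C ∧ ∀ N Λ : ℕ, Λ ≤ N → ∀ a : ℕ,
    ((((Ioc a (a + N)) ×ˢ (Icc 1 Λ)).filter (fun q : ℕ × ℕ => 2 ≤ q.1 ∧ IsSquare q.2 ∧
      q.2 ∣ q.1 * (q.1 - 1))).card : ℝ) ≤ C * N := by
  obtain ⟨Cs, hCs, hsq⟩ := sum_sq_inv
  refine ⟨3 * Cs ^ 2 + 1, by positivity, ?_⟩
  intro N Λ hΛN a
  have hN0 : (0 : ℝ) ≤ N := Nat.cast_nonneg N
  set T := ((Ioc a (a + N)) ×ˢ (Icc 1 Λ)).filter (fun q : ℕ × ℕ => 2 ≤ q.1 ∧ IsSquare q.2 ∧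
      q.2 ∣ q.1 * (q.1 - 1)) with hT
  set P := ((Icc 1 Λ) ×ˢ (Icc 1 Λ)).filter
    (fun q : ℕ × ℕ => Nat.Coprime (q.1 ^ 2) (q.2 ^ 2) ∧ q.1 ^ 2 * q.2 ^ 2 ≤ Λ) with hP
  set Y : ℕ × ℕ → Finset ℕ := fun q => (Ioc a (a + N)).filter
    (fun n => 2 ≤ n ∧ q.1 ^ 2 ∣ n ∧ q.2 ^ 2 ∣ n - 1) with hY
  have hsub : T ⊆ P.biUnion (fun q => (Y q).image (fun n => (n, q.1 ^ 2 * q.2 ^ 2))) := by
    rintro ⟨n, lam⟩ hn
    rw [hT, mem_filter, mem_product, mem_Icc] at hn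
    obtain ⟨⟨hn1, hl1, hlΛ⟩, hn2, ⟨m, hm⟩, hd⟩ := hn
    simp only at hn1 hl1 hlΛ hn2 hm hd
    obtain ⟨g, e, hg0, he0, hg, he, hge, hcop⟩ := factor hn2 hl1 hd
    have hu : IsUnit (GCDMonoid.gcd g e) := by
      rw [gcd_eq_nat_gcd, hcop]
      exact isUnit_one
    have hu' : IsUnit (GCDMonoid.gcd e g) := by
      rw [gcd_eq_nat_gcd, Nat.gcd_comm, hcop]
      exact isUnit_one
    have h1 : g * e = m ^ 2 := by rw [hge, hm, sq]
    have h2 : e * g = m ^ 2 := by rw [mul_comm, h1]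
    obtain ⟨u, rfl⟩ := exists_eq_pow_of_mul_eq_pow hu h1
    obtain ⟨w, rfl⟩ := exists_eq_pow_of_mul_eq_pow hu' h2
    have hu0 : 1 ≤ u := Nat.pos_of_ne_zero (by rintro rfl; simp at hg0)
    have hw0 : 1 ≤ w := Nat.pos_of_ne_zero (by rintro rfl; simp at he0)
    rw [mem_biUnion]
    refine ⟨(u, w), ?_, ?_⟩
    · rw [hP, mem_filter, mem_product, mem_Icc, mem_Icc]
      simp only
      refine ⟨⟨⟨hu0, ?_⟩, hw0, ?_⟩, hcop, by omega⟩
      · calc u ≤ u ^ 2 := Nat.le_self_pow (by norm_num) u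
          _ ≤ u ^ 2 * w ^ 2 := Nat.le_mul_of_pos_right _ he0
          _ ≤ Λ := by omega
      · calc w ≤ w ^ 2 := Nat.le_self_pow (by norm_num) w
          _ ≤ u ^ 2 * w ^ 2 := Nat.le_mul_of_pos_left _ hg0
          _ ≤ Λ := by omega
    · rw [mem_image]
      refine ⟨n, ?_, ?_⟩
      · simp only [hY]
        rw [mem_filter]
        exact ⟨hn1, hn2, hg, he⟩
      · simp only
        rw [hge]
  have h1 := (Finset.card_le_card hsub).trans Finset.card_biUnion_le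
  have h2 : (T.card : ℝ) ≤ ∑ q ∈ P, ((Y q).card : ℝ) := by
    have h3 : ∑ q ∈ P, ((Y q).image (fun n => (n, q.1 ^ 2 * q.2 ^ 2))).card ≤
        ∑ q ∈ P, (Y q).card := sum_le_sum fun q _ => card_image_le
    exact_mod_cast h1.trans h3
  have h3 : ∀ q ∈ P, ((Y q).card : ℝ) ≤
      3 * N * (1 / (q.1 : ℝ) ^ 2 * (1 / (q.2 : ℝ) ^ 2)) := by
    intro q hq
    rw [hP, mem_filter, mem_product, mem_Icc, mem_Icc] at hq
    obtain ⟨⟨⟨h4, -⟩, h5, -⟩, h6, h7⟩ := hq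
    have h8 := class_up (g := q.1 ^ 2) (e := q.2 ^ 2) (N := N) (a := a)
      (Nat.pow_pos (by omega)) (Nat.pow_pos (by omega)) h6 (h7.trans hΛN)
    push_cast at h8
    exact h8
  refine (h2.trans (sum_le_sum h3)).trans ?_
  rw [← mul_sum]
  have h4 : ∑ q ∈ P, (1 / (q.1 : ℝ) ^ 2 * (1 / (q.2 : ℝ) ^ 2)) ≤ Cs ^ 2 := by
    calc ∑ q ∈ P, (1 / (q.1 : ℝ) ^ 2 * (1 / (q.2 : ℝ) ^ 2)) ≤
          ∑ q ∈ (Icc 1 Λ) ×ˢ (Icc 1 Λ), (1 / (q.1 : ℝ) ^ 2 * (1 / (q.2 : ℝ) ^ 2)) := by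
          apply sum_le_sum_of_subset_of_nonneg (filter_subset _ _)
          intro q _ _
          positivity
      _ = (∑ g ∈ Icc 1 Λ, 1 / (g : ℝ) ^ 2) * ∑ e ∈ Icc 1 Λ, 1 / (e : ℝ) ^ 2 := by
          rw [sum_mul_sum, sum_product]
      _ ≤ Cs * Cs := by
          have h0 : 0 ≤ ∑ g ∈ Icc 1 Λ, 1 / (g : ℝ) ^ 2 := sum_nonneg fun g _ => by positivity
          exact mul_le_mul (hsq _) (hsq _) h0 hCs
      _ = Cs ^ 2 := by ring
  calc 3 * (N : ℝ) * ∑ q ∈ P, (1 / (q.1 : ℝ) ^ 2 * (1 / (q.2 : ℝ) ^ 2)) ≤ 3 * N * Cs ^ 2 :=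
        mul_le_mul_of_nonneg_left h4 (by positivity)
    _ ≤ (3 * Cs ^ 2 + 1) * N := by nlinarith

/-- almost all admissible parameters are not those of a symmetric design -/
theorem proportion (ε : ℝ) (hε : 0 < ε) : ∃ C : ℝ, 0 < C ∧ ∀ N : ℕ, 3 ≤ N → ∀ Λ : ℕ, 1 ≤ Λ →
    Λ * Λ ≤ N → ∀ a : ℕ,
    ((Des a N Λ).card : ℝ) ≤ C * ((1 + Real.log Λ) ^ (1 / 2 : ℝ) * (Real.log N) ^ (ε - 1 / 2) +
      1 / (1 + Real.log Λ) ^ 2) * ((Adm a N Λ).card : ℝ) := by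
  obtain ⟨C1, hC1, H1⟩ := pairsK ε hε
  obtain ⟨C2, hC2, H2⟩ := sq_up
  refine ⟨144 * (C1 + C2), by positivity, ?_⟩
  intro N hN Λ hΛ hΛN a
  have h3 := H1 N hN Λ hΛ hΛN a
  have h4 := H2 N Λ (by have := two_le hN hΛN; omega) a
  have h5 := adm_low hN hΛ hΛN a
  obtain ⟨hL1, -⟩ := d3_log hN
  have hlog0 : 0 ≤ Real.log Λ := Real.log_natCast_nonneg Λ
  set L := Real.log N with hL
  have hL0 : 0 < L := by linarith
  set W : ℝ := 1 + Real.log Λ with hW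
  have hW0 : 0 < W := by linarith
  have hLε : 0 < L ^ (ε - 1 / 2) := Real.rpow_pos_of_pos hL0 _
  have hW2 : 0 < W ^ (1 / 2 : ℝ) := Real.rpow_pos_of_pos hW0 _
  have hN0 : (0 : ℝ) ≤ N := Nat.cast_nonneg N
  have hsub : Des a N Λ ⊆
      ((Ioc a (a + N)) ×ˢ (Icc 1 Λ)).filter (fun q : ℕ × ℕ => IsK q.2 q.1) ∪
      ((Ioc a (a + N)) ×ˢ (Icc 1 Λ)).filter (fun q : ℕ × ℕ => 2 ≤ q.1 ∧ IsSquare q.2 ∧
      q.2 ∣ q.1 * (q.1 - 1)) := by
    intro q hq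
    unfold Des at hq
    rw [mem_filter] at hq
    have h6 : 1 ≤ q.2 := by
      have := hq.1
      rw [mem_product, mem_Icc] at this
      exact this.2.1
    rw [mem_union, mem_filter, mem_filter]
    rcases IsD_or hq.2 with h | h
    · exact Or.inl ⟨hq.1, h⟩
    · have h7 := IsD_dvd h6 hq.2
      exact Or.inr ⟨hq.1, h7.1, h, h7.2.2⟩
  have h6 := (Finset.card_le_card hsub).trans (Finset.card_union_le _ _)
  have h7 : ((Des a N Λ).card : ℝ) ≤ C1 * N * W ^ (5 / 2 : ℝ) * L ^ (ε - 1 / 2) + C2 * N := by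
    have h8 : ((Des a N Λ).card : ℝ) ≤
      ((((Ioc a (a + N)) ×ˢ (Icc 1 Λ)).filter (fun q : ℕ × ℕ => IsK q.2 q.1)).card : ℝ) +
      ((((Ioc a (a + N)) ×ˢ (Icc 1 Λ)).filter (fun q : ℕ × ℕ => 2 ≤ q.1 ∧ IsSquare q.2 ∧
      q.2 ∣ q.1 * (q.1 - 1))).card : ℝ) := by exact_mod_cast h6
    linarith
  refine h7.trans ?_
  have e1 : W ^ (5 / 2 : ℝ) = W ^ (1 / 2 : ℝ) * W ^ 2 := by
    rw [← Real.rpow_natCast W 2, ← Real.rpow_add hW0]
    norm_num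
  have e2 : C2 * (N : ℝ) = C2 * (1 / W ^ 2) * (N * W ^ 2) := by
    field_simp
  calc C1 * N * W ^ (5 / 2 : ℝ) * L ^ (ε - 1 / 2) + C2 * N =
        (C1 * (W ^ (1 / 2 : ℝ) * L ^ (ε - 1 / 2)) + C2 * (1 / W ^ 2)) * (N * W ^ 2) := by
        rw [e2, e1]
        ring
    _ ≤ ((C1 + C2) * (W ^ (1 / 2 : ℝ) * L ^ (ε - 1 / 2)) + (C1 + C2) * (1 / W ^ 2)) *
        (144 * ((Adm a N Λ).card : ℝ)) := by
        apply mul_le_mul _ h5 (by positivity) (by positivity)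
        gcongr <;> linarith
    _ = _ := by ring

end Pool.Agent.U646.HC
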