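import Pool.Agent.U646.HC.G

set_option autoImplicit false

/-!
# The proportion of admissible parameters, III
-/

namespace Pool.Agent.U646.HC

open Finset Filter Topology
open Pool.Agent.H951R4.OD (d3_log)
open scoped Classical

/-- the proportion of the realised parameters tends to zero -/
theorem few (η δ : ℝ) (hη0 : 0 < η) (hη1 : η < 1) (hδ : 0 < δ) :
    ∃ M : ℕ, ∀ N Λ : ℕ, M ≤ Λ → Real.log Λ ≤ (Real.log N) ^ (1 - η) → ∀ a : ℕ,
      ((Des a N Λ).card : ℝ) ≤ δ * ((Adm a N Λ).card : ℝ) := by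
  obtain ⟨C, hC, H⟩ := proportion (η / 4) (by positivity)
  have hlim : Tendsto (fun t : ℝ => C * (2 * t ^ (-(η / 4)) + t ^ (-2 : ℝ))) atTop (𝓝 0) := by
    have h1 := (tendsto_rpow_neg_atTop (show 0 < η / 4 by positivity)).const_mul 2
    have h2 := tendsto_rpow_neg_atTop (show (0 : ℝ) < 2 by norm_num)
    have h3 := (h1.add h2).const_mul C
    simpa using h3
  obtain ⟨T0, hT0⟩ := Filter.eventually_atTop.1 (hlim.eventually_lt_const hδ)
  set T : ℝ := max T0 (max 2 ((2 : ℝ) ^ (1 / η))) with hT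
  have hT2 : 2 ≤ T := (le_max_left _ _).trans (le_max_right _ _)
  have hTη : (2 : ℝ) ^ (1 / η) ≤ T := (le_max_right _ _).trans (le_max_right _ _)
  refine ⟨⌈Real.exp T⌉₊, ?_⟩
  intro N Λ hΛM hΛN a
  have hΛe : Real.exp T ≤ Λ := (Nat.le_ceil _).trans (by exact_mod_cast hΛM)
  have hΛ0 : (0 : ℝ) < Λ := (Real.exp_pos T).trans_le hΛe
  have hΛ1 : 1 ≤ Λ := by
    have : 0 < Λ := by exact_mod_cast hΛ0
    omega
  set t := Real.log Λ with ht
  have htT : T ≤ t := by
    have := Real.log_le_log (Real.exp_pos T) hΛe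
    rwa [Real.log_exp] at this
  have ht0 : 0 < t := by linarith
  set L := Real.log N with hL
  have hL00 : 0 ≤ L := Real.log_natCast_nonneg N
  have hL1 : 1 ≤ L := by
    by_contra hcon
    push Not at hcon
    have h1 : L ^ (1 - η) ≤ 1 := Real.rpow_le_one hL00 hcon.le (by linarith)
    linarith
  have hL0 : 0 < L := by linarith
  have hN0 : (0 : ℝ) < N := by
    rcases Nat.eq_zero_or_pos N with h | h
    · rw [hL, h, Nat.cast_zero, Real.log_zero] at hL1
      linarith
    · exact_mod_cast h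
  have hN3 : 3 ≤ N := by
    by_contra hcon
    have h1 : (N : ℝ) ≤ 2 := by
      have : N ≤ 2 := by omega
      exact_mod_cast this
    have h2 := Real.log_le_log hN0 h1
    have h3 := Real.log_two_lt_d9
    linarith
  have htL : t ≤ L := by
    calc t ≤ L ^ (1 - η) := hΛN
      _ ≤ L ^ (1 : ℝ) := Real.rpow_le_rpow_of_exponent_le hL1 (by linarith)
      _ = L := Real.rpow_one L
  have h2t : 2 * t ≤ L := by
    have h1 : 2 ≤ L ^ η := by
      calc (2 : ℝ) = ((2 : ℝ) ^ (1 / η)) ^ η := by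
            rw [← Real.rpow_mul (by norm_num), one_div_mul_cancel hη0.ne', Real.rpow_one]
        _ ≤ L ^ η := Real.rpow_le_rpow (by positivity) (by linarith) hη0.le
    calc 2 * t ≤ L ^ η * L ^ (1 - η) := mul_le_mul h1 hΛN ht0.le (by positivity)
      _ = L := by
          rw [← Real.rpow_add hL0]
          have : η + (1 - η) = 1 := by ring
          rw [this, Real.rpow_one]
  have hΛN2 : Λ * Λ ≤ N := by
    have h1 : Real.log ((Λ : ℝ) * Λ) ≤ Real.log N := by
      rw [Real.log_mul hΛ0.ne' hΛ0.ne']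
      linarith
    have h2 : (Λ : ℝ) * Λ ≤ N := (Real.log_le_log_iff (by positivity) hN0).1 h1
    exact_mod_cast h2
  refine (H N hN3 Λ hΛ1 hΛN2 a).trans ?_
  apply mul_le_mul_of_nonneg_right _ (Nat.cast_nonneg _)
  refine le_trans ?_ (hT0 t ((le_max_left _ _).trans htT)).le
  apply mul_le_mul_of_nonneg_left _ hC.le
  have hfirst : (1 + t) ^ (1 / 2 : ℝ) * L ^ (η / 4 - 1 / 2) ≤ 2 * t ^ (-(η / 4)) := by
    have h1 : (1 + t) ^ (1 / 2 : ℝ) ≤ 2 * L ^ ((1 - η) / 2) := by
      calc (1 + t) ^ (1 / 2 : ℝ) ≤ (2 * L ^ (1 - η)) ^ (1 / 2 : ℝ) :=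
            Real.rpow_le_rpow (by linarith) (by linarith) (by norm_num)
        _ = (2 : ℝ) ^ (1 / 2 : ℝ) * L ^ ((1 - η) / 2) := by
            rw [Real.mul_rpow (by norm_num) (by positivity), ← Real.rpow_mul hL0.le]
            congr 2
            ring
        _ ≤ 2 * L ^ ((1 - η) / 2) := by
            apply mul_le_mul_of_nonneg_right _ (by positivity)
            calc (2 : ℝ) ^ (1 / 2 : ℝ) ≤ (2 : ℝ) ^ (1 : ℝ) :=
                  Real.rpow_le_rpow_of_exponent_le (by norm_num) (by norm_num)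
              _ = 2 := Real.rpow_one 2
    calc (1 + t) ^ (1 / 2 : ℝ) * L ^ (η / 4 - 1 / 2) ≤
          2 * L ^ ((1 - η) / 2) * L ^ (η / 4 - 1 / 2) :=
          mul_le_mul_of_nonneg_right h1 (by positivity)
      _ = 2 * L ^ (-(η / 4)) := by
          rw [mul_assoc, ← Real.rpow_add hL0]
          congr 2
          ring
      _ ≤ 2 * t ^ (-(η / 4)) := by
          apply mul_le_mul_of_nonneg_left _ (by norm_num)
          exact Real.rpow_le_rpow_of_nonpos ht0 htL (by linarith)
  have hsecond : 1 / (1 + t) ^ 2 ≤ t ^ (-2 : ℝ) := by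
    rw [Real.rpow_neg ht0.le, one_div]
    apply inv_anti₀ (by positivity)
    have e : t ^ (2 : ℝ) = t ^ 2 := by
      rw [← Real.rpow_natCast]
      norm_num
    rw [e]
    exact pow_le_pow_left₀ ht0.le (by linarith) 2
  exact add_le_add hfirst hsecond

end Pool.Agent.U646.HC
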