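import Pool.Agent.U646.HC.F

set_option autoImplicit false

/-!
# One index: the dependence on the index
-/

namespace Pool.Agent.U646.HC

open Finset Filter Topology
open Pool.Agent.H951R4.OD (d3_log)
open scoped Classical

theorem one_index (ε : ℝ) (hε : 0 < ε) : ∃ C : ℝ, 0 < C ∧ ∀ N : ℕ, 3 ≤ N →
    ∀ lam : ℕ, 1 ≤ lam → lam * lam ≤ N → ∀ a : ℕ,
    (((Ioc a (a + N)).filter (fun n => IsK lam n)).card : ℝ) ≤
      C * N * ((lam.divisors.card : ℝ) / lam) * (1 + Real.log lam) ^ (1 / 2 : ℝ) *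
        (Real.log N) ^ (ε - 1 / 2) := by
  set ε' : ℝ := min ε (1 / 4) with hε'
  have hε'0 : 0 < ε' := lt_min hε (by norm_num)
  obtain ⟨C, hC, H⟩ := cls ε' hε'0 (min_le_right _ _)
  refine ⟨C, hC, ?_⟩
  intro N hN lam hlam hsm a
  have hloglam : 0 ≤ Real.log lam := Real.log_natCast_nonneg lam
  obtain ⟨hL1, -⟩ := d3_log hN
  set L := Real.log N with hL
  have hL0 : 0 < L := by linarith
  have hN0 : (0 : ℝ) ≤ N := Nat.cast_nonneg N
  set W : ℝ := (1 + Real.log lam) ^ (1 / 2 : ℝ) with hW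
  have hW0 : 0 ≤ W := Real.rpow_nonneg (by linarith) _
  have hlam0 : (0 : ℝ) < lam := by
    have : 0 < lam := by omega
    exact_mod_cast this
  set T := (Ioc a (a + N)).filter (fun n => IsK lam n) with hT
  set P := lam.divisors.filter (fun g => Nat.Coprime g (lam / g)) with hP
  set Y : ℕ → Finset ℕ := fun g => (Ioc a (a + N)).filter
    (fun n => g ∣ n ∧ lam / g ∣ n - 1 ∧ IsK (g * (lam / g)) n) with hY
  have hsub : T ⊆ P.biUnion Y := by
    intro n hn
    rw [hT, mem_filter] at hn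
    obtain ⟨hn1, hK⟩ := hn
    obtain ⟨hn2, -, hd, -⟩ := facts hlam hK
    obtain ⟨g, e, hg0, he0, hg, he, hge, hcop⟩ := factor hn2 hlam hd
    have he' : lam / g = e := by
      rw [← hge]
      exact Nat.mul_div_cancel_left e (by omega)
    rw [mem_biUnion]
    refine ⟨g, ?_, ?_⟩
    · rw [hP, mem_filter, Nat.mem_divisors]
      refine ⟨⟨⟨e, hge.symm⟩, by omega⟩, ?_⟩
      rw [he']
      exact hcop
    · simp only [hY]
      rw [mem_filter, he', hge]
      exact ⟨hn1, hg, he, hK⟩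
  have h1 := (Finset.card_le_card hsub).trans Finset.card_biUnion_le
  have h2 : (T.card : ℝ) ≤ ∑ g ∈ P, ((Y g).card : ℝ) := by exact_mod_cast h1
  set X : ℝ := C * N * W * L ^ (ε' - 1 / 2) * (1 / lam) with hX
  have hX0 : 0 ≤ X := by
    rw [hX]
    have := Real.rpow_nonneg hL0.le (ε' - 1 / 2)
    positivity
  have h3 : ∀ g ∈ P, ((Y g).card : ℝ) ≤ X := by
    intro g hg
    rw [hP, mem_filter, Nat.mem_divisors] at hg
    obtain ⟨⟨hgl, -⟩, hcop⟩ := hg
    have hg1 : 1 ≤ g := Nat.pos_of_dvd_of_pos hgl (by omega)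
    have hge : g * (lam / g) = lam := Nat.mul_div_cancel' hgl
    have he1 : 1 ≤ lam / g := Nat.div_pos (Nat.le_of_dvd (by omega) hgl) (by omega)
    have h4 := H N hN lam hlam g (lam / g) hg1 he1 hcop (by omega) (by rw [hge]; exact hsm) a
    have e1 : (1 / (g : ℝ) * (1 / ((lam / g : ℕ) : ℝ))) = 1 / lam := by
      rw [one_div_mul_one_div]
      congr 1
      exact_mod_cast hge
    rw [e1] at h4
    exact h4
  have h4 := h2.trans (sum_le_sum h3)
  rw [sum_const, nsmul_eq_mul] at h4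
  have h5 : (P.card : ℝ) ≤ lam.divisors.card := by
    exact_mod_cast card_filter_le _ _
  have e2 : L ^ (ε' - 1 / 2) ≤ L ^ (ε - 1 / 2) :=
    Real.rpow_le_rpow_of_exponent_le hL1 (by linarith [min_le_left ε (1 / 4 : ℝ)])
  calc (T.card : ℝ) ≤ (P.card : ℝ) * X := h4
    _ ≤ lam.divisors.card * X := mul_le_mul_of_nonneg_right h5 hX0
    _ = C * N * ((lam.divisors.card : ℝ) / lam) * W * L ^ (ε' - 1 / 2) := by rw [hX]; ring
    _ ≤ _ := by
        apply mul_le_mul_of_nonneg_left e2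
        positivity

end Pool.Agent.U646.HC
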