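import Pool.Agent.U646.HC.C
import Pool.Agent.H177R2.SD.Avg
import Pool.Agent.H177R2.SD.Local
import Pool.Agent.H177R2.SD.QuadAux

set_option autoImplicit false

/-!
# Designs of order at most `N`: local conditions and fixed divisors
-/

namespace Pool.Agent.U646.HC

open Finset
open Pool.Agent.H177R2.SD (IsSymmetricDesign brc_local design_compl avg1)
open Pool.Agent.H177R2.SD.LocalAux (ind ind_nonneg ind_le_one ind_true ind_false sum_range_zmod
  sum_nonsq)

/-- the odd primes up to `y` dividing `m` exactly once -/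
def Sm (y m : ℕ) : Finset ℕ := m.primeFactors.filter (fun p => p ≠ 2 ∧ p ≤ y ∧ ¬ p ^ 2 ∣ m)

/-- the local condition -/
def Good (σ : ℤ) (y m w n : ℕ) : Prop :=
  ∀ p ∈ Sm y m, IsSquare ((σ * (((n / m : ℕ) : ℤ) * w) : ℤ) : ZMod p)

theorem mem_Sm {y m p : ℕ} (h : p ∈ Sm y m) :
    p.Prime ∧ p ∣ m ∧ p ≠ 2 ∧ p ≤ y ∧ ¬ p ^ 2 ∣ m := by
  unfold Sm at h
  rw [mem_filter] at h
  exact ⟨Nat.prime_of_mem_primeFactors h.1, Nat.dvd_of_mem_primeFactors h.1, h.2⟩

/-- the local condition for designs of order `n` with index `n (n - 1) / (m w)` -/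
theorem local_cond {v l n m w a c : ℕ} (hn : 2 ≤ n) (hd : IsSymmetricDesign v (n + l) l)
    (hv : n + l + 2 ≤ v) (ha : n = m * a) (hc : n = w * c + 1) (hl : l = a * c)
    (y : ℕ) : ∃ σ : ℤ, (σ = 1 ∨ σ = -1) ∧ Good σ y m w n := by
  have hm0 : 0 < m := by
    rcases Nat.eq_zero_or_pos m with h | h
    · rw [h, zero_mul] at ha
      omega
    · exact h
  have hna : n / m = a := by
    rw [ha]
    exact Nat.mul_div_cancel_left a hm0
  refine ⟨-(-1) ^ ((v - 1) / 2), ?_, ?_⟩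
  · rcases neg_one_pow_eq_or ℤ ((v - 1) / 2) with h | h <;> rw [h] <;> simp
  intro p hp
  obtain ⟨hpp, hpm, hp2, -, hpm2⟩ := mem_Sm hp
  rw [hna]
  haveI : Fact p.Prime := ⟨hpp⟩
  by_cases hpa : p ∣ a
  · have h1 : ((-(-1) ^ ((v - 1) / 2) * ((a : ℤ) * w) : ℤ) : ZMod p) = 0 := by
      have h2 : ((a : ℕ) : ZMod p) = 0 := (ZMod.natCast_eq_zero_iff a p).2 hpa
      push_cast
      rw [h2]
      ring
    rw [h1]
    exact ⟨0, by ring⟩
  · have hpn : p ∣ n := ha ▸ Dvd.dvd.mul_right hpm a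
    have hpn2 : ¬ p ^ 2 ∣ n := by
      intro h
      rw [ha] at h
      have hcop : Nat.Coprime (p ^ 2) a :=
        Nat.Coprime.pow_left 2 ((Nat.Prime.coprime_iff_not_dvd hpp).2 hpa)
      exact hpm2 (Nat.Coprime.dvd_of_dvd_mul_right hcop h)
    have hpc : ¬ p ∣ c := by
      intro h
      have h1 : p ∣ w * c + 1 := hc ▸ hpn
      have h2 : p ∣ 1 := (Nat.dvd_add_right (Dvd.dvd.mul_left h w)).1 h1
      exact hpp.one_lt.ne' (Nat.dvd_one.1 h2)
    have hpl : ¬ p ∣ l := by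
      rw [hl]
      intro h
      rcases hpp.dvd_mul.1 h with h | h
      · exact hpa h
      · exact hpc h
    have hnl : n + l - l = n := by omega
    obtain ⟨-, z, hz⟩ := brc_local hd (by omega) hv hpp hp2 (by rwa [hnl]) (by rwa [hnl]) hpl
    have hn0 : ((n : ℕ) : ZMod p) = 0 := (ZMod.natCast_eq_zero_iff n p).2 hpn
    have hwc : ((w : ℕ) : ZMod p) * c = -1 := by
      have h1 : ((w * c + 1 : ℕ) : ZMod p) = 0 := by rw [← hc]; exact hn0
      push_cast at h1
      linear_combination h1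
    refine ⟨z * w, ?_⟩
    rw [hl] at hz
    push_cast at hz ⊢
    have e : z * (w : ZMod p) * (z * w) = z * z * (w * w) := by ring
    rw [e, ← hz]
    linear_combination (-(-1 : ZMod p) ^ ((v - 1) / 2) * (a : ZMod p) * w) * hwc

theorem mean_sq {p : ℕ} (hp : p.Prime) (hp2 : p ≠ 2) {u : ZMod p} (hu : IsUnit u) (v : ZMod p) :
    ∑ t ∈ range p, ind (IsSquare (u * (t : ZMod p) + v)) = ((p : ℝ) + 1) / 2 := by
  haveI : Fact p.Prime := ⟨hp⟩
  rw [sum_range_zmod p (fun x => ind (IsSquare (u * x + v)))]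
  rw [Pool.Agent.H177R2.SD.LocalAux.sum_affine p u v hu (fun x => ind (IsSquare x))]
  have h1 := sum_nonsq (p := p) hp2
  have h2 : ∀ x : ZMod p, ind (IsSquare x) = 1 - ind (¬ IsSquare x) := by
    intro x
    by_cases hx : IsSquare x
    · rw [ind_true hx, ind_false (not_not.2 hx)]
      ring
    · rw [ind_false hx, ind_true hx]
      ring
  rw [Finset.sum_congr rfl fun x _ => h2 x, Finset.sum_sub_distrib, h1]
  simp [ZMod.card]
  ring

/-- the expected proportion -/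
noncomputable def GG (y m : ℕ) : ℝ := ∏ p ∈ Sm y m, (1 + 1 / (p : ℝ)) / 2

open Classical in
/-- the count for fixed divisors -/
theorem fixed {m w N : ℕ} (y : ℕ) (hm : 1 ≤ m) (hw : 1 ≤ w) (hmw : Nat.Coprime m w)
    {σ : ℤ} (hσ : σ = 1 ∨ σ = -1) :
    (((Ioc 0 N).filter (fun n => m ∣ n ∧ w ∣ n - 1 ∧ Good σ y m w n)).card : ℝ) ≤
      ((N : ℝ) / (m * w) + 1) * GG y m + ∏ p ∈ Sm y m, (p : ℝ) := by
  have hmr : (0 : ℝ) < m := by exact_mod_cast hm
  have hwr : (0 : ℝ) < w := by exact_mod_cast hw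
  set T := (Ioc 0 N).filter (fun n => m ∣ n ∧ w ∣ n - 1 ∧ Good σ y m w n) with hT
  have hP0 : 0 ≤ ∏ p ∈ Sm y m, (p : ℝ) := prod_nonneg fun p _ => Nat.cast_nonneg p
  have hG0 : 0 ≤ GG y m := prod_nonneg fun p _ => by positivity
  rcases T.eq_empty_or_nonempty with hemp | ⟨n1, hn1⟩
  · rw [hemp, card_empty, Nat.cast_zero]
    positivity
  have hex : ∃ n, 1 ≤ n ∧ m ∣ n ∧ w ∣ n - 1 := by
    rw [hT, mem_filter, mem_Ioc] at hn1
    exact ⟨n1, by omega, hn1.2.1, hn1.2.2.1⟩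
  obtain ⟨h01, h02, h03⟩ := Nat.find_spec hex
  set n0 := Nat.find hex with hn0
  obtain ⟨a0, ha0⟩ := h02
  set Q := N / (m * w) + 1 with hQ
  have hmw0 : 0 < m * w := Nat.mul_pos hm hw
  set f : ℕ → ℕ → ℝ := fun p t =>
    ind (IsSquare (((σ * (w * w) : ℤ) : ZMod p) * (t : ZMod p) + ((σ * (a0 * w) : ℤ) : ZMod p)))
    with hf
  have hsub : T ⊆ ((range Q).filter (fun t => ∀ p ∈ Sm y m, f p t = 1)).image
      (fun t => n0 + m * w * t) := by
    intro n hn
    rw [hT, mem_filter, mem_Ioc] at hn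
    obtain ⟨⟨hn1', hn2⟩, hn3, hn4, hn5⟩ := hn
    have hle : n0 ≤ n := Nat.find_min' hex ⟨by omega, hn3, hn4⟩
    have e1 : m ∣ n - n0 := Nat.dvd_sub hn3 (ha0 ▸ dvd_mul_right m a0)
    have e2 : w ∣ n - n0 := by
      have h1 := Nat.dvd_sub hn4 h03
      have h2 : n - 1 - (n0 - 1) = n - n0 := by omega
      rwa [h2] at h1
    obtain ⟨t, ht⟩ := Nat.Coprime.mul_dvd_of_dvd_of_dvd hmw e1 e2
    have hnt : n = n0 + m * w * t := by omega
    rw [mem_image]
    refine ⟨t, ?_, hnt.symm⟩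
    rw [mem_filter, mem_range]
    constructor
    · rw [hQ, Nat.lt_succ_iff, Nat.le_div_iff_mul_le hmw0]
      have : m * w * t ≤ N := by omega
      linarith [mul_comm t (m * w)]
    · intro p hp
      have h1 := hn5 p hp
      have h2 : n / m = a0 + w * t := by
        rw [hnt, ha0]
        have : m * a0 + m * w * t = m * (a0 + w * t) := by ring
        rw [this]
        exact Nat.mul_div_cancel_left _ hm
      rw [h2] at h1
      simp only [hf]
      apply ind_true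
      have e : ((σ * (w * w) : ℤ) : ZMod p) * (t : ZMod p) + ((σ * (a0 * w) : ℤ) : ZMod p) =
          ((σ * (((a0 + w * t : ℕ) : ℤ) * w) : ℤ) : ZMod p) := by
        push_cast
        ring
      rw [e]
      exact h1
  have hf01 : ∀ p ∈ Sm y m, ∀ t, 0 ≤ f p t ∧ f p t ≤ 1 := fun p _ t =>
    ⟨ind_nonneg _, ind_le_one _⟩
  have h1 : (T.card : ℝ) ≤ ∑ t ∈ Ico 0 (0 + Q), ∏ p ∈ Sm y m, f p t := by
    have h2 := (Finset.card_le_card hsub).trans Finset.card_image_le
    have h2' : (T.card : ℝ) ≤ (((range Q).filter (fun t => ∀ p ∈ Sm y m, f p t = 1)).card : ℝ) :=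
      Nat.cast_le.2 h2
    refine h2'.trans ?_
    rw [zero_add, ← Finset.range_eq_Ico, ← Finset.sum_boole]
    apply sum_le_sum
    intro t _
    split_ifs with h
    · rw [prod_congr rfl h, prod_const_one]
    · exact prod_nonneg fun p hp => (hf01 p hp t).1
  have hmean : ∀ p ∈ Sm y m, (∑ t ∈ range p, f p t) / (p : ℝ) = (1 + 1 / (p : ℝ)) / 2 := by
    intro p hp
    obtain ⟨hpp, hpm, hp2, -, -⟩ := mem_Sm hp
    haveI : Fact p.Prime := ⟨hpp⟩
    have hp0 : (p : ℝ) ≠ 0 := by exact_mod_cast hpp.ne_zero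
    have hpw : ¬ p ∣ w := by
      intro h
      have h3 := Nat.dvd_gcd hpm h
      rw [hmw] at h3
      exact hpp.one_lt.ne' (Nat.dvd_one.1 h3)
    have hw0 : ((w : ℕ) : ZMod p) ≠ 0 := fun h => hpw ((ZMod.natCast_eq_zero_iff w p).1 h)
    have hu : IsUnit ((σ * (w * w) : ℤ) : ZMod p) := by
      rw [isUnit_iff_ne_zero]
      push_cast
      rcases hσ with rfl | rfl
      · simpa using hw0
      · simpa using hw0
    simp only [hf]
    rw [mean_sq hpp hp2 hu]
    field_simp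
  have h3 := avg1 (Sm y m) id (fun p hp => (mem_Sm hp).1.pos) (by
    intro p hp q hq hpq
    exact (Nat.coprime_primes (mem_Sm hp).1 (mem_Sm hq).1).2 hpq) f hf01 (by
    intro p hp t
    simp only [hf, id]
    push_cast
    rw [ZMod.natCast_self, add_zero]) 0 Q
  simp only [id] at h3
  rw [prod_congr rfl hmean] at h3
  have h4 := (abs_le.1 h3).2
  have h5 : (Q : ℝ) ≤ (N : ℝ) / (m * w) + 1 := by
    rw [hQ]
    push_cast
    have h6 : ((N / (m * w) : ℕ) : ℝ) ≤ (N : ℝ) / ((m * w : ℕ) : ℝ) := Nat.cast_div_le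
    push_cast at h6
    linarith
  have h6 : (Q : ℝ) * GG y m ≤ ((N : ℝ) / (m * w) + 1) * GG y m :=
    mul_le_mul_of_nonneg_right h5 hG0
  unfold GG at h6 ⊢
  linarith

open Classical in
/-- the count for fixed divisors, final form -/
theorem fixed2 {m w N y K : ℕ} (hy : 3 ≤ y) (hK1 : 1 ≤ K) (hm : 1 ≤ m) (hw : 1 ≤ w) (hmw : Nat.Coprime m w)
    (hN : m * w * y ^ (2 * K) ≤ N) {σ : ℤ} (hσ : σ = 1 ∨ σ = -1) :
    (((Ioc 0 N).filter (fun n => m ∣ n ∧ w ∣ n - 1 ∧ Good σ y m w n)).card : ℝ) ≤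
      (N : ℝ) / (m * w) * (2 * GG y m + 3 * (2 ^ (Sm y m).card / 2 ^ K)) := by
  have hmr : (0 : ℝ) < m := by exact_mod_cast hm
  have hwr : (0 : ℝ) < w := by exact_mod_cast hw
  have hy0 : (0 : ℝ) < y := by
    have : 0 < y := by omega
    exact_mod_cast this
  have hy1 : (2 : ℝ) ≤ y := by
    have : 2 ≤ y := by omega
    exact_mod_cast this
  have hG0 : 0 ≤ GG y m := prod_nonneg fun p _ => by positivity
  have h1 := fixed y hm hw hmw hσ (N := N)
  set X : ℝ := (N : ℝ) / (m * w) with hX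
  have hXy : (y : ℝ) ^ (2 * K) ≤ X := by
    rw [hX, le_div_iff₀ (by positivity)]
    have : ((m * w * y ^ (2 * K) : ℕ) : ℝ) ≤ N := by exact_mod_cast hN
    push_cast at this
    linarith
  have hX1 : 1 ≤ X := le_trans (one_le_pow₀ (by linarith)) hXy
  rcases Nat.lt_or_ge K (Sm y m).card with hK | hK
  · -- many prime factors
    have hG1 : GG y m ≤ 1 := by
      apply prod_le_one
      · intro p _
        positivity
      · intro p hp
        have : (1 : ℝ) ≤ p := by exact_mod_cast (mem_Sm hp).1.one_le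
        have : 1 / (p : ℝ) ≤ 1 := by
          rw [div_le_one (by linarith)]
          exact this
        linarith
    have h2 : (((Ioc 0 N).filter (fun n => m ∣ n ∧ w ∣ n - 1 ∧ Good σ y m w n)).card : ℝ) ≤
        2 * X := by
      have h3 := fixed 0 hm hw hmw hσ (N := N)
      have e : Sm 0 m = ∅ := by
        rw [eq_empty_iff_forall_notMem]
        intro p hp
        have := (mem_Sm hp).2.2.2.1
        have := (mem_Sm hp).1.pos
        omega
      have e2 : GG 0 m = 1 := by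
        unfold GG
        rw [e, prod_empty]
      rw [e, e2, prod_empty, mul_one, ← hX] at h3
      have h4 : (Ioc 0 N).filter (fun n => m ∣ n ∧ w ∣ n - 1 ∧ Good σ y m w n) ⊆
          (Ioc 0 N).filter (fun n => m ∣ n ∧ w ∣ n - 1 ∧ Good σ 0 m w n) := by
        intro n hn
        rw [mem_filter] at hn ⊢
        refine ⟨hn.1, hn.2.1, hn.2.2.1, ?_⟩
        intro p hp
        rw [e] at hp
        exact absurd hp (notMem_empty p)
      have h5 : (((Ioc 0 N).filter (fun n => m ∣ n ∧ w ∣ n - 1 ∧ Good σ y m w n)).card : ℝ) ≤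
          (((Ioc 0 N).filter (fun n => m ∣ n ∧ w ∣ n - 1 ∧ Good σ 0 m w n)).card : ℝ) := by
        exact_mod_cast card_le_card h4
      have h6 : (((Ioc 0 N).filter (fun n => m ∣ n ∧ w ∣ n - 1 ∧ Good σ 0 m w n)).card : ℝ) ≤
          X + 2 := by linarith
      have h7 := h5.trans h6
      have hcase : (2 : ℝ) ≤ X := by
        calc (2 : ℝ) ≤ y := hy1
          _ = (y : ℝ) ^ 1 := (pow_one _).symm
          _ ≤ (y : ℝ) ^ (2 * K) := pow_le_pow_right₀ (by linarith) (by omega)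
          _ ≤ X := hXy
      linarith
    have h3 : (1 : ℝ) ≤ 2 ^ (Sm y m).card / 2 ^ K := by
      rw [one_le_div (by positivity)]
      exact pow_le_pow_right₀ (by norm_num) hK.le
    nlinarith
  · -- few prime factors
    have h2 : ∏ p ∈ Sm y m, (p : ℝ) ≤ (y : ℝ) ^ K := by
      calc ∏ p ∈ Sm y m, (p : ℝ) ≤ ∏ _p ∈ Sm y m, (y : ℝ) := by
            apply prod_le_prod (fun p _ => Nat.cast_nonneg p)
            intro p hp
            exact_mod_cast (mem_Sm hp).2.2.2.1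
        _ = (y : ℝ) ^ (Sm y m).card := by rw [prod_const]
        _ ≤ (y : ℝ) ^ K := pow_le_pow_right₀ (by linarith) hK
    have h3 : (y : ℝ) ^ K ≤ X * (2 ^ (Sm y m).card / 2 ^ K) := by
      have e1 : (y : ℝ) ^ K * (y : ℝ) ^ K ≤ X := by
        rw [← pow_add, ← two_mul]
        exact hXy
      have e2 : (2 : ℝ) ^ K ≤ (y : ℝ) ^ K := pow_le_pow_left₀ (by norm_num) hy1 K
      have e3 : (1 : ℝ) ≤ 2 ^ (Sm y m).card := one_le_pow₀ (by norm_num)
      have e4 : (0 : ℝ) < 2 ^ K := by positivity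
      have e5 : (y : ℝ) ^ K ≤ X / 2 ^ K := by
        rw [le_div_iff₀ e4]
        calc (y : ℝ) ^ K * 2 ^ K ≤ (y : ℝ) ^ K * (y : ℝ) ^ K :=
              mul_le_mul_of_nonneg_left e2 (by positivity)
          _ ≤ X := e1
      calc (y : ℝ) ^ K ≤ X / 2 ^ K := e5
        _ ≤ X / 2 ^ K * 2 ^ (Sm y m).card := le_mul_of_one_le_right (by positivity) e3
        _ = _ := by ring
    have h4 : (X + 1) * GG y m ≤ 2 * X * GG y m := by
      apply mul_le_mul_of_nonneg_right _ hG0
      linarith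
    have h5 : 0 ≤ X * (2 ^ (Sm y m).card / 2 ^ K) := by positivity
    calc _ ≤ (X + 1) * GG y m + ∏ p ∈ Sm y m, (p : ℝ) := h1
      _ ≤ 2 * X * GG y m + X * (2 ^ (Sm y m).card / 2 ^ K) := by linarith
      _ ≤ X * (2 * GG y m + 3 * (2 ^ (Sm y m).card / 2 ^ K)) := by nlinarith

end Pool.Agent.U646.HC
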