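import Pool.Agent.U646.HC.B

set_option autoImplicit false

/-!
# The sieve with additional primality conditions
-/

namespace Pool.Agent.U646.HC

open Finset
open Pool.Agent.W114.PQ (S_SV)
open Pool.Agent.H951R4.OD (ch PI d3_log one_add_log_le mert_le sum_sq_inv)
open Pool.Agent.U671.BT (sum_affine ind_sum choice sumE)
open scoped Classical

theorem sum_dvd {p : ℕ} (hp : p.Prime) (g : ℕ) (hg : ¬ p ∣ g) (c : ℤ) :
    ∑ m ∈ range (p ^ 2), (if (p : ℤ) ∣ ((g : ℤ) * m + c) then (1 : ℝ) else 0) = p := by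
  have hp2 : (0 : ℤ) < (p : ℤ) ^ 2 := by
    have : (0 : ℤ) < p := by exact_mod_cast hp.pos
    positivity
  set b : ℕ := (c % ((p : ℤ) ^ 2)).toNat with hb
  have hb' : (b : ℤ) = c % ((p : ℤ) ^ 2) := Int.toNat_of_nonneg (Int.emod_nonneg _ hp2.ne')
  have hbc : (p : ℤ) ^ 2 ∣ c - b := by
    rw [hb']
    exact Int.dvd_self_sub_emod
  set G : ℕ → ℝ := fun x => if p ∣ x then (1 : ℝ) else 0 with hG
  have hgper : ∀ x, G (x + p ^ 2) = G x := by
    intro x
    simp only [hG]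
    have h1 : p ∣ x + p ^ 2 ↔ p ∣ x := Nat.dvd_add_left (dvd_pow_self p two_ne_zero)
    simp only [h1]
  have hcop : Nat.Coprime g (p ^ 2) :=
    Nat.Coprime.pow_right 2 ((Nat.Prime.coprime_iff_not_dvd hp).2 hg).symm
  have h1 := sum_affine G (p ^ 2) (pow_pos hp.pos 2) hgper g b hcop
  have h0 : ∑ x ∈ range (p ^ 2), G x = p := by
    simp only [hG]
    rw [← Finset.sum_filter, Finset.sum_const, nsmul_eq_mul, mul_one]
    have h2 : (range (p ^ 2)).filter (fun n => p ∣ n) = (range p).image (p * ·) := by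
      ext n
      simp only [mem_filter, mem_range, mem_image]
      constructor
      · rintro ⟨h1, ⟨c, rfl⟩⟩
        refine ⟨c, ?_, rfl⟩
        rw [pow_two] at h1
        exact lt_of_mul_lt_mul_left h1 (Nat.zero_le _)
      · rintro ⟨c, h1, rfl⟩
        refine ⟨?_, dvd_mul_right _ _⟩
        rw [pow_two]
        exact Nat.mul_lt_mul_of_pos_left h1 hp.pos
    rw [h2, Finset.card_image_of_injective _ (fun a b hab => Nat.eq_of_mul_eq_mul_left hp.pos hab),
      card_range]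
  rw [h0] at h1
  rw [← h1]
  apply sum_congr rfl
  intro m _
  simp only [hG]
  have h2 : (p : ℤ) ∣ ((g : ℤ) * m + c) ↔ p ∣ b + g * m := by
    rw [← Int.natCast_dvd_natCast]
    apply dvd_iff_dvd_of_dvd_sub
    push_cast
    have e : (g : ℤ) * m + c - ((b : ℤ) + g * m) = c - b := by ring
    rw [e]
    exact (dvd_pow_self (p : ℤ) two_ne_zero).trans hbc
  simp only [h2]

variable {r t : ℕ}

/-- the forbidden events -/
def Bad (D : Fin r → ℤ) (p : ℕ) : Fin r ⊕ Fin t → ℤ → Prop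
  | Sum.inl i, y => ch (D i) p = -1 ∧ Xc p y
  | Sum.inr _, y => (p : ℤ) ∣ y

theorem Bad_dvd {D : Fin r → ℤ} {p : ℕ} {i : Fin r ⊕ Fin t} {y : ℤ} (h : Bad D p i y) :
    (p : ℤ) ∣ y := by
  rcases i with i | j
  · exact h.2.1
  · exact h

theorem Bad_per {D : Fin r → ℤ} {p : ℕ} {i : Fin r ⊕ Fin t} {x y : ℤ}
    (h : (p : ℤ) ^ 2 ∣ x - y) : Bad D p i x ↔ Bad D p i y := by
  rcases i with i | j
  · show (_ ∧ _) ↔ (_ ∧ _)
    rw [Xc_per h]
  · exact dvd_iff_dvd_of_dvd_sub ((dvd_pow_self (p : ℤ) two_ne_zero).trans h)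

/-- the condition on `n` -/
def Cn2 (D : Fin r → ℤ) (s : Fin r ⊕ Fin t → ℤ) (g : ℕ) (E : Finset ℕ) (z n : ℕ) : Prop :=
  ∀ p : ℕ, p.Prime → p ∉ E → p ≤ z → ∀ i, ¬ Bad D p i ((g : ℤ) * n + s i)

/-- the number of bad classes -/
noncomputable def wt (D : Fin r → ℤ) (p : ℕ) : Fin r ⊕ Fin t → ℝ
  | Sum.inl i => if ch (D i) p = -1 then ((p : ℝ) - 1) else 0
  | Sum.inr _ => p

theorem wt_eq {D : Fin r → ℤ} {p : ℕ} (hp : p.Prime) (g : ℕ) (hg : ¬ p ∣ g)
    (i : Fin r ⊕ Fin t) (c : ℤ) :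
    ∑ m ∈ range (p ^ 2), (if Bad D p i ((g : ℤ) * m + c) then (1 : ℝ) else 0) = wt D p i := by
  rcases i with i | j
  · by_cases hi : ch (D i) p = -1
    · have e1 : wt D p (Sum.inl i : Fin r ⊕ Fin t) = (p : ℝ) - 1 := if_pos hi
      rw [e1, ← sum_Xc hp g hg c]
      apply sum_congr rfl
      intro n _
      have e2 : Bad D p (Sum.inl i : Fin r ⊕ Fin t) ((g : ℤ) * n + c) ↔
          Xc p ((g : ℤ) * n + c) := ⟨fun h => h.2, fun h => ⟨hi, h⟩⟩
      simp only [e2]
    · have e1 : wt D p (Sum.inl i : Fin r ⊕ Fin t) = 0 := if_neg hi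
      rw [e1]
      apply sum_eq_zero
      intro n _
      rw [if_neg]
      exact fun h => hi h.1
  · have e1 : wt D p (Sum.inr j : Fin r ⊕ Fin t) = p := rfl
    rw [e1, ← sum_dvd hp g hg c]
    apply sum_congr rfl
    intro n _
    have e2 : Bad D p (Sum.inr j : Fin r ⊕ Fin t) ((g : ℤ) * n + c) ↔
        (p : ℤ) ∣ ((g : ℤ) * n + c) := Iff.rfl
    simp only [e2]

theorem sift2 (hrt : 1 ≤ r + t) :
    ∃ C : ℝ, 2 ≤ C ∧ ∀ z N : ℕ, 3 ≤ z →
      C * Real.log z * (1 + Real.log (Real.log z)) ≤ Real.log N →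
      ∀ Λ : ℕ, 1 ≤ Λ → ∀ D : Fin r → ℤ, (∀ i, ¬ IsSquare (D i)) → (∀ i, (D i).natAbs ≤ Λ) →
      ∀ (g : ℕ) (E : Finset ℕ), (∀ p ∈ E, p.Prime) → (∀ p : ℕ, p.Prime → p ∉ E → ¬ p ∣ g) →
      ∀ s : Fin r ⊕ Fin t → ℤ,
      (∀ p : ℕ, p.Prime → p ∉ E → ∀ i j, i ≠ j → ¬ (p : ℤ) ∣ s i - s j) → ∀ a : ℕ,
      (((Ioc a (a + N)).filter (Cn2 D s g E z)).card : ℝ) ≤
        C * N * (1 + Real.log Λ) ^ ((r : ℝ) / 2) * (Real.log z) ^ (-((r : ℝ) / 2 + t)) *
          Real.exp ((r + t) * ∑ p ∈ E, 1 / (p : ℝ)) := by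
  have hrr : (1 : ℝ) ≤ r + t := by exact_mod_cast hrt
  have hr0 : (0 : ℝ) ≤ r := Nat.cast_nonneg r
  have ht0 : (0 : ℝ) ≤ t := Nat.cast_nonneg t
  obtain ⟨C0, hC0, SV⟩ := Pool.Agent.W52.PQ.sv ((r : ℝ) + t) hrr
  obtain ⟨Cs, hCs, hsq⟩ := sum_sq_inv
  obtain ⟨Cc, hCc, hlow⟩ := ch_low
  obtain ⟨Cm, hCm, hmert⟩ := mert_le
  set G : ℝ := Real.exp (r * Cc + r * Cs + t * Cm) with hG
  have hG1 : 1 ≤ G := Real.one_le_exp (by positivity)
  refine ⟨2 * (C0 * G), by nlinarith, ?_⟩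
  intro z N hz hN Λ hΛ D hD hDΛ g E hE hg s hs a
  obtain ⟨hlz, hllz⟩ := d3_log hz
  have hΛ1 : (1 : ℝ) ≤ Λ := by exact_mod_cast hΛ
  have hlogΛ : 0 ≤ Real.log Λ := Real.log_nonneg hΛ1
  have hN' : C0 * Real.log z * (1 + Real.log (Real.log z)) ≤ Real.log N := by
    refine le_trans ?_ hN
    rw [mul_assoc, mul_assoc (2 * (C0 * G))]
    apply mul_le_mul_of_nonneg_right _ (by positivity)
    nlinarith
  set S : Finset ℕ := (PI 0 z).filter (fun p => p ∉ E) with hS
  set h : ℕ → ℕ → ℝ := fun p m =>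
    if ∃ i, Bad D p i ((g : ℤ) * m + (g * a + s i)) then 1 else 0 with hh
  have hPI : ∀ p ∈ PI 0 z, p.Prime ∧ p ≤ z := by
    intro p hp
    unfold PI at hp
    rw [mem_filter, mem_Ioc] at hp
    exact ⟨hp.2, hp.1.2⟩
  have hSm : ∀ p ∈ S, p.Prime ∧ p ≤ z ∧ p ∉ E := by
    intro p hp
    rw [hS, mem_filter] at hp
    exact ⟨(hPI p hp.1).1, (hPI p hp.1).2, hp.2⟩
  have h01 : ∀ p ∈ S, ∀ n, h p n = 0 ∨ h p n = 1 := by
    intro p _ n
    simp only [hh]
    split_ifs <;> simp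
  have hper : ∀ p ∈ S, ∀ n, h p (n + p ^ 2) = h p n := by
    intro p _ n
    simp only [hh]
    have e : ∀ i, (Bad D p i ((g : ℤ) * ((n + p ^ 2 : ℕ) : ℤ) + (g * a + s i)) ↔
        Bad D p i ((g : ℤ) * n + (g * a + s i))) := by
      intro i
      apply Bad_per
      push_cast
      exact ⟨g, by ring⟩
    simp only [e]
  -- the means
  have hmean : ∀ p ∈ S, ∑ n ∈ range (p ^ 2), h p n =
      ∑ i : Fin r ⊕ Fin t, wt D p i := by
    intro p hp
    obtain ⟨hpp, -, hpE⟩ := hSm p hp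
    have h1 : ∀ n ∈ range (p ^ 2), h p n =
        ∑ i, (if Bad D p i ((g : ℤ) * n + (g * a + s i)) then (1 : ℝ) else 0) := by
      intro n _
      have h0 := ind_sum (fun i => Bad D p i ((g : ℤ) * n + (g * a + s i))) (by
        rintro i j hij ⟨h1, h2⟩
        apply hs p hpp hpE i j hij
        have h3 := dvd_sub (Bad_dvd h1) (Bad_dvd h2)
        have e : (g : ℤ) * n + (g * a + s i) - ((g : ℤ) * n + (g * a + s j)) = s i - s j := by
          ring
        rwa [e] at h3)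
      simp only [hh]
      convert h0
    rw [sum_congr rfl h1, sum_comm]
    apply sum_congr rfl
    intro i _
    exact wt_eq hpp g (hg p hpp hpE) i _
  have hwsum : ∀ p : ℕ, ∑ i : Fin r ⊕ Fin t, wt D p i =
      ∑ i, (if ch (D i) p = -1 then ((p : ℝ) - 1) else 0) + t * p := by
    intro p
    rw [Fintype.sum_sum_type]
    simp only [wt, sum_const, card_univ, Fintype.card_fin, nsmul_eq_mul]
  have hup : ∀ p ∈ S, (∑ n ∈ range (p ^ 2), h p n) / (p : ℝ) ^ 2 ≤ ((r : ℝ) + t) / p := by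
    intro p hp
    obtain ⟨hpp, -, -⟩ := hSm p hp
    have hp0 : (0 : ℝ) < p := by exact_mod_cast hpp.pos
    have hp1 : (1 : ℝ) ≤ p := by exact_mod_cast hpp.one_le
    rw [hmean p hp, hwsum, div_le_div_iff₀ (by positivity) hp0]
    have h1 : ∑ i, (if ch (D i) p = -1 then ((p : ℝ) - 1) else 0) ≤ ∑ _i : Fin r, (p : ℝ) := by
      apply sum_le_sum
      intro i _
      split_ifs <;> linarith
    rw [sum_const, card_univ, Fintype.card_fin, nsmul_eq_mul] at h1
    calc _ ≤ (r * (p : ℝ) + t * p) * p := by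
          apply mul_le_mul_of_nonneg_right _ hp0.le
          linarith
      _ = _ := by ring
  have hsv := SV z N hz hN' S h (fun p hp => ⟨(hSm p hp).1, (hSm p hp).2.1⟩) h01 hper hup
  -- the lower bound for the sum of the means
  set f : ℕ → ℝ := fun p => ∑ i, (if ch (D i) p = -1 then 1 / (p : ℝ) else 0) + t * (1 / (p : ℝ))
    with hf
  have hf0 : ∀ p, 0 ≤ f p := by
    intro p
    simp only [hf]
    apply add_nonneg
    · apply sum_nonneg
      intro i _
      split_ifs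
      · positivity
      · exact le_rfl
    · positivity
  have hfle : ∀ p, f p ≤ (r + t) * (1 / (p : ℝ)) := by
    intro p
    simp only [hf]
    have h5 : ∑ i, (if ch (D i) p = -1 then 1 / (p : ℝ) else 0) ≤ ∑ _i : Fin r, 1 / (p : ℝ) := by
      apply sum_le_sum
      intro i _
      split_ifs
      · exact le_rfl
      · positivity
    rw [sum_const, card_univ, Fintype.card_fin, nsmul_eq_mul] at h5
    linarith
  have hlb : (r : ℝ) / 2 * Real.log (Real.log z) - (r : ℝ) / 2 * Real.log (1 + Real.log Λ) +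
      t * Real.log (Real.log z) -
      (r * Cc + r * Cs + t * Cm) - (r + t) * ∑ p ∈ E, 1 / (p : ℝ) ≤
      ∑ p ∈ S, (∑ n ∈ range (p ^ 2), h p n) / (p : ℝ) ^ 2 := by
    have h1 : ∀ p ∈ S, f p - r * (1 / (p : ℝ) ^ 2) ≤
        (∑ n ∈ range (p ^ 2), h p n) / (p : ℝ) ^ 2 := by
      intro p hp
      obtain ⟨hpp, -, -⟩ := hSm p hp
      have hp0 : (0 : ℝ) < p := by exact_mod_cast hpp.pos
      rw [hmean p hp, hwsum, add_div, sum_div]
      have h2 : ∑ i, ((if ch (D i) p = -1 then 1 / (p : ℝ) else 0) - 1 / (p : ℝ) ^ 2) ≤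
          ∑ i, (if ch (D i) p = -1 then ((p : ℝ) - 1) else 0) / (p : ℝ) ^ 2 := by
        apply sum_le_sum
        intro i _
        split_ifs
        · apply le_of_eq
          field_simp
        · rw [zero_div]
          have : (0 : ℝ) ≤ 1 / (p : ℝ) ^ 2 := by positivity
          linarith
      rw [sum_sub_distrib, sum_const, card_univ, Fintype.card_fin, nsmul_eq_mul] at h2
      have h3 : (t : ℝ) * p / (p : ℝ) ^ 2 = t * (1 / (p : ℝ)) := by
        field_simp
      rw [h3]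
      simp only [hf]
      linarith
    have h2 := sum_le_sum h1
    rw [sum_sub_distrib, ← mul_sum] at h2
    have h3 := hsq S
    have h4 : ∑ p ∈ PI 0 z, f p ≤ ∑ p ∈ S, f p + (r + t) * ∑ p ∈ E, 1 / (p : ℝ) := by
      have hsub : ∑ p ∈ PI 0 z, f p ≤ ∑ p ∈ S ∪ E, f p := by
        apply sum_le_sum_of_subset_of_nonneg
        · intro p hp
          rw [mem_union]
          by_cases hpE : p ∈ E
          · exact Or.inr hpE
          · left
            rw [hS, mem_filter]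
            exact ⟨hp, hpE⟩
        · intro p _ _
          exact hf0 p
      refine hsub.trans ?_
      have hdisj : Disjoint S E := by
        rw [Finset.disjoint_left]
        intro p hp
        exact (hSm p hp).2.2
      rw [sum_union hdisj]
      apply add_le_add le_rfl
      rw [mul_sum]
      exact sum_le_sum fun p _ => hfle p
    have h5 : ∑ i : Fin r, (1 / 2 * Real.log (Real.log z) - 1 / 2 * Real.log (1 + Real.log Λ) - Cc) ≤
        ∑ p ∈ PI 0 z, ∑ i, (if ch (D i) p = -1 then 1 / (p : ℝ) else 0) := by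
      rw [sum_comm]
      exact sum_le_sum fun i _ => hlow Λ hΛ (D i) (hD i) (hDΛ i) z hz
    rw [sum_const, card_univ, Fintype.card_fin, nsmul_eq_mul] at h5
    have h6 : (r : ℝ) * ∑ p ∈ S, 1 / (p : ℝ) ^ 2 ≤ r * Cs :=
      mul_le_mul_of_nonneg_left h3 hr0
    have h7 := (abs_le.1 (hmert z hz)).1
    have h8 : ∑ p ∈ PI 0 z, f p = ∑ p ∈ PI 0 z, ∑ i, (if ch (D i) p = -1 then 1 / (p : ℝ) else 0) +
        t * ∑ p ∈ PI 0 z, 1 / (p : ℝ) := by
      simp only [hf]
      rw [sum_add_distrib, ← mul_sum]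
    have h9 : (t : ℝ) * (Real.log (Real.log z) - Cm) ≤ t * ∑ p ∈ PI 0 z, 1 / (p : ℝ) :=
      mul_le_mul_of_nonneg_left (by linarith) ht0
    linarith
  -- the count
  have hcount : (((Ioc a (a + N)).filter (Cn2 D s g E z)).card : ℝ) ≤
      ∑ n ∈ Icc 1 N, ∏ p ∈ S, (1 - h p n) := by
    have h1 : (Ioc a (a + N)).filter (Cn2 D s g E z) ⊆
        ((Icc 1 N).filter (fun n => Cn2 D s g E z (n + a))).image (· + a) := by
      intro n hn
      rw [mem_filter, mem_Ioc] at hn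
      rw [mem_image]
      refine ⟨n - a, ?_, by omega⟩
      rw [mem_filter, mem_Icc]
      refine ⟨⟨by omega, by omega⟩, ?_⟩
      rw [Nat.sub_add_cancel hn.1.1.le]
      exact hn.2
    have h2 := (Finset.card_le_card h1).trans Finset.card_image_le
    have h3 : (((Icc 1 N).filter (fun n => Cn2 D s g E z (n + a))).card : ℝ) ≤
        ∑ n ∈ Icc 1 N, ∏ p ∈ S, (1 - h p n) := by
      rw [← Finset.sum_boole]
      apply sum_le_sum
      intro n _
      split_ifs with hn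
      · apply le_of_eq
        symm
        apply prod_eq_one
        intro p hp
        have : h p n = 0 := by
          simp only [hh]
          rw [if_neg]
          rintro ⟨i, hx⟩
          have h4 := hn p (hSm p hp).1 (hSm p hp).2.2 (hSm p hp).2.1 i
          apply h4
          have e : (g : ℤ) * ((n + a : ℕ) : ℤ) + s i = (g : ℤ) * n + (g * a + s i) := by
            push_cast
            ring
          rwa [e]
        rw [this, sub_zero]
      · apply prod_nonneg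
        intro p hp
        rcases h01 p hp n with h | h <;> rw [h] <;> norm_num
    exact le_trans (by exact_mod_cast h2) h3
  refine hcount.trans (hsv.trans ?_)
  have hN0 : (0 : ℝ) ≤ N := Nat.cast_nonneg N
  have hexp : Real.exp (-∑ p ∈ S, (∑ n ∈ range (p ^ 2), h p n) / (p : ℝ) ^ 2) ≤
      (1 + Real.log Λ) ^ ((r : ℝ) / 2) * (Real.log z) ^ (-((r : ℝ) / 2 + t)) * G *
        Real.exp ((r + t) * ∑ p ∈ E, 1 / (p : ℝ)) := by
    rw [Real.rpow_def_of_pos (by linarith : 0 < Real.log z),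
      Real.rpow_def_of_pos (by linarith : 0 < 1 + Real.log Λ), hG, ← Real.exp_add, ← Real.exp_add,
      ← Real.exp_add]
    apply Real.exp_le_exp.2
    linarith
  have hpos : 0 ≤ (1 + Real.log Λ) ^ ((r : ℝ) / 2) * (Real.log z) ^ (-((r : ℝ) / 2 + t)) * G *
        Real.exp ((r + t) * ∑ p ∈ E, 1 / (p : ℝ)) := by
    have e1 : 0 ≤ (Real.log z) ^ (-((r : ℝ) / 2 + t)) := Real.rpow_nonneg (by linarith) _
    have e2 : 0 ≤ (1 + Real.log Λ) ^ ((r : ℝ) / 2) := Real.rpow_nonneg (by linarith) _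
    positivity
  calc C0 * N * Real.exp (-∑ p ∈ S, (∑ n ∈ range (p ^ 2), h p n) / (p : ℝ) ^ 2)
      ≤ C0 * N * ((1 + Real.log Λ) ^ ((r : ℝ) / 2) * (Real.log z) ^ (-((r : ℝ) / 2 + t)) * G *
        Real.exp ((r + t) * ∑ p ∈ E, 1 / (p : ℝ))) := by
        apply mul_le_mul_of_nonneg_left hexp
        positivity
    _ ≤ 2 * (C0 * N * ((1 + Real.log Λ) ^ ((r : ℝ) / 2) * (Real.log z) ^ (-((r : ℝ) / 2 + t)) * G *
        Real.exp ((r + t) * ∑ p ∈ E, 1 / (p : ℝ)))) := by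
        have : 0 ≤ C0 * N * ((1 + Real.log Λ) ^ ((r : ℝ) / 2) *
          (Real.log z) ^ (-((r : ℝ) / 2 + t)) * G *
          Real.exp ((r + t) * ∑ p ∈ E, 1 / (p : ℝ))) := mul_nonneg (by positivity) hpos
        linarith
    _ = _ := by ring

end Pool.Agent.U646.HC
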