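import Pool.Agent.U646.HC.O1
import Pool.Agent.U646.HC.P1

set_option autoImplicit false

/-!
# Averages over the divisors
-/

namespace Pool.Agent.U646.HC

open Finset
open Pool.Agent.H951R4.OD (PI mert_le d3_log sum_sq_inv)

/-- the weight -/
noncomputable def FF (y : ℕ) (g : ℕ → ℝ) (m : ℕ) : ℝ := 1 / (m : ℝ) * ∏ p ∈ Sm y m, g p

theorem FF_nonneg {y : ℕ} {g : ℕ → ℝ} (hg : ∀ p, 0 ≤ g p) (m : ℕ) : 0 ≤ FF y g m :=
  mul_nonneg (by positivity) (prod_nonneg fun p _ => hg p)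

theorem Sm_one (y : ℕ) : Sm y 1 = ∅ := by
  unfold Sm
  simp

theorem FF_one (y : ℕ) (g : ℕ → ℝ) : FF y g 1 = 1 := by
  unfold FF
  rw [Sm_one]
  simp

theorem FF_zero (y : ℕ) (g : ℕ → ℝ) : FF y g 0 = 0 := by
  unfold FF
  simp

theorem Sm_mul {y m n : ℕ} (h : Nat.Coprime m n) (hm : m ≠ 0) (hn : n ≠ 0) :
    Sm y (m * n) = Sm y m ∪ Sm y n ∧ Disjoint (Sm y m) (Sm y n) := by
  have key : ∀ {a b p : ℕ}, Nat.Coprime a b → p.Prime → p ∣ a → (p ^ 2 ∣ a * b ↔ p ^ 2 ∣ a) := by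
    intro a b p hab hp hpa
    constructor
    · intro h1
      have h2 : ¬ p ∣ b := by
        intro h3
        have h4 := Nat.dvd_gcd hpa h3
        rw [hab] at h4
        exact hp.one_lt.ne' (Nat.dvd_one.1 h4)
      have hcop : Nat.Coprime (p ^ 2) b :=
        Nat.Coprime.pow_left 2 ((Nat.Prime.coprime_iff_not_dvd hp).2 h2)
      exact Nat.Coprime.dvd_of_dvd_mul_right hcop h1
    · intro h1
      exact Dvd.dvd.mul_right h1 b
  constructor
  · ext p
    rw [mem_union]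
    unfold Sm
    rw [mem_filter, mem_filter, mem_filter, Nat.primeFactors_mul hm hn, mem_union]
    constructor
    · rintro ⟨h1 | h1, h2, h3, h4⟩
      · left
        refine ⟨h1, h2, h3, ?_⟩
        rwa [key h (Nat.prime_of_mem_primeFactors h1) (Nat.dvd_of_mem_primeFactors h1)] at h4
      · right
        refine ⟨h1, h2, h3, ?_⟩
        rwa [mul_comm, key h.symm (Nat.prime_of_mem_primeFactors h1)
          (Nat.dvd_of_mem_primeFactors h1)] at h4
    · rintro (⟨h1, h2, h3, h4⟩ | ⟨h1, h2, h3, h4⟩)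
      · refine ⟨Or.inl h1, h2, h3, ?_⟩
        rwa [key h (Nat.prime_of_mem_primeFactors h1) (Nat.dvd_of_mem_primeFactors h1)]
      · refine ⟨Or.inr h1, h2, h3, ?_⟩
        rwa [mul_comm, key h.symm (Nat.prime_of_mem_primeFactors h1)
          (Nat.dvd_of_mem_primeFactors h1)]
  · apply Finset.disjoint_of_subset_left (filter_subset _ _)
    apply Finset.disjoint_of_subset_right (filter_subset _ _)
    exact h.disjoint_primeFactors

theorem FF_mul {y : ℕ} {g : ℕ → ℝ} {m n : ℕ} (h : Nat.Coprime m n) :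
    FF y g (m * n) = FF y g m * FF y g n := by
  rcases Nat.eq_zero_or_pos m with hm | hm
  · subst hm
    rw [zero_mul, FF_zero, zero_mul]
  rcases Nat.eq_zero_or_pos n with hn | hn
  · subst hn
    rw [mul_zero, FF_zero, mul_zero]
  obtain ⟨h1, h2⟩ := Sm_mul (y := y) h hm.ne' hn.ne'
  unfold FF
  rw [h1, prod_union h2]
  push_cast
  have e : 1 / ((m : ℝ) * n) = 1 / m * (1 / n) := by rw [one_div_mul_one_div]
  rw [e]
  ring

theorem Sm_prime {y p : ℕ} (hp : p.Prime) :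
    Sm y p = if p ≠ 2 ∧ p ≤ y then {p} else ∅ := by
  unfold Sm
  rw [Nat.Prime.primeFactors hp, filter_singleton]
  have h : ¬ p ^ 2 ∣ p := by
    intro h1
    have h2 := Nat.le_of_dvd hp.pos h1
    have := hp.two_le
    nlinarith
  simp only [h, not_false_eq_true, and_true]

theorem Sm_pow {y p : ℕ} (hp : p.Prime) (e : ℕ) : Sm y (p ^ (e + 2)) = ∅ := by
  unfold Sm
  rw [Nat.primeFactors_prime_pow (by omega) hp, filter_singleton, if_neg]
  rintro ⟨-, -, h⟩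
  apply h
  rw [pow_add]
  exact dvd_mul_left _ _

/-- the local weight -/
noncomputable def lw (y : ℕ) (g : ℕ → ℝ) (p : ℕ) : ℝ := if p ≠ 2 ∧ p ≤ y then g p else 1

theorem FF_prime {y : ℕ} {g : ℕ → ℝ} {p : ℕ} (hp : p.Prime) : FF y g p = lw y g p / p := by
  unfold FF lw
  rw [Sm_prime hp]
  split_ifs
  · rw [prod_singleton]
    ring
  · rw [prod_empty]
    ring

theorem FF_hasSum {y : ℕ} {g : ℕ → ℝ} {p : ℕ} (hp : p.Prime) :
    HasSum (fun e : ℕ => FF y g (p ^ e)) (1 + lw y g p / p + 1 / (p * ((p : ℝ) - 1))) := by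
  have h2 : (2 : ℝ) ≤ p := by exact_mod_cast hp.two_le
  have h3 : (p : ℝ) - 1 ≠ 0 := by linarith
  have h4 : (p : ℝ) ≠ 0 := by linarith
  have hlt : 1 / (p : ℝ) < 1 := by
    rw [div_lt_one (by linarith)]
    linarith
  have hg : HasSum (fun e : ℕ => (1 / (p : ℝ)) ^ e) (1 - 1 / (p : ℝ))⁻¹ :=
    hasSum_geometric_of_lt_one (by positivity) hlt
  have h5 := hg.mul_left ((1 / (p : ℝ)) ^ 2)
  have h6 : (fun e : ℕ => FF y g (p ^ (e + 2))) =
      fun e : ℕ => (1 / (p : ℝ)) ^ 2 * (1 / (p : ℝ)) ^ e := by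
    funext e
    unfold FF
    rw [Sm_pow hp, prod_empty, mul_one]
    push_cast
    rw [← pow_add, add_comm 2 e, one_div_pow]
  rw [← h6] at h5
  have h7 : HasSum (fun e : ℕ => FF y g (p ^ e)) ((1 / (p : ℝ)) ^ 2 * (1 - 1 / (p : ℝ))⁻¹ +
      ∑ i ∈ range 2, FF y g (p ^ i)) :=
    (hasSum_nat_add_iff (f := fun e : ℕ => FF y g (p ^ e)) 2).1 h5
  have e : (1 / (p : ℝ)) ^ 2 * (1 - 1 / (p : ℝ))⁻¹ + ∑ i ∈ range 2, FF y g (p ^ i) =
      1 + lw y g p / p + 1 / (p * ((p : ℝ) - 1)) := by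
    rw [sum_range_succ, sum_range_one, pow_zero, pow_one, FF_one, FF_prime hp]
    field_simp
    ring
  rw [e] at h7
  exact h7

theorem sum_FF_le {y : ℕ} {g : ℕ → ℝ} (hg : ∀ p, 0 ≤ g p) (N : ℕ) :
    ∑ m ∈ Icc 1 N, FF y g m ≤
      Real.exp (∑ p ∈ PI 0 N, (lw y g p / p + 2 * (1 / (p : ℝ) ^ 2))) := by
  have h1 := (EulerProduct.summable_and_hasSum_smoothNumbers_prod_primesBelow_tsum (f := FF y g)
    (FF_one y g) (fun {m n} h => FF_mul h) (fun {p} hp => (by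
      have := (FF_hasSum (y := y) (g := g) hp).summable
      refine this.congr (fun e => ?_)
      rw [Real.norm_of_nonneg (FF_nonneg hg _)])) (N + 1)).2
  have h2 : ∏ p ∈ Nat.primesBelow (N + 1), ∑' n : ℕ, FF y g (p ^ n) =
      ∏ p ∈ Nat.primesBelow (N + 1), (1 + lw y g p / p + 1 / (p * ((p : ℝ) - 1))) := by
    apply Finset.prod_congr rfl
    intro p hp
    exact (FF_hasSum (Nat.prime_of_mem_primesBelow hp)).tsum_eq
  rw [h2] at h1
  have h4 : HasSum ((Nat.smoothNumbers (N + 1)).indicator (FF y g))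
      (∏ p ∈ Nat.primesBelow (N + 1), (1 + lw y g p / p + 1 / (p * ((p : ℝ) - 1)))) := by
    rw [← hasSum_subtype_iff_indicator]
    exact h1
  have h5 := sum_le_hasSum (Icc 1 N) (fun m _ => Set.indicator_nonneg (fun m _ => FF_nonneg hg m) m) h4
  have h6 : ∑ m ∈ Icc 1 N, FF y g m = ∑ m ∈ Icc 1 N, (Nat.smoothNumbers (N + 1)).indicator (FF y g) m := by
    apply Finset.sum_congr rfl
    intro m hm
    rw [mem_Icc] at hm
    rw [Set.indicator_of_mem]
    exact Nat.mem_smoothNumbers_of_lt hm.1 (by omega)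
  rw [h6]
  refine h5.trans ?_
  have h7 : PI 0 N = Nat.primesBelow (N + 1) := by
    ext p
    unfold PI
    rw [mem_filter, mem_Ioc, Nat.mem_primesBelow]
    constructor
    · rintro ⟨⟨-, h1⟩, h2⟩
      exact ⟨by omega, h2⟩
    · rintro ⟨h1, h2⟩
      exact ⟨⟨h2.pos, by omega⟩, h2⟩
  rw [h7, Real.exp_sum]
  apply prod_le_prod
  · intro p hp
    have hpp := Nat.prime_of_mem_primesBelow hp
    have h2 : (2 : ℝ) ≤ p := by exact_mod_cast hpp.two_le
    have h8 : 0 ≤ lw y g p := by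
      unfold lw
      split_ifs
      · exact hg p
      · norm_num
    have h9 : 0 < (p : ℝ) - 1 := by linarith
    positivity
  · intro p hp
    have hpp := Nat.prime_of_mem_primesBelow hp
    have h2 : (2 : ℝ) ≤ p := by exact_mod_cast hpp.two_le
    have h9 : 0 < (p : ℝ) - 1 := by linarith
    have h8 : 1 / (p * ((p : ℝ) - 1)) ≤ 2 * (1 / (p : ℝ) ^ 2) := by
      rw [mul_one_div, div_le_div_iff₀ (by positivity) (by positivity)]
      nlinarith
    have h10 := Real.add_one_le_exp (lw y g p / p + 2 * (1 / (p : ℝ) ^ 2))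
    linarith

/-- the two averages -/
theorem averages : ∃ C : ℝ, 0 < C ∧ ∀ N y : ℕ, 3 ≤ y → y ≤ N →
    ∑ m ∈ Icc 1 N, 1 / (m : ℝ) * GG y m ≤ C * Real.log N * (Real.log y) ^ (-(1 / 2) : ℝ) ∧
    ∑ m ∈ Icc 1 N, 1 / (m : ℝ) * 2 ^ (Sm y m).card ≤ C * Real.log N * Real.log y := by
  obtain ⟨Cm, hCm, hm⟩ := mert_le
  obtain ⟨Cs, hCs, hs⟩ := sum_sq_inv
  refine ⟨Real.exp (2 * Cm + 3 * Cs + 1), Real.exp_pos _, ?_⟩
  intro N y hy hyN
  have hN : 3 ≤ N := by omega
  obtain ⟨hL1, -⟩ := d3_log hN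
  obtain ⟨hl1, -⟩ := d3_log hy
  have hL0 : 0 < Real.log N := by linarith
  have hl0 : 0 < Real.log y := by linarith
  have hmN := abs_le.1 (hm N hN)
  have hmy := abs_le.1 (hm y hy)
  have hsN := hs (PI 0 N)
  have hsplit : ∀ g : ℕ → ℝ, ∑ p ∈ PI 0 N, lw y g p / p =
      ∑ p ∈ PI 0 N, 1 / (p : ℝ) + ∑ p ∈ (PI 0 y).erase 2, (g p - 1) / p := by
    intro g
    have e1 : (PI 0 y).erase 2 = (PI 0 N).filter (fun p => p ≠ 2 ∧ p ≤ y) := by
      ext p
      unfold PI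
      rw [mem_erase, mem_filter, mem_filter, mem_filter, mem_Ioc, mem_Ioc]
      constructor
      · rintro ⟨h1, ⟨h2, h3⟩, h4⟩
        exact ⟨⟨⟨h2, by omega⟩, h4⟩, h1, h3⟩
      · rintro ⟨⟨⟨h2, h3⟩, h4⟩, h1, h5⟩
        exact ⟨h1, ⟨h2, h5⟩, h4⟩
    rw [e1, sum_filter, ← sum_add_distrib]
    apply sum_congr rfl
    intro p _
    unfold lw
    split_ifs
    · ring
    · ring
  have h2mem : 2 ∈ PI 0 y := by
    unfold PI
    rw [mem_filter, mem_Ioc]
    exact ⟨⟨by norm_num, by omega⟩, Nat.prime_two⟩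
  have herase : ∑ p ∈ (PI 0 y).erase 2, 1 / (p : ℝ) = ∑ p ∈ PI 0 y, 1 / (p : ℝ) - 1 / 2 := by
    rw [← add_sum_erase _ _ h2mem]
    push_cast
    ring
  constructor
  · have h1 := sum_FF_le (y := y) (g := fun p => (1 + 1 / (p : ℝ)) / 2)
      (fun p => by positivity) N
    have h2 : ∑ m ∈ Icc 1 N, 1 / (m : ℝ) * GG y m =
        ∑ m ∈ Icc 1 N, FF y (fun p => (1 + 1 / (p : ℝ)) / 2) m := rfl
    rw [h2]
    refine h1.trans ?_
    rw [sum_add_distrib, ← mul_sum, hsplit]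
    have h3 : ∑ p ∈ (PI 0 y).erase 2, ((1 + 1 / (p : ℝ)) / 2 - 1) / p =
        -(1 / 2) * ∑ p ∈ (PI 0 y).erase 2, 1 / (p : ℝ) +
          1 / 2 * ∑ p ∈ (PI 0 y).erase 2, 1 / (p : ℝ) ^ 2 := by
      rw [mul_sum, mul_sum, ← sum_add_distrib]
      apply sum_congr rfl
      intro p _
      ring
    rw [h3, herase]
    have h4 := hs ((PI 0 y).erase 2)
    have h5 : Real.exp (2 * Cm + 3 * Cs + 1) * Real.log N * (Real.log y) ^ (-(1 / 2) : ℝ) =
        Real.exp (2 * Cm + 3 * Cs + 1 + Real.log (Real.log N) +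
          Real.log (Real.log y) * (-(1 / 2))) := by
      rw [Real.exp_add (2 * Cm + 3 * Cs + 1 + Real.log (Real.log N)),
        Real.exp_add (2 * Cm + 3 * Cs + 1), Real.exp_log hL0, Real.rpow_def_of_pos hl0]
    rw [h5]
    apply Real.exp_le_exp.2
    linarith
  · have h1 := sum_FF_le (y := y) (g := fun _ => 2) (fun p => by norm_num) N
    have h2 : ∑ m ∈ Icc 1 N, 1 / (m : ℝ) * 2 ^ (Sm y m).card =
        ∑ m ∈ Icc 1 N, FF y (fun _ => 2) m := by
      apply sum_congr rfl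
      intro m _
      unfold FF
      rw [prod_const]
    rw [h2]
    refine h1.trans ?_
    rw [sum_add_distrib, ← mul_sum, hsplit]
    have h3 : ∑ p ∈ (PI 0 y).erase 2, ((2 : ℝ) - 1) / p =
        ∑ p ∈ (PI 0 y).erase 2, 1 / (p : ℝ) := by
      apply sum_congr rfl
      intro p _
      ring
    rw [h3, herase]
    have h5 : Real.exp (2 * Cm + 3 * Cs + 1) * Real.log N * Real.log y =
        Real.exp (2 * Cm + 3 * Cs + 1 + Real.log (Real.log N) + Real.log (Real.log y)) := by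
      rw [Real.exp_add (2 * Cm + 3 * Cs + 1 + Real.log (Real.log N)),
        Real.exp_add (2 * Cm + 3 * Cs + 1), Real.exp_log hL0, Real.exp_log hl0]
    rw [h5]
    apply Real.exp_le_exp.2
    linarith

end Pool.Agent.U646.HC
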