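import Pool.Agent.U646.HC.O2
import Pool.Agent.U646.HC.G

set_option autoImplicit false

/-!
# Designs of order at most `N`: the count
-/

namespace Pool.Agent.U646.HC

open Finset
open Pool.Agent.H951R4.OD (PI d3_log)
open Pool.Agent.H177R2.SD (IsSymmetricDesign design_compl)
open scoped Classical

/-- a symmetric design of order `n` and index `lam` exists -/
def IsO (n lam : ℕ) : Prop := ∃ (v : ℕ) (B : Fin v → Finset (Fin v)),
  n + lam < v ∧ (∀ i, (B i).card = n + lam) ∧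
  (∀ x y : Fin v, x ≠ y →
    (Finset.univ.filter (fun i => x ∈ B i ∧ y ∈ B i)).card = lam)

noncomputable def AdmO (N : ℕ) : Finset (ℕ × ℕ) :=
  ((Icc 2 N) ×ˢ (Icc 1 (N * N))).filter (fun q => q.2 ∣ q.1 * (q.1 - 1))

noncomputable def DesO (N : ℕ) : Finset (ℕ × ℕ) :=
  ((Icc 2 N) ×ˢ (Icc 1 (N * N))).filter (fun q => IsO q.1 q.2)

noncomputable def U (N y : ℕ) : Finset (ℕ × ℕ) :=
  ((Icc 2 N) ×ˢ (Icc 1 N)).filter (fun q => ∃ m w : ℕ, 1 ≤ m ∧ 1 ≤ w ∧ Nat.Coprime m w ∧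
    m ∣ q.1 ∧ w ∣ q.1 - 1 ∧ m * w = q.2 ∧ (Good 1 y m w q.1 ∨ Good (-1) y m w q.1))

theorem IsO_struct {n l : ℕ} (hn : 2 ≤ n) (hl : 1 ≤ l) (h : IsO n l) :
    ∃ v l' : ℕ, v = 2 * n + l + l' ∧ l * l' = n * (n - 1) ∧ IsSymmetricDesign v (n + l) l ∧
      IsSymmetricDesign v (n + l') l' := by
  obtain ⟨v, B, hkv, hBk, hBp⟩ := h
  obtain ⟨hr, hkk⟩ := repl v (n + l) l (by omega) hl B hBk hBp
  have hdes : IsSymmetricDesign v (n + l) l := ⟨hkv, n + l, B, hBk, hr, hBp⟩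
  obtain ⟨h1, h2⟩ := design_compl hdes (by omega)
  obtain ⟨l', hl'⟩ : ∃ l', v = 2 * n + l + l' := ⟨v - (2 * n + l), by omega⟩
  have e1 : v - (n + l) = n + l' := by omega
  have e2 : v + l - 2 * (n + l) = l' := by omega
  rw [e1, e2] at h2
  refine ⟨v, l', hl', ?_, hdes, h2⟩
  obtain ⟨n', rfl⟩ : ∃ n', n = n' + 1 := ⟨n - 1, by omega⟩
  have e3 : v - 1 = 2 * n' + 1 + l + l' := by omega
  rw [e3] at hkk
  have e4 : n' + 1 - 1 = n' := by omega
  rw [e4]
  nlinarith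

theorem U_mem {n l l' v y : ℕ} (hn : 2 ≤ n) (hl' : 1 ≤ l') (hll : l * l' = n * (n - 1))
    (hv : v = 2 * n + l + l') (hd : IsSymmetricDesign v (n + l) l) :
    ∃ m w : ℕ, 1 ≤ m ∧ 1 ≤ w ∧ Nat.Coprime m w ∧
    m ∣ n ∧ w ∣ n - 1 ∧ m * w = l' ∧ (Good 1 y m w n ∨ Good (-1) y m w n) := by
  obtain ⟨m, w, hm, hw, hmn, hwn, hmw, hcop⟩ := factor hn hl' ⟨l, by rw [mul_comm l' l, hll]⟩
  obtain ⟨a, ha⟩ := hmn
  obtain ⟨c, hc⟩ := hwn
  have hl : l = a * c := by
    have h1 : l * (m * w) = a * c * (m * w) := by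
      rw [hmw, hll]
      conv_lhs => rw [hc, ha]
      rw [← hmw]
      ring
    exact Nat.eq_of_mul_eq_mul_right (Nat.mul_pos hm hw) h1
  obtain ⟨σ, hσ, hG⟩ := local_cond (y := y) (m := m) (w := w) hn hd (by omega) ha
    (by omega : n = w * c + 1) hl
  refine ⟨m, w, hm, hw, hcop, ⟨a, ha⟩, ⟨c, hc⟩, hmw, ?_⟩
  rcases hσ with h | h
  · left
    rwa [h] at hG
  · right
    rwa [h] at hG

theorem des_sub (N y : ℕ) :
    DesO N ⊆ U N y ∪ (U N y).image (fun q => (q.1, q.1 * (q.1 - 1) / q.2)) := by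
  rintro ⟨n, l⟩ hq
  unfold DesO at hq
  rw [mem_filter, mem_product, mem_Icc, mem_Icc] at hq
  obtain ⟨⟨⟨hn, hnN⟩, hl, -⟩, hO⟩ := hq
  simp only at hn hnN hl hO
  obtain ⟨v, l', hv, hll, hd, hd'⟩ := IsO_struct hn hl hO
  have hl' : 1 ≤ l' := by
    rcases Nat.eq_zero_or_pos l' with h | h
    · rw [h, mul_zero] at hll
      have : 0 < n * (n - 1) := Nat.mul_pos (by omega) (by omega)
      omega
    · exact h
  rw [mem_union]
  rcases Nat.lt_or_ge n l' with h | h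
  · left
    have hln : l ≤ n := by
      by_contra hcon
      push Not at hcon
      have h1 : n * n ≤ l * l' := Nat.mul_le_mul hcon.le h.le
      have h2 : n * (n - 1) < n * n := Nat.mul_lt_mul_of_pos_left (by omega) (by omega)
      omega
    unfold U
    rw [mem_filter, mem_product, mem_Icc, mem_Icc]
    refine ⟨⟨⟨hn, hnN⟩, hl, by simp only; omega⟩, ?_⟩
    exact U_mem hn hl (by rw [mul_comm, hll]) (by omega : v = 2 * n + l' + l) hd'
  · right
    rw [mem_image]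
    refine ⟨(n, l'), ?_, ?_⟩
    · unfold U
      rw [mem_filter, mem_product, mem_Icc, mem_Icc]
      refine ⟨⟨⟨hn, hnN⟩, hl', by simp only; omega⟩, ?_⟩
      exact U_mem hn hl' hll hv hd
    · simp only
      rw [← hll, Nat.mul_div_cancel _ hl']

/-- harmonic tails -/
theorem tail {N m T : ℕ} (hm : 1 ≤ m) (hT : 1 ≤ T) (hmN : m ≤ N) :
    ∑ w ∈ (Icc 1 N).filter (fun w => m * w ≤ N ∧ N < m * w * T), 1 / (w : ℝ) ≤
      1 + Real.log T := by
  set X := N / m with hX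
  set a := X / T with ha
  have hX1 : 1 ≤ X := Nat.div_pos hmN hm
  have haX : a ≤ X := Nat.div_le_self X T
  have hsub : (Icc 1 N).filter (fun w => m * w ≤ N ∧ N < m * w * T) ⊆ Ioc a X := by
    intro w hw
    rw [mem_filter, mem_Icc] at hw
    obtain ⟨-, h1, h2⟩ := hw
    rw [mem_Ioc]
    constructor
    · by_contra hcon
      push Not at hcon
      rw [ha, Nat.le_div_iff_mul_le hT] at hcon
      rw [hX, Nat.le_div_iff_mul_le hm] at hcon
      have : m * w * T = w * T * m := by ring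
      omega
    · rw [hX, Nat.le_div_iff_mul_le hm]
      linarith [mul_comm w m]
  have h1 : ∑ w ∈ (Icc 1 N).filter (fun w => m * w ≤ N ∧ N < m * w * T), 1 / (w : ℝ) ≤
      ∑ w ∈ Ioc a X, 1 / (w : ℝ) := sum_le_sum_of_subset_of_nonneg hsub fun w _ _ => by positivity
  have h2 : ∑ w ∈ Ioc a X, 1 / (w : ℝ) + ∑ w ∈ Icc 1 a, 1 / (w : ℝ) =
      ∑ w ∈ Icc 1 X, 1 / (w : ℝ) := by
    rw [← sum_union]
    · congr 1
      ext w
      rw [mem_union, mem_Ioc, mem_Icc, mem_Icc]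
      constructor
      · rintro (⟨h1, h2⟩ | ⟨h1, h2⟩)
        · exact ⟨Nat.succ_le_of_lt (lt_of_le_of_lt (Nat.zero_le _) h1), h2⟩
        · exact ⟨h1, h2.trans haX⟩
      · rintro ⟨h1, h2⟩
        rcases Nat.lt_or_ge a w with h | h
        · exact Or.inl ⟨h, h2⟩
        · exact Or.inr ⟨h1, h⟩
    · rw [Finset.disjoint_left]
      intro w h3 h4
      rw [mem_Ioc] at h3
      rw [mem_Icc] at h4
      omega
  have h3 := harm X
  have h4 : Real.log ((a : ℝ) + 1) ≤ ∑ w ∈ Icc 1 a, 1 / (w : ℝ) := by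
    have h5 := log_add_one_le_harmonic a
    rw [harmonic_eq_sum_Icc] at h5
    push_cast at h5
    simpa [one_div] using h5
  have hX0 : (0 : ℝ) < X := by
    have : 0 < X := by omega
    exact_mod_cast this
  have hT0 : (0 : ℝ) < T := by
    have : 0 < T := by omega
    exact_mod_cast this
  have h5 : Real.log X ≤ Real.log T + Real.log ((a : ℝ) + 1) := by
    rw [← Real.log_mul hT0.ne' (by positivity)]
    apply Real.log_le_log hX0
    have h6 : X < T * (X / T + 1) := Nat.lt_mul_div_succ X (by omega)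
    have h7 : X ≤ T * (a + 1) := h6.le
    exact_mod_cast h7
  linarith

theorem U_card {N y K : ℕ} (hy : 3 ≤ y) (hK : 1 ≤ K) :
    ((U N y).card : ℝ) ≤ N * (∑ m ∈ Icc 1 N, 1 / (m : ℝ)) *
      (4 * ∑ m ∈ Icc 1 N, 1 / (m : ℝ) * GG y m +
        6 / 2 ^ K * ∑ m ∈ Icc 1 N, 1 / (m : ℝ) * 2 ^ (Sm y m).card) +
      3 * N * (∑ m ∈ Icc 1 N, 1 / (m : ℝ)) * (1 + 2 * K * Real.log y) := by
  have hN0 : (0 : ℝ) ≤ N := Nat.cast_nonneg N
  set P := ((Icc 1 N) ×ˢ (Icc 1 N)).filter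
    (fun q : ℕ × ℕ => Nat.Coprime q.1 q.2 ∧ q.1 * q.2 ≤ N) with hP
  set Y : ℕ × ℕ → Finset ℕ := fun q => (Ioc 0 N).filter
    (fun n => 2 ≤ n ∧ q.1 ∣ n ∧ q.2 ∣ n - 1 ∧ (Good 1 y q.1 q.2 n ∨ Good (-1) y q.1 q.2 n)) with hY
  set T := y ^ (2 * K) with hT
  have hT1 : 1 ≤ T := Nat.one_le_pow _ _ (by omega)
  have hsub : U N y ⊆ P.biUnion (fun q => (Y q).image (fun n => (n, q.1 * q.2))) := by
    rintro ⟨n, l⟩ hn
    unfold U at hn
    rw [mem_filter, mem_product, mem_Icc, mem_Icc] at hn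
    obtain ⟨⟨⟨hn1, hn2⟩, hl1, hl2⟩, m, w, hm, hw, hcop, hmn, hwn, hmw, hG⟩ := hn
    simp only at hn1 hn2 hl1 hl2 hmn hwn hmw hG
    rw [mem_biUnion]
    refine ⟨(m, w), ?_, ?_⟩
    · rw [hP, mem_filter, mem_product, mem_Icc, mem_Icc]
      simp only
      refine ⟨⟨⟨hm, ?_⟩, hw, ?_⟩, hcop, by omega⟩
      · nlinarith
      · nlinarith
    · rw [mem_image]
      refine ⟨n, ?_, ?_⟩
      · simp only [hY]
        rw [mem_filter, mem_Ioc]
        exact ⟨⟨by omega, hn2⟩, hn1, hmn, hwn, hG⟩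
      · simp only
        rw [hmw]
  have h1 := (Finset.card_le_card hsub).trans Finset.card_biUnion_le
  have h2 : ((U N y).card : ℝ) ≤ ∑ q ∈ P, ((Y q).card : ℝ) := by
    have h3 : ∑ q ∈ P, ((Y q).image (fun n => (n, q.1 * q.2))).card ≤
        ∑ q ∈ P, (Y q).card := sum_le_sum fun q _ => card_image_le
    exact_mod_cast h1.trans h3
  set AA : ℕ × ℕ → ℝ := fun q => N * (1 / (q.1 : ℝ) * (1 / (q.2 : ℝ))) *
    (4 * GG y q.1 + 6 / 2 ^ K * 2 ^ (Sm y q.1).card) with hAA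
  set BB : ℕ × ℕ → ℝ := fun q => if q.1 * q.2 ≤ N ∧ N < q.1 * q.2 * T then
    3 * N * (1 / (q.1 : ℝ) * (1 / (q.2 : ℝ))) else 0 with hBB
  have hGG0 : ∀ m, 0 ≤ GG y m := fun m => prod_nonneg fun p _ => by positivity
  have hAA0 : ∀ q, 0 ≤ AA q := by
    intro q
    have := hGG0 q.1
    simp only [hAA]
    positivity
  have hBB0 : ∀ q, 0 ≤ BB q := by
    intro q
    simp only [hBB]
    split_ifs
    · positivity
    · exact le_rfl
  have h3 : ∀ q ∈ P, ((Y q).card : ℝ) ≤ AA q + BB q := by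
    rintro ⟨m, w⟩ hq
    rw [hP, mem_filter, mem_product, mem_Icc, mem_Icc] at hq
    obtain ⟨⟨⟨h4, -⟩, h5, -⟩, h6, h7⟩ := hq
    simp only at h4 h5 h6 h7
    rcases Nat.lt_or_ge N (m * w * T) with hc | hc
    · have h8 := class_up (g := m) (e := w) (N := N) (a := 0) h4 h5 h6 h7
      have h9 : ((Y (m, w)).card : ℝ) ≤ 3 * N * (1 / (m : ℝ) * (1 / (w : ℝ))) := by
        refine le_trans ?_ h8
        rw [zero_add]
        have h10 : Y (m, w) ⊆ (Ioc 0 N).filter (fun n => 2 ≤ n ∧ m ∣ n ∧ w ∣ n - 1) := by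
          intro n hn
          simp only [hY] at hn
          rw [mem_filter] at hn ⊢
          exact ⟨hn.1, hn.2.1, hn.2.2.1, hn.2.2.2.1⟩
        exact_mod_cast card_le_card h10
      have h10 : BB (m, w) = 3 * N * (1 / (m : ℝ) * (1 / (w : ℝ))) := by
        simp only [hBB]
        rw [if_pos ⟨h7, hc⟩]
      have := hAA0 (m, w)
      linarith
    · have g1 := fixed2 (m := m) (w := w) (N := N) (y := y) (K := K) hy hK h4 h5 h6 hc
        (σ := 1) (Or.inl rfl)
      have g2 := fixed2 (m := m) (w := w) (N := N) (y := y) (K := K) hy hK h4 h5 h6 hc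
        (σ := -1) (Or.inr rfl)
      have h9 : Y (m, w) ⊆
          (Ioc 0 N).filter (fun n => m ∣ n ∧ w ∣ n - 1 ∧ Good 1 y m w n) ∪
          (Ioc 0 N).filter (fun n => m ∣ n ∧ w ∣ n - 1 ∧ Good (-1) y m w n) := by
        intro n hn
        simp only [hY] at hn
        rw [mem_filter] at hn
        obtain ⟨hn1, -, hn3, hn4, hn5⟩ := hn
        rw [mem_union, mem_filter, mem_filter]
        rcases hn5 with h | h
        · exact Or.inl ⟨hn1, hn3, hn4, h⟩
        · exact Or.inr ⟨hn1, hn3, hn4, h⟩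
      have h10 := (card_le_card h9).trans (card_union_le _ _)
      have h11 : ((Y (m, w)).card : ℝ) ≤
          (((Ioc 0 N).filter (fun n => m ∣ n ∧ w ∣ n - 1 ∧ Good 1 y m w n)).card : ℝ) +
          (((Ioc 0 N).filter (fun n => m ∣ n ∧ w ∣ n - 1 ∧ Good (-1) y m w n)).card : ℝ) := by
        exact_mod_cast h10
      have h12 : AA (m, w) = 2 * ((N : ℝ) / (m * w) *
          (2 * GG y m + 3 * (2 ^ (Sm y m).card / 2 ^ K))) := by
        simp only [hAA]
        rw [one_div_mul_one_div]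
        ring
      have := hBB0 (m, w)
      linarith
  have h4 : ∑ q ∈ P, AA q ≤ N * (∑ m ∈ Icc 1 N, 1 / (m : ℝ)) *
      (4 * ∑ m ∈ Icc 1 N, 1 / (m : ℝ) * GG y m +
        6 / 2 ^ K * ∑ m ∈ Icc 1 N, 1 / (m : ℝ) * 2 ^ (Sm y m).card) := by
    calc ∑ q ∈ P, AA q ≤ ∑ q ∈ (Icc 1 N) ×ˢ (Icc 1 N), AA q :=
          sum_le_sum_of_subset_of_nonneg (filter_subset _ _) fun q _ _ => hAA0 q
      _ = (∑ m ∈ Icc 1 N, (1 / (m : ℝ)) * (4 * GG y m + 6 / 2 ^ K * 2 ^ (Sm y m).card)) *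
          ∑ w ∈ Icc 1 N, N * (1 / (w : ℝ)) := by
          rw [sum_mul_sum, sum_product]
          apply sum_congr rfl
          intro m _
          apply sum_congr rfl
          intro w _
          simp only [hAA]
          ring
      _ = _ := by
          rw [← mul_sum]
          have e : ∑ m ∈ Icc 1 N, (1 / (m : ℝ)) * (4 * GG y m + 6 / 2 ^ K * 2 ^ (Sm y m).card) =
              4 * ∑ m ∈ Icc 1 N, 1 / (m : ℝ) * GG y m +
                6 / 2 ^ K * ∑ m ∈ Icc 1 N, 1 / (m : ℝ) * 2 ^ (Sm y m).card := by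
            rw [mul_sum, mul_sum, ← sum_add_distrib]
            apply sum_congr rfl
            intro m _
            ring
          rw [e]
          ring
  have hlogT : Real.log T = 2 * K * Real.log y := by
    rw [hT]
    push_cast
    rw [Real.log_pow]
    push_cast
    ring
  have h5 : ∑ q ∈ P, BB q ≤
      3 * N * (∑ m ∈ Icc 1 N, 1 / (m : ℝ)) * (1 + 2 * K * Real.log y) := by
    calc ∑ q ∈ P, BB q ≤ ∑ q ∈ (Icc 1 N) ×ˢ (Icc 1 N), BB q :=
          sum_le_sum_of_subset_of_nonneg (filter_subset _ _) fun q _ _ => hBB0 q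
      _ = ∑ m ∈ Icc 1 N, 3 * N * (1 / (m : ℝ)) *
          ∑ w ∈ (Icc 1 N).filter (fun w => m * w ≤ N ∧ N < m * w * T), 1 / (w : ℝ) := by
          rw [sum_product]
          apply sum_congr rfl
          intro m _
          rw [mul_sum, sum_filter]
          apply sum_congr rfl
          intro w _
          simp only [hBB]
          split_ifs
          · ring
          · rfl
      _ ≤ ∑ m ∈ Icc 1 N, 3 * N * (1 / (m : ℝ)) * (1 + Real.log T) := by
          apply sum_le_sum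
          intro m hm
          rw [mem_Icc] at hm
          exact mul_le_mul_of_nonneg_left (tail hm.1 hT1 hm.2) (by positivity)
      _ = _ := by
          rw [← sum_mul, ← mul_sum, hlogT]
  have h6 := h2.trans (sum_le_sum h3)
  rw [sum_add_distrib] at h6
  linarith

end Pool.Agent.U646.HC
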