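import Pool.Agent.U646.HC.O3

set_option autoImplicit false

/-!
# Designs of order at most `N`: the result
-/

namespace Pool.Agent.U646.HC

open Finset
open Pool.Agent.H951R4.OD (PI d3_log)
open scoped Classical

theorem admO_low {N : ℕ} (hN : 3 ≤ N) :
    (N : ℝ) * (Real.log N) ^ 2 ≤ 576 * ((AdmO N).card : ℝ) := by
  set Λ := Nat.sqrt N with hΛ
  have hΛ1 : 1 ≤ Λ := Nat.sqrt_pos.2 (by omega)
  have hΛN : Λ * Λ ≤ N := Nat.sqrt_le N
  have hlt : N < (Λ + 1) * (Λ + 1) := Nat.lt_succ_sqrt N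
  have h1 := adm_low hN hΛ1 hΛN 0
  have h2 : (Adm 0 N Λ).card ≤ (AdmO N).card := by
    apply Finset.card_le_card
    rintro ⟨n, l⟩ hq
    unfold Adm at hq
    unfold AdmO
    rw [mem_filter, mem_product, mem_Ioc, mem_Icc] at hq
    rw [mem_filter, mem_product, mem_Icc, mem_Icc]
    obtain ⟨⟨⟨h3, h4⟩, h5, h6⟩, h7, h8⟩ := hq
    simp only at h3 h4 h5 h6 h7 h8 ⊢
    refine ⟨⟨⟨by omega, by omega⟩, h5, ?_⟩, h8⟩
    nlinarith
  have h3 : ((Adm 0 N Λ).card : ℝ) ≤ ((AdmO N).card : ℝ) := by exact_mod_cast h2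
  have hN0 : (0 : ℝ) < N := by
    have : 0 < N := by omega
    exact_mod_cast this
  have hL0 : 0 ≤ Real.log N := Real.log_natCast_nonneg N
  have hΛ0 : (0 : ℝ) < Λ := by
    have : 0 < Λ := by omega
    exact_mod_cast this
  have h4 : Real.log N ≤ 2 * (1 + Real.log Λ) := by
    have h5 : (N : ℝ) ≤ (2 * Λ) ^ 2 := by
      have h6 : N ≤ (2 * Λ) ^ 2 := by nlinarith
      exact_mod_cast h6
    have h6 := Real.log_le_log hN0 h5
    rw [Real.log_pow, Real.log_mul (by norm_num) hΛ0.ne'] at h6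
    push_cast at h6
    have h7 := Real.log_two_lt_d9
    linarith
  have h5 : (Real.log N) ^ 2 ≤ 4 * (1 + Real.log Λ) ^ 2 := by
    have h6 := pow_le_pow_left₀ hL0 h4 2
    calc _ ≤ (2 * (1 + Real.log Λ)) ^ 2 := h6
      _ = _ := by ring
  calc (N : ℝ) * (Real.log N) ^ 2 ≤ N * (4 * (1 + Real.log Λ) ^ 2) :=
        mul_le_mul_of_nonneg_left h5 hN0.le
    _ = 4 * (N * (1 + Real.log Λ) ^ 2) := by ring
    _ ≤ 4 * (144 * ((AdmO N).card : ℝ)) := by linarith
    _ = _ := by ring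

theorem order_abs : ∃ C : ℝ, 0 < C ∧ ∀ N : ℕ, 3 ≤ N →
    ((DesO N).card : ℝ) ≤ C * (N * (Real.log N) ^ 2) *
      ((1 + Real.log (Real.log N)) * (Real.log N) ^ (-(1 / 3) : ℝ)) := by
  obtain ⟨C1, hC1, hav⟩ := averages
  refine ⟨2 * (32 * C1 + 54), by positivity, ?_⟩
  intro N hN
  have hN3 : (3 : ℝ) ≤ N := by exact_mod_cast hN
  have hN0 : (0 : ℝ) < N := by linarith
  obtain ⟨hL1, hLL⟩ := d3_log hN
  set L := Real.log N with hL
  have hL0 : 0 < L := by linarith
  set x : ℝ := L ^ (2 / 3 : ℝ) with hx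
  have hx1 : 1 ≤ x := Real.one_le_rpow hL1 (by norm_num)
  have hxL : x ≤ L := by
    calc x ≤ L ^ (1 : ℝ) := Real.rpow_le_rpow_of_exponent_le hL1 (by norm_num)
      _ = L := Real.rpow_one _
  have hex : Real.exp 1 ≤ Real.exp x := Real.exp_le_exp.2 hx1
  have he2 : (2 : ℝ) < Real.exp 1 := by
    have := Real.exp_one_gt_d9
    linarith
  set y : ℕ := ⌈Real.exp x⌉₊ with hy
  have hyge : Real.exp x ≤ y := Nat.le_ceil _
  have hy3 : 3 ≤ y := by
    have : (2 : ℝ) < y := by linarith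
    have : 2 < y := by exact_mod_cast this
    omega
  have hyN : y ≤ N := by
    apply Nat.ceil_le.2
    calc Real.exp x ≤ Real.exp L := Real.exp_le_exp.2 hxL
      _ = N := Real.exp_log hN0
  have hy0 : (0 : ℝ) < y := by
    have : 0 < y := by omega
    exact_mod_cast this
  have hlogy1 : x ≤ Real.log y := by
    have := Real.log_le_log (Real.exp_pos x) hyge
    rwa [Real.log_exp] at this
  have hlogy2 : Real.log y ≤ 2 * x := by
    have h1 : (y : ℝ) ≤ Real.exp (2 * x) := by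
      have h2 := Nat.ceil_lt_add_one (Real.exp_pos x).le
      have h3 : Real.exp (2 * x) = Real.exp x * Real.exp x := by
        rw [← Real.exp_add]
        ring_nf
      have h4 : 2 ≤ Real.exp x := by linarith
      rw [h3, hy]
      nlinarith
    have := Real.log_le_log hy0 h1
    rwa [Real.log_exp] at this
  set K : ℕ := ⌈2 * Real.log L⌉₊ + 1 with hK
  have hK1 : 1 ≤ K := by omega
  have hKle : (K : ℝ) ≤ 2 * (1 + Real.log L) := by
    rw [hK]
    push_cast
    have := Nat.ceil_lt_add_one (show 0 ≤ 2 * Real.log L by linarith)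
    linarith
  have hKge : L ≤ 2 ^ K := by
    have h1 : 2 * Real.log L ≤ K := by
      rw [hK]
      push_cast
      have := Nat.le_ceil (2 * Real.log L)
      linarith
    have h2 : L = Real.exp (Real.log L) := (Real.exp_log hL0).symm
    have h3 : (2 : ℝ) ^ K = Real.exp (K * Real.log 2) := by
      rw [mul_comm, Real.exp_mul, Real.exp_log (by norm_num), Real.rpow_natCast]
    rw [h3]
    nth_rewrite 1 [h2]
    apply Real.exp_le_exp.2
    have h4 := Real.log_two_gt_d9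
    have h5 : 2 * Real.log L * (1 / 2) ≤ K * Real.log 2 := by
      apply mul_le_mul h1 (by linarith) (by norm_num) (Nat.cast_nonneg _)
    linarith
  have hU := U_card (N := N) hy3 hK1
  obtain ⟨ha1, ha2⟩ := hav N y hy3 hyN
  rw [← hL] at ha1 ha2
  set H := ∑ m ∈ Icc 1 N, 1 / (m : ℝ) with hH
  have hH0 : 0 ≤ H := sum_nonneg fun m _ => by positivity
  have hH2 : H ≤ 2 * L := by
    have := harm N
    rw [← hL] at this
    linarith
  set ρ : ℝ := L ^ (-(1 / 3) : ℝ) with hρ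
  have hρ0 : 0 < ρ := Real.rpow_pos_of_pos hL0 _
  -- the three terms
  have t1 : ∑ m ∈ Icc 1 N, 1 / (m : ℝ) * GG y m ≤ C1 * L * ρ := by
    refine ha1.trans ?_
    apply mul_le_mul_of_nonneg_left _ (by positivity)
    calc (Real.log y) ^ (-(1 / 2) : ℝ) ≤ x ^ (-(1 / 2) : ℝ) :=
          Real.rpow_le_rpow_of_nonpos (by linarith) hlogy1 (by norm_num)
      _ = ρ := by
          rw [hx, ← Real.rpow_mul hL0.le, hρ]
          norm_num
  have hxρ : x = L * ρ := by
    rw [hx, hρ]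
    nth_rewrite 2 [← Real.rpow_one L]
    rw [← Real.rpow_add hL0]
    norm_num
  have t2 : 6 / 2 ^ K * ∑ m ∈ Icc 1 N, 1 / (m : ℝ) * 2 ^ (Sm y m).card ≤ 12 * C1 * L * ρ := by
    have h1 : ∑ m ∈ Icc 1 N, 1 / (m : ℝ) * 2 ^ (Sm y m).card ≤ C1 * L * (2 * x) :=
      ha2.trans (mul_le_mul_of_nonneg_left hlogy2 (by positivity))
    have h2 : (6 : ℝ) / 2 ^ K ≤ 6 / L := by
      apply div_le_div_of_nonneg_left (by norm_num) hL0 hKge
    calc 6 / 2 ^ K * ∑ m ∈ Icc 1 N, 1 / (m : ℝ) * 2 ^ (Sm y m).card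
        ≤ 6 / L * (C1 * L * (2 * x)) := by
          apply mul_le_mul h2 h1 _ (by positivity)
          exact sum_nonneg fun m _ => by positivity
      _ = 12 * C1 * x := by
          field_simp
          ring
      _ = _ := by rw [hxρ]; ring
  have t3 : 1 + 2 * K * Real.log y ≤ 9 * (1 + Real.log L) * (L * ρ) := by
    have hll : 1 ≤ 1 + Real.log L := by linarith
    have h1 : (K : ℝ) * Real.log y ≤ 2 * (1 + Real.log L) * (2 * x) :=
      mul_le_mul hKle hlogy2 (by linarith) (by linarith)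
    have h2 : 1 ≤ (1 + Real.log L) * x := by nlinarith
    rw [← hxρ]
    nlinarith
  have hdes : ((DesO N).card : ℝ) ≤ 2 * ((U N y).card : ℝ) := by
    have h1 := card_le_card (des_sub N y)
    have h2 := h1.trans (card_union_le _ _)
    have h3 : ((U N y).image (fun q => (q.1, q.1 * (q.1 - 1) / q.2))).card ≤ (U N y).card :=
      card_image_le
    have h4 : (DesO N).card ≤ 2 * (U N y).card := by omega
    exact_mod_cast h4
  have hUb : ((U N y).card : ℝ) ≤ (32 * C1 + 54) * (N * L ^ 2) * ((1 + Real.log L) * ρ) := by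
    have hll : 1 ≤ 1 + Real.log L := by linarith
    have s1 : (N : ℝ) * H * (4 * ∑ m ∈ Icc 1 N, 1 / (m : ℝ) * GG y m +
        6 / 2 ^ K * ∑ m ∈ Icc 1 N, 1 / (m : ℝ) * 2 ^ (Sm y m).card) ≤
        N * (2 * L) * (16 * C1 * L * ρ) := by
      have hGG0 : 0 ≤ ∑ m ∈ Icc 1 N, 1 / (m : ℝ) * GG y m := sum_nonneg fun m _ =>
        mul_nonneg (by positivity) (prod_nonneg fun p _ => by positivity)
      apply mul_le_mul
      · exact mul_le_mul_of_nonneg_left hH2 hN0.le
      · linarith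
      · positivity
      · positivity
    have s2 : 3 * (N : ℝ) * H * (1 + 2 * K * Real.log y) ≤
        3 * N * (2 * L) * (9 * (1 + Real.log L) * (L * ρ)) := by
      apply mul_le_mul
      · exact mul_le_mul_of_nonneg_left hH2 (by positivity)
      · exact t3
      · have : 0 ≤ Real.log y := by linarith
        positivity
      · positivity
    have s3 : (N : ℝ) * (2 * L) * (16 * C1 * L * ρ) ≤
        N * (2 * L) * (16 * C1 * L * ρ) * (1 + Real.log L) :=
      le_mul_of_one_le_right (by positivity) hll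
    calc ((U N y).card : ℝ) ≤ N * (2 * L) * (16 * C1 * L * ρ) * (1 + Real.log L) +
          3 * N * (2 * L) * (9 * (1 + Real.log L) * (L * ρ)) := by linarith
      _ = _ := by ring
  calc ((DesO N).card : ℝ) ≤ 2 * ((32 * C1 + 54) * (N * L ^ 2) * ((1 + Real.log L) * ρ)) := by
        linarith
    _ = _ := by ring

theorem order_bound : ∃ C : ℝ, 0 < C ∧ ∀ N : ℕ, 3 ≤ N →
    ((DesO N).card : ℝ) ≤ C * N * (Real.log N) ^ (5 / 3 : ℝ) * (1 + Real.log (Real.log N)) ∧
    ((DesO N).card : ℝ) ≤ C * (Real.log N) ^ (-(1 / 3) : ℝ) * (1 + Real.log (Real.log N)) *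
      ((AdmO N).card : ℝ) := by
  obtain ⟨C, hC, H⟩ := order_abs
  refine ⟨576 * C, by positivity, ?_⟩
  intro N hN
  obtain ⟨hL1, hLL⟩ := d3_log hN
  have h1 := H N hN
  have hadm := admO_low hN
  set L := Real.log N with hL
  have hL0 : 0 < L := by linarith
  have hN0 : (0 : ℝ) ≤ N := Nat.cast_nonneg N
  have hρ0 : 0 < L ^ (-(1 / 3) : ℝ) := Real.rpow_pos_of_pos hL0 _
  have hll : 0 ≤ 1 + Real.log L := by linarith
  have e : L ^ 2 * L ^ (-(1 / 3) : ℝ) = L ^ (5 / 3 : ℝ) := by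
    rw [← Real.rpow_natCast L 2, ← Real.rpow_add hL0]
    norm_num
  constructor
  · have h5 : 0 ≤ C * N * L ^ (5 / 3 : ℝ) * (1 + Real.log L) := by
      have := Real.rpow_nonneg hL0.le (5 / 3 : ℝ)
      positivity
    calc ((DesO N).card : ℝ) ≤ C * (N * L ^ 2) * ((1 + Real.log L) * L ^ (-(1 / 3) : ℝ)) := h1
      _ = C * N * (L ^ 2 * L ^ (-(1 / 3) : ℝ)) * (1 + Real.log L) := by ring
      _ = C * N * L ^ (5 / 3 : ℝ) * (1 + Real.log L) := by rw [e]
      _ ≤ 576 * (C * N * L ^ (5 / 3 : ℝ) * (1 + Real.log L)) := by linarith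
      _ = _ := by ring
  · calc ((DesO N).card : ℝ) ≤ C * (N * L ^ 2) * ((1 + Real.log L) * L ^ (-(1 / 3) : ℝ)) := h1
      _ ≤ C * (576 * ((AdmO N).card : ℝ)) * ((1 + Real.log L) * L ^ (-(1 / 3) : ℝ)) := by
          apply mul_le_mul_of_nonneg_right _ (by positivity)
          exact mul_le_mul_of_nonneg_left hadm hC.le
      _ = _ := by ring

end Pool.Agent.U646.HC
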