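import Pool.Agent.U646.HC.P1

set_option autoImplicit false

/-!
# The choice of the sifting level, with primality conditions
-/

namespace Pool.Agent.U646.HC

open Finset
open Pool.Agent.H951R4.OD (ch PI d3_log one_add_log_le)
open Pool.Agent.U671.BT (choice sumE)
open scoped Classical

variable {r t : ℕ}

/-- the local condition for the first family and primality for the second family -/
def Pn (D : Fin r → ℤ) (s : Fin r ⊕ Fin t → ℤ) (g : ℕ) (E : Finset ℕ) (n : ℕ) : Prop :=
  (∀ p : ℕ, p.Prime → p ∉ E → ∀ i : Fin r, ch (D i) p = -1 → ¬ Xc p ((g : ℤ) * n + s (Sum.inl i))) ∧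
    ∀ j : Fin t, ∃ q : ℕ, q.Prime ∧ (g : ℤ) * n + s (Sum.inr j) = q

theorem card_small (g : ℕ) (hg : 1 ≤ g) (c : ℤ) (z a N : ℕ) :
    ((Ioc a (a + N)).filter (fun n : ℕ => 0 ≤ (g : ℤ) * n + c ∧ (g : ℤ) * n + c ≤ z)).card ≤
      z + 1 := by
  have h1 : ((Ioc a (a + N)).filter
      (fun n : ℕ => 0 ≤ (g : ℤ) * n + c ∧ (g : ℤ) * n + c ≤ z)).card ≤ (range (z + 1)).card := by
    apply Finset.card_le_card_of_injOn (fun n : ℕ => ((g : ℤ) * n + c).toNat)
    · intro n hn
      rw [mem_coe, mem_filter] at hn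
      rw [mem_coe, mem_range]
      show ((g : ℤ) * n + c).toNat < z + 1
      have h1 := hn.2.1
      have h2 := hn.2.2
      omega
    · intro n hn m hm h
      rw [mem_coe, mem_filter] at hn hm
      have h' : ((g : ℤ) * n + c).toNat = ((g : ℤ) * m + c).toNat := h
      have h3 : (g : ℤ) * n + c = (g : ℤ) * m + c := by
        rw [← Int.toNat_of_nonneg hn.2.1, ← Int.toNat_of_nonneg hm.2.1, h']
      have h4 : (g : ℤ) * n = g * m := by linarith
      have hg0 : (g : ℤ) ≠ 0 := by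
        have : g ≠ 0 := by omega
        exact_mod_cast this
      have h5 := mul_left_cancel₀ hg0 h4
      exact_mod_cast h5
  rwa [card_range] at h1

theorem main2 (hrt : 1 ≤ r + t) (ε : ℝ) (hε : 0 < ε) (A : ℝ) (hA : 0 ≤ A) :
    ∃ C : ℝ, 0 < C ∧ ∀ N : ℕ, 3 ≤ N →
      ∀ Λ : ℕ, 1 ≤ Λ → ∀ D : Fin r → ℤ, (∀ i, ¬ IsSquare (D i)) → (∀ i, (D i).natAbs ≤ Λ) →
      ∀ g : ℕ, 1 ≤ g → ∀ E : Finset ℕ, (∀ p ∈ E, p.Prime) → (∀ p : ℕ, p.Prime → p ∉ E → ¬ p ∣ g) →
      (E.card : ℝ) ≤ A * Real.log N → ∀ s : Fin r ⊕ Fin t → ℤ,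
      (∀ p : ℕ, p.Prime → p ∉ E → ∀ i j, i ≠ j → ¬ (p : ℤ) ∣ s i - s j) → ∀ a : ℕ,
      (((Ioc a (a + N)).filter (Pn D s g E)).card : ℝ) ≤
        C * N * (1 + Real.log Λ) ^ ((r : ℝ) / 2) * (Real.log N) ^ (ε - ((r : ℝ) / 2 + t)) := by
  have hr0 : (0 : ℝ) ≤ r := Nat.cast_nonneg r
  have ht0 : (0 : ℝ) ≤ t := Nat.cast_nonneg t
  set m : ℕ := r + t with hm
  have hmr : (m : ℝ) = r + t := by rw [hm]; push_cast; ring
  have hm1 : (1 : ℝ) ≤ m := by exact_mod_cast hrt
  set κ : ℝ := (r : ℝ) / 2 + t with hκ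
  have hκ0 : 0 ≤ κ := by rw [hκ]; positivity
  have hκm : κ ≤ m := by rw [hκ, hmr]; linarith
  obtain ⟨C1, hC12, H⟩ := sift2 (r := r) (t := t) hrt
  have hC1 : 1 ≤ C1 := by linarith
  obtain ⟨Cm, hCm, hsE⟩ := sumE
  set M : ℕ := m + m with hM
  have hM1 : 1 ≤ M := by omega
  have hMr : (1 : ℝ) ≤ M := by exact_mod_cast hM1
  set b : ℝ := ε / M with hb
  have hb0 : 0 < b := by positivity
  set G : ℝ := Real.exp (m * (Cm + A)) with hG
  have hG0 : 0 < G := Real.exp_pos _
  set C2 : ℝ := C1 * (2 * C1) ^ m * G * 3 ^ m * (1 + 1 / b) ^ M with hC2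
  have hC20 : 0 < C2 := by positivity
  set C3 : ℝ := 2 * t * (2 * m) ^ m with hC3
  have hC30 : 0 ≤ C3 := by positivity
  refine ⟨(36 * C1 ^ 2) ^ m + C2 + C3, by positivity, ?_⟩
  intro N hN Λ hΛ D hD hDΛ g hg1 E hE hg hEc s hs a
  have hN3 : (3 : ℝ) ≤ N := by exact_mod_cast hN
  have hN0 : (0 : ℝ) < N := by linarith
  have hΛ1 : (1 : ℝ) ≤ Λ := by exact_mod_cast hΛ
  have hlogΛ : 0 ≤ Real.log Λ := Real.log_nonneg hΛ1
  set Q : ℝ := (1 + Real.log Λ) ^ ((r : ℝ) / 2) with hQ
  have hQ1 : 1 ≤ Q := Real.one_le_rpow (by linarith) (by positivity)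
  have hQ0 : 0 ≤ Q := by linarith
  obtain ⟨hL1, hLL0⟩ := d3_log hN
  set L := Real.log N with hL
  have hL0 : 0 < L := by linarith
  have hLpow : 0 < L ^ (ε - κ) := Real.rpow_pos_of_pos hL0 _
  have hX0 : 0 ≤ N * Q * L ^ (ε - κ) := by positivity
  have hLm : (L ^ m)⁻¹ ≤ L ^ (ε - κ) := by
    rw [← Real.rpow_natCast, ← Real.rpow_neg hL0.le]
    exact Real.rpow_le_rpow_of_exponent_le hL1 (by linarith)
  rcases lt_or_ge L (36 * C1 ^ 2) with hsmall | hbig
  · -- trivial bound
    have h1 : (((Ioc a (a + N)).filter (Pn D s g E)).card : ℝ) ≤ N := by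
      have h2 := Finset.card_filter_le (Ioc a (a + N)) (Pn D s g E)
      rw [Nat.card_Ioc] at h2
      have h3 : ((Ioc a (a + N)).filter (Pn D s g E)).card ≤ N := by omega
      exact_mod_cast h3
    refine h1.trans ?_
    have h5 : 1 ≤ (36 * C1 ^ 2) ^ m * L ^ (ε - κ) := by
      calc (1 : ℝ) = L ^ m * (L ^ m)⁻¹ := by field_simp
        _ ≤ (36 * C1 ^ 2) ^ m * L ^ (ε - κ) := by
          apply mul_le_mul (pow_le_pow_left₀ hL0.le hsmall.le m) hLm (by positivity) (by positivity)
    calc (N : ℝ) ≤ N * ((36 * C1 ^ 2) ^ m * L ^ (ε - κ)) :=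
          le_mul_of_one_le_right hN0.le h5
      _ = (36 * C1 ^ 2) ^ m * N * L ^ (ε - κ) := by ring
      _ ≤ (36 * C1 ^ 2) ^ m * N * L ^ (ε - κ) * Q :=
          le_mul_of_one_le_right (by positivity) hQ1
      _ = (36 * C1 ^ 2) ^ m * (N * Q * L ^ (ε - κ)) := by ring
      _ ≤ ((36 * C1 ^ 2) ^ m + C2 + C3) * (N * Q * L ^ (ε - κ)) := by
          apply mul_le_mul_of_nonneg_right _ hX0
          linarith
      _ = _ := by ring
  · obtain ⟨z, hz3, hcond, hzge, hzL⟩ := choice C1 hC1 N hbig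
    obtain ⟨hlz1, hllz⟩ := d3_log hz3
    rw [← hL] at hcond hzge hzL
    set w : ℕ := ⌈L⌉₊ + 3 with hw
    have hwL : L ≤ w := by
      rw [hw]
      push_cast
      have := Nat.le_ceil L
      linarith
    have hwL2 : (w : ℝ) ≤ 5 * L := by
      rw [hw]
      push_cast
      have := Nat.ceil_lt_add_one hL0.le
      linarith
    have hw0 : (0 : ℝ) < w := by linarith
    have hEw : (E.card : ℝ) / w ≤ A := by
      rw [div_le_iff₀ hw0]
      refine hEc.trans ?_
      exact mul_le_mul_of_nonneg_left hwL hA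
    have hw3 : 3 ≤ w := by omega
    have hsum := hsE E hE w hw3
    have hs' : ∑ p ∈ E, 1 / (p : ℝ) ≤ Real.log (Real.log w) + (Cm + A) := by linarith
    have h1 := H z N hz3 hcond Λ hΛ D hD hDΛ g E hE hg s hs a
    rw [← hQ, ← hκ, ← hmr] at h1
    -- the small primes
    have hz0 : (0 : ℝ) < z := by
      have : 0 < z := by omega
      exact_mod_cast this
    have hzN : (z : ℝ) ≤ (N : ℝ) ^ ((1 : ℝ) / 2) := by
      have f1 : 2 * Real.log z ≤ L := by
        refine le_trans ?_ hcond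
        have f2 : 2 * Real.log z * 1 ≤ C1 * Real.log z * (1 + Real.log (Real.log z)) := by
          apply mul_le_mul _ (by linarith) (by norm_num) (by positivity)
          exact mul_le_mul_of_nonneg_right hC12 (by linarith)
        linarith
      rw [Real.rpow_def_of_pos hN0, ← hL]
      calc (z : ℝ) = Real.exp (Real.log z) := (Real.exp_log hz0).symm
        _ ≤ _ := Real.exp_le_exp.2 (by linarith)
    have hcount : (((Ioc a (a + N)).filter (Pn D s g E)).card : ℝ) ≤
        (((Ioc a (a + N)).filter (Cn2 D s g E z)).card : ℝ) + t * (z + 1) := by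
      have hsub : (Ioc a (a + N)).filter (Pn D s g E) ⊆
          (Ioc a (a + N)).filter (Cn2 D s g E z) ∪
          (univ : Finset (Fin t)).biUnion (fun j => (Ioc a (a + N)).filter
            (fun n : ℕ => 0 ≤ (g : ℤ) * n + s (Sum.inr j) ∧ (g : ℤ) * n + s (Sum.inr j) ≤ z)) := by
        intro n hn
        rw [mem_filter] at hn
        obtain ⟨hn1, hn2, hn3⟩ := hn
        rw [mem_union]
        by_cases hc : ∃ j : Fin t, (g : ℤ) * n + s (Sum.inr j) ≤ z
        · obtain ⟨j, hj⟩ := hc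
          right
          rw [mem_biUnion]
          refine ⟨j, mem_univ j, ?_⟩
          rw [mem_filter]
          refine ⟨hn1, ?_, hj⟩
          obtain ⟨q, -, hq⟩ := hn3 j
          rw [hq]
          exact Int.natCast_nonneg q
        · left
          push Not at hc
          rw [mem_filter]
          refine ⟨hn1, ?_⟩
          intro p hp hpE hpz i hbad
          rcases i with i | j
          · exact hn2 p hp hpE i hbad.1 hbad.2
          · have hbad' : (p : ℤ) ∣ (g : ℤ) * n + s (Sum.inr j) := hbad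
            obtain ⟨q, hq1, hq2⟩ := hn3 j
            have h3 := hc j
            rw [hq2] at hbad' h3
            have h4 : p ∣ q := by exact_mod_cast hbad'
            have h5 : p = q := (Nat.prime_dvd_prime_iff_eq hp hq1).1 h4
            have h6 : z < q := by exact_mod_cast h3
            omega
      have h2 := (Finset.card_le_card hsub).trans (Finset.card_union_le _ _)
      have h3 : ((univ : Finset (Fin t)).biUnion (fun j => (Ioc a (a + N)).filter
            (fun n : ℕ => 0 ≤ (g : ℤ) * n + s (Sum.inr j) ∧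
              (g : ℤ) * n + s (Sum.inr j) ≤ z))).card ≤ t * (z + 1) := by
        refine Finset.card_biUnion_le.trans ?_
        calc _ ≤ ∑ _j : Fin t, (z + 1) := sum_le_sum fun j _ => card_small g hg1 _ z a N
          _ = _ := by rw [sum_const, card_univ, Fintype.card_fin, smul_eq_mul]
      have h4 : ((Ioc a (a + N)).filter (Pn D s g E)).card ≤
          ((Ioc a (a + N)).filter (Cn2 D s g E z)).card + t * (z + 1) := by omega
      exact_mod_cast h4
    have htail : (t : ℝ) * (z + 1) ≤ C3 * (N * Q * L ^ (ε - κ)) := by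
      have f1 : (z : ℝ) + 1 ≤ 2 * (N : ℝ) ^ ((1 : ℝ) / 2) := by
        have : (3 : ℝ) ≤ z := by exact_mod_cast hz3
        linarith
      have f2 : L ^ m ≤ (2 * m) ^ m * (N : ℝ) ^ ((1 : ℝ) / 2) := by
        have g1 := Real.log_le_rpow_div hN0.le (show (0 : ℝ) < 1 / (2 * m) by positivity)
        rw [← hL] at g1
        calc L ^ m ≤ ((N : ℝ) ^ ((1 : ℝ) / (2 * m)) / (1 / (2 * m))) ^ m :=
              pow_le_pow_left₀ hL0.le g1 m
          _ = (2 * m) ^ m * ((N : ℝ) ^ ((1 : ℝ) / (2 * m))) ^ m := by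
              rw [← mul_pow]
              congr 1
              field_simp
          _ = (2 * m) ^ m * (N : ℝ) ^ ((1 : ℝ) / 2) := by
              rw [← Real.rpow_natCast ((N : ℝ) ^ ((1 : ℝ) / (2 * m))), ← Real.rpow_mul hN0.le]
              congr 2
              field_simp
      have f3 : (N : ℝ) ^ ((1 : ℝ) / 2) * (N : ℝ) ^ ((1 : ℝ) / 2) = N := by
        rw [← Real.rpow_add hN0]
        norm_num
      have f4 : (N : ℝ) ^ ((1 : ℝ) / 2) ≤ (2 * m) ^ m * (N * L ^ (ε - κ)) := by
        calc (N : ℝ) ^ ((1 : ℝ) / 2) = (N : ℝ) ^ ((1 : ℝ) / 2) * L ^ m * (L ^ m)⁻¹ := by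
              field_simp
          _ ≤ (N : ℝ) ^ ((1 : ℝ) / 2) * ((2 * m) ^ m * (N : ℝ) ^ ((1 : ℝ) / 2)) * L ^ (ε - κ) := by
              apply mul_le_mul _ hLm (by positivity) (by positivity)
              apply mul_le_mul_of_nonneg_left f2
              positivity
          _ = (2 * m) ^ m * (((N : ℝ) ^ ((1 : ℝ) / 2) * (N : ℝ) ^ ((1 : ℝ) / 2)) * L ^ (ε - κ)) := by
              ring
          _ = _ := by rw [f3]
      calc (t : ℝ) * (z + 1) ≤ t * (2 * ((2 * m) ^ m * (N * L ^ (ε - κ)))) := by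
            apply mul_le_mul_of_nonneg_left _ ht0
            linarith
        _ = C3 * (N * L ^ (ε - κ)) := by rw [hC3]; ring
        _ ≤ C3 * (N * L ^ (ε - κ)) * Q := le_mul_of_one_le_right (by positivity) hQ1
        _ = _ := by ring
    -- the factors
    have hLLs : 1 ≤ 1 + Real.log L := by linarith
    have e2 : (Real.log z) ^ (-κ) ≤
        (2 * C1) ^ m * (1 + Real.log L) ^ m * L ^ (-κ) := by
      have hden : 0 < 2 * (C1 * (1 + Real.log L)) := by positivity
      have f1 : (Real.log z) ^ (-κ) ≤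
          (L / (2 * (C1 * (1 + Real.log L)))) ^ (-κ) := by
        apply Real.rpow_le_rpow_of_nonpos (by positivity) hzge
        linarith
      refine f1.trans ?_
      rw [Real.div_rpow hL0.le (by positivity)]
      have f4 : (1 : ℝ) ≤ 2 * (C1 * (1 + Real.log L)) := by nlinarith
      have f5 : ((2 * (C1 * (1 + Real.log L))) ^ (-κ))⁻¹ ≤
          (2 * (C1 * (1 + Real.log L))) ^ m := by
        rw [← Real.rpow_neg (by linarith), ← Real.rpow_natCast]
        apply Real.rpow_le_rpow_of_exponent_le f4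
        linarith
      rw [div_eq_mul_inv]
      calc L ^ (-κ) * ((2 * (C1 * (1 + Real.log L))) ^ (-κ))⁻¹
          ≤ L ^ (-κ) * (2 * (C1 * (1 + Real.log L))) ^ m := by
            apply mul_le_mul_of_nonneg_left f5 (Real.rpow_nonneg hL0.le _)
        _ = _ := by
            rw [show 2 * (C1 * (1 + Real.log L)) = (2 * C1) * (1 + Real.log L) by ring, mul_pow]
            ring
    have hlogw : Real.log w ≤ 3 * (1 + Real.log L) := by
      have f1 : Real.log w ≤ Real.log (5 * L) := Real.log_le_log hw0 hwL2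
      rw [Real.log_mul (by norm_num) hL0.ne'] at f1
      have f2 : Real.log 5 ≤ 3 := by
        have h8 : Real.log 5 ≤ Real.log 8 := Real.log_le_log (by norm_num) (by norm_num)
        have h9 : Real.log 8 = 3 * Real.log 2 := by
          rw [show (8 : ℝ) = 2 ^ 3 by norm_num, Real.log_pow]
          norm_num
        have := Real.log_two_lt_d9
        linarith
      linarith
    have hlogw1 : 1 ≤ Real.log w := (d3_log hw3).1
    have e5 : Real.exp (m * ∑ p ∈ E, 1 / (p : ℝ)) ≤ G * (3 ^ m * (1 + Real.log L) ^ m) := by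
      have g1 : Real.exp (m * ∑ p ∈ E, 1 / (p : ℝ)) ≤
          Real.exp (m * (Real.log (Real.log w) + (Cm + A))) :=
        Real.exp_le_exp.2 (mul_le_mul_of_nonneg_left hs' (by linarith))
      refine g1.trans ?_
      rw [mul_add, Real.exp_add, mul_comm (Real.exp _), ← hG]
      apply mul_le_mul_of_nonneg_left _ hG0.le
      rw [← mul_pow]
      calc Real.exp (m * Real.log (Real.log w)) = (Real.log w) ^ m := by
            rw [mul_comm, Real.exp_mul, Real.exp_log (by linarith), Real.rpow_natCast]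
        _ ≤ (3 * (1 + Real.log L)) ^ m := pow_le_pow_left₀ (by linarith) hlogw m
    have e3 : (1 + Real.log L) ^ M ≤ (1 + 1 / b) ^ M * L ^ ε := by
      have f1 := one_add_log_le b L hb0 hL1
      calc (1 + Real.log L) ^ M ≤ ((1 + 1 / b) * L ^ b) ^ M :=
            pow_le_pow_left₀ (by linarith) f1 _
        _ = (1 + 1 / b) ^ M * L ^ ε := by
            rw [mul_pow, ← Real.rpow_natCast (L ^ b), ← Real.rpow_mul hL0.le]
            congr 2
            rw [hb]
            field_simp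
    have hlp : 0 ≤ L ^ (-κ) := Real.rpow_nonneg hL0.le _
    have hrz : 0 ≤ (Real.log z) ^ (-κ) := Real.rpow_nonneg (by linarith) _
    have hll0 : 0 ≤ Real.log L := hLL0
    have e4 : C1 * N * Q * (Real.log z) ^ (-κ) *
        Real.exp (m * ∑ p ∈ E, 1 / (p : ℝ)) ≤ C2 * (N * Q * L ^ (ε - κ)) := by
      calc C1 * N * Q * (Real.log z) ^ (-κ) * Real.exp (m * ∑ p ∈ E, 1 / (p : ℝ))
          ≤ C1 * N * Q * ((2 * C1) ^ m * (1 + Real.log L) ^ m * L ^ (-κ)) *
              (G * (3 ^ m * (1 + Real.log L) ^ m)) := by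
            gcongr
        _ = C1 * (2 * C1) ^ m * G * 3 ^ m * N * Q * (1 + Real.log L) ^ M *
              L ^ (-κ) := by
            rw [hM, pow_add]
            ring
        _ ≤ C1 * (2 * C1) ^ m * G * 3 ^ m * N * Q * ((1 + 1 / b) ^ M * L ^ ε) *
              L ^ (-κ) := by
            apply mul_le_mul_of_nonneg_right _ hlp
            apply mul_le_mul_of_nonneg_left e3
            positivity
        _ = C2 * (N * Q * (L ^ ε * L ^ (-κ))) := by rw [hC2]; ring
        _ = C2 * (N * Q * L ^ (ε - κ)) := by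
            rw [← Real.rpow_add hL0]
            congr 2
    have h7 : 0 ≤ (36 * C1 ^ 2) ^ m * (N * Q * L ^ (ε - κ)) := by positivity
    have h8 := h1.trans e4
    calc (((Ioc a (a + N)).filter (Pn D s g E)).card : ℝ) ≤
          (36 * C1 ^ 2) ^ m * (N * Q * L ^ (ε - κ)) + C2 * (N * Q * L ^ (ε - κ)) +
            C3 * (N * Q * L ^ (ε - κ)) := by linarith
      _ = _ := by ring

end Pool.Agent.U646.HC
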