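import Pool.Agent.U646.HC.P2
import Pool.Agent.U646.HC.E

set_option autoImplicit false

/-!
# Primes and block sizes
-/

namespace Pool.Agent.U646.HC

open Finset Filter Topology
open Pool.Agent.H951R4.OD (ch d3_log)
open scoped Classical

section
variable {r t : ℕ}

/-- the excluded primes for shifts of size at most `N ^ A` -/
theorem shifts2 (hrt : 1 ≤ r + t) (ε : ℝ) (hε : 0 < ε) (A : ℕ) :
    ∃ C : ℝ, 0 < C ∧ ∀ N : ℕ, 3 ≤ N →
      ∀ Λ : ℕ, 1 ≤ Λ → ∀ D : Fin r → ℤ, (∀ i, ¬ IsSquare (D i)) → (∀ i, (D i).natAbs ≤ Λ) →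
      ∀ s : Fin r ⊕ Fin t → ℤ, Function.Injective s → (∀ i, (s i).natAbs ≤ N ^ A) → ∀ a : ℕ,
      (((Ioc a (a + N)).filter (Pn D s 1 ∅)).card : ℝ) ≤
        C * N * (1 + Real.log Λ) ^ ((r : ℝ) / 2) * (Real.log N) ^ (ε - ((r : ℝ) / 2 + t)) := by
  set m : ℕ := Fintype.card (Fin r ⊕ Fin t) with hm
  set B : ℝ := 2 * (m ^ 2 * (A + 1)) with hB
  obtain ⟨C, hC, H⟩ := main2 (r := r) (t := t) hrt ε hε B (by positivity)
  refine ⟨C, hC, ?_⟩
  intro N hN Λ hΛ D hD hDΛ s hinj hsN a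
  have hN3 : (3 : ℝ) ≤ N := by exact_mod_cast hN
  have hN0 : (0 : ℝ) < N := by linarith
  obtain ⟨hL1, -⟩ := d3_log hN
  set g : Fin r ⊕ Fin t → Fin r ⊕ Fin t → ℕ :=
    fun i j => if i = j then 1 else (s i - s j).natAbs with hg
  set M : ℕ := ∏ i, ∏ j, g i j with hM
  have hg0 : ∀ i j, g i j ≠ 0 := by
    intro i j
    simp only [hg]
    split_ifs with hij
    · exact one_ne_zero
    · rw [Int.natAbs_ne_zero, sub_ne_zero]
      exact fun h => hij (hinj h)
  have hM0 : M ≠ 0 := by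
    rw [hM]
    exact Finset.prod_ne_zero_iff.2 fun i _ => Finset.prod_ne_zero_iff.2 fun j _ => hg0 i j
  have hgle : ∀ i j, g i j ≤ N ^ (A + 1) := by
    intro i j
    have h1 : 1 ≤ N ^ A := Nat.one_le_pow _ _ (by omega)
    have h2 : 2 * N ^ A ≤ N ^ (A + 1) := by
      rw [pow_succ]
      nlinarith
    simp only [hg]
    split_ifs with hij
    · omega
    · have h3 := hsN i
      have h4 := hsN j
      omega
  have hMle : M ≤ (N ^ (A + 1)) ^ (m * m) := by
    rw [hM]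
    calc ∏ i, ∏ j, g i j ≤ ∏ _i : Fin r ⊕ Fin t, ∏ _j : Fin r ⊕ Fin t, N ^ (A + 1) :=
          Finset.prod_le_prod' fun i _ => Finset.prod_le_prod' fun j _ => hgle i j
      _ = (N ^ (A + 1)) ^ (m * m) := by
          rw [prod_const, prod_const, card_univ, ← hm, ← pow_mul]
  set E : Finset ℕ := M.primeFactors with hE
  have hEp : ∀ p ∈ E, p.Prime := fun p hp => Nat.prime_of_mem_primeFactors hp
  have hEc : (E.card : ℝ) ≤ B * Real.log N := by
    have h1 : 2 ^ E.card ≤ M := by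
      have h2 : 2 ^ E.card ≤ ∏ p ∈ E, p := by
        apply Finset.pow_card_le_prod
        intro p hp
        exact (hEp p hp).two_le
      exact h2.trans (Nat.le_of_dvd (Nat.pos_of_ne_zero hM0) (Nat.prod_primeFactors_dvd M))
    have h3 : ((2 : ℝ)) ^ E.card ≤ ((N : ℝ) ^ (A + 1)) ^ (m * m) := by
      exact_mod_cast h1.trans hMle
    have h4 := Real.log_le_log (by positivity) h3
    rw [Real.log_pow, Real.log_pow, Real.log_pow] at h4
    have h8 : 1 / 2 ≤ Real.log 2 := by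
      have := Real.log_two_gt_d9
      linarith
    have h9 : (0 : ℝ) ≤ E.card := Nat.cast_nonneg _
    rw [hB]
    push_cast at h4
    nlinarith
  have hdis : ∀ p : ℕ, p.Prime → p ∉ E → ∀ i j, i ≠ j → ¬ (p : ℤ) ∣ s i - s j := by
    intro p hp hpE i j hij hd
    apply hpE
    rw [hE, Nat.mem_primeFactors]
    refine ⟨hp, ?_, hM0⟩
    have h5 : p ∣ g i j := by
      simp only [hg]
      rw [if_neg hij]
      exact Int.natCast_dvd.1 hd
    rw [hM]
    exact h5.trans ((Finset.dvd_prod_of_mem (fun j => g i j) (mem_univ j)).trans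
      (Finset.dvd_prod_of_mem (fun i => ∏ j, g i j) (mem_univ i)))
  refine le_trans ?_ (H N hN Λ hΛ D hD hDΛ 1 le_rfl E hEp
    (fun p hp _ hd => hp.one_lt.ne' (Nat.dvd_one.1 hd)) hEc s hdis a)
  have hsub : (Ioc a (a + N)).filter (Pn D s 1 ∅) ⊆ (Ioc a (a + N)).filter (Pn D s 1 E) := by
    intro n hn
    rw [mem_filter] at hn ⊢
    refine ⟨hn.1, ?_, hn.2.2⟩
    intro p hp _ i hi
    exact hn.2.1 p hp (Finset.notMem_empty p) i hi
  exact_mod_cast Finset.card_le_card hsub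

end

/-- the count of `n` with `n + h i` a block size and `n + u j` prime -/
def Mix {r t : ℕ} (lam h : Fin r → ℕ) (u : Fin t → ℕ) (n : ℕ) : Prop :=
  (∀ i, IsK (lam i) (n + h i)) ∧ ∀ j, (n + u j).Prime

theorem tuples2 (r t A : ℕ) (hrt : 1 ≤ r + t) (ε : ℝ) (hε : 0 < ε) :
    ∃ C : ℝ, 0 < C ∧ ∀ N : ℕ, 3 ≤ N → ∀ Λ : ℕ, 1 ≤ Λ → Λ ≤ N ^ A →
      ∀ (lam h : Fin r → ℕ) (u : Fin t → ℕ), (∀ i, 1 ≤ lam i ∧ lam i ≤ Λ) → (∀ i, h i ≤ N ^ A) →
      (∀ j, u j ≤ N ^ A) →
      (∀ i j, i ≠ j → (h i : ℤ) - lam i ≠ h j - lam j) → (∀ i j, i ≠ j → u i ≠ u j) →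
      (∀ i j, h i ≠ u j + lam i) → ∀ a : ℕ,
      (((Ioc a (a + N)).filter (Mix lam h u)).card : ℝ) ≤
        C * N * (1 + Real.log Λ) ^ ((r : ℝ) / 2) * (Real.log N) ^ (ε - ((r : ℝ) / 2 + t)) := by
  obtain ⟨C, hC, H⟩ := shifts2 (r := r) (t := t) hrt ε hε A
  refine ⟨2 ^ r * C, by positivity, ?_⟩
  intro N hN Λ hΛ hΛN lam h u hlam hh hu hinj hinju hhu a
  have hlog : 0 ≤ Real.log N := Real.log_natCast_nonneg N
  have hlogΛ : 0 ≤ Real.log Λ := Real.log_natCast_nonneg Λ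
  set s : Fin r ⊕ Fin t → ℤ := Sum.elim (fun i => (h i : ℤ) - lam i) (fun j => (u j : ℤ)) with hs
  set S := (Fintype.piFinset (fun i => ({(lam i : ℤ), -(lam i : ℤ)} : Finset ℤ))).filter
    (fun D => ∀ i, ¬ IsSquare (D i)) with hS
  set X : ℝ := C * N * (1 + Real.log Λ) ^ ((r : ℝ) / 2) *
    (Real.log N) ^ (ε - ((r : ℝ) / 2 + t)) with hX
  have hX0 : 0 ≤ X := by
    rw [hX]
    have := Real.rpow_nonneg hlog (ε - ((r : ℝ) / 2 + t))
    positivity
  have hsub : (Ioc a (a + N)).filter (Mix lam h u) ⊆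
      S.biUnion (fun D => (Ioc a (a + N)).filter (Pn D s 1 ∅)) := by
    intro n hn
    rw [mem_filter] at hn
    obtain ⟨hn1, hn2, hn3⟩ := hn
    choose D hD1 hD2 hD3 using fun i => (facts (hlam i).1 (hn2 i)).2.2.2
    rw [mem_biUnion]
    refine ⟨D, ?_, ?_⟩
    · rw [hS, mem_filter, Fintype.mem_piFinset]
      refine ⟨fun i => ?_, hD2⟩
      rw [mem_insert, mem_singleton]
      exact hD1 i
    · rw [mem_filter]
      refine ⟨hn1, ?_, ?_⟩
      · intro p hp _ i hi
        have h1 := hD3 i p hp hi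
        have e : ((n + h i : ℕ) : ℤ) - lam i = ((1 : ℕ) : ℤ) * n + s (Sum.inl i) := by
          simp only [hs, Sum.elim_inl]
          push_cast
          ring
        rwa [e] at h1
      · intro j
        refine ⟨n + u j, hn3 j, ?_⟩
        simp only [hs, Sum.elim_inr]
        push_cast
        ring
  have h1 := (Finset.card_le_card hsub).trans Finset.card_biUnion_le
  have h2 : (((Ioc a (a + N)).filter (Mix lam h u)).card : ℝ) ≤
      ∑ D ∈ S, (((Ioc a (a + N)).filter (Pn D s 1 ∅)).card : ℝ) := by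
    exact_mod_cast h1
  have h3 : ∀ D ∈ S, (((Ioc a (a + N)).filter (Pn D s 1 ∅)).card : ℝ) ≤ X := by
    intro D hD
    rw [hS, mem_filter, Fintype.mem_piFinset] at hD
    apply H N hN Λ hΛ D hD.2
    · intro i
      have h4 := hD.1 i
      rw [mem_insert, mem_singleton] at h4
      have h5 := (hlam i).2
      rcases h4 with h4 | h4 <;> rw [h4] <;> omega
    · intro i j hij
      rcases i with i | i <;> rcases j with j | j
      · simp only [hs, Sum.elim_inl] at hij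
        by_contra hne
        exact hinj i j (fun h => hne (by rw [h])) hij
      · simp only [hs, Sum.elim_inl, Sum.elim_inr] at hij
        exact absurd (by omega) (hhu i j)
      · simp only [hs, Sum.elim_inl, Sum.elim_inr] at hij
        exact absurd (by omega) (hhu j i)
      · simp only [hs, Sum.elim_inr] at hij
        by_contra hne
        exact hinju i j (fun h => hne (by rw [h])) (by exact_mod_cast hij)
    · intro i
      rcases i with i | i
      · have h5 := (hlam i).2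
        have h6 := hh i
        simp only [hs, Sum.elim_inl]
        omega
      · have h6 := hu i
        simp only [hs, Sum.elim_inr]
        omega
  have h4 := sum_le_sum h3
  rw [sum_const, nsmul_eq_mul] at h4
  have h5 : (S.card : ℝ) ≤ 2 ^ r := by
    have h6 : S.card ≤ 2 ^ r := by
      calc S.card ≤ (Fintype.piFinset
            (fun i => ({(lam i : ℤ), -(lam i : ℤ)} : Finset ℤ))).card := card_filter_le _ _
        _ = ∏ i, ({(lam i : ℤ), -(lam i : ℤ)} : Finset ℤ).card := Fintype.card_piFinset _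
        _ ≤ ∏ _i : Fin r, 2 := Finset.prod_le_prod' fun i _ => Finset.card_le_two
        _ = 2 ^ r := by rw [prod_const, card_univ, Fintype.card_fin]
    exact_mod_cast h6
  calc _ ≤ (S.card : ℝ) * X := h2.trans h4
    _ ≤ 2 ^ r * X := mul_le_mul_of_nonneg_right h5 hX0
    _ = _ := by rw [hX]; ring

/-- a Brun type theorem with primes -/
theorem brun2 (r t : ℕ) (hrt : 3 ≤ r + 2 * t) (lam h : Fin r → ℕ) (u : Fin t → ℕ)
    (hlam : ∀ i, 1 ≤ lam i)
    (hinj : ∀ i j, i ≠ j → (h i : ℤ) - lam i ≠ h j - lam j) (hinju : ∀ i j, i ≠ j → u i ≠ u j)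
    (hhu : ∀ i j, h i ≠ u j + lam i) :
    Summable (fun n : ℕ => if Mix lam h u n then 1 / (n : ℝ) else 0) := by
  set Λ : ℕ := 1 + ∑ i, lam i with hΛ
  have hlΛ : ∀ i, lam i ≤ Λ := by
    intro i
    have : lam i ≤ ∑ i, lam i := single_le_sum (f := lam) (fun j _ => Nat.zero_le _) (mem_univ i)
    omega
  have hΛ1 : 1 ≤ Λ := by omega
  set A : ℕ := Λ + ∑ i, h i + ∑ j, u j with hA
  obtain ⟨C, hC, H⟩ := tuples2 r t A (by omega) (1 / 4) (by norm_num)
  have hlogΛ : 0 ≤ Real.log Λ := Real.log_natCast_nonneg Λ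
  set Q : ℝ := (1 + Real.log Λ) ^ ((r : ℝ) / 2) with hQ
  have hQ0 : 0 ≤ Q := Real.rpow_nonneg (by linarith) _
  apply dyadic (Mix lam h u) (C * Q) (5 / 4) (by positivity) (by norm_num)
  intro N hN
  obtain ⟨hL1, -⟩ := d3_log hN
  have h1 := H N hN Λ hΛ1 (le_pow3 Λ hN (by omega)) lam h u (fun i => ⟨hlam i, hlΛ i⟩) (fun i => by
    apply le_pow3 (h i) hN
    have : h i ≤ ∑ i, h i := single_le_sum (f := h) (fun j _ => Nat.zero_le _) (mem_univ i)
    omega) (fun i => by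
    apply le_pow3 (u i) hN
    have : u i ≤ ∑ i, u i := single_le_sum (f := u) (fun j _ => Nat.zero_le _) (mem_univ i)
    omega) hinj hinju hhu N
  rw [← hQ] at h1
  refine h1.trans ?_
  have hrr : (3 : ℝ) ≤ r + 2 * t := by exact_mod_cast hrt
  have h2 : (Real.log N) ^ ((1 : ℝ) / 4 - ((r : ℝ) / 2 + t)) ≤ (Real.log N) ^ (-(5 / 4 : ℝ)) :=
    Real.rpow_le_rpow_of_exponent_le hL1 (by linarith)
  calc C * N * Q * (Real.log N) ^ ((1 : ℝ) / 4 - ((r : ℝ) / 2 + t)) ≤
        C * N * Q * (Real.log N) ^ (-(5 / 4 : ℝ)) := by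
        apply mul_le_mul_of_nonneg_left h2
        positivity
    _ = _ := by ring

end Pool.Agent.U646.HC
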