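import Pool.Agent.U646.HC.P3

set_option autoImplicit false

/-!
# Primes which are block sizes of designs with small index
-/

namespace Pool.Agent.U646.HC

open Finset Filter Topology
open Pool.Agent.H951R4.OD (ch d3_log)
open scoped Classical

/-- primes which are block sizes for one index -/
theorem clsp (ε : ℝ) (hε : 0 < ε) (hε4 : ε ≤ 1 / 4) :
    ∃ C : ℝ, 0 < C ∧ ∀ N : ℕ, 3 ≤ N → ∀ Λ : ℕ, 1 ≤ Λ → ∀ l : ℕ, 1 ≤ l → l ≤ Λ →
      l * l ≤ N → ∀ a : ℕ,
      (((Ioc a (a + N)).filter (fun n => n.Prime ∧ IsK l n)).card : ℝ) ≤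
        C * N * (1 + Real.log Λ) ^ (1 / 2 : ℝ) * (Real.log N) ^ (ε - 3 / 2) * (1 / l) := by
  obtain ⟨C, hC, H⟩ := main2 (r := 1) (t := 1) (by norm_num) ε hε 2 (by norm_num)
  refine ⟨24 * C, by positivity, ?_⟩
  intro N hN Λ hΛ l hl1 hgeΛ hN2 a
  have hlogΛ : 0 ≤ Real.log Λ := Real.log_natCast_nonneg Λ
  have hN3 : (3 : ℝ) ≤ N := by exact_mod_cast hN
  have hN0 : (0 : ℝ) < N := by linarith
  obtain ⟨hL1, -⟩ := d3_log hN
  set L := Real.log N with hL
  have hL0 : 0 < L := by linarith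
  set Q : ℝ := (1 + Real.log Λ) ^ (1 / 2 : ℝ) with hQ
  have hQ0 : 0 ≤ Q := Real.rpow_nonneg (by linarith) _
  have hlr : (1 : ℝ) ≤ l := by exact_mod_cast hl1
  have hl0 : (0 : ℝ) < l := by linarith
  have hlN : l ≤ N := by nlinarith
  set T := (Ioc a (a + N)).filter (fun n => n.Prime ∧ IsK l n) with hT
  have hLp : 0 ≤ L ^ (ε - 3 / 2) := Real.rpow_nonneg hL0.le _
  have hmod : ∀ n ∈ T, 2 ≤ n ∧ n - 1 = l * ((n - 1) / l) := by
    intro n hn
    rw [hT, mem_filter] at hn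
    obtain ⟨-, hp, hK⟩ := hn
    obtain ⟨h2, hlt, hd, -⟩ := facts hl1 hK
    refine ⟨h2, ?_⟩
    have hcop : Nat.Coprime l n :=
      (Nat.coprime_of_lt_prime (by omega) hlt hp).symm
    exact (Nat.mul_div_cancel' (Nat.Coprime.dvd_of_dvd_mul_left hcop hd)).symm
  set N' : ℕ := N / l + 2 with hN'
  have hdiv1 : 1 ≤ N / l := Nat.div_pos hlN (by omega)
  have hN'3 : 3 ≤ N' := by omega
  have hN'le : (N' : ℝ) ≤ 3 * N / l := by
    have h1 : ((N / l : ℕ) : ℝ) ≤ N / l := Nat.cast_div_le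
    have h2 : (1 : ℝ) ≤ N / l := by
      rw [one_le_div hl0]
      exact_mod_cast hlN
    rw [hN']
    push_cast
    have e : 3 * (N : ℝ) / l = 3 * (N / l) := by ring
    rw [e]
    linarith
  have hN'ge : (N : ℝ) / l ≤ N' := by
    rw [div_le_iff₀ hl0]
    have h1 : N < l * (N / l + 1) := Nat.lt_mul_div_succ N (by omega)
    have h2 : N ≤ N' * l := by
      rw [hN']
      nlinarith
    exact_mod_cast h2
  have hlN' : (l : ℝ) ≤ N' := by
    refine le_trans ?_ hN'ge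
    rw [le_div_iff₀ hl0]
    exact_mod_cast hN2
  have hlogN' : L / 2 ≤ Real.log N' := by
    have h1 : (N : ℝ) ≤ (N' : ℝ) ^ 2 := by
      have h3 : (N : ℝ) ≤ N' * l := (div_le_iff₀ hl0).1 hN'ge
      have h5 : (0 : ℝ) ≤ N' := Nat.cast_nonneg _
      nlinarith
    have h2 := Real.log_le_log hN0 h1
    rw [Real.log_pow] at h2
    push_cast at h2
    rw [← hL] at h2
    linarith
  have hlogp : (Real.log N') ^ (ε - 3 / 2) ≤ 4 * L ^ (ε - 3 / 2) := by
    have h1 : (Real.log N') ^ (ε - 3 / 2) ≤ (L / 2) ^ (ε - 3 / 2) :=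
      Real.rpow_le_rpow_of_nonpos (by positivity) hlogN' (by linarith)
    refine h1.trans ?_
    rw [Real.div_rpow hL0.le (by norm_num), div_eq_mul_inv, ← Real.rpow_neg (by norm_num)]
    have h2 : (2 : ℝ) ^ (-(ε - 3 / 2)) ≤ 4 := by
      calc (2 : ℝ) ^ (-(ε - 3 / 2)) ≤ (2 : ℝ) ^ (2 : ℝ) :=
            Real.rpow_le_rpow_of_exponent_le (by norm_num) (by linarith)
        _ = 4 := by
          rw [show (2 : ℝ) ^ (2 : ℝ) = (2 : ℝ) ^ (2 : ℕ) from Real.rpow_natCast 2 2]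
          norm_num
    nlinarith
  set S := ({(l : ℤ), -(l : ℤ)} : Finset ℤ).filter (fun D => ¬ IsSquare D) with hS
  set s : Fin 1 ⊕ Fin 1 → ℤ := Sum.elim (fun _ => 1 - 2 * (l : ℤ)) (fun _ => 1 - (l : ℤ)) with hs
  set Y : ℤ → Finset ℕ := fun D => (Ioc (a / l) (a / l + N')).filter
    (Pn (fun _ : Fin 1 => D) s l l.primeFactors) with hY
  have hsub : T ⊆ S.biUnion (fun D => (Y D).image (fun m => 1 + l * (m - 1))) := by
    intro n hn
    obtain ⟨hn2, hnc⟩ := hmod n hn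
    rw [hT, mem_filter, mem_Ioc] at hn
    obtain ⟨D, hD1, hD2, hD3⟩ := (facts hl1 hn.2.2).2.2.2
    rw [mem_biUnion]
    refine ⟨D, ?_, ?_⟩
    · rw [hS, mem_filter, mem_insert, mem_singleton]
      exact ⟨hD1, hD2⟩
    · rw [mem_image]
      have hz : (n : ℤ) = 1 + l * (((n - 1) / l : ℕ) : ℤ) := by
        have h1 : n = 1 + l * ((n - 1) / l) := by omega
        exact_mod_cast h1
      refine ⟨(n - 1) / l + 1, ?_, ?_⟩
      · simp only [hY]
        rw [mem_filter, mem_Ioc]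
        refine ⟨⟨?_, ?_⟩, ?_, ?_⟩
        · have := Nat.div_le_div_right (c := l) (show a ≤ n - 1 by omega)
          omega
        · have h1 := Nat.div_le_div_right (c := l) (show n - 1 ≤ a + N by omega)
          have h2 : (a + N) / l ≤ a / l + N / l + 1 := by
            have h3 : a < l * (a / l + 1) := Nat.lt_mul_div_succ a (by omega)
            have h4 : N < l * (N / l + 1) := Nat.lt_mul_div_succ N (by omega)
            have h5 : a + N < (a / l + N / l + 1 + 1) * l := by nlinarith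
            have h6 := (Nat.div_lt_iff_lt_mul (by omega : 0 < l)).2 h5
            omega
          rw [hN']
          omega
        · intro p hp _ i hi
          have h1 := hD3 p hp hi
          have e1 : ((l : ℤ) * (((n - 1) / l + 1 : ℕ) : ℤ) + s (Sum.inl i)) = (n : ℤ) - l := by
            simp only [hs, Sum.elim_inl]
            push_cast
            push_cast at hz
            linarith
          rw [e1]
          exact h1
        · intro j
          refine ⟨n, hn.2.1, ?_⟩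
          simp only [hs, Sum.elim_inr]
          push_cast
          push_cast at hz
          linarith
      · rw [Nat.add_sub_cancel]
        omega
  have hEp : ∀ p ∈ l.primeFactors, p.Prime := fun p hp => Nat.prime_of_mem_primeFactors hp
  have hEg : ∀ p : ℕ, p.Prime → p ∉ l.primeFactors → ¬ p ∣ l := by
    intro p hp hpE hd
    apply hpE
    rw [Nat.mem_primeFactors]
    exact ⟨hp, hd, by omega⟩
  have hEc : (l.primeFactors.card : ℝ) ≤ 2 * Real.log N' := by
    have h1 : 2 ^ l.primeFactors.card ≤ l := by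
      have h2 : 2 ^ l.primeFactors.card ≤ ∏ p ∈ l.primeFactors, p := by
        apply Finset.pow_card_le_prod
        intro p hp
        exact (hEp p hp).two_le
      exact h2.trans (Nat.le_of_dvd (by omega) (Nat.prod_primeFactors_dvd l))
    have h3 : ((2 : ℝ)) ^ l.primeFactors.card ≤ N' := by
      refine le_trans ?_ hlN'
      exact_mod_cast h1
    have h4 := Real.log_le_log (by positivity) h3
    rw [Real.log_pow] at h4
    have h8 : 1 / 2 ≤ Real.log 2 := by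
      have := Real.log_two_gt_d9
      linarith
    have h9 : (0 : ℝ) ≤ l.primeFactors.card := Nat.cast_nonneg _
    nlinarith
  have hdis : ∀ p : ℕ, p.Prime → p ∉ l.primeFactors → ∀ i j, i ≠ j → ¬ (p : ℤ) ∣ s i - s j := by
    intro p hp hpE i j hij hd
    have key : (p : ℤ) ∣ (l : ℤ) := by
      rcases i with i | i <;> rcases j with j | j
      · exact absurd (by rw [Subsingleton.elim i j]) hij
      · simp only [hs, Sum.elim_inl, Sum.elim_inr] at hd
        have e : (1 - 2 * (l : ℤ) - (1 - l)) = -l := by ring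
        rw [e] at hd
        exact (dvd_neg.1 hd)
      · simp only [hs, Sum.elim_inl, Sum.elim_inr] at hd
        have e : (1 - (l : ℤ) - (1 - 2 * l)) = l := by ring
        rwa [e] at hd
      · exact absurd (by rw [Subsingleton.elim i j]) hij
    exact hEg p hp hpE (by exact_mod_cast key)
  have hYb : ∀ D ∈ S, (((Y D).image (fun m => 1 + l * (m - 1))).card : ℝ) ≤
      12 * C * N * Q * L ^ (ε - 3 / 2) * (1 / l) := by
    intro D hD
    rw [hS, mem_filter, mem_insert, mem_singleton] at hD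
    have h1 : ((Y D).card : ℝ) ≤ C * N' * (1 + Real.log Λ) ^ (((1 : ℕ) : ℝ) / 2) *
          (Real.log N') ^ (ε - (((1 : ℕ) : ℝ) / 2 + ((1 : ℕ) : ℝ))) :=
      H N' hN'3 Λ hΛ (fun _ => D) (fun _ => hD.2) (fun _ => by
        rcases hD.1 with h | h <;> rw [h] <;> omega) l hl1 l.primeFactors hEp hEg hEc s hdis (a / l)
    have h2 : (((Y D).image (fun m => 1 + l * (m - 1))).card : ℝ) ≤
        C * N' * (1 + Real.log Λ) ^ (((1 : ℕ) : ℝ) / 2) *
          (Real.log N') ^ (ε - (((1 : ℕ) : ℝ) / 2 + ((1 : ℕ) : ℝ))) :=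
      le_trans (Nat.cast_le.2 Finset.card_image_le) h1
    rw [Nat.cast_one] at h2
    have e1 : ε - ((1 : ℝ) / 2 + 1) = ε - 3 / 2 := by ring
    rw [e1] at h2
    refine h2.trans ?_
    calc C * N' * (1 + Real.log Λ) ^ ((1 : ℝ) / 2) * (Real.log N') ^ (ε - (3 : ℝ) / 2)
        ≤ C * (3 * N / l) * Q * (4 * L ^ (ε - 3 / 2)) := by
          rw [← hQ]
          gcongr
      _ = _ := by ring
  have h1 := (Finset.card_le_card hsub).trans Finset.card_biUnion_le
  have h2 : (T.card : ℝ) ≤ ∑ D ∈ S, (((Y D).image (fun m => 1 + l * (m - 1))).card : ℝ) := by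
    exact_mod_cast h1
  have h3 := h2.trans (sum_le_sum hYb)
  rw [sum_const, nsmul_eq_mul] at h3
  have h4 : (S.card : ℝ) ≤ 2 := by
    have h5 : S.card ≤ 2 := (card_filter_le _ _).trans Finset.card_le_two
    exact_mod_cast h5
  refine h3.trans ?_
  calc (S.card : ℝ) * (12 * C * N * Q * L ^ (ε - 3 / 2) * (1 / l)) ≤
        2 * (12 * C * N * Q * L ^ (ε - 3 / 2) * (1 / l)) := by
        apply mul_le_mul_of_nonneg_right h4
        positivity
    _ = _ := by ring

/-- primes which are block sizes of designs with index at most `Λ` -/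
theorem smallp (ε : ℝ) (hε : 0 < ε) : ∃ C : ℝ, 0 < C ∧ ∀ N : ℕ, 3 ≤ N → ∀ Λ : ℕ, 1 ≤ Λ → ∀ a : ℕ,
    (((Ioc a (a + N)).filter (fun n : ℕ => n.Prime ∧
      ∃ lam : ℕ, 1 ≤ lam ∧ lam ≤ Λ ∧ IsK lam n)).card : ℝ) ≤
      C * N * (1 + Real.log Λ) ^ (3 / 2 : ℝ) * (Real.log N) ^ (ε - 3 / 2) := by
  set ε' : ℝ := min ε (1 / 4) with hε'
  have hε'0 : 0 < ε' := lt_min hε (by norm_num)
  obtain ⟨C, hC, H⟩ := clsp ε' hε'0 (min_le_right _ _)
  refine ⟨C + 4, by positivity, ?_⟩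
  intro N hN Λ hΛ a
  have hlogΛ : 0 ≤ Real.log Λ := Real.log_natCast_nonneg Λ
  have hΛ1 : (1 : ℝ) ≤ Λ := by exact_mod_cast hΛ
  have hN3 : (3 : ℝ) ≤ N := by exact_mod_cast hN
  have hN0 : (0 : ℝ) < N := by linarith
  obtain ⟨hL1, -⟩ := d3_log hN
  set L := Real.log N with hL
  have hL0 : 0 < L := by linarith
  set W : ℝ := 1 + Real.log Λ with hW
  have hW1 : 1 ≤ W := by linarith
  have hW0 : 0 < W := by linarith
  have hLε : 0 < L ^ (ε - 3 / 2) := Real.rpow_pos_of_pos hL0 _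
  have hW5 : 0 < W ^ (3 / 2 : ℝ) := Real.rpow_pos_of_pos hW0 _
  set T := (Ioc a (a + N)).filter (fun n : ℕ => n.Prime ∧
    ∃ lam : ℕ, 1 ≤ lam ∧ lam ≤ Λ ∧ IsK lam n) with hT
  rcases Nat.lt_or_ge N (Λ * Λ) with hbig | hsm
  · -- trivial bound
    have h1 : (T.card : ℝ) ≤ N := by
      have h2 : T.card ≤ (Ioc a (a + N)).card := Finset.card_filter_le _ _
      rw [Nat.card_Ioc] at h2
      have h3 : T.card ≤ N := by omega
      exact_mod_cast h3
    have h2 : L ≤ 2 * Real.log Λ := by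
      have h3 : (N : ℝ) ≤ (Λ : ℝ) ^ 2 := by
        have : (N : ℝ) ≤ ((Λ * Λ : ℕ) : ℝ) := by exact_mod_cast hbig.le
        push_cast at this
        nlinarith
      have h4 := Real.log_le_log hN0 h3
      rw [Real.log_pow] at h4
      push_cast at h4
      exact h4
    have h3 : (L / 2) ^ (3 / 2 : ℝ) ≤ W ^ (3 / 2 : ℝ) :=
      Real.rpow_le_rpow (by positivity) (by linarith) (by norm_num)
    have h4 : L ^ (-(3 / 2) : ℝ) ≤ L ^ (ε - 3 / 2) :=
      Real.rpow_le_rpow_of_exponent_le hL1 (by linarith)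
    have h5 : 1 / 4 ≤ W ^ (3 / 2 : ℝ) * L ^ (ε - 3 / 2) := by
      calc (1 : ℝ) / 4 ≤ (1 / 2 : ℝ) ^ (3 / 2 : ℝ) := by
            calc (1 : ℝ) / 4 = (1 / 2 : ℝ) ^ (2 : ℕ) := by norm_num
              _ = (1 / 2 : ℝ) ^ (2 : ℝ) := (Real.rpow_natCast _ 2).symm
              _ ≤ (1 / 2 : ℝ) ^ (3 / 2 : ℝ) :=
                Real.rpow_le_rpow_of_exponent_ge (by norm_num) (by norm_num) (by norm_num)
        _ = (L / 2) ^ (3 / 2 : ℝ) * L ^ (-(3 / 2) : ℝ) := by
            have e : L / 2 = L * (1 / 2) := by ring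
            rw [e, Real.mul_rpow hL0.le (by norm_num), mul_comm (L ^ (3 / 2 : ℝ)), mul_assoc,
              ← Real.rpow_add hL0]
            norm_num
        _ ≤ _ := mul_le_mul h3 h4 (Real.rpow_nonneg hL0.le _) hW5.le
    refine h1.trans ?_
    calc (N : ℝ) = 4 * N * (1 / 4) := by ring
      _ ≤ 4 * N * (W ^ (3 / 2 : ℝ) * L ^ (ε - 3 / 2)) := by
          apply mul_le_mul_of_nonneg_left h5
          positivity
      _ ≤ (C + 4) * N * (W ^ (3 / 2 : ℝ) * L ^ (ε - 3 / 2)) := by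
          gcongr
          linarith
      _ = _ := by ring
  · set Y : ℕ → Finset ℕ := fun l => (Ioc a (a + N)).filter (fun n => n.Prime ∧ IsK l n) with hY
    have hsub : T ⊆ (Icc 1 Λ).biUnion Y := by
      intro n hn
      rw [hT, mem_filter] at hn
      obtain ⟨hn1, hp, lam, hl1, hlΛ, hK⟩ := hn
      rw [mem_biUnion]
      refine ⟨lam, mem_Icc.2 ⟨hl1, hlΛ⟩, ?_⟩
      simp only [hY]
      rw [mem_filter]
      exact ⟨hn1, hp, hK⟩
    have h1 := (Finset.card_le_card hsub).trans Finset.card_biUnion_le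
    have h2 : (T.card : ℝ) ≤ ∑ l ∈ Icc 1 Λ, ((Y l).card : ℝ) := by exact_mod_cast h1
    set X : ℝ := C * N * W ^ (1 / 2 : ℝ) * L ^ (ε' - 3 / 2) with hX
    have hX0 : 0 ≤ X := by
      rw [hX]
      have := Real.rpow_nonneg hL0.le (ε' - 3 / 2)
      have := Real.rpow_nonneg hW0.le (1 / 2 : ℝ)
      positivity
    have h3 : ∀ l ∈ Icc 1 Λ, ((Y l).card : ℝ) ≤ X * (1 / (l : ℝ)) := by
      intro l hl
      rw [mem_Icc] at hl
      exact H N hN Λ hΛ l hl.1 hl.2 ((Nat.mul_le_mul hl.2 hl.2).trans hsm) a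
    have h4 : ∑ l ∈ Icc 1 Λ, X * (1 / (l : ℝ)) ≤ X * W := by
      rw [← mul_sum]
      exact mul_le_mul_of_nonneg_left (harm Λ) hX0
    have h5 := h2.trans ((sum_le_sum h3).trans h4)
    refine h5.trans ?_
    have e1 : W ^ (1 / 2 : ℝ) * W = W ^ (3 / 2 : ℝ) := by
      nth_rewrite 2 [← Real.rpow_one W]
      rw [← Real.rpow_add hW0]
      norm_num
    have e2 : L ^ (ε' - 3 / 2) ≤ L ^ (ε - 3 / 2) :=
      Real.rpow_le_rpow_of_exponent_le hL1 (by linarith [min_le_left ε (1 / 4 : ℝ)])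
    calc X * W = C * N * (W ^ (1 / 2 : ℝ) * W) * L ^ (ε' - 3 / 2) := by rw [hX]; ring
      _ = C * N * W ^ (3 / 2 : ℝ) * L ^ (ε' - 3 / 2) := by rw [e1]
      _ ≤ C * N * W ^ (3 / 2 : ℝ) * L ^ (ε - 3 / 2) := by
          apply mul_le_mul_of_nonneg_left e2
          positivity
      _ ≤ (C + 4) * N * W ^ (3 / 2 : ℝ) * L ^ (ε - 3 / 2) := by
          gcongr
          linarith

/-- `p` is a prime and a block size for an index at most `exp ((log p) ^ δ)` -/
def Sp (δ : ℝ) (p : ℕ) : Prop :=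
  p.Prime ∧ ∃ lam : ℕ, 1 ≤ lam ∧ (lam : ℝ) ≤ Real.exp ((Real.log p) ^ δ) ∧ IsK lam p

theorem sp_count (δ : ℝ) (hδ0 : 0 < δ) (hδ : δ < 1 / 3) :
    ∃ C : ℝ, 0 < C ∧ ∃ η : ℝ, 0 < η ∧ ∀ N : ℕ, 3 ≤ N → ∀ a : ℕ, a ≤ N →
      (((Ioc a (a + N)).filter (Sp δ)).card : ℝ) ≤ C * N * (Real.log N) ^ (-(1 + η)) := by
  set ε : ℝ := (1 / 2 - 3 / 2 * δ) / 2 with hε
  have hε0 : 0 < ε := by
    rw [hε]
    linarith
  obtain ⟨C, hC, H⟩ := smallp ε hε0
  refine ⟨C * (2 * 2 ^ δ) ^ (3 / 2 : ℝ), by positivity, ε, hε0, ?_⟩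
  intro N hN a ha
  have hN3 : (3 : ℝ) ≤ N := by exact_mod_cast hN
  have hN0 : (0 : ℝ) < N := by linarith
  obtain ⟨hL1, -⟩ := d3_log hN
  set L := Real.log N with hL
  have hL0 : 0 < L := by linarith
  set x : ℝ := (2 * L) ^ δ with hx
  have hx1 : 1 ≤ x := Real.one_le_rpow (by linarith) hδ0.le
  set Λ : ℕ := ⌊Real.exp x⌋₊ with hΛ
  have hΛle : (Λ : ℝ) ≤ Real.exp x := Nat.floor_le (Real.exp_pos _).le
  have hΛ1 : 1 ≤ Λ := by
    rw [hΛ]
    apply Nat.le_floor
    rw [Nat.cast_one]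
    exact Real.one_le_exp (by linarith)
  have hΛ0 : (0 : ℝ) < Λ := by
    have : 0 < Λ := by omega
    exact_mod_cast this
  have hlogΛ : Real.log Λ ≤ x := by
    have := Real.log_le_log hΛ0 hΛle
    rwa [Real.log_exp] at this
  have hlogΛ0 : 0 ≤ Real.log Λ := Real.log_natCast_nonneg Λ
  have h1 := H N hN Λ hΛ1 a
  rw [← hL] at h1
  have hsub : (Ioc a (a + N)).filter (Sp δ) ⊆
      (Ioc a (a + N)).filter (fun n : ℕ => n.Prime ∧
        ∃ lam : ℕ, 1 ≤ lam ∧ lam ≤ Λ ∧ IsK lam n) := by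
    intro k hk
    rw [mem_filter] at hk ⊢
    obtain ⟨hk1, hp, lam, hl1, hl2, hK⟩ := hk
    refine ⟨hk1, hp, lam, hl1, ?_, hK⟩
    apply Nat.le_floor
    refine hl2.trans ?_
    apply Real.exp_le_exp.2
    rw [hx]
    apply Real.rpow_le_rpow (Real.log_natCast_nonneg k) _ hδ0.le
    rw [mem_Ioc] at hk1
    have hk0 : (0 : ℝ) < k := by exact_mod_cast hp.pos
    have hk2 : (k : ℝ) ≤ N ^ 2 := by
      have h3 : k ≤ N ^ 2 := by nlinarith
      exact_mod_cast h3
    have h4 := Real.log_le_log hk0 hk2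
    rw [Real.log_pow] at h4
    push_cast at h4
    exact h4
  have h2 : (((Ioc a (a + N)).filter (Sp δ)).card : ℝ) ≤
      C * N * (1 + Real.log Λ) ^ (3 / 2 : ℝ) * L ^ (ε - 3 / 2) := by
    refine le_trans ?_ h1
    exact_mod_cast Finset.card_le_card hsub
  refine h2.trans ?_
  have h3 : (1 + Real.log Λ) ^ (3 / 2 : ℝ) ≤ (2 * 2 ^ δ) ^ (3 / 2 : ℝ) * L ^ (3 / 2 * δ) := by
    calc (1 + Real.log Λ) ^ (3 / 2 : ℝ) ≤ ((2 * 2 ^ δ) * L ^ δ) ^ (3 / 2 : ℝ) := by
          apply Real.rpow_le_rpow (by linarith) _ (by norm_num)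
          have e : (2 * 2 ^ δ) * L ^ δ = 2 * x := by
            rw [hx, Real.mul_rpow (by norm_num) hL0.le]
            ring
          rw [e]
          linarith
      _ = (2 * 2 ^ δ) ^ (3 / 2 : ℝ) * L ^ (3 / 2 * δ) := by
          rw [Real.mul_rpow (by positivity) (by positivity), ← Real.rpow_mul hL0.le]
          congr 2
          ring
  have hLp : 0 ≤ L ^ (ε - 3 / 2) := Real.rpow_nonneg hL0.le _
  calc C * N * (1 + Real.log Λ) ^ (3 / 2 : ℝ) * L ^ (ε - 3 / 2) ≤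
        C * N * ((2 * 2 ^ δ) ^ (3 / 2 : ℝ) * L ^ (3 / 2 * δ)) * L ^ (ε - 3 / 2) := by
        gcongr
    _ = C * (2 * 2 ^ δ) ^ (3 / 2 : ℝ) * N * (L ^ (3 / 2 * δ) * L ^ (ε - 3 / 2)) := by ring
    _ = _ := by
        rw [← Real.rpow_add hL0]
        congr 2
        rw [hε]
        ring

theorem sp_sum (δ : ℝ) (hδ0 : 0 < δ) (hδ : δ < 1 / 3) :
    Summable (fun n : ℕ => if Sp δ n then 1 / (n : ℝ) else 0) := by
  obtain ⟨C, hC, η, hη, H⟩ := sp_count δ hδ0 hδ
  apply dyadic (Sp δ) C (1 + η) hC.le (by linarith)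
  intro N hN
  exact H N hN N le_rfl

theorem sp_dens (δ : ℝ) (hδ0 : 0 < δ) (hδ : δ < 1 / 3) :
    Tendsto (fun X : ℕ => (((range X).filter (Sp δ)).card : ℝ) / (X / Real.log X)) atTop (𝓝 0) := by
  obtain ⟨C, hC, η, hη, H⟩ := sp_count δ hδ0 hδ
  have hlim : Tendsto (fun X : ℕ => C * (Real.log X) ^ (-η)) atTop (𝓝 0) := by
    have h1 : Tendsto (fun X : ℕ => (Real.log X) ^ (-η)) atTop (𝓝 0) :=
      (tendsto_rpow_neg_atTop hη).comp (Real.tendsto_log_atTop.comp tendsto_natCast_atTop_atTop)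
    have h2 := h1.const_mul C
    rwa [mul_zero] at h2
  apply squeeze_zero' _ _ hlim
  · exact Eventually.of_forall fun X => by
      have := Real.log_natCast_nonneg X
      positivity
  · filter_upwards [eventually_ge_atTop 3] with X hX
    have hX3 : (3 : ℝ) ≤ X := by exact_mod_cast hX
    have hX0 : (0 : ℝ) < X := by linarith
    obtain ⟨hL1, -⟩ := d3_log hX
    set L := Real.log X with hL
    have hL0 : 0 < L := by linarith
    have h1 := H X hX 0 (Nat.zero_le X)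
    rw [zero_add, ← hL] at h1
    have hsub : (range X).filter (Sp δ) ⊆ (Ioc 0 X).filter (Sp δ) := by
      intro k hk
      rw [mem_filter, mem_range] at hk
      rw [mem_filter, mem_Ioc]
      exact ⟨⟨hk.2.1.pos, hk.1.le⟩, hk.2⟩
    have h2 : (((range X).filter (Sp δ)).card : ℝ) ≤ C * X * L ^ (-(1 + η)) := by
      refine le_trans ?_ h1
      exact_mod_cast Finset.card_le_card hsub
    rw [div_le_iff₀ (by positivity)]
    refine h2.trans (le_of_eq ?_)
    have e : L ^ (-(1 + η)) = L ^ (-η) / L := by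
      rw [neg_add, add_comm, Real.rpow_add hL0, Real.rpow_neg_one]
      ring
    rw [e]
    ring

end Pool.Agent.U646.HC
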