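import Pool.Agent.U646.HC.O3

set_option autoImplicit false

/-!
# Almost all indices for one order
-/

namespace Pool.Agent.U646.HC

open Finset
open Pool.Agent.H177R2.SD (IsSymmetricDesign brc_local)
open scoped Classical

/-- splitting the divisors at a prime dividing `n` exactly once -/
theorem split {n q : ℕ} (hn : 1 ≤ n) (hq : q.Prime) (h1 : q ∣ n) (h2 : ¬ q ^ 2 ∣ n) (F : ℕ → ℝ) :
    ∑ a ∈ n.divisors, F a = ∑ a ∈ n.divisors.filter (fun a => ¬ q ∣ a), (F a + F (q * a)) := by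
  rw [← sum_filter_not_add_sum_filter n.divisors (fun a => q ∣ a), sum_add_distrib]
  congr 1
  have himg : n.divisors.filter (fun a => q ∣ a) =
      (n.divisors.filter (fun a => ¬ q ∣ a)).image (fun a => q * a) := by
    ext a
    rw [mem_filter, mem_image, Nat.mem_divisors]
    constructor
    · rintro ⟨⟨h3, -⟩, b, rfl⟩
      refine ⟨b, ?_, rfl⟩
      rw [mem_filter, Nat.mem_divisors]
      refine ⟨⟨(dvd_mul_left b q).trans h3, by omega⟩, ?_⟩
      rintro ⟨c, rfl⟩
      apply h2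
      rw [pow_two]
      exact (Dvd.intro c (by ring)).trans h3
    · rintro ⟨b, hb, rfl⟩
      rw [mem_filter, Nat.mem_divisors] at hb
      refine ⟨⟨?_, by omega⟩, dvd_mul_right q b⟩
      exact Nat.Coprime.mul_dvd_of_dvd_of_dvd ((Nat.Prime.coprime_iff_not_dvd hq).2 hb.2) h1 hb.1.1
  rw [himg, sum_image]
  intro a _ b _ hab
  exact Nat.eq_of_mul_eq_mul_left hq.pos hab

theorem vanish {n q : ℕ} (hn : 1 ≤ n) (hq : q.Prime) (h1 : q ∣ n) (h2 : ¬ q ^ 2 ∣ n) (F : ℕ → ℝ)
    (hF : ∀ a, F (q * a) = - F a) : ∑ a ∈ n.divisors, F a = 0 := by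
  rw [split hn hq h1 h2]
  apply sum_eq_zero
  intro a _
  rw [hF]
  ring

/-- the main part -/
noncomputable def uu (p a : ℕ) : ℝ := if p ∣ a then 1 else 1 / 2

theorem uu_mul {p q a : ℕ} (hp : p.Prime) (hq : q.Prime) (hpq : p ≠ q) : uu p (q * a) = uu p a := by
  unfold uu
  have : p ∣ q * a ↔ p ∣ a := by
    constructor
    · intro h
      rcases hp.dvd_mul.1 h with h | h
      · exact absurd ((Nat.prime_dvd_prime_iff_eq hp hq).1 h) hpq
      · exact h
    · intro h
      exact Dvd.dvd.mul_left h q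
  simp only [this]

theorem sum_uu {n : ℕ} (hn : 1 ≤ n) (S : Finset ℕ)
    (hS : ∀ p ∈ S, p.Prime ∧ p ∣ n ∧ ¬ p ^ 2 ∣ n) :
    ∑ a ∈ n.divisors, ∏ p ∈ S, uu p a = (3 / 4) ^ S.card * (n.divisors.card : ℝ) := by
  induction S using Finset.induction_on with
  | empty => simp
  | insert q s hq ih =>
    have ih' := ih (fun p hp => hS p (mem_insert_of_mem hp))
    obtain ⟨hqp, hq1, hq2⟩ := hS q (mem_insert_self q s)
    rw [card_insert_of_notMem hq, pow_succ, mul_comm ((3 / 4 : ℝ) ^ s.card), mul_assoc, ← ih',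
      split hn hqp hq1 hq2, split hn hqp hq1 hq2, mul_sum]
    apply sum_congr rfl
    intro a ha
    rw [mem_filter] at ha
    rw [prod_insert hq, prod_insert hq]
    have e1 : ∏ p ∈ s, uu p (q * a) = ∏ p ∈ s, uu p a := by
      apply prod_congr rfl
      intro p hp
      exact uu_mul (hS p (mem_insert_of_mem hp)).1 hqp (fun h => hq (h ▸ hp))
    have e2 : uu q a = 1 / 2 := if_neg ha.2
    have e3 : uu q (q * a) = 1 := if_pos (dvd_mul_right q a)
    rw [e1, e2, e3]
    ring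

/-- the Legendre symbol as a real number -/
noncomputable def ls (p : ℕ) (x : ℤ) : ℝ := ((jacobiSym x p : ℤ) : ℝ)

theorem ls_mul (p : ℕ) (x y : ℤ) : ls p (x * y) = ls p x * ls p y := by
  unfold ls
  rw [jacobiSym.mul_left]
  push_cast
  ring

/-- the number of pairs of divisors passing the tests -/
theorem pairs_count {n : ℕ} (hn : 2 ≤ n) (S : Finset ℕ)
    (hS : ∀ p ∈ S, p.Prime ∧ p ∣ n ∧ ¬ p ^ 2 ∣ n) {σ : ℤ}
    (hT : ∀ T ⊆ S, T.Nonempty → ∃ q : ℕ, q.Prime ∧ q ∉ S ∧ q ∣ n ∧ ¬ q ^ 2 ∣ n ∧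
      ∏ p ∈ T, ls p q = -1) :
    (((n.divisors ×ˢ (n - 1).divisors).filter
      (fun d => ∀ p ∈ S, ¬ p ∣ d.1 → ls p (σ * (d.1 * d.2)) = 1)).card : ℝ) ≤
      (3 / 4) ^ S.card * (((n * (n - 1)).divisors.card : ℕ) : ℝ) := by
  have hcop : Nat.Coprime n (n - 1) := by
    obtain ⟨m, rfl⟩ : ∃ m, n = m + 1 := ⟨n - 1, by omega⟩
    simp
  set w : ℕ → ℕ → ℝ := fun a c => ∏ p ∈ S, (ls p (σ * (a * c)) / 2 + uu p a) with hw
  have hls : ∀ p ∈ S, ∀ x : ℤ, ls p x = 0 ∨ ls p x = 1 ∨ ls p x = -1 := by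
    intro p hp x
    unfold ls
    haveI : Fact p.Prime := ⟨(hS p hp).1⟩
    rcases (jacobiSym.trichotomy x p) with h | h | h <;> rw [h] <;> simp
  have hls0 : ∀ p ∈ S, ∀ a c : ℕ, p ∣ a → ls p (σ * (a * c)) = 0 := by
    intro p hp a c hpa
    unfold ls
    haveI : Fact p.Prime := ⟨(hS p hp).1⟩
    have h1 : jacobiSym (σ * (a * c)) p = 0 := by
      rw [← jacobiSym.legendreSym.to_jacobiSym, legendreSym.eq_zero_iff]
      push_cast
      rw [(ZMod.natCast_eq_zero_iff a p).2 hpa]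
      ring
    rw [h1]
    simp
  have h0 : (((n.divisors ×ˢ (n - 1).divisors).filter
      (fun d => ∀ p ∈ S, ¬ p ∣ d.1 → ls p (σ * (d.1 * d.2)) = 1)).card : ℝ) ≤
      ∑ d ∈ n.divisors ×ˢ (n - 1).divisors, w d.1 d.2 := by
    rw [← Finset.sum_boole]
    apply sum_le_sum
    rintro ⟨a, c⟩ _
    simp only [hw]
    split_ifs with h
    · apply le_of_eq
      symm
      apply prod_eq_one
      intro p hp
      by_cases hpa : p ∣ a
      · rw [hls0 p hp a c hpa]
        unfold uu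
        rw [if_pos hpa]
        norm_num
      · have h1 := h p hp hpa
        rw [h1]
        unfold uu
        rw [if_neg hpa]
        norm_num
    · apply prod_nonneg
      intro p hp
      by_cases hpa : p ∣ a
      · rw [hls0 p hp a c hpa]
        unfold uu
        rw [if_pos hpa]
        norm_num
      · unfold uu
        rw [if_neg hpa]
        rcases hls p hp (σ * (a * c)) with h | h | h <;> rw [h] <;> norm_num
  refine h0.trans ?_
  rw [sum_product_right]
  have h1 : ∀ c ∈ (n - 1).divisors, ∑ a ∈ n.divisors, w a c =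
      (3 / 4) ^ S.card * (n.divisors.card : ℝ) := by
    intro c _
    have h2 : ∀ a, w a c = ∑ T ∈ S.powerset, (∏ p ∈ T, ls p (σ * (a * c)) / 2) *
        ∏ p ∈ S \ T, uu p a := by
      intro a
      simp only [hw]
      rw [prod_add]
    simp only [h2]
    rw [sum_comm]
    have h3 : ∀ T ∈ S.powerset, T ≠ ∅ → ∑ a ∈ n.divisors, (∏ p ∈ T, ls p (σ * (a * c)) / 2) *
        ∏ p ∈ S \ T, uu p a = 0 := by
      intro T hTS hT0
      rw [mem_powerset] at hTS
      obtain ⟨q, hq, hqS, hqn, hq2, hqT⟩ := hT T hTS (nonempty_iff_ne_empty.2 hT0)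
      apply vanish (by omega) hq hqn hq2
      intro a
      have e1 : ∏ p ∈ S \ T, uu p (q * a) = ∏ p ∈ S \ T, uu p a := by
        apply prod_congr rfl
        intro p hp
        rw [mem_sdiff] at hp
        exact uu_mul (hS p hp.1).1 hq (fun h => hqS (h ▸ hp.1))
      have e2 : ∏ p ∈ T, ls p (σ * (((q * a : ℕ) : ℤ) * c)) / 2 =
          - ∏ p ∈ T, ls p (σ * (a * c)) / 2 := by
        have e3 : ∀ p ∈ T, ls p (σ * (((q * a : ℕ) : ℤ) * c)) / 2 =
            ls p q * (ls p (σ * (a * c)) / 2) := by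
          intro p _
          have e4 : σ * (((q * a : ℕ) : ℤ) * c) = q * (σ * (a * c)) := by
            push_cast
            ring
          rw [e4, ls_mul]
          ring
        rw [prod_congr rfl e3, prod_mul_distrib, hqT]
        ring
      rw [e1, e2]
      ring
    rw [sum_eq_single ∅ h3 (fun h => absurd (empty_mem_powerset S) h)]
    simp only [prod_empty, sdiff_empty, one_mul]
    exact sum_uu (by omega) S hS
  rw [sum_congr rfl h1, sum_const, nsmul_eq_mul, Nat.Coprime.card_divisors_mul hcop]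
  push_cast
  apply le_of_eq
  ring

/-- the number of indices of designs of order `n` -/
theorem order_count {n y : ℕ} (hn : 2 ≤ n)
    (hT : ∀ T ⊆ Sm y n, T.Nonempty → ∃ q : ℕ, q.Prime ∧ q ∉ Sm y n ∧ q ∣ n ∧ ¬ q ^ 2 ∣ n ∧
      ∏ p ∈ T, ls p q = -1) (R : Finset ℕ) (hR : ∀ l ∈ R, 1 ≤ l ∧ IsO n l) :
    (R.card : ℝ) ≤ 2 * (3 / 4) ^ (Sm y n).card * (((n * (n - 1)).divisors.card : ℕ) : ℝ) := by
  have hS : ∀ p ∈ Sm y n, p.Prime ∧ p ∣ n ∧ ¬ p ^ 2 ∣ n := fun p hp =>
    ⟨(mem_Sm hp).1, (mem_Sm hp).2.1, (mem_Sm hp).2.2.2.2⟩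
  have h1 := pairs_count hn (Sm y n) hS (σ := 1) hT
  have h2 := pairs_count hn (Sm y n) hS (σ := -1) hT
  set P1 := (n.divisors ×ˢ (n - 1).divisors).filter
      (fun d => ∀ p ∈ Sm y n, ¬ p ∣ d.1 → ls p (1 * (d.1 * d.2)) = 1) with hP1
  set P2 := (n.divisors ×ˢ (n - 1).divisors).filter
      (fun d => ∀ p ∈ Sm y n, ¬ p ∣ d.1 → ls p (-1 * (d.1 * d.2)) = 1) with hP2
  have hsub : R ⊆ (P1 ∪ P2).image (fun d => d.1 * d.2) := by
    intro l hl
    obtain ⟨hl1, hO⟩ := hR l hl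
    obtain ⟨v, l', hv, hll, hd, -⟩ := IsO_struct hn hl1 hO
    obtain ⟨a, c, ha, hc, han, hcn, hac, -⟩ := factor hn hl1 ⟨l', hll.symm⟩
    rw [mem_image]
    refine ⟨(a, c), ?_, hac⟩
    have hmem : (a, c) ∈ n.divisors ×ˢ (n - 1).divisors := by
      rw [mem_product, Nat.mem_divisors, Nat.mem_divisors]
      exact ⟨⟨han, by omega⟩, hcn, by omega⟩
    have key : ∀ p ∈ Sm y n, ¬ p ∣ a → ls p ((-1) ^ ((v - 1) / 2) * (a * c)) = 1 := by
      intro p hp hpa
      obtain ⟨hpp, hpn, hp2, -, hpn2⟩ := mem_Sm hp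
      haveI : Fact p.Prime := ⟨hpp⟩
      have hpc : ¬ p ∣ c := by
        intro h
        have h3 : p ∣ n - 1 := h.trans hcn
        have h4 := (Nat.dvd_sub hpn h3)
        have h5 : n - (n - 1) = 1 := by omega
        rw [h5] at h4
        exact hpp.one_lt.ne' (Nat.dvd_one.1 h4)
      have hpl : ¬ p ∣ l := by
        rw [← hac]
        intro h
        rcases hpp.dvd_mul.1 h with h | h
        · exact hpa h
        · exact hpc h
      have hnl : n + l - l = n := by omega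
      obtain ⟨-, hz⟩ := brc_local hd (by omega) (by omega) hpp hp2 (by rwa [hnl]) (by rwa [hnl]) hpl
      have hne : (((-1) ^ ((v - 1) / 2) * (l : ℤ) : ℤ) : ZMod p) ≠ 0 := by
        push_cast
        apply mul_ne_zero
        · exact pow_ne_zero _ (neg_ne_zero.2 one_ne_zero)
        · exact fun h => hpl ((ZMod.natCast_eq_zero_iff l p).1 h)
      have h6 : legendreSym p ((-1) ^ ((v - 1) / 2) * (l : ℤ)) = 1 :=
        (legendreSym.eq_one_iff p hne).2 hz
      unfold ls
      rw [← hac] at h6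
      push_cast at h6
      rw [← jacobiSym.legendreSym.to_jacobiSym, h6]
      simp
    rw [mem_union]
    rcases neg_one_pow_eq_or ℤ ((v - 1) / 2) with h | h
    · left
      rw [hP1, mem_filter]
      rw [h] at key
      exact ⟨hmem, key⟩
    · right
      rw [hP2, mem_filter]
      rw [h] at key
      exact ⟨hmem, key⟩
  have h3 := (card_le_card hsub).trans (card_image_le.trans (card_union_le _ _))
  have h4 : (R.card : ℝ) ≤ (P1.card : ℝ) + (P2.card : ℝ) := by exact_mod_cast h3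
  linarith

end Pool.Agent.U646.HC
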