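import Pool.Agent.U646.HC.Q1
import Pool.Agent.U646.HC.B

set_option autoImplicit false

/-!
# Typical orders
-/

namespace Pool.Agent.U646.HC

open Finset Filter Topology
open Pool.Agent.H951R4.OD (ch PI mert_le d3_log sum_sq_inv)
open Pool.Agent.H177R2.SD (avg1)
open Pool.Agent.H177R2.SD.LocalAux (ind ind_nonneg ind_le_one ind_true ind_false)
open scoped Classical

/-- the prime discriminant -/
def ps (p : ℕ) : ℤ := (-1) ^ (p / 2) * p

theorem recip {p q : ℕ} (hp : p.Prime) (hq : q.Prime) (hp2 : p ≠ 2) (hq2 : q ≠ 2) :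
    jacobiSym (ps p) q = jacobiSym q p := by
  have hpo : Odd p := hp.odd_of_ne_two hp2
  have hqo : Odd q := hq.odd_of_ne_two hq2
  unfold ps
  rw [jacobiSym.mul_left, jacobiSym.pow_left, jacobiSym.at_neg_one hqo,
    ZMod.χ₄_eq_neg_one_pow (Nat.odd_iff.1 hqo), jacobiSym.quadratic_reciprocity hpo hqo]
  rw [← mul_assoc, ← pow_mul, ← pow_add]
  have e : q / 2 * (p / 2) + p / 2 * (q / 2) = 2 * (p / 2 * (q / 2)) := by ring
  rw [e, pow_mul]
  norm_num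

/-- the odd primes up to `y` -/
def PO (y : ℕ) : Finset ℕ := (Ioc 2 y).filter Nat.Prime

theorem mem_PO {y p : ℕ} (h : p ∈ PO y) : p.Prime ∧ p ≠ 2 ∧ p ≤ y := by
  unfold PO at h
  rw [mem_filter, mem_Ioc] at h
  exact ⟨h.2, by omega, h.1.2⟩

theorem ch_prod (T : Finset ℕ) (hT : ∀ p ∈ T, p.Prime ∧ p ≠ 2) {q : ℕ} (hq : q.Prime)
    (hq2 : q ≠ 2) : ch (∏ p ∈ T, ps p) q = ∏ p ∈ T, ls p q := by
  have hqo : q % 2 = 1 := Nat.odd_iff.1 (hq.odd_of_ne_two hq2)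
  unfold ch
  rw [if_pos hqo]
  have h1 : jacobiSym (∏ p ∈ T, ps p) q = ∏ p ∈ T, jacobiSym q p := by
    induction T using Finset.induction_on with
    | empty => simp
    | insert a s ha ih =>
      rw [prod_insert ha, prod_insert ha, jacobiSym.mul_left,
        ih (fun p hp => hT p (mem_insert_of_mem hp)),
        recip (hT a (mem_insert_self a s)).1 hq (hT a (mem_insert_self a s)).2 hq2]
  rw [h1]
  unfold ls
  push_cast
  rfl

theorem ps_nonsq (T : Finset ℕ) (hT : ∀ p ∈ T, p.Prime ∧ p ≠ 2) (hne : T.Nonempty) :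
    ¬ IsSquare (∏ p ∈ T, ps p) := by
  obtain ⟨p, hp⟩ := hne
  rintro ⟨z, hz⟩
  have hpp := (hT p hp).1
  have hpi : Prime (p : ℤ) := Nat.prime_iff_prime_int.1 hpp
  rw [← mul_prod_erase T ps hp] at hz
  have hps : (p : ℤ) ∣ ps p := Dvd.intro_left _ rfl
  have h1 : (p : ℤ) ∣ z * z := by
    rw [← hz]
    exact Dvd.dvd.mul_right hps _
  have h2 : (p : ℤ) ∣ z := by
    rcases hpi.dvd_or_dvd h1 with h | h <;> exact h
  have h3 : (p : ℤ) * p ∣ ps p * ∏ x ∈ T.erase p, ps x := by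
    rw [hz]
    exact mul_dvd_mul h2 h2
  have h4 : (p : ℤ) ∣ (-1) ^ (p / 2) * ∏ x ∈ T.erase p, ps x := by
    have e : ps p * ∏ x ∈ T.erase p, ps x = p * ((-1) ^ (p / 2) * ∏ x ∈ T.erase p, ps x) := by
      unfold ps
      ring
    rw [e] at h3
    exact (mul_dvd_mul_iff_left hpi.ne_zero).1 h3
  have h5 : ∀ m : ℕ, ¬ (p : ℤ) ∣ (-1) ^ m := by
    intro m h
    rcases neg_one_pow_eq_or ℤ m with h6 | h6 <;> rw [h6] at h
    · exact hpi.not_isUnit (isUnit_of_dvd_one h)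
    · exact hpi.not_isUnit (isUnit_of_dvd_one (by simpa using h))
  have h6 : (p : ℤ) ∣ ∏ x ∈ T.erase p, ps x := (hpi.dvd_or_dvd h4).resolve_left (h5 _)
  obtain ⟨x, hx, hpx⟩ := (Prime.dvd_finsetProd_iff hpi _).1 h6
  rw [mem_erase] at hx
  unfold ps at hpx
  have h7 : (p : ℤ) ∣ (x : ℤ) := (hpi.dvd_or_dvd hpx).resolve_left (h5 _)
  have h8 : p ∣ x := by exact_mod_cast h7
  exact hx.1 ((Nat.prime_dvd_prime_iff_eq hpp (hT x hx.2).1).1 h8).symm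

/-- good orders -/
def Ok (y n : ℕ) : Prop := ∀ T ⊆ PO y, T.Nonempty → ∃ q : ℕ, q.Prime ∧ y < q ∧ q ∣ n ∧
  ¬ q ^ 2 ∣ n ∧ ∏ p ∈ T, ls p q = -1

theorem bad_one (y : ℕ) (hy : 2 ≤ y) (T : Finset ℕ) (hT : T ⊆ PO y) (hne : T.Nonempty) :
    ∃ C : ℝ, 0 < C ∧ ∀ N : ℕ, 3 ≤ N →
      (((Ioc 0 N).filter (fun n => ¬ ∃ q : ℕ, q.Prime ∧ y < q ∧ q ∣ n ∧
        ¬ q ^ 2 ∣ n ∧ ∏ p ∈ T, ls p q = -1)).card : ℝ) ≤ C * N * (Real.log N) ^ (-(1 / 4) : ℝ) := by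
  obtain ⟨C, hC, H⟩ := main (r := 1) le_rfl (1 / 4) (by norm_num) ((y : ℝ) + 1) (by positivity)
  have hT' : ∀ p ∈ T, p.Prime ∧ p ≠ 2 := fun p hp => ⟨(mem_PO (hT hp)).1, (mem_PO (hT hp)).2.1⟩
  set D : ℤ := ∏ p ∈ T, ps p with hD
  have hDn : ¬ IsSquare D := ps_nonsq T hT' hne
  set Λ : ℕ := D.natAbs + 1 with hΛ
  have hlogΛ : 0 ≤ Real.log Λ := Real.log_natCast_nonneg Λ
  have hW : 0 < (1 + Real.log Λ) ^ (1 / 2 : ℝ) := Real.rpow_pos_of_pos (by linarith) _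
  refine ⟨C * (1 + Real.log Λ) ^ (1 / 2 : ℝ), by positivity, ?_⟩
  intro N hN
  obtain ⟨hL1, -⟩ := d3_log hN
  set E := (range (y + 1)).filter Nat.Prime with hE
  have hEc : (E.card : ℝ) ≤ ((y : ℝ) + 1) * Real.log N := by
    have h1 : E.card ≤ y + 1 := by
      calc E.card ≤ (range (y + 1)).card := card_filter_le _ _
        _ = y + 1 := card_range _
    have h2 : (E.card : ℝ) ≤ (y : ℝ) + 1 := by exact_mod_cast h1
    have h3 : (0 : ℝ) ≤ (y : ℝ) + 1 := by positivity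
    nlinarith
  have h1 := H N hN Λ (by omega) (fun _ => D) (fun _ => hDn) (fun _ => by omega) 1
    (fun p hp _ _ hd => hp.one_lt.ne' (Nat.dvd_one.1 hd)) E (fun p hp => (mem_filter.1 hp).2) hEc
    (fun _ => 0) (fun p _ _ i j hij => absurd (Subsingleton.elim i j) hij) 0
  have e1 : (1 / 4 : ℝ) - ((1 : ℕ) : ℝ) / 2 = -(1 / 4) := by norm_num
  have e2 : ((1 : ℕ) : ℝ) / 2 = 1 / 2 := by norm_num
  rw [e1, e2, zero_add] at h1
  have hsub : (Ioc 0 N).filter (fun n => ¬ ∃ q : ℕ, q.Prime ∧ y < q ∧ q ∣ n ∧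
        ¬ q ^ 2 ∣ n ∧ ∏ p ∈ T, ls p q = -1) ⊆
      (Ioc 0 N).filter (Cn (fun _ : Fin 1 => D) (fun _ => 0) 1 E) := by
    intro n hn
    rw [mem_filter] at hn ⊢
    refine ⟨hn.1, ?_⟩
    intro q hq hqE i hch hX
    apply hn.2
    have hyq : y < q := by
      by_contra hcon
      push Not at hcon
      apply hqE
      rw [hE, mem_filter, mem_range]
      exact ⟨by omega, hq⟩
    have e3 : ((1 : ℕ) : ℤ) * n + 0 = n := by push_cast; ring
    rw [e3, Xc_nat] at hX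
    refine ⟨q, hq, hyq, hX.1, hX.2, ?_⟩
    rw [← ch_prod T hT' hq (by omega)]
    exact hch
  have h2 : (((Ioc 0 N).filter (fun n => ¬ ∃ q : ℕ, q.Prime ∧ y < q ∧ q ∣ n ∧
        ¬ q ^ 2 ∣ n ∧ ∏ p ∈ T, ls p q = -1)).card : ℝ) ≤
      (((Ioc 0 N).filter (Cn (fun _ : Fin 1 => D) (fun _ => 0) 1 E)).card : ℝ) := by
    exact_mod_cast card_le_card hsub
  refine h2.trans (h1.trans (le_of_eq ?_))
  ring

theorem bad_all (y : ℕ) (hy : 2 ≤ y) : ∃ C : ℝ, 0 < C ∧ ∀ N : ℕ, 3 ≤ N →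
    (((Ioc 0 N).filter (fun n => ¬ Ok y n)).card : ℝ) ≤
      C * N * (Real.log N) ^ (-(1 / 4) : ℝ) := by
  choose! C hC H using bad_one y hy
  set S := (PO y).powerset.filter (fun T => T.Nonempty) with hS
  have hSm : ∀ T ∈ S, T ⊆ PO y ∧ T.Nonempty := by
    intro T hT
    rw [hS, mem_filter, mem_powerset] at hT
    exact hT
  refine ⟨1 + ∑ T ∈ S, C T, ?_, ?_⟩
  · have : 0 ≤ ∑ T ∈ S, C T := sum_nonneg fun T hT => (hC T (hSm T hT).1 (hSm T hT).2).le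
    linarith
  intro N hN
  obtain ⟨hL1, -⟩ := d3_log hN
  have hsub : (Ioc 0 N).filter (fun n => ¬ Ok y n) ⊆
      S.biUnion (fun T => (Ioc 0 N).filter (fun n => ¬ ∃ q : ℕ, q.Prime ∧ y < q ∧ q ∣ n ∧
        ¬ q ^ 2 ∣ n ∧ ∏ p ∈ T, ls p q = -1)) := by
    intro n hn
    rw [mem_filter] at hn
    obtain ⟨hn1, hn2⟩ := hn
    unfold Ok at hn2
    push Not at hn2
    obtain ⟨T, hT1, hT2, hT3⟩ := hn2
    rw [mem_biUnion]
    refine ⟨T, ?_, ?_⟩
    · rw [hS, mem_filter, mem_powerset]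
      exact ⟨hT1, hT2⟩
    · rw [mem_filter]
      refine ⟨hn1, ?_⟩
      rintro ⟨q, h1, h2, h3, h4, h5⟩
      exact hT3 q h1 h2 h3 h4 h5
  have h1 := (card_le_card hsub).trans card_biUnion_le
  have h2 : (((Ioc 0 N).filter (fun n => ¬ Ok y n)).card : ℝ) ≤
      ∑ T ∈ S, (((Ioc 0 N).filter (fun n => ¬ ∃ q : ℕ, q.Prime ∧ y < q ∧ q ∣ n ∧
        ¬ q ^ 2 ∣ n ∧ ∏ p ∈ T, ls p q = -1)).card : ℝ) := by
    exact_mod_cast h1
  have h3 := h2.trans (sum_le_sum fun T hT => H T (hSm T hT).1 (hSm T hT).2 N hN)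
  refine h3.trans ?_
  have hN0 : (0 : ℝ) ≤ N := Nat.cast_nonneg N
  have hp : 0 ≤ (Real.log N) ^ (-(1 / 4) : ℝ) := Real.rpow_nonneg (by linarith) _
  rw [← sum_mul, ← sum_mul]
  have : (∑ T ∈ S, C T) ≤ 1 + ∑ T ∈ S, C T := by linarith
  gcongr

/-- the average -/
theorem avg_sm (y N : ℕ) : ∑ n ∈ Ioc 0 N, (3 / 4 : ℝ) ^ (Sm y n).card ≤
    N * ∏ p ∈ PO y, (1 - ((p : ℝ) - 1) / (4 * (p : ℝ) ^ 2)) + ∏ p ∈ PO y, (p : ℝ) ^ 2 := by
  set f : ℕ → ℕ → ℝ := fun p n => 1 - 1 / 4 * ind (p ∣ n ∧ ¬ p ^ 2 ∣ n) with hf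
  have hfe : ∀ n ∈ Ioc 0 N, (3 / 4 : ℝ) ^ (Sm y n).card = ∏ p ∈ PO y, f p n := by
    intro n hn
    rw [mem_Ioc] at hn
    have e1 : Sm y n = (PO y).filter (fun p => p ∣ n ∧ ¬ p ^ 2 ∣ n) := by
      ext p
      unfold Sm PO
      rw [mem_filter, mem_filter, mem_filter, mem_Ioc, Nat.mem_primeFactors]
      constructor
      · rintro ⟨⟨h1, h2, h3⟩, h4, h5, h6⟩
        have := h1.two_le
        exact ⟨⟨⟨by omega, h5⟩, h1⟩, h2, h6⟩
      · rintro ⟨⟨⟨h1, h2⟩, h3⟩, h4, h5⟩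
        exact ⟨⟨h3, h4, by omega⟩, by omega, h2, h5⟩
    have e2 : ∀ p ∈ PO y, f p n = if p ∣ n ∧ ¬ p ^ 2 ∣ n then (3 / 4 : ℝ) else 1 := by
      intro p _
      simp only [hf]
      split_ifs with h
      · rw [ind_true h]
        norm_num
      · rw [ind_false h]
        norm_num
    rw [prod_congr rfl e2, ← prod_filter, prod_const, e1]
  rw [sum_congr rfl hfe]
  have e3 : Ioc 0 N = Ico 1 (1 + N) := by
    ext n
    rw [mem_Ioc, mem_Ico]
    omega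
  rw [e3]
  have h1 := avg1 (PO y) (fun p => p ^ 2) (fun p hp => pow_pos (mem_PO hp).1.pos 2) (by
    intro p hp q hq hpq
    exact Nat.Coprime.pow 2 2 ((Nat.coprime_primes (mem_PO hp).1 (mem_PO hq).1).2 hpq)) f (by
    intro p _ n
    simp only [hf]
    have g1 := ind_nonneg (p ∣ n ∧ ¬ p ^ 2 ∣ n)
    have g2 := ind_le_one (p ∣ n ∧ ¬ p ^ 2 ∣ n)
    constructor <;> linarith) (by
    intro p _ n
    simp only [hf]
    have g1 : p ∣ n + p ^ 2 ↔ p ∣ n := Nat.dvd_add_left (dvd_pow_self p two_ne_zero)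
    have g2 : p ^ 2 ∣ n + p ^ 2 ↔ p ^ 2 ∣ n := Nat.dvd_add_left dvd_rfl
    simp only [g1, g2]) 1 N
  have h2 : ∀ p ∈ PO y, (∑ n ∈ range (p ^ 2), f p n) / ((p ^ 2 : ℕ) : ℝ) =
      1 - ((p : ℝ) - 1) / (4 * (p : ℝ) ^ 2) := by
    intro p hp
    have hpp := (mem_PO hp).1
    have hp0 : (p : ℝ) ≠ 0 := by exact_mod_cast hpp.ne_zero
    simp only [hf]
    rw [sum_sub_distrib, ← mul_sum, Pool.Agent.H177R2.SD.LocalAux.sum_exact hpp, sum_const,
      card_range, nsmul_eq_mul]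
    push_cast
    field_simp
  rw [prod_congr rfl h2] at h1
  have h3 := (abs_le.1 h1).2
  push_cast at h3
  linarith

theorem po_prod : ∃ C : ℝ, 0 < C ∧ ∀ y : ℕ, 3 ≤ y →
    ∏ p ∈ PO y, (1 - ((p : ℝ) - 1) / (4 * (p : ℝ) ^ 2)) ≤ C * (Real.log y) ^ (-(1 / 4) : ℝ) := by
  obtain ⟨Cm, hCm, hm⟩ := mert_le
  obtain ⟨Cs, hCs, hs⟩ := sum_sq_inv
  refine ⟨Real.exp (Cm + Cs + 1), Real.exp_pos _, ?_⟩
  intro y hy
  obtain ⟨hl1, -⟩ := d3_log hy
  have hl0 : 0 < Real.log y := by linarith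
  have hmy := (abs_le.1 (hm y hy)).1
  have h1 : ∏ p ∈ PO y, (1 - ((p : ℝ) - 1) / (4 * (p : ℝ) ^ 2)) ≤
      Real.exp (∑ p ∈ PO y, (-(1 / 4) * (1 / (p : ℝ)) + 1 / 4 * (1 / (p : ℝ) ^ 2))) := by
    rw [Real.exp_sum]
    apply Finset.prod_le_prod
    · intro p hp
      have hp1 : (1 : ℝ) ≤ p := by exact_mod_cast (mem_PO hp).1.one_le
      have : ((p : ℝ) - 1) / (4 * (p : ℝ) ^ 2) ≤ 1 := by
        rw [div_le_one (by positivity)]
        nlinarith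
      linarith
    · intro p hp
      have hp0 : (0 : ℝ) < p := by exact_mod_cast (mem_PO hp).1.pos
      have h2 := Real.add_one_le_exp (-(1 / 4) * (1 / (p : ℝ)) + 1 / 4 * (1 / (p : ℝ) ^ 2))
      refine le_trans (le_of_eq ?_) h2
      field_simp
      ring
  refine h1.trans ?_
  rw [sum_add_distrib, ← mul_sum, ← mul_sum]
  have h2 := hs (PO y)
  have h3 : ∑ p ∈ PI 0 y, 1 / (p : ℝ) = 1 / 2 + ∑ p ∈ PO y, 1 / (p : ℝ) := by
    have e : PI 0 y = insert 2 (PO y) := by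
      ext p
      unfold PI PO
      rw [mem_insert, mem_filter, mem_filter, mem_Ioc, mem_Ioc]
      constructor
      · rintro ⟨⟨h1, h2⟩, h3⟩
        have := h3.two_le
        rcases Nat.lt_or_ge 2 p with h | h
        · exact Or.inr ⟨⟨h, h2⟩, h3⟩
        · left
          omega
      · rintro (rfl | ⟨⟨h1, h2⟩, h3⟩)
        · exact ⟨⟨by norm_num, by omega⟩, Nat.prime_two⟩
        · exact ⟨⟨by omega, h2⟩, h3⟩
    rw [e, sum_insert]
    · norm_num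
    · unfold PO
      rw [mem_filter, mem_Ioc]
      omega
  have h4 : Real.exp (Cm + Cs + 1) * (Real.log y) ^ (-(1 / 4) : ℝ) =
      Real.exp (Cm + Cs + 1 + Real.log (Real.log y) * (-(1 / 4))) := by
    rw [Real.exp_add (Cm + Cs + 1), Real.rpow_def_of_pos hl0]
  rw [h4]
  apply Real.exp_le_exp.2
  linarith

/-- bad orders -/
def BadO (ε : ℝ) (n : ℕ) : Prop := 2 ≤ n ∧ ∃ R : Finset ℕ, (∀ l ∈ R, 1 ≤ l ∧ IsO n l) ∧
  ε * (((n * (n - 1)).divisors.card : ℕ) : ℝ) < R.card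

theorem badO_count (ε : ℝ) (hε : 0 < ε) (y : ℕ) (hy : 3 ≤ y) : ∃ C : ℝ, 0 < C ∧ ∀ N : ℕ, 3 ≤ N →
    (((Ioc 0 N).filter (BadO ε)).card : ℝ) ≤ C * N * (Real.log N) ^ (-(1 / 4) : ℝ) +
      2 / ε * (N * ∏ p ∈ PO y, (1 - ((p : ℝ) - 1) / (4 * (p : ℝ) ^ 2)) +
        ∏ p ∈ PO y, (p : ℝ) ^ 2) := by
  obtain ⟨C, hC, H⟩ := bad_all y (by omega)
  refine ⟨C, hC, ?_⟩
  intro N hN
  have h1 := H N hN
  have h2 : (((Ioc 0 N).filter (BadO ε)).card : ℝ) ≤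
      (((Ioc 0 N).filter (fun n => ¬ Ok y n)).card : ℝ) +
      ∑ n ∈ Ioc 0 N, 2 / ε * (3 / 4 : ℝ) ^ (Sm y n).card := by
    rw [← Finset.sum_boole, ← Finset.sum_boole, ← sum_add_distrib]
    apply sum_le_sum
    intro n _
    have h0 : (0 : ℝ) ≤ 2 / ε * (3 / 4 : ℝ) ^ (Sm y n).card := by positivity
    by_cases hok : Ok y n
    · rw [if_neg (not_not.2 hok), zero_add]
      by_cases hb : BadO ε n
      · rw [if_pos hb]
        obtain ⟨hn, R, hR, hlt⟩ := hb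
        have h3 := order_count (y := y) hn (by
          intro T hT hne
          have hTP : T ⊆ PO y := by
            intro p hp
            obtain ⟨g1, -, g3, g4, -⟩ := mem_Sm (hT hp)
            unfold PO
            rw [mem_filter, mem_Ioc]
            have := g1.two_le
            exact ⟨⟨by omega, g4⟩, g1⟩
          obtain ⟨q, g1, g2, g3, g4, g5⟩ := hok T hTP hne
          refine ⟨q, g1, ?_, g3, g4, g5⟩
          intro hq
          have := (mem_Sm hq).2.2.2.1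
          omega) R hR
        have hd0 : (0 : ℝ) < (((n * (n - 1)).divisors.card : ℕ) : ℝ) := by
          have : 0 < (n * (n - 1)).divisors.card := by
            rw [card_pos, Nat.nonempty_divisors]
            have : 0 < n * (n - 1) := Nat.mul_pos (by omega) (by omega)
            omega
          exact_mod_cast this
        have h4 := lt_of_lt_of_le hlt h3
        have h5 : ε < 2 * (3 / 4) ^ (Sm y n).card := lt_of_mul_lt_mul_right h4 hd0.le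
        have h6 : ε / ε ≤ 2 * (3 / 4) ^ (Sm y n).card / ε :=
          div_le_div_of_nonneg_right h5.le hε.le
        rw [div_self hε.ne'] at h6
        calc (1 : ℝ) ≤ 2 * (3 / 4) ^ (Sm y n).card / ε := h6
          _ = _ := by ring
      · rw [if_neg hb]
        exact h0
    · rw [if_pos hok]
      have : (if BadO ε n then (1 : ℝ) else 0) ≤ 1 := by
        split_ifs <;> norm_num
      linarith
  rw [← mul_sum] at h2
  have h3 := mul_le_mul_of_nonneg_left (avg_sm y N) (show 0 ≤ 2 / ε by positivity)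
  linarith

theorem typical (ε : ℝ) (hε : 0 < ε) :
    Tendsto (fun N : ℕ => (((Ioc 0 N).filter (BadO ε)).card : ℝ) / N) atTop (𝓝 0) := by
  obtain ⟨Cp, hCp, hpo⟩ := po_prod
  have hlog : Tendsto (fun N : ℕ => (Real.log N) ^ (-(1 / 4) : ℝ)) atTop (𝓝 0) :=
    (tendsto_rpow_neg_atTop (by norm_num : (0 : ℝ) < 1 / 4)).comp
      (Real.tendsto_log_atTop.comp tendsto_natCast_atTop_atTop)
  rw [Metric.tendsto_atTop]
  intro δ hδ
  have h1 : Tendsto (fun y : ℕ => 2 / ε * (Cp * (Real.log y) ^ (-(1 / 4) : ℝ))) atTop (𝓝 0) := by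
    have := (hlog.const_mul Cp).const_mul (2 / ε)
    simpa using this
  obtain ⟨y, hy1, hy3⟩ := ((h1.eventually (gt_mem_nhds (show (0 : ℝ) < δ / 2 by positivity))).and
    (eventually_ge_atTop 3)).exists
  obtain ⟨C, hC, H⟩ := badO_count ε hε y hy3
  set Pq : ℝ := ∏ p ∈ PO y, (p : ℝ) ^ 2 with hPq
  have h2 : Tendsto (fun N : ℕ => C * (Real.log N) ^ (-(1 / 4) : ℝ) + 2 / ε * Pq / N) atTop
      (𝓝 0) := by
    have g1 := hlog.const_mul C
    have g2 : Tendsto (fun N : ℕ => 2 / ε * Pq / (N : ℝ)) atTop (𝓝 0) :=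
      tendsto_const_nhds.div_atTop tendsto_natCast_atTop_atTop
    have := g1.add g2
    simpa using this
  obtain ⟨N0, hN0⟩ := eventually_atTop.1
    ((h2.eventually (gt_mem_nhds (show (0 : ℝ) < δ / 2 by positivity))).and
      (eventually_ge_atTop 3))
  refine ⟨N0, fun N hN => ?_⟩
  obtain ⟨h3, hN3⟩ := hN0 N hN
  have hNr : (0 : ℝ) < N := by
    have : 0 < N := by omega
    exact_mod_cast this
  have h4 := H N hN3
  have h5 := hpo y hy3
  rw [Real.dist_eq, sub_zero, abs_of_nonneg (by positivity), div_lt_iff₀ hNr]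
  have h6 : 2 / ε * (N * ∏ p ∈ PO y, (1 - ((p : ℝ) - 1) / (4 * (p : ℝ) ^ 2))) ≤
      (δ / 2) * N := by
    have h7 : 2 / ε * ∏ p ∈ PO y, (1 - ((p : ℝ) - 1) / (4 * (p : ℝ) ^ 2)) ≤ δ / 2 :=
      (mul_le_mul_of_nonneg_left h5 (by positivity)).trans hy1.le
    calc _ = (2 / ε * ∏ p ∈ PO y, (1 - ((p : ℝ) - 1) / (4 * (p : ℝ) ^ 2))) * N := by ring
      _ ≤ _ := mul_le_mul_of_nonneg_right h7 hNr.le
  have h8 : C * N * (Real.log N) ^ (-(1 / 4) : ℝ) + 2 / ε * Pq < δ / 2 * N := by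
    have h9 := mul_lt_mul_of_pos_right h3 hNr
    have e : (C * (Real.log N) ^ (-(1 / 4) : ℝ) + 2 / ε * Pq / N) * N =
        C * N * (Real.log N) ^ (-(1 / 4) : ℝ) + 2 / ε * Pq := by
      field_simp
    rwa [e] at h9
  have e2 : 2 / ε * (N * ∏ p ∈ PO y, (1 - ((p : ℝ) - 1) / (4 * (p : ℝ) ^ 2)) + Pq) =
      2 / ε * (N * ∏ p ∈ PO y, (1 - ((p : ℝ) - 1) / (4 * (p : ℝ) ^ 2))) + 2 / ε * Pq := by ring
  rw [e2] at h4
  linarith

end Pool.Agent.U646.HC
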