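import Pool.Agent.U646.HC.Q2

set_option autoImplicit false

/-!
# Typical orders, with a rate
-/

namespace Pool.Agent.U646.HC

open Finset Filter Topology
open Pool.Agent.H951R4.OD (ch PI mert_le d3_log sum_sq_inv)
open scoped Classical

theorem natAbs_prod (T : Finset ℕ) : (∏ p ∈ T, ps p).natAbs = ∏ p ∈ T, p := by
  induction T using Finset.induction_on with
  | empty => simp
  | insert a s ha ih =>
    rw [prod_insert ha, prod_insert ha, Int.natAbs_mul, ih]
    congr 1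
    unfold ps
    rw [Int.natAbs_mul, Int.natAbs_pow]
    simp

/-- no suitable prime -/
def NoQ (y : ℕ) (T : Finset ℕ) (n : ℕ) : Prop := ¬ ∃ q : ℕ, q.Prime ∧ y < q ∧ q ∣ n ∧
  ¬ q ^ 2 ∣ n ∧ ∏ p ∈ T, ls p q = -1

theorem prod_dvd_of {T : Finset ℕ} (hT : ∀ p ∈ T, p.Prime) {n : ℕ} (h : ∀ p ∈ T, p ∣ n) :
    ∏ p ∈ T, p ∣ n := Finset.prod_primes_dvd n (fun p hp => (hT p hp).prime) h

theorem bad_T : ∃ C : ℝ, 0 < C ∧ ∀ N y : ℕ, 256 ≤ Real.log N → 3 ≤ y →
    (y : ℝ) ≤ (Real.log N) ^ (1 / 4 : ℝ) → ∀ T ⊆ PO y, T.Nonempty →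
      (((Ioc 0 N).filter (fun n => (∀ p ∈ T, p ∣ n) ∧ NoQ y T n)).card : ℝ) ≤
        C * N * (Real.log N) ^ (-(3 / 16) : ℝ) * ∏ p ∈ T, (1 / (p : ℝ)) := by
  obtain ⟨C, hC, H⟩ := main (r := 1) le_rfl (1 / 16) (by norm_num) 4 (by norm_num)
  refine ⟨4 * C, by positivity, ?_⟩
  intro N y hL hy hyL T hT hne
  set L := Real.log N with hLd
  have hL0 : 0 < L := by linarith
  have hL1 : 1 ≤ L := by linarith
  have hN0 : (0 : ℝ) < N := by
    by_contra hcon
    push Not at hcon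
    have : (N : ℝ) = 0 := le_antisymm hcon (Nat.cast_nonneg N)
    rw [hLd, this, Real.log_zero] at hL
    linarith
  have hT' : ∀ p ∈ T, p.Prime ∧ p ≠ 2 := fun p hp => ⟨(mem_PO (hT hp)).1, (mem_PO (hT hp)).2.1⟩
  set M := ∏ p ∈ T, p with hM
  have hM0 : 0 < M := Finset.prod_pos fun p hp => (hT' p hp).1.pos
  have hMr : (0 : ℝ) < M := by exact_mod_cast hM0
  have hy0 : (0 : ℝ) < y := by
    have : 0 < y := by omega
    exact_mod_cast this
  have hy1 : (1 : ℝ) ≤ y := by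
    have : 1 ≤ y := by omega
    exact_mod_cast this
  -- the size of `M`
  have hlogM : Real.log M ≤ L ^ (1 / 2 : ℝ) := by
    have h1 : M ≤ y ^ y := by
      calc M ≤ ∏ _p ∈ T, y := Finset.prod_le_prod' fun p hp => (mem_PO (hT hp)).2.2
        _ = y ^ T.card := by rw [prod_const]
        _ ≤ y ^ y := by
          apply Nat.pow_le_pow_right (by omega)
          calc T.card ≤ (PO y).card := card_le_card hT
            _ ≤ (Ioc 2 y).card := card_filter_le _ _
            _ ≤ y := by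
              rw [Nat.card_Ioc]
              omega
    have h2 : Real.log M ≤ y * Real.log y := by
      have h3 := Real.log_le_log hMr (show (M : ℝ) ≤ (y : ℝ) ^ y by exact_mod_cast h1)
      rwa [Real.log_pow] at h3
    have h3 : Real.log y ≤ y := by
      have := Real.log_le_sub_one_of_pos hy0
      linarith
    have h4 : 0 ≤ Real.log y := Real.log_nonneg hy1
    calc Real.log M ≤ y * Real.log y := h2
      _ ≤ L ^ (1 / 4 : ℝ) * L ^ (1 / 4 : ℝ) := by
          apply mul_le_mul hyL (h3.trans hyL) h4 (by positivity)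
      _ = L ^ (1 / 2 : ℝ) := by
          rw [← Real.rpow_add hL0]
          norm_num
  have hsqrt : 4 * L ^ (1 / 2 : ℝ) ≤ L := by
    have h1 : (16 : ℝ) ≤ L ^ (1 / 2 : ℝ) := by
      calc (16 : ℝ) = (256 : ℝ) ^ (1 / 2 : ℝ) := by
            rw [show (256 : ℝ) = 16 ^ (2 : ℝ) by norm_num, ← Real.rpow_mul (by norm_num)]
            norm_num
        _ ≤ L ^ (1 / 2 : ℝ) := Real.rpow_le_rpow (by norm_num) hL (by norm_num)
    have h2 : L ^ (1 / 2 : ℝ) * L ^ (1 / 2 : ℝ) = L := by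
      rw [← Real.rpow_add hL0]
      norm_num
    nlinarith
  set N' := N / M with hN'
  have hN'le : (N' : ℝ) ≤ N * (1 / M) := by
    have : ((N / M : ℕ) : ℝ) ≤ N / M := Nat.cast_div_le
    rw [hN']
    calc _ ≤ (N : ℝ) / M := this
      _ = _ := by ring
  have hMexp : (M : ℝ) ≤ Real.exp (L / 4) := by
    rw [← Real.exp_log hMr]
    exact Real.exp_le_exp.2 (by linarith)
  have hNexp : (N : ℝ) = Real.exp L := (Real.exp_log hN0).symm
  have hN'ge : Real.exp (L / 2) ≤ N' := by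
    have h1 : N < M * (N / M + 1) := Nat.lt_mul_div_succ N hM0
    have h2 : (N : ℝ) ≤ M * (N' + 1) := by exact_mod_cast h1.le
    have h3 : Real.exp L = Real.exp (L / 4) * (Real.exp (L / 2) * Real.exp (L / 4)) := by
      rw [← Real.exp_add, ← Real.exp_add]
      ring_nf
    have h4 : (2 : ℝ) ≤ Real.exp (L / 4) := by
      have := Real.add_one_le_exp (L / 4)
      linarith
    have h5 : (0 : ℝ) ≤ (N' : ℝ) + 1 := by positivity
    have h6 : Real.exp (L / 4) * (Real.exp (L / 2) * Real.exp (L / 4)) ≤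
        Real.exp (L / 4) * (N' + 1) := by
      rw [← h3, ← hNexp]
      exact h2.trans (mul_le_mul_of_nonneg_right hMexp h5)
    have h7 : Real.exp (L / 2) * Real.exp (L / 4) ≤ N' + 1 :=
      le_of_mul_le_mul_left h6 (Real.exp_pos _)
    have h8 : (1 : ℝ) ≤ Real.exp (L / 2) := Real.one_le_exp (by linarith)
    nlinarith
  have hlogN' : L / 2 ≤ Real.log N' := by
    have := Real.log_le_log (Real.exp_pos _) hN'ge
    rwa [Real.log_exp] at this
  have hN'3 : 3 ≤ N' := by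
    have h1 := Real.add_one_le_exp (L / 2)
    have h2 : (3 : ℝ) ≤ N' := by linarith
    exact_mod_cast h2
  set D : ℤ := ∏ p ∈ T, ps p with hD
  have hDn : ¬ IsSquare D := ps_nonsq T hT' hne
  set E := (range (y + 1)).filter Nat.Prime with hE
  have hyL' : (y : ℝ) ≤ L := by
    refine hyL.trans ?_
    calc L ^ (1 / 4 : ℝ) ≤ L ^ (1 : ℝ) := Real.rpow_le_rpow_of_exponent_le hL1 (by norm_num)
      _ = L := Real.rpow_one _
  have hEc : (E.card : ℝ) ≤ 4 * Real.log N' := by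
    have h1 : E.card ≤ y + 1 := by
      calc E.card ≤ (range (y + 1)).card := card_filter_le _ _
        _ = y + 1 := card_range _
    have h2 : (E.card : ℝ) ≤ (y : ℝ) + 1 := by exact_mod_cast h1
    linarith
  have h1 := H N' hN'3 M hM0 (fun _ => D) (fun _ => hDn) (fun _ => by
    rw [hD, natAbs_prod]) 1
    (fun p hp _ _ hd => hp.one_lt.ne' (Nat.dvd_one.1 hd)) E (fun p hp => (mem_filter.1 hp).2) hEc
    (fun _ => 0) (fun p _ _ i j hij => absurd (Subsingleton.elim i j) hij) 0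
  have e1 : (1 / 16 : ℝ) - ((1 : ℕ) : ℝ) / 2 = -(7 / 16) := by norm_num
  have e2 : ((1 : ℕ) : ℝ) / 2 = 1 / 2 := by norm_num
  rw [e1, e2, zero_add] at h1
  have hsub : (Ioc 0 N).filter (fun n => (∀ p ∈ T, p ∣ n) ∧ NoQ y T n) ⊆
      ((Ioc 0 N').filter (Cn (fun _ : Fin 1 => D) (fun _ => 0) 1 E)).image (fun m => M * m) := by
    intro n hn
    rw [mem_filter, mem_Ioc] at hn
    obtain ⟨⟨hn1, hn2⟩, hn3, hn4⟩ := hn
    obtain ⟨m, hm⟩ := prod_dvd_of (fun p hp => (hT' p hp).1) hn3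
    rw [← hM] at hm
    rw [mem_image]
    refine ⟨m, ?_, hm.symm⟩
    rw [mem_filter, mem_Ioc]
    refine ⟨⟨?_, ?_⟩, ?_⟩
    · rcases Nat.eq_zero_or_pos m with h | h
      · rw [h, mul_zero] at hm
        omega
      · exact h
    · rw [hN', Nat.le_div_iff_mul_le hM0, mul_comm, ← hm]
      exact hn2
    · intro q hq hqE i hch hX
      apply hn4
      have hyq : y < q := by
        by_contra hcon
        push Not at hcon
        apply hqE
        rw [hE, mem_filter, mem_range]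
        exact ⟨by omega, hq⟩
      have e3 : ((1 : ℕ) : ℤ) * m + 0 = m := by push_cast; ring
      rw [e3, Xc_nat] at hX
      have hqM : Nat.Coprime (q ^ 2) M := by
        apply Nat.Coprime.pow_left
        rw [hM]
        apply Nat.Coprime.prod_right
        intro p hp
        apply (Nat.coprime_primes hq (hT' p hp).1).2
        have := (mem_PO (hT hp)).2.2
        omega
      refine ⟨q, hq, hyq, ?_, ?_, ?_⟩
      · rw [hm]
        exact Dvd.dvd.mul_left hX.1 M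
      · rw [hm]
        intro h
        exact hX.2 (Nat.Coprime.dvd_of_dvd_mul_left hqM h)
      · rw [← ch_prod T hT' hq (by omega)]
        exact hch
  have h2 : (((Ioc 0 N).filter (fun n => (∀ p ∈ T, p ∣ n) ∧ NoQ y T n)).card : ℝ) ≤
      (((Ioc 0 N').filter (Cn (fun _ : Fin 1 => D) (fun _ => 0) 1 E)).card : ℝ) := by
    exact_mod_cast (card_le_card hsub).trans card_image_le
  refine h2.trans (h1.trans ?_)
  have h3 : (1 + Real.log M) ^ (1 / 2 : ℝ) ≤ 2 * L ^ (1 / 4 : ℝ) := by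
    have g0 : 0 ≤ Real.log M := Real.log_natCast_nonneg M
    have g1 : 1 ≤ L ^ (1 / 2 : ℝ) := Real.one_le_rpow hL1 (by norm_num)
    calc (1 + Real.log M) ^ (1 / 2 : ℝ) ≤ (4 * L ^ (1 / 2 : ℝ)) ^ (1 / 2 : ℝ) :=
          Real.rpow_le_rpow (by linarith) (by linarith) (by norm_num)
      _ = 2 * L ^ (1 / 4 : ℝ) := by
          rw [Real.mul_rpow (by norm_num) (by positivity), ← Real.rpow_mul hL0.le]
          congr 1
          · rw [show (4 : ℝ) = 2 ^ (2 : ℝ) by norm_num, ← Real.rpow_mul (by norm_num)]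
            norm_num
          · norm_num
  have h4 : (Real.log N') ^ (-(7 / 16) : ℝ) ≤ 2 * L ^ (-(7 / 16) : ℝ) := by
    calc (Real.log N') ^ (-(7 / 16) : ℝ) ≤ (L / 2) ^ (-(7 / 16) : ℝ) :=
          Real.rpow_le_rpow_of_nonpos (by positivity) hlogN' (by norm_num)
      _ = L ^ (-(7 / 16) : ℝ) * 2 ^ (7 / 16 : ℝ) := by
          rw [Real.div_rpow hL0.le (by norm_num), div_eq_mul_inv, ← Real.rpow_neg (by norm_num)]
          norm_num
      _ ≤ L ^ (-(7 / 16) : ℝ) * 2 := by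
          apply mul_le_mul_of_nonneg_left _ (by positivity)
          calc (2 : ℝ) ^ (7 / 16 : ℝ) ≤ 2 ^ (1 : ℝ) :=
                Real.rpow_le_rpow_of_exponent_le (by norm_num) (by norm_num)
            _ = 2 := Real.rpow_one _
      _ = _ := by ring
  have e5 : ∏ p ∈ T, (1 / (p : ℝ)) = 1 / M := by
    rw [hM, prod_div_distrib, prod_const_one]
    push_cast
    rfl
  have e6 : L ^ (1 / 4 : ℝ) * L ^ (-(7 / 16) : ℝ) = L ^ (-(3 / 16) : ℝ) := by
    rw [← Real.rpow_add hL0]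
    norm_num
  rw [e5]
  have g0 : 0 ≤ Real.log M := Real.log_natCast_nonneg M
  have g2 : 0 ≤ (1 + Real.log M) ^ (1 / 2 : ℝ) := Real.rpow_nonneg (by linarith) _
  have g3 : 0 ≤ (Real.log N') ^ (-(7 / 16) : ℝ) := Real.rpow_nonneg (by linarith) _
  calc C * N' * (1 + Real.log M) ^ (1 / 2 : ℝ) * (Real.log N') ^ (-(7 / 16) : ℝ)
      ≤ C * (N * (1 / M)) * (2 * L ^ (1 / 4 : ℝ)) * (2 * L ^ (-(7 / 16) : ℝ)) := by
        gcongr
    _ = 4 * C * N * (L ^ (1 / 4 : ℝ) * L ^ (-(7 / 16) : ℝ)) * (1 / M) := by ring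
    _ = _ := by rw [e6]

/-- good orders -/
def Ok2 (y n : ℕ) : Prop := ∀ T ⊆ Sm y n, T.Nonempty → ∃ q : ℕ, q.Prime ∧ y < q ∧ q ∣ n ∧
  ¬ q ^ 2 ∣ n ∧ ∏ p ∈ T, ls p q = -1

theorem sm_sub (y n : ℕ) : Sm y n ⊆ PO y := by
  intro p hp
  obtain ⟨g1, -, g3, g4, -⟩ := mem_Sm hp
  unfold PO
  rw [mem_filter, mem_Ioc]
  have := g1.two_le
  exact ⟨⟨by omega, g4⟩, g1⟩

theorem bad2_all : ∃ C : ℝ, 0 < C ∧ ∀ N y : ℕ, 256 ≤ Real.log N → 3 ≤ y →
    (y : ℝ) ≤ (Real.log N) ^ (1 / 4 : ℝ) →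
    (((Ioc 0 N).filter (fun n => ¬ Ok2 y n)).card : ℝ) ≤
      C * N * (Real.log N) ^ (-(1 / 8) : ℝ) := by
  obtain ⟨C, hC, H⟩ := bad_T
  obtain ⟨Cm, hCm, hm⟩ := mert_le
  refine ⟨16 * C * Real.exp Cm, by positivity, ?_⟩
  intro N y hL hy hyL
  set L := Real.log N with hLd
  have hL0 : 0 < L := by linarith
  have hL1 : 1 ≤ L := by linarith
  have hN0 : (0 : ℝ) ≤ N := Nat.cast_nonneg N
  set S := (PO y).powerset.filter (fun T => T.Nonempty) with hS
  have hSm : ∀ T ∈ S, T ⊆ PO y ∧ T.Nonempty := by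
    intro T hT
    rw [hS, mem_filter, mem_powerset] at hT
    exact hT
  have hsub : (Ioc 0 N).filter (fun n => ¬ Ok2 y n) ⊆
      S.biUnion (fun T => (Ioc 0 N).filter (fun n => (∀ p ∈ T, p ∣ n) ∧ NoQ y T n)) := by
    intro n hn
    rw [mem_filter] at hn
    obtain ⟨hn1, hn2⟩ := hn
    unfold Ok2 at hn2
    push Not at hn2
    obtain ⟨T, hT1, hT2, hT3⟩ := hn2
    rw [mem_biUnion]
    refine ⟨T, ?_, ?_⟩
    · rw [hS, mem_filter, mem_powerset]
      exact ⟨hT1.trans (sm_sub y n), hT2⟩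
    · rw [mem_filter]
      refine ⟨hn1, fun p hp => (mem_Sm (hT1 hp)).2.1, ?_⟩
      rintro ⟨q, h1, h2, h3, h4, h5⟩
      exact hT3 q h1 h2 h3 h4 h5
  have h1 := (card_le_card hsub).trans card_biUnion_le
  have h2 : (((Ioc 0 N).filter (fun n => ¬ Ok2 y n)).card : ℝ) ≤
      ∑ T ∈ S, (((Ioc 0 N).filter (fun n => (∀ p ∈ T, p ∣ n) ∧ NoQ y T n)).card : ℝ) := by
    exact_mod_cast h1
  have h3 := h2.trans (sum_le_sum fun T hT => H N y hL hy hyL T (hSm T hT).1 (hSm T hT).2)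
  rw [← hLd] at h3
  have hp : 0 ≤ L ^ (-(3 / 16) : ℝ) := Real.rpow_nonneg hL0.le _
  have h4 : ∑ T ∈ S, ∏ p ∈ T, (1 / (p : ℝ)) ≤ Real.exp Cm * Real.log y := by
    have hly : 0 < Real.log y := by
      have := (d3_log hy).1
      linarith
    calc ∑ T ∈ S, ∏ p ∈ T, (1 / (p : ℝ)) ≤ ∑ T ∈ (PO y).powerset, ∏ p ∈ T, (1 / (p : ℝ)) :=
          sum_le_sum_of_subset_of_nonneg (filter_subset _ _)
            fun T _ _ => prod_nonneg fun p _ => by positivity
      _ = ∏ p ∈ PO y, (1 + 1 / (p : ℝ)) := by rw [prod_one_add]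
      _ ≤ Real.exp (∑ p ∈ PO y, 1 / (p : ℝ)) := by
          rw [Real.exp_sum]
          apply Finset.prod_le_prod
          · intro p _
            positivity
          · intro p _
            have := Real.add_one_le_exp (1 / (p : ℝ))
            linarith
      _ ≤ Real.exp (Cm + Real.log (Real.log y)) := by
          apply Real.exp_le_exp.2
          have g1 := (abs_le.1 (hm y hy)).2
          have g2 : ∑ p ∈ PO y, 1 / (p : ℝ) ≤ ∑ p ∈ PI 0 y, 1 / (p : ℝ) := by
            apply sum_le_sum_of_subset_of_nonneg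
            · intro p hp
              obtain ⟨k1, -, k3⟩ := mem_PO hp
              unfold PI
              rw [mem_filter, mem_Ioc]
              exact ⟨⟨k1.pos, k3⟩, k1⟩
            · intro p _ _
              positivity
          linarith
      _ = Real.exp Cm * Real.log y := by rw [Real.exp_add, Real.exp_log hly]
  have hly2 : Real.log y ≤ 4 * L ^ (1 / 16 : ℝ) := by
    have hy0 : (0 : ℝ) < y := by
      have : 0 < y := by omega
      exact_mod_cast this
    have g1 := Real.log_le_log hy0 hyL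
    rw [Real.log_rpow hL0] at g1
    have g2 := Real.log_le_rpow_div hL0.le (show (0 : ℝ) < 1 / 16 by norm_num)
    have g3 : L ^ (1 / 16 : ℝ) / (1 / 16) = 16 * L ^ (1 / 16 : ℝ) := by ring
    rw [g3] at g2
    linarith
  rw [← mul_sum] at h3
  have e6 : L ^ (-(3 / 16) : ℝ) * L ^ (1 / 16 : ℝ) = L ^ (-(1 / 8) : ℝ) := by
    rw [← Real.rpow_add hL0]
    norm_num
  have h5 : 0 ≤ L ^ (-(1 / 8) : ℝ) := Real.rpow_nonneg hL0.le _
  refine h3.trans ?_
  calc C * N * L ^ (-(3 / 16) : ℝ) * ∑ T ∈ S, ∏ p ∈ T, (1 / (p : ℝ))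
      ≤ C * N * L ^ (-(3 / 16) : ℝ) * (Real.exp Cm * (4 * L ^ (1 / 16 : ℝ))) := by
        apply mul_le_mul_of_nonneg_left _ (by positivity)
        exact h4.trans (mul_le_mul_of_nonneg_left hly2 (Real.exp_pos _).le)
    _ = 4 * C * Real.exp Cm * N * (L ^ (-(3 / 16) : ℝ) * L ^ (1 / 16 : ℝ)) := by ring
    _ = 4 * (C * Real.exp Cm * N * L ^ (-(1 / 8) : ℝ)) := by rw [e6]; ring
    _ ≤ 16 * (C * Real.exp Cm * N * L ^ (-(1 / 8) : ℝ)) := by
        have : 0 ≤ C * Real.exp Cm * N * L ^ (-(1 / 8) : ℝ) := by positivity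
        linarith
    _ = _ := by ring

end Pool.Agent.U646.HC
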